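import Pool.Agent.Helper49.RC.CellT

/-!
# Project RC, SHARP: records of certificates

`Rec`: the integer data of a certificate (over `10^5`, alignments over `1000`) and the square certificates of its static
conditions. `Rec.cb`: the base functions; `Rec.ok`: the kernel check; `Rec.okS`: the static conditions `CB.Ok`;
`Rec.stat`: `Stat` of the certificate; `Rec.lo`: helper95's `Lo` (degree 12).
-/

set_option autoImplicit false

open MeasureTheory Set Filter Metric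

namespace Helper49.Cell

open Helper49.LT hiding sg
open Helper49.Sharp
open Helper56.RC (fc)
open Helper56.SH (Stat)
open Helper76.RC.TPoly Helper54.RC.Fast Helper76.RC.ExpF Helper76.RC.TrD
open Helper87.RC (BM)
open Helper95.RC (Sup)
open Helper95.SH (Lo)
open Helper41.SH (IA inv)

/-! ### real trigonometric polynomials with the even harmonics `2, 4, …` -/

/-- the data of `Dt` -/
def toD : List (ℤ × ℤ) → List (ℤ × ℤ)
  | [] => []
  | p :: l => (0, 0) :: (p.1, Int.neg p.2) :: toD l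

theorem DA_toD (j : ℕ) (l : List (ℤ × ℤ)) (t : ℝ) :
    DA (2 * j + 1) (toD l) t = (zA (2 * j + 2) l t).re := by
  induction l generalizing j with
  | nil => simp [toD, DA, zA]
  | cons p l ih =>
    have e2 : ((Int.neg p.2 : ℤ) : ℝ) = -(p.2 : ℝ) := by
      have : (Int.neg p.2 : ℤ) = -p.2 := rfl
      rw [this]; push_cast; rfl
    have e3 := ih (j + 1)
    have e4 : 2 * (j + 1) + 1 = 2 * j + 1 + 1 + 1 := by ring
    have e5 : (2 * ((j + 1 : ℕ) : ℤ) + 2) = 2 * (j : ℤ) + 2 + 2 := by push_cast; ring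
    rw [e4, e5] at e3
    simp only [toD, DA, zA, e2, e3]
    rw [Complex.add_re]
    have e6 : (((p.1 : ℂ) + Complex.I * (p.2 : ℂ)) * ee (((2 * (j : ℤ) + 2 : ℤ) : ℝ) * t)).re =
        p.1 * Real.cos (((2 * j + 1 + 1 : ℕ) : ℝ) * t) - p.2 * Real.sin (((2 * j + 1 + 1 : ℕ) : ℝ) * t) := by
      rw [show ((2 * (j : ℤ) + 2 : ℤ) : ℝ) * t = ((2 * j + 1 + 1 : ℕ) : ℝ) * t by push_cast; ring]
      have c1 : (ee (((2 * j + 1 + 1 : ℕ) : ℝ) * t)).re = Real.cos (((2 * j + 1 + 1 : ℕ) : ℝ) * t) := ee_re _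
      have c2 : (ee (((2 * j + 1 + 1 : ℕ) : ℝ) * t)).im = Real.sin (((2 * j + 1 + 1 : ℕ) : ℝ) * t) := ee_im _
      rw [Complex.mul_re, c1, c2]
      simp
    rw [e6]
    push_cast
    ring

/-- the function `(c + Re ∑ c_m e^{imt}) / Q` -/
noncomputable def bV (Q : ℕ) (c : ℤ) (l : List (ℤ × ℤ)) (t : ℝ) : ℝ := (c : ℝ) / Q + Dt Q (toD l) t

theorem bV_eq (Q : ℕ) (c : ℤ) (l : List (ℤ × ℤ)) (t : ℝ) : bV Q c l t = (c + (zA 2 l t).re) / Q := by
  unfold bV Dt
  have := DA_toD 0 l t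
  simp only [Nat.cast_zero, mul_zero, zero_add] at this
  rw [this]
  ring

theorem continuous_bV (Q : ℕ) (c : ℤ) (l : List (ℤ × ℤ)) : Continuous (bV Q c l) :=
  continuous_const.add (continuous_Dt Q (toD l))

/-- the coefficients -/
theorem fc_bV (Q : ℕ) (c : ℤ) (l : List (ℤ × ℤ)) (n : ℤ) : fc (fun t => (bV Q c l t : ℂ)) n =
    (2 * (if n = 0 then (c : ℂ) else 0) + zi (cA 2 l n) + (starRingEnd ℂ) (zi (cA 2 l (-n)))) / (2 * Q) := by
  obtain ⟨C, hC⟩ := bm_zA 2 l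
  have e : (fun t => (bV Q c l t : ℂ)) =
      fun t => (1 / (2 * Q : ℂ)) * (((2 * c : ℂ) * 1 + zA 2 l t) + (starRingEnd ℂ) (zA 2 l t)) := by
    funext t
    rw [bV_eq]
    have := Complex.add_conj (zA 2 l t)
    rw [add_assoc, this]
    push_cast
    ring
  have b1 : BM (fun _ : ℝ => (1 : ℂ)) 1 := ⟨measurable_const, fun t => by simp⟩
  rw [e, Helper87.RC.fc_cmul, Helper87.RC.fc_add ((b1.cmul (2 * c : ℂ)).add hC) hC.conj, Helper87.RC.fc_add (b1.cmul (2 * c : ℂ)) hC,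
    Helper87.RC.fc_conj, Helper87.RC.fc_cmul, Pool.Agent.Helper20.RC.fc_one, fc_zA, fc_zA]
  split_ifs <;> ring

/-! ### records -/

/-- THE DATA OF A CERTIFICATE, integers over `10^5` if nothing else is said -/
structure Rec where
  /-- `eta = e1 + i e2` -/
  e1 : ℤ
  e2 : ℤ
  /-- shift `-d - k sin (3 φ + α)`, `e^{iα} = (pc + i ps) / ph` (integers) -/
  d : ℤ
  k : ℤ
  pc : ℤ
  ps : ℤ
  ph : ℤ
  nu : ℤ
  mu1 : ℤ
  mu2 : ℤ
  lam : ℤ
  h0 : ℤ
  cs : ℤ
  m : ℤ
  /-- `z0`: the coefficients of the frequencies `-11, -9, …, 11` (12 entries) -/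
  z : List (ℤ × ℤ)
  /-- `b2_0 = c_0 + Re ∑ c_m e^{imt}`, `m = 2, 4, …` -/
  b20 : ℤ
  b2 : List (ℤ × ℤ)
  b30 : ℤ
  b3 : List (ℤ × ℤ)
  /-- `D_j` over `1000`, entry `k` (`k = 1, 2, …`) is `(c_k, s_k)`: `D_j = ∑ c_k cos (k x) + s_k sin (k x)` -/
  D1 : List (ℤ × ℤ)
  D2 : List (ℤ × ℤ)
  /-- the fields of the second multiplier and the polynomial `Q` -/
  f1 : List (ℤ × ℤ)
  f2 : List (ℤ × ℤ)
  q : List ℤ

/-- square certificates of the static conditions -/
structure Crt where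
  b : ℕ
  r : ℕ
  K : ℕ
  /-- error of the check of `z0` (over `10^10`) -/
  δz : ℕ
  /-- error of the other checks -/
  δ : ℕ
  qz : FP
  q2l : FP
  q2u : FP
  q3l : FP
  q3u : FP
  s1 : ℕ
  qD1 : FP
  s2 : ℕ
  qD2 : FP

/-- `∑ (|c_k| + |s_k|)` -/
def l1P : List (ℤ × ℤ) → ℕ
  | [] => 0
  | p :: l => p.1.natAbs + p.2.natAbs + l1P l

theorem DA_le (k : ℕ) (l : List (ℤ × ℤ)) (t : ℝ) : |DA k l t| ≤ l1P l := by
  induction l generalizing k with
  | nil => simp [DA, l1P]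
  | cons p l ih =>
    have h := ih (k + 1)
    have a1 : |(p.1 : ℝ) * Real.cos (k * t)| ≤ |(p.1 : ℝ)| := by
      rw [abs_mul]
      exact mul_le_of_le_one_right (abs_nonneg _) (Real.abs_cos_le_one _)
    have a2 : |(p.2 : ℝ) * Real.sin (k * t)| ≤ |(p.2 : ℝ)| := by
      rw [abs_mul]
      exact mul_le_of_le_one_right (abs_nonneg _) (Real.abs_sin_le_one _)
    have a3 : ((p.1.natAbs : ℕ) : ℝ) = |(p.1 : ℝ)| := by rw [Nat.cast_natAbs]; push_cast; rfl
    have a4 : ((p.2.natAbs : ℕ) : ℝ) = |(p.2 : ℝ)| := by rw [Nat.cast_natAbs]; push_cast; rfl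
    simp only [DA, l1P]
    push_cast
    rw [a3, a4]
    have b1 := abs_add_le ((p.1 : ℝ) * Real.cos (k * t) + (p.2 : ℝ) * Real.sin (k * t)) (DA (k + 1) l t)
    have b2 := abs_add_le ((p.1 : ℝ) * Real.cos (k * t)) ((p.2 : ℝ) * Real.sin (k * t))
    linarith

namespace Rec

variable (R : Rec)

/-- the base functions and the numbers -/
noncomputable def cb : CB where
  eta := ((R.e1 : ℂ) + Complex.I * (R.e2 : ℂ)) / 100000
  z0 := fun t => zA (-11) R.z t / 100000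
  b2 := bV 100000 R.b20 R.b2
  b3 := bV 100000 R.b30 R.b3
  T1 := Th 1000 R.D1
  T1' := Th' 1000 R.D1
  T2 := Th 1000 R.D2
  T2' := Th' 1000 R.D2
  rho := 1 + ((l1P (der 1 R.D1) : ℝ) + l1P (der 1 R.D2)) / 1000
  d := (R.d : ℝ) / 100000
  k := (R.k : ℝ) / 100000
  ph := Real.pi + ((R.pc : ℂ) + Complex.I * (R.ps : ℂ)).arg
  nu := (R.nu : ℝ) / 100000
  lam := (R.lam : ℝ) / 100000
  pr2 := 6
  h0 := (R.h0 : ℝ) / 100000
  cs := (R.cs : ℝ) / 100000
  m := (R.m : ℝ) / 100000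
  al := 17 / 20
  be := 4 / 5
  p2 := 1
  p3 := 3 / 2

/-- the certificate -/
noncomputable def par : Helper49.Sharp.Par := R.cb.par

/-- arithmetic conditions -/
def okA : Bool :=
  decide (16 * (R.e1 * R.e1 + R.e2 * R.e2) ≤ 10000000000 ∧ R.d.natAbs + R.k.natAbs ≤ 100000 ∧ 0 < R.nu ∧ R.lam ≤ R.m ∧
    R.m ≤ 100000 ∧ 4 * (R.e1 * R.e1 + R.e2 * R.e2) ≤ (100000 - R.m) * (100000 - R.m) ∧ 0 < R.ph ∧
    R.pc * R.pc + R.ps * R.ps = R.ph * R.ph)

/-- `0 ≤ y / 2 ± Q Dt` for `y ≥ δ` -/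
def okH (C : Crt) (y : ℤ) (sg : Bool) (l : List (ℤ × ℤ)) (q : FP) : Bool :=
  bif decide ((C.δ : ℤ) ≤ y) then okG C.b C.r C.K C.δ (y - C.δ).toNat sg l q else false

theorem okH_sound (C : Crt) (y : ℤ) (sg : Bool) (l : List (ℤ × ℤ)) (q : FP) (h : okH C y sg l q = true) (t : ℝ) :
    0 ≤ (y : ℝ) + (if sg = true then 1 else -1) * (2 * 100000 * Dt 100000 l t) := by
  unfold okH at h
  rw [bif_iff] at h
  obtain ⟨h1, h2⟩ := h
  have h1 : (C.δ : ℤ) ≤ y := of_decide_eq_true h1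
  have h3 := okG_sound C.b C.r C.K C.δ (y - C.δ).toNat 100000 (by norm_num) sg l q h2 t
  have h4 : (((y - C.δ).toNat : ℕ) : ℝ) = (y : ℝ) - C.δ := by
    have : (((y - C.δ).toNat : ℕ) : ℤ) = y - C.δ := Int.toNat_of_nonneg (by omega)
    have h5 : ((((y - C.δ).toNat : ℕ) : ℤ) : ℝ) = ((y - C.δ : ℤ) : ℝ) := by rw [this]
    push_cast at h5
    exact h5
  rw [h4] at h3
  push_cast at h3
  linarith

/-- **the kernel check of the static conditions** -/
def ok (C : Crt) : Bool :=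
  bif Nat.ble C.r (Nat.succ C.b) then
    bif R.okA then
      bif okZ C.b C.r C.K C.δz 100000 R.z C.qz then
        bif okH C (2 * (R.b20 + 1800)) true (toD R.b2) C.q2l then
          bif okH C (2 * (3600 - R.b20)) false (toD R.b2) C.q2u then
            bif okH C (2 * (5600 + R.b30)) true (toD R.b3) C.q3l then
              bif okH C (2 * (5600 - R.b30)) false (toD R.b3) C.q3u then
                bif Nat.ble (Nat.succ C.δ) C.s1 then
                  bif Nat.ble (Nat.succ C.δ) C.s2 then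
                    bif okLo C.b C.r C.K 1000 C.s1 C.δ R.D1 C.qD1 then
                      okLo C.b C.r C.K 1000 C.s2 C.δ R.D2 C.qD2
                    else false
                  else false
                else false
              else false
            else false
          else false
        else false
      else false
    else false
  else false

variable {R}

/-- **soundness of the check**; the box is the one of link (4) (helper43) -/
theorem ok_sound {C : Crt} (h : R.ok C = true) :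
    R.cb.Ok (-(18 / 1000)) (36 / 1000) (33903 / 1048576) := by
  unfold ok at h
  simp only [bif_iff] at h
  obtain ⟨h0, hA, hz, h2l, h2u, h3l, h3u, hs1, hs2, hD1, hD2⟩ := h
  have hr : C.r ≤ C.b + 1 := Nat.le_of_ble_eq_true h0
  have hA : 16 * (R.e1 * R.e1 + R.e2 * R.e2) ≤ 10000000000 ∧ R.d.natAbs + R.k.natAbs ≤ 100000 ∧ 0 < R.nu ∧ R.lam ≤ R.m ∧
    R.m ≤ 100000 ∧ 4 * (R.e1 * R.e1 + R.e2 * R.e2) ≤ (100000 - R.m) * (100000 - R.m) ∧ 0 < R.ph ∧
    R.pc * R.pc + R.ps * R.ps = R.ph * R.ph := of_decide_eq_true hA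
  obtain ⟨a1, a2, a3, a4, a5, a6, -, -⟩ := hA
  have r1 : 16 * ((R.e1 : ℝ) * R.e1 + R.e2 * R.e2) ≤ 10000000000 := by exact_mod_cast a1
  have r2 : ((R.d.natAbs : ℕ) : ℝ) + (R.k.natAbs : ℕ) ≤ 100000 := by exact_mod_cast a2
  have r3 : (0 : ℝ) < R.nu := by exact_mod_cast a3
  have r4 : (R.lam : ℝ) ≤ R.m := by exact_mod_cast a4
  have r5 : (R.m : ℝ) ≤ 100000 := by exact_mod_cast a5
  have r6 : 4 * ((R.e1 : ℝ) * R.e1 + R.e2 * R.e2) ≤ (100000 - R.m) * (100000 - R.m) := by exact_mod_cast a6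
  have i1 := IA_of C.b C.r C.K 1000 C.s1 C.δ R.D1 C.qD1 hr (Nat.le_of_ble_eq_true hs1) hD1
  have i2 := IA_of C.b C.r C.K 1000 C.s2 C.δ R.D2 C.qD2 hr (Nat.le_of_ble_eq_true hs2) hD2
  have ne : ‖(R.e1 : ℂ) + Complex.I * (R.e2 : ℂ)‖ ^ 2 = (R.e1 : ℝ) * R.e1 + R.e2 * R.e2 := by
    rw [← Complex.normSq_eq_norm_sq, Complex.normSq_apply]
    simp
  have ne2 : ‖R.cb.eta‖ = ‖(R.e1 : ℂ) + Complex.I * (R.e2 : ℂ)‖ / 100000 := by
    show ‖((R.e1 : ℂ) + Complex.I * (R.e2 : ℂ)) / 100000‖ = _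
    rw [norm_div]
    norm_num
  have n0 := norm_nonneg ((R.e1 : ℂ) + Complex.I * (R.e2 : ℂ))
  have hD : ∀ (l : List (ℤ × ℤ)) (x : ℝ), Th' 1000 l x ≤ 1 + (l1P (der 1 l) : ℝ) / 1000 := by
    intro l x
    have h1 := (abs_le.1 (DA_le 1 (der 1 l) x)).1
    unfold Th' Dt
    push_cast
    have h2 : -((l1P (der 1 l) : ℝ) / 1000) ≤ DA 1 (der 1 l) x / 1000 := by
      rw [← neg_div]
      exact div_le_div_of_nonneg_right h1 (by norm_num)
    linarith
  have p1 : (0 : ℝ) ≤ (l1P (der 1 R.D1) : ℝ) := Nat.cast_nonneg _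
  have p2 : (0 : ℝ) ≤ (l1P (der 1 R.D2) : ℝ) := Nat.cast_nonneg _
  refine ⟨?_, ?_, ?_, ?_, continuous_bV _ _ _, continuous_bV _ _ _, ?_, ?_, ?_, i1, i2, ?_, ?_, ?_, ?_, ?_, ?_⟩
  · rw [ne2, div_le_iff₀ (by norm_num)]
    nlinarith
  · exact (continuous_zA _ _).div_const _
  · intro t
    show zA (-11) R.z (t + Real.pi) / 100000 = -(zA (-11) R.z t / 100000)
    rw [zA_pi]
    have e : ee (((-11 : ℤ) : ℝ) * Real.pi) = -1 := by
      have h1 : ee (((-11 : ℤ) : ℝ) * Real.pi) = ee (((1 : ℤ) : ℝ) * Real.pi) := by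
        have q01 := ee_add_kpi (-11)
        have q02 := ee_add_kpi (-9)
        have q1 := ee_add_kpi (-7)
        have q2 := ee_add_kpi (-5)
        have q3 := ee_add_kpi (-3)
        have q4 := ee_add_kpi (-1)
        norm_num at q01 q02 q1 q2 q3 q4 ⊢
        rw [← q01, ← q02, ← q1, ← q2, ← q3, ← q4]
      rw [h1]
      apply Complex.ext
      · rw [ee_re]; simp
      · rw [ee_im]; simp
    rw [e]
    ring
  · intro t
    show ‖zA (-11) R.z t / 100000‖ ≤ 1 / 2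
    have h1 := okZ_sound C.b C.r C.K C.δz 100000 R.z C.qz hz t
    rw [norm_div]
    norm_num
    push_cast at h1
    linarith
  · intro t
    show -(18 / 1000) ≤ (R.b20 : ℝ) / (100000 : ℕ) + Dt 100000 (toD R.b2) t
    have h1 := okH_sound C _ _ _ _ h2l t
    simp only [if_true] at h1
    push_cast at h1 ⊢
    linarith
  · intro t
    show (R.b20 : ℝ) / (100000 : ℕ) + Dt 100000 (toD R.b2) t ≤ 36 / 1000
    have h1 := okH_sound C _ _ _ _ h2u t
    simp only [Bool.false_eq_true, if_false] at h1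
    push_cast at h1 ⊢
    linarith
  · intro t
    show |(R.b30 : ℝ) / (100000 : ℕ) + Dt 100000 (toD R.b3) t| ≤ Real.sqrt 3 * (33903 / 1048576)
    have h1 := okH_sound C _ _ _ _ h3l t
    have h2 := okH_sound C _ _ _ _ h3u t
    simp only [if_true] at h1
    simp only [Bool.false_eq_true, if_false] at h2
    have h3 : (56 / 1000 : ℝ) ≤ Real.sqrt 3 * (33903 / 1048576) := by
      have : (17320508 / 10000000 : ℝ) ≤ Real.sqrt 3 := Real.le_sqrt_of_sq_le (by norm_num)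
      nlinarith
    refine le_trans ?_ h3
    push_cast at h1 h2 ⊢
    rw [abs_le]
    constructor <;> linarith
  · intro x
    show Th' 1000 R.D1 x ≤ 1 + ((l1P (der 1 R.D1) : ℝ) + l1P (der 1 R.D2)) / 1000
    have := hD R.D1 x
    have e : (l1P (der 1 R.D1) : ℝ) / 1000 ≤ ((l1P (der 1 R.D1) : ℝ) + l1P (der 1 R.D2)) / 1000 :=
      div_le_div_of_nonneg_right (by linarith) (by norm_num)
    linarith
  · intro x
    show Th' 1000 R.D2 x ≤ 1 + ((l1P (der 1 R.D1) : ℝ) + l1P (der 1 R.D2)) / 1000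
    have := hD R.D2 x
    have e : (l1P (der 1 R.D2) : ℝ) / 1000 ≤ ((l1P (der 1 R.D1) : ℝ) + l1P (der 1 R.D2)) / 1000 :=
      div_le_div_of_nonneg_right (by linarith) (by norm_num)
    linarith
  · show |(R.d : ℝ) / 100000| + |(R.k : ℝ) / 100000| ≤ 1
    rw [abs_div, abs_div]
    have e1 : ((R.d.natAbs : ℕ) : ℝ) = |(R.d : ℝ)| := by rw [Nat.cast_natAbs]; push_cast; rfl
    have e2 : ((R.k.natAbs : ℕ) : ℝ) = |(R.k : ℝ)| := by rw [Nat.cast_natAbs]; push_cast; rfl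
    rw [e1, e2] at r2
    norm_num
    linarith
  · show (0 : ℝ) < (R.nu : ℝ) / 100000
    positivity
  · show (R.lam : ℝ) / 100000 ≤ (R.m : ℝ) / 100000
    exact div_le_div_of_nonneg_right r4 (by norm_num)
  · show (R.m : ℝ) / 100000 ≤ 1 - 2 * ‖R.cb.eta‖
    rw [ne2]
    have h1 : 2 * ‖(R.e1 : ℂ) + Complex.I * (R.e2 : ℂ)‖ ≤ 100000 - R.m := by
      refine abs_le_of_sq_le_sq' ?_ (by linarith) |>.2
      nlinarith
    linarith

/-- **the static conditions of the certificate**, from link (4) -/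
theorem stat {C : Crt} (h : R.ok C = true)
    (H : Helper50.SH.P4F (17 / 20) (4 / 5) 1 (3 / 2) (-(18 / 1000)) (36 / 1000) (33903 / 1048576) (1 / 2)) :
    Stat R.par := (ok_sound h).stat H

theorem fc_z0 (n : ℤ) : fc R.cb.z0 n = zi (cA (-11) R.z n) / 100000 := by
  have e : R.cb.z0 = fun t => (1 / 100000 : ℂ) * zA (-11) R.z t := by
    funext t
    show zA (-11) R.z t / 100000 = _
    ring
  rw [e, Helper87.RC.fc_cmul, fc_zA]
  ring

theorem fc_b2 (n : ℤ) : fc (fun t => (R.cb.b2 t : ℂ)) n =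
    (2 * (if n = 0 then (R.b20 : ℂ) else 0) + zi (cA 2 R.b2 n) + (starRingEnd ℂ) (zi (cA 2 R.b2 (-n)))) / (2 * (100000 : ℕ)) :=
  fc_bV _ _ _ _

theorem fc_b3 (n : ℤ) : fc (fun t => (R.cb.b3 t : ℂ)) n =
    (2 * (if n = 0 then (R.b30 : ℂ) else 0) + zi (cA 2 R.b3 n) + (starRingEnd ℂ) (zi (cA 2 R.b3 (-n)))) / (2 * (100000 : ℕ)) :=
  fc_bV _ _ _ _

theorem zi_conj_zero {p : ℤ × ℤ} (h : zi p = 0) : (starRingEnd ℂ) (zi p) = 0 := by rw [h, map_zero]

theorem sup_bV (Q : ℕ) (c : ℤ) (l : List (ℤ × ℤ)) {N : ℕ} (h : 2 * l.length ≤ N) :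
    Sup N (fc fun t => (bV Q c l t : ℂ)) := by
  intro n hn
  rw [Finset.mem_Icc, not_and_or, not_le, not_le] at hn
  have h' : 2 * (l.length : ℤ) ≤ N := by exact_mod_cast h
  have h0 : n ≠ 0 := by
    rintro rfl
    rcases hn with hn | hn <;> omega
  have h1 : zi (cA 2 l n) = 0 := by
    apply cA_sup
    rcases hn with hn | hn
    · left; omega
    · right; omega
  have h2 : zi (cA 2 l (-n)) = 0 := by
    apply cA_sup
    rcases hn with hn | hn
    · right; omega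
    · left; omega
  rw [fc_bV, if_neg h0, h1, h2, map_zero]
  simp

theorem sup_z0 (h : R.z.length = 12) : Sup 11 (fc R.cb.z0) := by
  intro n hn
  rw [Finset.mem_Icc, not_and_or, not_le, not_le] at hn
  have h1 : zi (cA (-11) R.z n) = 0 := by
    apply cA_sup
    rw [h]
    rcases hn with hn | hn
    · left; push_cast at hn; omega
    · right; push_cast at hn ⊢; omega
  rw [fc_z0, h1, zero_div]

theorem len_z {C : Crt} (h : R.ok C = true) : R.z.length = 12 := by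
  unfold ok at h
  simp only [bif_iff] at h
  have hz := h.2.2.1
  unfold okZ at hz
  simp only [bif_iff] at hz
  have hF := hz.2.1
  unfold okF at hF
  simp only [bif_iff] at hF
  exact Nat.eq_of_beq_eq_true hF.1

/-- helper95's `Lo` of the certificate, degree `K ≥ 12` -/
noncomputable def lo {C : Crt} (h : R.ok C = true) {K : ℕ} (hK : 11 ≤ K) (h2 : 2 * R.b2.length ≤ K)
    (h3 : 2 * R.b3.length ≤ K) : Lo R.par K :=
  (ok_sound h).toLo (Helper95.SH.Sup.mono hK (sup_z0 (len_z h))) (sup_bV _ _ _ h2) (sup_bV _ _ _ h3)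

end Rec

end Helper49.Cell
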