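import Pool.Agent.Helper44.RC.AllQ
import Pool.Agent.Helper35.KD.Main

/-!
# Project RC: the final statements, from the target inequalities

`full_of`: if `Rq q 1` holds for one `q > 0`, then `2π/√27` is the greatest covering density of a planar convex
body (attained by the disk). `rec_of`: `Rs κ` gives `theta K ≤ 1/(κ m0)`.
-/

open MeasureTheory Set Filter Metric Helper97.CB

namespace Helper49.RC

theorem m0_eq : 1 / Helper49.LT.m0 = 2 * Real.pi / Real.sqrt 27 := by
  have h27 : Real.sqrt 27 = 3 * Real.sqrt 3 := by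
    rw [show (27 : ℝ) = 3 ^ 2 * 3 by norm_num, Real.sqrt_mul (by norm_num),
      Real.sqrt_sq (by norm_num)]
  rw [h27, Helper49.LT.m0]
  have h3 : Real.sqrt 3 ≠ 0 := by positivity
  have hpi := Real.pi_ne_zero
  field_simp

/-- the upper bound for all bodies -/
theorem upper_of (q : ℝ) (hq : 0 < q) (h : Helper44.GQ.Rq q 1) (K : Set ℂ) (hK : IsBody K) :
    theta K ≤ ENNReal.ofReal (2 * Real.pi / Real.sqrt 27) := by
  have h1 := Helper44.GQ.stRedQ q hq 1 one_pos h K hK
  rwa [one_mul, m0_eq] at h1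

/-- THE FULL ANSWER from the target inequality `Rq q 1` -/
theorem full_of (q : ℝ) (hq : 0 < q) (h : Helper44.GQ.Rq q 1) :
    IsGreatest {d | ∃ K : Set ℂ, IsBody K ∧ d = theta K}
      (ENNReal.ofReal (2 * Real.pi / Real.sqrt 27)) :=
  Pool.Agent.Helper35.KD.isGreatest_of (upper_of q hq h)

/-- the record bound from the target inequality `Rs κ` -/
theorem rec_of (κ : ℝ) (hκ : 0 < κ) (h : Rs κ) (K : Set ℂ) (hK : IsBody K) :
    theta K ≤ ENNReal.ofReal (2 * Real.pi / Real.sqrt 27 / κ) := by
  have h1 := stRed2 κ hκ h K hK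
  rwa [show 1 / (κ * Helper49.LT.m0) = 1 / Helper49.LT.m0 / κ by
    rw [div_div, mul_comm], m0_eq] at h1

/-- `κ = 99/100`: all planar convex bodies have covering density at most `1.2215` -/
theorem rec99_of (h : Rs (99 / 100)) (K : Set ℂ) (hK : IsBody K) :
    theta K ≤ ENNReal.ofReal (12215 / 10000) := by
  refine (rec_of _ (by norm_num) h K hK).trans (ENNReal.ofReal_le_ofReal ?_)
  have h27 : Real.sqrt 27 = 3 * Real.sqrt 3 := by
    rw [show (27 : ℝ) = 3 ^ 2 * 3 by norm_num, Real.sqrt_mul (by norm_num),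
      Real.sqrt_sq (by norm_num)]
  have h3 : (17320508 / 10000000 : ℝ) ≤ Real.sqrt 3 := by
    apply Real.le_sqrt_of_sq_le; norm_num
  have hpi := Real.pi_lt_d6
  rw [h27, div_div, div_le_iff₀ (by positivity)]
  nlinarith

end Helper49.RC
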