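import Pool.Agent.Helper20.RC.SignF
import Pool.Agent.Helper20.RC.Link2F
import Pool.Agent.Helper35.RC.Rot
import Pool.Agent.Helper95.RC.Coef
import Pool.Agent.Helper49.RC.Final

/-!
# Project RC, SHARP: the skeleton (definitions)

`Par`: the data of one certificate (explicit functions and numbers; the numbers of the zones are put in at the very end).
`EP P b z`: the quadratic functional of the certificate, a lower bound of `FMQ - 9 mQ²` for `Good` data (`StComb`).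
Links used: the frame with the true angles (helper20), the pairing of the harmonic `2` with `sg_2` (helper19, 68),
the inequality (D2) for the other harmonics of `α - a0` (helper17, 85), the curvature of the total support function
`hw + hA a0` (helper30), the local lemma without weights (link 4; its lower bound `lo` is a field).
`a0 = 0` is allowed (helper58's form). There is no base point here: the base enters through the directions
`ee (a1)`, `ee (a2)`, the alignments and `lo`.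
Everything in the moving frame: `e = w t * ee t * g`, `g` one of `g0 b, g1 b z, g2 b z`.
-/

open MeasureTheory Set Filter Metric

namespace Helper49.Sharp

open Helper49.LT hiding sg
open Helper49.RC Helper44.GQ
open Helper56.RC (fc)
open Helper87.RC (BM)
open Helper44.RCG (sgG N0)
open Helper95.RC (Lf)
open Pool.Agent.Helper20.RC (wR hw al alQ L1 L2w L2b L2r lk sM eM DensI)

/-- mean over a period -/
noncomputable def mean (f : ℝ → ℝ) : ℝ := 1 / (2 * Real.pi) * ∫ t in (0 : ℝ)..(2 * Real.pi), f t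

/-- the edges of the hexagon in the moving frame, gauge `2` -/
noncomputable def g0 (b : ℂ) : ℂ := aQ 2 b
noncomputable def g1 (b z : ℂ) : ℂ := cQ 2 b + 1 / 2 * aQ 2 b + z
noncomputable def g2 (b z : ℂ) : ℂ := cQ 2 b - 1 / 2 * aQ 2 b - z

/-- the pointwise domain -/
def Dom (b z : ℂ) : Prop :=
  ‖b‖ < 1 ∧ ∃ X Y : ℝ, |X| ≤ 1 / 2 ∧ |Y| ≤ 1 ∧ z = (X : ℂ) * aQ 2 b + (Y : ℂ) * cQ 2 b

/-- unit vector -/
noncomputable def un (e : ℂ) : ℂ := e / (‖e‖ : ℂ)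

/-- excess of `e` over the direction `u` (nonnegative if `‖u‖ ≤ 1`) -/
noncomputable def exc (u e : ℂ) : ℝ := ‖e‖ - ((starRingEnd ℂ) u * e).re

/-- support function of the segments `ee t * α t` -/
noncomputable def hA (α : ℝ → ℂ) (a : ℝ) : ℝ :=
  1 / 2 * (ee a * (starRingEnd ℂ) (∫ t in (a - Real.pi)..a, ee t * α t)).im
/-- its derivative (at points of continuity of `α`) -/
noncomputable def hA1 (α : ℝ → ℂ) (a : ℝ) : ℝ :=
  1 / 2 * (ee a * (starRingEnd ℂ) (∫ t in (a - Real.pi)..a, ee t * α t)).re - (α a).im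

/-- the harmonics `± 2` of `α` removed -/
noncomputable def noh2 (α : ℝ → ℂ) (t : ℝ) : ℂ := α t - fc α 2 * ee (2 * t) - fc α (-2) * ee (-2 * t)

/-- the coefficients `H_l`, `l = lk k = 2 k + 2` -/
noncomputable def Hk (α : ℝ → ℂ) (k : ℕ) : ℂ :=
  (fc α (2 * k + 2) / ((lk k : ℂ) + 1) - (starRingEnd ℂ) (fc α (-(2 * k + 2))) / ((lk k : ℂ) - 1)) / 2

/-- `2 ∑ Re (H conj e) + 2 ∑ Re (H conj γ) - (2/ν) ∑ (l²-1) |H|² - (ν/2) ∑ |e - γ|²/(l²-1)` -/
noncomputable def D2 (ν : ℝ) (H e γ : ℕ → ℂ) : ℝ :=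
  ∑' k : ℕ, (2 * (H k * (starRingEnd ℂ) (e k)).re + 2 * (H k * (starRingEnd ℂ) (γ k)).re
    - 2 / ν * (lk k ^ 2 - 1) * ‖H k‖ ^ 2 - ν / 2 * ‖e k - γ k‖ ^ 2 / (lk k ^ 2 - 1))

/-- MODULE D2 (helper17, helper85): lower bound of the bilinear term with the true angles. -/
def StD2 : Prop := ∀ (α f1 f2 : ℝ → ℂ) (φ1 φ2 : ℝ → ℝ) (E D ρ ν : ℝ) (γ : ℕ → ℂ), BM α E →
  (∀ t, α (t + Real.pi) = α t) → BM f1 D → BM f2 D → Measurable φ1 → Measurable φ2 → DensI φ1 ρ → DensI φ2 ρ →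
  0 < ν → (Function.support γ).Finite →
  2 * (fc α 0).re * (sM f1 f2 0).re + D2 ν (Hk α) (fun k => eM f1 f2 φ1 φ2 (lk k)) γ
    - ν * ((sM f1 f2 0).re + 2 * ∑' k, ‖γ k‖) * ((sM f1 f2 0).re - (eM f1 f2 φ1 φ2 0).re)
    ≤ 2 * L2b α f1 f2 (al f1) (al f2)

/-- the data of one certificate -/
structure Par where
  /-- the weight is `wR eta 0 0` (parameter P1) -/
  eta : ℂ
  /-- the part of `α` which is kept at the true angles (no harmonics `± 2`; `0` is allowed) -/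
  a0 : ℝ → ℂ
  /-- angles of the base directions in the moving frame: `u_j = ee (a_j)` (zone I: `arg (om + z0)`,
  `arg (om² - z0)`) -/
  a1 : ℝ → ℝ
  a2 : ℝ → ℝ
  /-- the alignments (fixed frame, parameter `θ`) and their density -/
  ph1 : ℝ → ℝ
  ph2 : ℝ → ℝ
  rho : ℝ
  /-- the shift (parameter P2) -/
  ps : ℝ → ℝ
  /-- (D2): `ν`, `γ` -/
  nu : ℝ
  ga : ℕ → ℂ
  /-- fraction of the excess over the alignments which is paid -/
  lam : ℝ
  /-- price `pr2 (H₀ - h0)²` -/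
  pr2 : ℝ
  h0 : ℝ
  /-- price of `|b|²` (pairing of the harmonic 2) -/
  cs : ℝ
  /-- curvature of the total support function -/
  m : ℝ
  /-- local lemma: lower bound of the four excesses, a quadratic polynomial in `(b, z)` for every `t` -/
  lo : ℝ → ℂ → ℂ → ℝ

namespace Par

variable (P : Par)

/-- the weight -/
noncomputable def w : ℝ → ℝ := wR P.eta 0 0
/-- `α = w (b₂ + i b₃/2)` -/
noncomputable def al (b : ℝ → ℂ) : ℝ → ℂ := alQ P.w 2 b
/-- `α - a0` without the harmonics `± 2` -/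
noncomputable def dal (b : ℝ → ℂ) (t : ℝ) : ℂ := noh2 (P.al b) t - P.a0 t
/-- `H₀` -/
noncomputable def H0 (b : ℝ → ℂ) : ℝ := (fc (P.dal b) 0).re
/-- the total support function at the true angle, and its derivative -/
noncomputable def H (a : ℝ) : ℝ := hw P.eta 0 0 a + hA P.a0 a
noncomputable def H1 (a : ℝ) : ℝ := 4 / 3 * (P.eta * ee (2 * a)).im + hA1 P.a0 a
/-- base directions (moving frame) and their angles (fixed frame) -/
noncomputable def u1 (t : ℝ) : ℂ := ee (P.a1 t)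
noncomputable def u2 (t : ℝ) : ℂ := ee (P.a2 t)
noncomputable def th1 (t : ℝ) : ℝ := t + P.a1 t
noncomputable def th2 (t : ℝ) : ℝ := t + P.a2 t
/-- alignment directions in the moving frame -/
noncomputable def v1 (t : ℝ) : ℂ := ee (P.ph1 (t + Real.pi / 3) - t)
noncomputable def v2 (t : ℝ) : ℂ := ee (P.ph2 (t + 2 * Real.pi / 3) - t)

/-- the families -/
noncomputable def F1 (b z : ℝ → ℂ) : ℝ → ℂ := F1Q P.w 2 b z
noncomputable def F2 (b z : ℝ → ℂ) : ℝ → ℂ := F2Q P.w 2 b z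
/-- the aligned moments and the true length -/
noncomputable def eA (b z : ℝ → ℂ) (k : ℕ) : ℂ := eM (P.F1 b z) (P.F2 b z) P.ph1 P.ph2 (lk k)
noncomputable def e00 (b z : ℝ → ℂ) : ℝ := (eM (P.F1 b z) (P.F2 b z) P.ph1 P.ph2 0).re
noncomputable def s00 (b z : ℝ → ℂ) : ℝ := (sM (P.F1 b z) (P.F2 b z) 0).re

/-- tangent functionals of the total support function at the base directions -/
noncomputable def T1 (t : ℝ) (e : ℂ) : ℝ :=
  P.H (P.th1 t) * ((starRingEnd ℂ) (P.u1 t) * e).re + P.H1 (P.th1 t) * ((starRingEnd ℂ) (P.u1 t) * e).im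
noncomputable def T2 (t : ℝ) (e : ℂ) : ℝ :=
  P.H (P.th2 t) * ((starRingEnd ℂ) (P.u2 t) * e).re + P.H1 (P.th2 t) * ((starRingEnd ℂ) (P.u2 t) * e).im

/-- the local part at the direction `t`: affine + `(9 - cs) |b|² + (m - lam) lo` -/
noncomputable def TL (t : ℝ) (b z : ℂ) : ℝ :=
  2 * (P.T1 t (g1 b z) + P.T2 t (g2 b z))
  - 2 * P.lam * (((starRingEnd ℂ) (P.u1 t - P.v1 t) * g1 b z).re + ((starRingEnd ℂ) (P.u2 t - P.v2 t) * g2 b z).re)
  + (9 - P.cs) * ‖b‖ ^ 2 + (P.m - P.lam) * P.lo t b z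

/-- the harmonic 2 of `b`: `σ = (w b₂)^(2) - i (w b₃)^(2)` -/
noncomputable def sig (b : ℝ → ℂ) : ℂ :=
  fc (fun t => ((P.w t * (b t).re : ℝ) : ℂ)) 2 - Complex.I * fc (fun t => ((P.w t * (b t).im : ℝ) : ℂ)) 2

/-- `N0` minus the shift form -/
noncomputable def NS (b z : ℝ → ℂ) : ℝ :=
  N0 (AAQ P.w 2 b) (BBQ P.w 2 b) (vvS P.w z)
    - 1 / Real.pi * (∫ φ in (0 : ℝ)..(2 * Real.pi), ∫ u in (0 : ℝ)..(P.ps φ),
      (P.F1 b z (φ + u / 2) * (starRingEnd ℂ) (P.F2 b z (φ - u / 2))).im)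

/-- THE QUADRATIC FUNCTIONAL OF THE CERTIFICATE -/
noncomputable def EP (b z : ℝ → ℂ) : ℝ :=
  2 / 3 * ‖P.sig b‖ ^ 2 + 4 / 3 * ((starRingEnd ℂ) (P.sig b) * P.eta).re
  + L1 P.eta 0 0 (P.al b)
  + 2 * P.H0 b * P.e00 b z - P.pr2 * (P.H0 b - P.h0) ^ 2
  + D2 P.nu (Hk (P.dal b)) (P.eA b z) P.ga
  + mean (fun t => P.w t * P.TL t (b t) (z t))
  + P.NS b z - 9

/-- regularity of the explicit functions, and the relations between the numbers -/
structure Reg : Prop where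
  eta : ‖P.eta‖ ≤ 1 / 4
  ca0 : Continuous P.a0
  pa0 : ∀ t, P.a0 (t + Real.pi) = P.a0 t
  ha0 : fc P.a0 2 = 0 ∧ fc P.a0 (-2) = 0
  ma1 : Measurable P.a1
  ma2 : Measurable P.a2
  pu1 : ∀ t, ee (P.a1 (t + 2 * Real.pi)) = ee (P.a1 t)
  pu2 : ∀ t, ee (P.a2 (t + 2 * Real.pi)) = ee (P.a2 t)
  mph1 : Measurable P.ph1
  mph2 : Measurable P.ph2
  pph1 : ∀ θ, P.ph1 (θ + 2 * Real.pi) = P.ph1 θ + 2 * Real.pi
  pph2 : ∀ θ, P.ph2 (θ + 2 * Real.pi) = P.ph2 θ + 2 * Real.pi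
  dph1 : DensI P.ph1 P.rho
  dph2 : DensI P.ph2 P.rho
  mps : Measurable P.ps
  pps : ∀ φ, P.ps (φ + 2 * Real.pi) = P.ps φ
  bps : ∀ φ, |P.ps φ| ≤ Real.pi / 3
  nu0 : 0 < P.nu
  fga : (Function.support P.ga).Finite
  m0 : 0 ≤ P.m - P.lam

/-- CURVATURE of the total support function -/
def Cur : Prop := ∀ a x : ℝ, P.m * (1 - Real.cos x) ≤ P.H (a + x) - P.H a * Real.cos x - P.H1 a * Real.sin x

/-- LOCAL LEMMA (without weights) -/
def Loc : Prop := ∀ (t : ℝ) (b z : ℂ), Dom b z →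
  P.lo t b z ≤ exc (P.u1 t) (g1 b z) + exc (P.u2 t) (g2 b z)
      + exc (P.u1 (t + Real.pi)) (g1 b (-z)) + exc (P.u2 (t + Real.pi)) (g2 b (-z))

/-- `lo` is bounded and measurable along the data -/
def Blo (b z : ℝ → ℂ) : Prop := (Measurable fun t => P.lo t (b t) (z t)) ∧ ∃ C, ∀ t, |P.lo t (b t) (z t)| ≤ C

/-- the prices of the cubic terms -/
def Lam (b z : ℝ → ℂ) : Prop :=
  (P.nu * (P.s00 b z + 2 * ∑' k, ‖P.ga k‖) - 2 * P.H0 b) * (P.s00 b z - P.e00 b z)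
    ≤ 2 * P.lam * (P.s00 b z - P.e00 b z) + P.pr2 * (P.H0 b - P.h0) ^ 2
def Cs (b : ℝ → ℂ) : Prop := 2 / 3 * ‖P.sig b‖ ≤ P.cs

/-- all conditions -/
structure Good (b z : ℝ → ℂ) : Prop where
  reg : P.Reg
  cur : P.Cur
  loc : P.Loc
  blo : P.Blo b z
  lam : P.Lam b z
  cs : P.Cs b

end Par

/-- MODULE PAIR (helper19, 68): the harmonic 2. `w = wR η 0 0`, `σ = (w b₂)^(2) - i (w b₃)^(2)`. -/
def StPair : Prop := ∀ (P : Par) (b z : ℝ → ℂ), AdmQ 2 b z → P.Reg →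
  2 / 3 * ‖P.sig b‖ ^ 2 + 4 / 3 * ((starRingEnd ℂ) (P.sig b) * P.eta).re
    - 2 / 3 * ‖P.sig b‖ * mean (fun t => P.w t * ‖b t‖ ^ 2)
    ≤ 2 / 3 * ‖sgG (A0Q P.w 2 b) (AAQ P.w 2 b) (BBQ P.w 2 b) (vvS P.w z) 2‖ ^ 2
      - 4 / 3 * (P.sig b * (starRingEnd ℂ) (sM (P.F1 b z) (P.F2 b z) 2)).re

/-- MODULE COMB (helper49): the combination of the links. -/
def StComb : Prop := ∀ (P : Par) (b z : ℝ → ℂ), AdmQ 2 b z → P.Good b z →
  P.EP b z ≤ FMQ P.w 2 b z - 9 * 1 * mQ P.w b ^ 2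

/-- MODULE CUR: the curvature condition from a pointwise bound (`H'' + H = w + Re a0 - (Im a0)'`) -/
def StCur : Prop := ∀ (P : Par) (D : ℝ → ℝ), P.Reg → (∀ a, HasDerivAt (fun x => (P.a0 x).im) (D a) a) →
  Continuous D → (∀ a, P.m ≤ P.w a + (P.a0 a).re - D a) → P.Cur

/-- the gain `S'` of the data with the weight `1` -/
noncomputable def Sp (b z : ℝ → ℂ) : ℝ :=
  mean (fun t => ‖g1 (b t) (z t)‖ + ‖g2 (b t) (z t)‖) - 2 + (fc b 0).re

/-- MODULE FAR (helper44, 51, 20) -/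
def StFarS : Prop := ∀ b z : ℝ → ℂ, AdmQ 2 b z → 1 / 5 ≤ Sp b z →
  9 * 1 * mQ (wR 0 0 0) b ^ 2 ≤ FMQ (wR 0 0 0) 2 b z

/-- THE NEAR STATEMENT: for every admissible `(b, z)` with `fc z (-3) = A ≥ 0`, `S' < 1/5` there is a certificate. -/
def StNearS : Prop := ∀ b z : ℝ → ℂ, AdmQ 2 b z → fc z (-3) = (‖fc z (-3)‖ : ℂ) → Sp b z < 1 / 5 →
  ∃ P : Par, P.Good b z ∧ 0 ≤ P.EP b z

/-- the end -/
theorem rq_of (hC : StComb) (hF : StFarS) (hN : StNearS) : Rq 2 1 := by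
  refine Pool.Agent.Helper35.RC.rq_wlog 2 1 fun b z h h3 _ => ?_
  by_cases hs : 1 / 5 ≤ Sp b z
  · exact ⟨wR 0 0 0, Pool.Agent.Helper20.RC.wR_wgt (by simp), hF b z h hs⟩
  · obtain ⟨P, hg, h0⟩ := hN b z h h3 (lt_of_not_ge hs)
    have h1 := hC P b z h hg
    refine ⟨P.w, Pool.Agent.Helper20.RC.wR_wgt ?_, by linarith⟩
    have := hg.reg.eta
    simp only [norm_zero, add_zero]
    linarith

end Helper49.Sharp
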