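import Pool.Agent.Helper49.RC.Comb3

/-!
# Project RC, SHARP, module COMB: the combination of the links
-/

open MeasureTheory Set Filter Metric

namespace Helper49.Sharp

open Helper49.LT hiding sg
open Helper49.RC Helper44.GQ
open Helper56.RC (fc)
open Helper87.RC (BM intg_of_bdd fc_add fc_sub fc_cmul)
open Helper95.RC (Lf)
open Pool.Agent.Helper20.RC (wR hw al alQ L1 L2w L2b L2r lk sM eM eD DensI al_ee al_meas wR_wgt wR_meas wR_bd wR_per
  int_meas int_bd hw_meas hw_abs alQ_bm alQ_per)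

theorem BM.const' (c : ℂ) : BM (fun _ : ℝ => c) ‖c‖ := ⟨measurable_const, fun _ => le_rfl⟩

theorem un_bm {d : ℝ → ℂ} (hd : Measurable d) : BM (fun t => un (d t)) 1 := by
  refine ⟨?_, fun t => ?_⟩
  · unfold un
    exact hd.div (Complex.measurable_ofReal.comp hd.norm)
  · unfold un
    rw [norm_div, Complex.norm_real, norm_norm]
    exact div_self_le_one _

section

variable {P : Par} {b z : ℝ → ℂ}

theorem u1_bm (hr : P.Reg) : BM P.u1 1 :=
  ⟨continuous_ee.measurable.comp hr.ma1, fun t => by unfold Par.u1; rw [norm_ee]⟩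
theorem u2_bm (hr : P.Reg) : BM P.u2 1 :=
  ⟨continuous_ee.measurable.comp hr.ma2, fun t => by unfold Par.u2; rw [norm_ee]⟩

theorem v1_bm (hr : P.Reg) : BM P.v1 1 :=
  ⟨continuous_ee.measurable.comp ((hr.mph1.comp (measurable_id.add_const _)).sub measurable_id),
    fun t => by unfold Par.v1; rw [norm_ee]⟩
theorem v2_bm (hr : P.Reg) : BM P.v2 1 :=
  ⟨continuous_ee.measurable.comp ((hr.mph2.comp (measurable_id.add_const _)).sub measurable_id),
    fun t => by unfold Par.v2; rw [norm_ee]⟩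

theorem b_bm (h : AdmQ 2 b z) : BM b 1 := by
  obtain ⟨δ, hδ, hb⟩ := h.bdb
  exact ⟨h.mb, fun t => by linarith [hb t]⟩

theorem g_bm (h : AdmQ 2 b z) : ∃ D, BM (fun t => g1 (b t) (z t)) D ∧ BM (fun t => g2 (b t) (z t)) D ∧ BM z D := by
  obtain ⟨D, hD0, hDa, hDc, hDz⟩ := REDQ.data_bdd 2 (by norm_num) b z h
  have h1 := REDQ.cQ_meas 2 b h.mb
  have h2 := REDQ.aQ_meas 2 b h.mb
  have ha : BM (fun t => aQ 2 (b t)) D := ⟨h2, hDa⟩
  have hc : BM (fun t => cQ 2 (b t)) D := ⟨h1, hDc⟩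
  have hz : BM z D := ⟨h.mz, hDz⟩
  have k1 := (hc.add (ha.cmul (1 / 2))).add hz
  have k2 := (hc.sub (ha.cmul (1 / 2))).sub hz
  have hn : ‖(1 / 2 : ℂ)‖ = 1 / 2 := by norm_num
  rw [hn] at k1 k2
  refine ⟨D + 1 / 2 * D + D, k1, k2, ⟨h.mz, fun t => (hDz t).trans (by linarith)⟩⟩

theorem H_br (hr : P.Reg) {a : ℝ → ℝ} (ha : Measurable a) : BR fun t => P.H (a t) := by
  obtain ⟨E2, h2⟩ := a0_bm hr
  have h1 := hA_br (G := fun _ => 1) (D := ‖(1 : ℂ)‖) h2 (BM.const' 1) ha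
  have h3 : BR fun t => hw P.eta 0 0 (a t) := ⟨(hw_meas _ _ _).comp ha, _, fun t => hw_abs _ _ _ _⟩
  have h4 := h3.add h1
  simp only [norm_one, one_mul] at h4
  exact h4

theorem H1_br (hr : P.Reg) {a : ℝ → ℝ} (ha : Measurable a) : BR fun t => P.H1 (a t) := by
  obtain ⟨E2, h2⟩ := a0_bm hr
  have hb : BM (fun t => ee t * P.a0 t) (1 * E2) := BM.mul bm_ee h2
  have hI : BM (fun θ => ∫ t in (a θ - Real.pi)..(a θ), ee t * P.a0 t) (1 * E2 * Real.pi) := by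
    refine ⟨int_meas hb (ha.sub_const _) ha, fun θ => ?_⟩
    refine (int_bd hb _ _).trans (le_of_eq ?_)
    rw [sub_sub_cancel, abs_of_pos Real.pi_pos]
  have he : BM (fun θ => ee (a θ)) 1 := ⟨continuous_ee.measurable.comp ha, fun t => by rw [norm_ee]⟩
  have he2 : BM (fun θ => ee (2 * a θ)) 1 :=
    ⟨continuous_ee.measurable.comp (ha.const_mul 2), fun t => by rw [norm_ee]⟩
  have h1 := (BR.re (he.mul hI.conj)).cmul (1 / 2)
  have h3 : BR fun θ => (P.a0 (a θ)).im :=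
    ⟨Complex.measurable_im.comp (hr.ca0.measurable.comp ha), E2,
      fun t => (Complex.abs_im_le_norm _).trans (h2.b _)⟩
  exact ((BR.im (he2.cmul P.eta)).cmul (4 / 3)).add (h1.sub h3)

theorem th1_meas (hr : P.Reg) : Measurable P.th1 := measurable_id.add hr.ma1
theorem th2_meas (hr : P.Reg) : Measurable P.th2 := measurable_id.add hr.ma2

theorem w_br (hr : P.Reg) : BR P.w := by
  obtain ⟨C, hC⟩ := hr.wgt.bd
  exact ⟨hr.wgt.m, C, fun t => by rw [abs_of_nonneg (hr.w0 t)]; exact hC t⟩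

/-- the tangent part -/
noncomputable def Tt (P : Par) (b z : ℝ → ℂ) (t : ℝ) : ℝ := P.T1 t (g1 (b t) (z t)) + P.T2 t (g2 (b t) (z t))
/-- the excess -/
noncomputable def Xt (P : Par) (b z : ℝ → ℂ) (t : ℝ) : ℝ :=
  exc (P.u1 t) (g1 (b t) (z t)) + exc (P.u2 t) (g2 (b t) (z t))
/-- the difference of the directions -/
noncomputable def Ut (P : Par) (b z : ℝ → ℂ) (t : ℝ) : ℝ :=
  ((starRingEnd ℂ) (P.u1 t - P.v1 t) * g1 (b t) (z t)).re + ((starRingEnd ℂ) (P.u2 t - P.v2 t) * g2 (b t) (z t)).re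

theorem Tt_br (h : AdmQ 2 b z) (hr : P.Reg) : BR (Tt P b z) := by
  obtain ⟨D, k1, k2, _⟩ := g_bm h
  have a1 := (u1_bm hr).conj.mul k1
  have a2 := (u2_bm hr).conj.mul k2
  have c1 := ((H_br hr (th1_meas hr)).mul (BR.re a1)).add ((H1_br hr (th1_meas hr)).mul (BR.im a1))
  have c2 := ((H_br hr (th2_meas hr)).mul (BR.re a2)).add ((H1_br hr (th2_meas hr)).mul (BR.im a2))
  exact c1.add c2

theorem Xt_br (h : AdmQ 2 b z) (hr : P.Reg) : BR (Xt P b z) := by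
  obtain ⟨D, k1, k2, _⟩ := g_bm h
  have a1 := (u1_bm hr).conj.mul k1
  have a2 := (u2_bm hr).conj.mul k2
  exact ((BR.nrm k1).sub (BR.re a1)).add ((BR.nrm k2).sub (BR.re a2))

theorem Ut_br (h : AdmQ 2 b z) (hr : P.Reg) : BR (Ut P b z) := by
  obtain ⟨D, k1, k2, _⟩ := g_bm h
  have a1 := ((u1_bm hr).sub (v1_bm hr)).conj.mul k1
  have a2 := ((u2_bm hr).sub (v2_bm hr)).conj.mul k2
  exact (BR.re a1).add (BR.re a2)

/-- the step with the curvature -/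
theorem step_cur (h : AdmQ 2 b z) (hr : P.Reg) (hc : P.Cur) :
    mean (fun t => P.w t * (Tt P b z t + P.m * Xt P b z t)) ≤
      mean (fun θ => ‖P.F1 b z θ‖ * P.H (al (P.F1 b z) θ) + ‖P.F2 b z θ‖ * P.H (al (P.F2 b z) θ)) := by
  obtain ⟨D, f1, f2⟩ := F_bm (P := P) h hr
  obtain ⟨p1, p2⟩ := F_per (P := P) h hr
  obtain ⟨D', k1, k2, _⟩ := g_bm h
  have bH1 : BR fun θ => ‖P.F1 b z θ‖ * P.H (al (P.F1 b z) θ) := (BR.nrm f1).mul (H_br hr (al_meas f1.m))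
  have bH2 : BR fun θ => ‖P.F2 b z θ‖ * P.H (al (P.F2 b z) θ) := (BR.nrm f2).mul (H_br hr (al_meas f2.m))
  have q1 : ∀ θ, ‖P.F1 b z (θ + 2 * Real.pi)‖ * P.H (al (P.F1 b z) (θ + 2 * Real.pi)) =
      ‖P.F1 b z θ‖ * P.H (al (P.F1 b z) θ) := fun θ => by rw [p1, al_per p1, H_per hr]
  have q2 : ∀ θ, ‖P.F2 b z (θ + 2 * Real.pi)‖ * P.H (al (P.F2 b z) (θ + 2 * Real.pi)) =
      ‖P.F2 b z θ‖ * P.H (al (P.F2 b z) θ) := fun θ => by rw [p2, al_per p2, H_per hr]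
  have m1 := mean_sh (f := fun θ => ‖P.F1 b z θ‖ * P.H (al (P.F1 b z) θ)) q1 (Real.pi / 3)
  have m2 := mean_sh (f := fun θ => ‖P.F2 b z θ‖ * P.H (al (P.F2 b z) θ)) q2 (2 * Real.pi / 3)
  have a1 := (u1_bm hr).conj.mul k1
  have a2 := (u2_bm hr).conj.mul k2
  have c1 := (w_br hr).mul ((((H_br hr (th1_meas hr)).mul (BR.re a1)).add
    ((H1_br hr (th1_meas hr)).mul (BR.im a1))).add (((BR.nrm k1).sub (BR.re a1)).cmul P.m))
  have c2 := (w_br hr).mul ((((H_br hr (th2_meas hr)).mul (BR.re a2)).add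
    ((H1_br hr (th2_meas hr)).mul (BR.im a2))).add (((BR.nrm k2).sub (BR.re a2)).cmul P.m))
  have s1 := mean_mono c1 (bH1.sh (Real.pi / 3)) fun t => by
    exact pt_cur hc (g1 (b t) (z t)) (P.a1 t) (hr.w0 t) t (al (P.F1 b z) (t + Real.pi / 3)) (F1_at t) (al_ee _ _)
  have s2 := mean_mono c2 (bH2.sh (2 * Real.pi / 3)) fun t => by
    exact pt_cur hc (g2 (b t) (z t)) (P.a2 t) (hr.w0 t) t (al (P.F2 b z) (t + 2 * Real.pi / 3)) (F2_at t) (al_ee _ _)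
  rw [m1] at s1
  rw [m2] at s2
  rw [mean_add bH1 bH2]
  refine le_trans (le_of_eq ?_) (add_le_add s1 s2)
  rw [← mean_add c1 c2]
  refine mean_congr fun t => ?_
  unfold Tt Xt Par.T1 Par.T2 exc Par.u1 Par.u2
  ring

/-- the excess over the alignments -/
theorem step_G (h : AdmQ 2 b z) (hr : P.Reg) :
    P.s00 b z - P.e00 b z = mean (fun t => P.w t * (Xt P b z t + Ut P b z t)) := by
  obtain ⟨D, f1, f2⟩ := F_bm (P := P) h hr
  obtain ⟨p1, p2⟩ := F_per (P := P) h hr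
  obtain ⟨D', k1, k2, _⟩ := g_bm h
  have e1 : BM (fun θ => ee (-P.ph1 θ)) 1 :=
    ⟨continuous_ee.measurable.comp hr.mph1.neg, fun t => by rw [norm_ee]⟩
  have e2 : BM (fun θ => ee (-P.ph2 θ)) 1 :=
    ⟨continuous_ee.measurable.comp hr.mph2.neg, fun t => by rw [norm_ee]⟩
  have r1 := BR.re (f1.mul e1)
  have r2 := BR.re (f2.mul e2)
  unfold Par.s00 Par.e00
  rw [s00_eq f1 f2, e00_eq f1 f2 hr.mph1 hr.mph2, mean_add (BR.nrm f1) (BR.nrm f2), mean_add r1 r2]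
  have b1 := (BR.nrm f1).sub r1
  have b2 := (BR.nrm f2).sub r2
  have q1 : ∀ θ, ‖P.F1 b z (θ + 2 * Real.pi)‖ - (P.F1 b z (θ + 2 * Real.pi) * ee (-P.ph1 (θ + 2 * Real.pi))).re =
      ‖P.F1 b z θ‖ - (P.F1 b z θ * ee (-P.ph1 θ)).re := fun θ => by
    rw [p1, hr.pph1, neg_add, ee_add, ee_neg (2 * Real.pi), ee_two_pi, map_one, mul_one]
  have q2 : ∀ θ, ‖P.F2 b z (θ + 2 * Real.pi)‖ - (P.F2 b z (θ + 2 * Real.pi) * ee (-P.ph2 (θ + 2 * Real.pi))).re =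
      ‖P.F2 b z θ‖ - (P.F2 b z θ * ee (-P.ph2 θ)).re := fun θ => by
    rw [p2, hr.pph2, neg_add, ee_add, ee_neg (2 * Real.pi), ee_two_pi, map_one, mul_one]
  have m1 := mean_sh (f := fun θ => ‖P.F1 b z θ‖ - (P.F1 b z θ * ee (-P.ph1 θ)).re) q1 (Real.pi / 3)
  have m2 := mean_sh (f := fun θ => ‖P.F2 b z θ‖ - (P.F2 b z θ * ee (-P.ph2 θ)).re) q2 (2 * Real.pi / 3)
  have i1 : mean (fun θ => ‖P.F1 b z θ‖) + mean (fun θ => ‖P.F2 b z θ‖)
      - (mean (fun θ => (P.F1 b z θ * ee (-P.ph1 θ)).re) + mean (fun θ => (P.F2 b z θ * ee (-P.ph2 θ)).re)) =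
      mean (fun θ => ‖P.F1 b z θ‖ - (P.F1 b z θ * ee (-P.ph1 θ)).re)
      + mean (fun θ => ‖P.F2 b z θ‖ - (P.F2 b z θ * ee (-P.ph2 θ)).re) := by
    rw [mean_sub (BR.nrm f1) r1, mean_sub (BR.nrm f2) r2]
    ring
  rw [i1, ← m1, ← m2, ← mean_add (b1.sh _) (b2.sh _)]
  refine mean_congr fun t => ?_
  have key : ∀ (F e : ℂ) (φ v : ℝ), F = (P.w t : ℂ) * (ee t * e) →
      ‖F‖ - (F * ee (-φ)).re = P.w t * exc (ee (φ - t)) e := by
    intro F e φ v hF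
    have hn : ‖F‖ = P.w t * ‖e‖ := by
      rw [hF, norm_mul, norm_mul, norm_ee, one_mul, Complex.norm_real, Real.norm_eq_abs, abs_of_nonneg (hr.w0 t)]
    have h2 : F * ee (-φ) = (P.w t : ℂ) * ((starRingEnd ℂ) (ee (φ - t)) * e) := by
      rw [hF, ← ee_neg]
      have : ee t * ee (-φ) = ee (-(φ - t)) := by rw [← ee_add]; congr 1; ring
      rw [← this]
      ring
    rw [hn, h2, Complex.re_ofReal_mul]
    unfold exc
    ring
  have x1 := key _ _ (P.ph1 (t + Real.pi / 3)) 0 (F1_at (P := P) (b := b) (z := z) t)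
  have x2 := key _ _ (P.ph2 (t + 2 * Real.pi / 3)) 0 (F2_at (P := P) (b := b) (z := z) t)
  rw [x1, x2]
  have y1 := exc_sub (P.u1 t) (P.v1 t) (g1 (b t) (z t))
  have y2 := exc_sub (P.u2 t) (P.v2 t) (g2 (b t) (z t))
  unfold Par.v1 at y1
  unfold Par.v2 at y2
  rw [y1, y2]
  unfold Xt Ut Par.v1 Par.v2
  ring

/-- the local lemma in the mean -/
theorem step_loc (h : AdmQ 2 b z) (hr : P.Reg) (hl : P.Loc) (hb : P.Blo b z) :
    mean (fun t => P.w t * P.lo t (b t) (z t)) ≤ 2 * mean (fun t => P.w t * Xt P b z t) := by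
  have blo : BR fun t => P.lo t (b t) (z t) := ⟨hb.1, hb.2⟩
  have bX := (w_br hr).mul (Xt_br h hr)
  have bL := (w_br hr).mul blo
  have hw2 : ∀ t, P.w (t + Real.pi) = P.w t := fun t => hr.wgt.per t
  have hz' : ∀ t, z (t + 2 * Real.pi) = z t := fun t => by
    rw [show t + 2 * Real.pi = t + Real.pi + Real.pi by ring, h.perz, h.perz, neg_neg]
  have hper : ∀ t, P.w (t + 2 * Real.pi) * Xt P b z (t + 2 * Real.pi) = P.w t * Xt P b z t := by
    intro t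
    unfold Xt Par.u1 Par.u2
    rw [hr.pu1, hr.pu2, hz', per2 h.perb]
    have : P.w (t + 2 * Real.pi) = P.w t := by
      rw [show t + 2 * Real.pi = t + Real.pi + Real.pi by ring, hw2, hw2]
    rw [this]
  rw [mean_pair bX hper, ← mul_assoc]
  norm_num
  refine mean_mono bL (bX.add (bX.sh _)) fun t => ?_
  have h1 := hl t (b t) (z t) (dom_of h t)
  have h2 : P.w (t + Real.pi) * Xt P b z (t + Real.pi) = P.w t *
      (exc (P.u1 (t + Real.pi)) (g1 (b t) (-z t)) + exc (P.u2 (t + Real.pi)) (g2 (b t) (-z t))) := by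
    unfold Xt
    rw [hw2, h.perb, h.perz]
  show P.w t * _ ≤ P.w t * Xt P b z t + P.w (t + Real.pi) * Xt P b z (t + Real.pi)
  rw [h2, ← mul_add]
  refine mul_le_mul_of_nonneg_left ?_ (hr.w0 t)
  unfold Xt
  linarith

end

end Helper49.Sharp
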