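import Pool.Agent.Helper49.RC.Defs

/-!
# Project RC (record constant for MP_b21509_co): the reduction, statements with complete proofs

FINAL STATEMENT OF THE REDUCTION (`StRed`): if `Rk κ` holds then every planar convex body has
`theta K ≤ 1/(κ m0)`, `m0 = 3√3/(2π)`. With `κ > 9846/10000` this is below the best known bound
for all bodies (`1.2281772`).

Scheme. Suppose all p-hexagons of `K` are small (`Small`, landed machine of project CB). Bring `K`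
into the position of minimal perimeter (`hf K 2 = 0`: POA, POB, POC) and scale it to the area `π/κ`.
SIX: closed hexagons `x` in `K` with `x₁ - x₂ + x₄ - x₅ = 0` have twice the signed area at most
`3√3 M`, `M < 1`. KSD: by duality, for every `t` there are `b, p` with `Psi K t b p ≤ 1 + M + ε`.
RGN, SEL: `p` may be taken in the parallelogram `Reg b`, and `b, p` as step functions of `t`. The
mean over `t` gives `(2/3) VV + mB < 2`. HPO, HFO, MIX: Minkowski's inequality in the Fourier form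
`area K * FM ≤ π VV²` without the second harmonic. So `FM < 9 κ (1 - mB/2)²`, against `Rk κ`.

For every module: file `Pool/Agent/<You>/RC/M_XXX.lean`, namespace `Pool.Agent.<You>.RC`, one
theorem `hXXX : ... → StXxx` as said in the docstring; all modules are independent. Basic facts on
`ee` are in `Pool/Agent/Helper49/LT/Base.lean`.

Facts on `sp` used everywhere (`K` a body, `K ⊆ closedBall 0 R`; prove what you need, each is a
few lines with `csSup_le`, `le_csSup`): `sp K (x + y) ≤ sp K x + sp K y`,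
`sp K (c x) = c sp K x` for real `c ≥ 0`, `|sp K x - sp K y| ≤ R ‖x - y‖`, `Re (z conj p) ≤ sp K p` for
`z ∈ K`, and `0 ≤ sp K p` if `0 ∈ K`.
-/

open MeasureTheory Set Filter Metric

namespace Helper49.RC

open Helper97.CB Helper49.LT

/-- MODULE SIX (about 150 lines). `theorem hSIX (h₁ : StWid) (h₂ : StHexA) (h₃ : StRot) : StSix`
(the three hypotheses are in `Pool/Agent/Helper97/CB/St.lean`).
Proof. For every unit `u` the body `K' = u K` satisfies `Small K' B` (StRot), so by StHexA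
`s * (wid K' 0 + wid K' s) < B` for `0 < s < cmax K'`, and `≤ B` for `s = cmax K'` by the continuity
of `wid K'` on `[0, cmax K']` (StWid; for instance `ContinuousWithinAt` and `le_of_tendsto`). In
particular `0 < B` (`wid K' 0 > 0`, `cmax K' > 0`). Put `d = x₁ - x₅ = x₂ - x₄`. If `d = 0` then
`ar6 x = 0` (expand: `x₁ = x₅`, `x₂ = x₄`, `cr` is antisymmetric). Otherwise `s = ‖d‖`, `u = conj d/‖d‖`,
`y_k = u x_k ∈ K'`, `ar6 y = ar6 x` (`cr_mul` in LT/Base), `y₁ = y₅ + s`, `y₂ = y₄ + s`. So `y₅, y₄ ∈ Sh K' s`,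
hence `s ≤ cmax K'` (StWid: `Sh K' s = ∅` for `s > cmax`), and
`ar6 y = s ((Im y₃ - Im y₀) + (Im y₄ - Im y₅))` (expand `cr`), `Im y₃ - Im y₀ ≤ wid K' 0` (StWid),
`Im y₄ - Im y₅ ≤ wid K' s` (definition of `wid`, imaginary parts bounded on the compact `K'`). -/
def StSix : Prop := ∀ (K : Set ℂ) (B : ℝ), IsBody K → Small K B → ∀ x : Fin 6 → ℂ,
  (∀ k, x k ∈ K) → x 1 - x 2 + x 4 - x 5 = 0 → ar6 x ≤ B

/-- MODULE KSD (about 250 lines). `theorem hKSD : StKsd`.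
Proof. Let `w = om = (1 + i√3)/2`, `s = (0, 1, -1, 0, 1, -1)`,
`C' = {x : Fin 6 → ℂ | ∀ k, x k ∈ K, x₁ - x₂ + x₄ - x₅ = 0}` (compact, convex, nonempty: constant families),
`X x = (1/6) ∑ x_k w^{-k}`, `V x = (1/6) ∑ x_k w^k`. (1) For `x ∈ C'`: `ar6 x = 3√3 (‖X x‖² - ‖V x‖²)` (a
polynomial identity in the real coordinates modulo the linear relation; put `x₅ = x₁ - x₂ + x₄`), so
`‖X‖² - ‖V‖² ≤ M`. (2) `F x = 2 Re (conj (ee t) X x) - ‖V x‖²` is continuous, let `x* ∈ C'` be a maximum,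
`V* = V x*`, `F* = F x* ≤ 1 + ‖X x*‖² - ‖V*‖² ≤ 1 + M`. For `x ∈ C'` and `τ ∈ (0,1]` the point
`x* + τ (x - x*)` is in `C'`, so `2τ Re (conj (ee t) (X x - X x*)) - 2τ Re (conj V* (V x - V*)) - τ² ‖V x - V*‖² ≤ 0`.
Divide by `τ`, `τ → 0`: `2 Re (conj (ee t) X x) - 2 Re (conj V* V x) ≤ F* - ‖V*‖²` for all `x ∈ C'`.
(3) Put `b = -(conj (ee t)) V*`, `Q_k = ee t (w^k + b w^{-k})` (`Q₀ = ee t f0 b`, `Q₁ = ee t f1 b 0`,
`Q₂ = ee t f2 b 0`, `Q_{k+3} = -Q_k`, `w^3 = -1`). Then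
`∑ Re (x_k conj Q_k) = 6 Re (conj (ee t) X x) - 6 Re (conj V* V x) ≤ 3 (F* - ‖V*‖²) =: G` on `C'`, and `0 ≤ G`
(constant families: the sum is `Re (x conj ∑ Q_k) = 0`). (4) The set
`C = {(∑ s_k x_k, ∑ Re (x_k conj Q_k)) : x_k ∈ K for all k} ⊆ ℂ × ℝ` is compact and convex (linear image of a compact
convex set), `(0, G + ε) ∉ C`. Separate (`geometric_hahn_banach_compact_point` or closed/point): a
continuous linear `f(z, r) = Re (conj v' z) + λ r` and `u` with `f c < u < f (0, G+ε)` for `c ∈ C`. As `(0,0) ∈ C`,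
`0 < u < λ (G + ε)`, so `λ > 0`. With `v = v'/λ`: `∑ Re (x_k conj Q_k) + Re (conj v ∑ s_k x_k) ≤ G + ε` for all
`x_k ∈ K`; take the supremum over each `x_k`: `∑_k sp K (Q_k + s_k v) ≤ G + ε`. (5) `p = conj (ee t) v`: the six
vectors `Q_k + s_k v` are the arguments in `Psi` (`(-Q₁ + v) = -(ee t * f1 b (-p))`, `-Q₂ - v = -(ee t * f2 b (-p))`), so
`Psi K t b p ≤ (G + ε)/3 + ‖V*‖² = F* + ε/3 ≤ 1 + M + ε`. -/
def StKsd : Prop := ∀ (K : Set ℂ) (M : ℝ), IsBody K →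
  (∀ x : Fin 6 → ℂ, (∀ k, x k ∈ K) → x 1 - x 2 + x 4 - x 5 = 0 →
    ar6 x ≤ 3 * Real.sqrt 3 * M) →
  ∀ t ε : ℝ, 0 < ε → ∃ b p : ℂ, Psi K t b p ≤ 1 + M + ε

/-- MODULE RGN (about 150 lines). `theorem hRGN : StRgn`.
Proof. Let `A = f1 b 0`, `B = f2 b 0`; `cr A B = (√3/2)(1 - ‖b‖²) ≠ 0` (`A = w + b conj w`, `B = w² + b conj w²`,
`w = om`), so `p = x A + y B` with real `x, y` (`x = cr p B/cr A B`, `y = cr A p/cr A B`). If
`|x| + |y| ≤ 1` take `p' = p`. Otherwise `s = |x| + |y| > 1`, `p' = p/s`. With `H(z) = sp K (ee t z)` (sublinear)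
the claim is `H(A+p') + H(-A+p') + H(B-p') + H(-B-p') ≤ H(A+p) + H(-A+p) + H(B-p) + H(-B-p)`
(`f1 b p = A + p`, `-(f1 b (-p)) = -A + p`, `f2 b p = B - p`, `-(f2 b (-p)) = -B - p`; the terms with `f0` and `‖b‖²`
are the same). The four vectors are permuted by `B ↦ -B` and by `A ↦ -A`, so assume `x, y ≥ 0`
(state a lemma for arbitrary vectors `A, B`, `x, y ≥ 0` and use it four times). Put `α = x/s`, `β = y/s`,
`α + β = 1`. Then `-A + p' = β (B - A)`, `B - p' = α (B - A)`, so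
`H(-A+p') + H(B-p') = H(B - A) ≤ H(-A+p) + H(B-p)`. Further
`A + p' = x₁ (A+p) + y₁ (-B-p)`, `-B - p' = x₂ (A+p) + y₂ (-B-p)` with `x₁ = (1+α+sβ)/(1+s)`, `y₁ = β(s-1)/(1+s)`,
`x₂ = α(s-1)/(1+s)`, `y₂ = (1+β+sα)/(1+s)`, all `≥ 0`, `x₁ + x₂ = 1`, `y₁ + y₂ = 1` (check with
`p = s(αA + βB)`), so `H(A+p') + H(-B-p') ≤ H(A+p) + H(-B-p)`. -/
def StRgn : Prop := ∀ (K : Set ℂ) (t : ℝ) (b p : ℂ), IsBody K → ‖b‖ ≠ 1 →
  ∃ p' : ℂ, Reg b p' ∧ Psi K t b p' ≤ Psi K t b p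

/-- MODULE SEL (about 250 lines). `theorem hSEL (h : StRgn) : StSel`.
Proof. Decrease `ε` so that `G + ε ≤ 2`. `K ⊆ closedBall 0 R`, so `|sp K x - sp K y| ≤ R ‖x - y‖`, and `0 ∈ K` gives
`sp ≥ 0`, `‖b‖² ≤ Psi K t b p`. (1) For every `t` there are `b, p` with `Reg b p`, `Psi K t b p ≤ G + ε/2`, `‖b‖² ≤ 2`:
take the given pair; if `‖b‖ = 1` replace `b` by `(1+δ) b`, `δ > 0` small (`Psi` is continuous in `b`: each
of the six vectors moves by at most `δ`); then RGN. (2) On `‖b‖² ≤ 2`, `Reg b p` all six vectors have norm `≤ 6`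
and `‖ee t - ee t'‖ ≤ |t - t'|`, so `|Psi K t b p - Psi K t' b p| ≤ 12 R |t - t'|`. Choose `N ≥ 1` with
`12 R π/N ≤ ε/2`, pairs `(b_i, p_i)` for the grid points `t_i = iπ/N`, `0 ≤ i < N`. For `t ∈ ℝ` let `j = ⌊N t/π⌋ ∈ ℤ`,
`i = j % N`, `m = j / N` (integer division), `β t = b_i`, `P t = (-1)^m p_i`. Measurable (functions of `⌊·⌋`,
`measurable_from_top.comp (Int.measurable_floor.comp ..)`). `t ↦ t + π` changes `j` to `j + N`, so `i` is the same and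
`m` becomes `m + 1`. `Psi K (t+π) b (-p) = Psi K t b p` (`ee (t+π) = -ee t`: the six vectors are permuted), so
`Psi K t (β t) (P t) = Psi K (t - mπ) b_i p_i ≤ Psi K t_i b_i p_i + ε/2 ≤ G + ε`, as `0 ≤ t - mπ - t_i ≤ π/N`.
`Reg b (-p)` follows from `Reg b p`. -/
def StSel : Prop := ∀ (K : Set ℂ) (G : ℝ), IsBody K → (0 : ℂ) ∈ K → G < 2 →
  (∀ t : ℝ, ∃ b p : ℂ, Psi K t b p ≤ G) → ∀ ε : ℝ, 0 < ε →
  ∃ β P : ℝ → ℂ, Adm β P ∧ ∀ t, Psi K t (β t) (P t) ≤ G + ε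

/-- MODULE HPO (about 250 lines). `theorem hHPO : StHpo`.
Proof (circumscribed polygon). `δ = 2π/N ≤ 2π/5`, `u_i = ee (δ i)`, `h_i = sp K u_i > 0` (`0` is an interior point), indices
modulo `N` (`ee` is `2π`-periodic). `ℓ_i = (h_{i+1} + h_{i-1} - 2 h_i cos δ)/sin δ ≥ 0`, because
`u_{i+1} + u_{i-1} = 2 cos δ u_i` and `sp` is sublinear, `cos δ > 0`. Let
`T_i = {u_i (λ h_i + i λ y) : 0 ≤ λ ≤ 1, -(h_{i-1} - h_i cos δ)/sin δ ≤ y ≤ (h_{i+1} - h_i cos δ)/sin δ}`.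
(1) `volume T_i ≤ ofReal (h_i ℓ_i/2)` (rotate, then for every real part `λ h_i`, `0 ≤ λ ≤ 1`, the section has length
`λ ℓ_i`; or a linear image of the triangle `0 ≤ y' ≤ λ ≤ 1` under a map of determinant `h_i ℓ_i`, which has area `1/2`).
(2) `K ⊆ ⋃ T_i`: let `z ∈ K`, `z ≠ 0`, and let `i` maximize `λ_i = Re (z conj u_i)/h_i`, `λ` the maximum; `λ ≤ 1` as
`z ∈ K`, and `λ > 0` (some `u_i` makes an angle `≤ δ/2 < π/2` with `z`). `y = z/λ` satisfies `Re (y conj u_i) = h_i` and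
`Re (y conj u_j) ≤ h_j` for all `j`; write `y = u_i (h_i + i y')`; `j = i+1`: `h_i cos δ + y' sin δ ≤ h_{i+1}`,
`j = i-1`: `h_i cos δ - y' sin δ ≤ h_{i-1}`. So `z = λ y ∈ T_i`. (3) `area K ≤ ∑ h_i ℓ_i/2` (`measure_biUnion_finset_le`),
and `∑ h_i ℓ_i/2 · sin δ = ∑ (h_i h_{i+1} - cos δ h_i²)` (shift the index in `∑ h_i h_{i-1}`). -/
def StHpo : Prop := ∀ (K : Set ℂ), IsBody K → (0 : ℂ) ∈ interior K → ∀ N : ℕ, 5 ≤ N →
  area K * Real.sin (2 * Real.pi / N) ≤ ∑ i ∈ Finset.range N,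
    (sp K (ee (2 * Real.pi / N * i)) * sp K (ee (2 * Real.pi / N * (i + 1)))
      - Real.cos (2 * Real.pi / N) * sp K (ee (2 * Real.pi / N * i)) ^ 2)

/-- MODULE HFO (about 300 lines). `theorem hHFO (h : StHpo) : StHfo`.
Proof. `h(t) = sp K (ee t)` is real, continuous (Lipschitz), `2π`-periodic; `a_n = hf K n` and
`a_{-n} = conj a_n`. Fix `m` and let `g(t) = Re (a_0 + 2 ∑_{n=1}^m a_n ee (n t))`, a smooth real function. For `N ≥ 5`,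
`δ = 2π/N`, `h_i = h(δ i)`, `g_i = g(δ i)`:
`∑ (h_i h_{i+1} - cos δ h_i²) = -(1/2) ∑ (h_{i+1} - h_i)² + (1 - cos δ) ∑ h_i²`, and
`-(1/2) x² ≤ -x y + (1/2) y²` with `y = g_{i+1} - g_i`; summation by parts
`∑ (h_{i+1} - h_i)(g_{i+1} - g_i) = -∑ h_i (g_{i+1} - 2 g_i + g_{i-1})` (periodic). So by HPO
`area K sin δ ≤ ∑ h_i (g_{i+1} - 2 g_i + g_{i-1}) + (1/2) ∑ (g_{i+1} - g_i)² + (1 - cos δ) ∑ h_i²`. Divide by `δ` and let
`N → ∞` (Riemann sums of continuous functions; `g_{i+1} - 2g_i + g_{i-1} = δ² g''(δ i) + O(δ³)`,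
`(g_{i+1}-g_i)² = δ² g'(δ i)² + O(δ³)` as `g` is smooth and periodic):
`area K ≤ ∫ h g'' + (1/2) ∫ g'² + (1/2) ∫ h²` over `[0, 2π]`. Orthogonality: `∫ h g'' = -2π·2 ∑_{n=1}^m n² ‖a_n‖²`
and `∫ g'² = 2π · 2 ∑_{n=1}^m n² ‖a_n‖²`. So `2π ∑_{n=1}^m n² ‖a_n‖² ≤ (1/2) ∫ h² - area K` for all `m`: summable, and
with Parseval `(1/2) ∫ h² = π (‖a_0‖² + 2 ∑_{n≥1} ‖a_n‖²)` (Mathlib: `tsum_sq_fourierCoeff` on the circle, or Bessel's
opposite by density) the claim follows with `m → ∞`. -/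
def StHfo : Prop := ∀ (K : Set ℂ), IsBody K → (0 : ℂ) ∈ interior K →
  Summable (fun n : ℕ => ((n : ℝ) ^ 2) * ‖hf K n‖ ^ 2) ∧
  area K ≤ Real.pi * (‖hf K 0‖ ^ 2 - 2 * ∑' n : ℕ, (((n : ℝ) + 1) ^ 2 - 1) * ‖hf K (n + 1)‖ ^ 2)

/-- MODULE MIX (about 300 lines). `theorem hMIX (h : StHfo) : StMix`.
Proof. `a_n = hf K n`, `h(t) = sp K (ee t)`, `σ_n = sg β P n`. (1) `∑ ‖a_n‖` converges (Cauchy-Schwarz with
`∑ n² ‖a_n‖² < ∞`), so by `has_pointwise_sum_fourier_series_of_summable` (continuous periodic function with summable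
coefficients) `h(t) = a_0 + 2 ∑_{n≥1} Re (a_n ee (n t))` for all `t` (`a_0` real, `a_{-n} = conj a_n`). For `z = ‖z‖ ee φ`:
`sp K z = ‖z‖ h(φ) = a_0 ‖z‖ + 2 ∑_{n≥1} Re (a_n conj (nn n z))` (also for `z = 0`), with `‖nn n z‖ ≤ ‖z‖`. (2) The
edges are bounded and measurable functions of `t`, so (dominated convergence, `hasSum_integral_of_summable_norm` or
`integral_tsum`) `VV = a_0 σ_0 + 2 ∑_{n≥1} Re (a_n conj σ_n)`. (3) `σ_1 = 0`: `nn 1 z = conj z` and the sum of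
the three edges is `ee t ((1 + w + w²) + (1 + conj w + conj w²) β t)`, whose integral over `[0,2π]` is `0`
(`β` has the period `π`, `ee (t+π) = -ee t`). `a_2 = 0` by hypothesis. So with
`X = 2 ∑_{n≥3} (n²-1) ‖a_n‖²`, `Y = 2 ∑_{n≥3} ‖σ_n‖²/(n²-1)` (convergent, `‖σ_n‖ ≤ C`):
`VV ≥ a_0 σ_0 - 2 ∑_{n≥3} ‖a_n‖ ‖σ_n‖ ≥ a_0 σ_0 - √X √Y`, `a_0, σ_0 ≥ 0` (`0 ∈ K`; `nn 0 z = ‖z‖`). (4) HFO:
`area K/π ≤ a_0² - X` (`n = 1` term is `0`, `n = 2` term is `0`), `FM = σ_0² - Y`. If `FM ≤ 0` the claim is trivial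
(`area K ≥ 0`). Otherwise `a_0 σ_0 - √X √Y ≥ √(a_0² - X) √(σ_0² - Y)` (Aczél: `(a σ - xy)² - (a²-x²)(σ²-y²) = (a y - σ x)²`)
and the squares give `(area K/π) FM ≤ VV²`. `0 ≤ VV` since `sp ≥ 0`. -/
def StMix : Prop := ∀ (K : Set ℂ) (β P : ℝ → ℂ), IsBody K → (0 : ℂ) ∈ interior K →
  hf K 2 = 0 → Adm β P → 0 ≤ VV K β P ∧ area K * FM β P ≤ Real.pi * VV K β P ^ 2

/-- MODULE POA (about 150 lines). `theorem hPOA : StPoa`.
Proof. `J(α,β) = ∫_0^{2π} sp K (conj α ee t + β ee (-t)) dt` is continuous (`sp K` Lipschitz). With `closedBall 0 r ⊆ K`: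
`sp K x ≥ r ‖x‖`, and `∫_0^{2π} ‖conj α ee t + β ee (-t)‖ dt ≥ ‖∫ (conj α ee t + β ee (-t)) ee (-t) dt‖ = 2π ‖α‖`. So on
`S = {‖α‖² - ‖β‖² = 1}` (closed, contains `(1,0)`, `‖β‖ ≤ ‖α‖`) the sublevel set `J ≤ J(1,0)` is bounded, hence compact,
and the continuous `J` has a minimum on it, which is a minimum on `S`. -/
def StPoa : Prop := ∀ (K : Set ℂ), IsBody K → (0 : ℂ) ∈ interior K →
  ∃ α β : ℂ, ‖α‖ ^ 2 - ‖β‖ ^ 2 = 1 ∧ ∀ α' β' : ℂ, ‖α'‖ ^ 2 - ‖β'‖ ^ 2 = 1 →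
    ∫ t in (0 : ℝ)..(2 * Real.pi), sp K ((starRingEnd ℂ) α * ee t + β * ee (-t)) ≤
      ∫ t in (0 : ℝ)..(2 * Real.pi), sp K ((starRingEnd ℂ) α' * ee t + β' * ee (-t))

/-- MODULE POB (about 300 lines). `theorem hPOB : StPob`.
Proof. `H = sp K` is continuous and positively homogeneous. (1) For `ζ ∈ ℂ`, `‖ζ‖ < 1`, and `L z = z + ζ conj z`
(real determinant `1 - ‖ζ‖² = D`, inverse `L⁻¹ z = (z - ζ conj z)/D`):
`∫_0^{2π} H (ee t + ζ ee (-t)) dt = D² ∫_0^{2π} H (ee t) / ‖1 - ζ ee (-2 t)‖³ dt`. Indeed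
`∫_{‖z‖ ≤ 1} H (L z) dz = D⁻¹ ∫_{‖L⁻¹ z‖ ≤ 1} H z dz` (linear change of variables,
`MeasureTheory.integral_comp_linear..`/`addHaar_preimage`; or `integral_image_eq_integral_abs_det_fderiv_smul`), and both
sides in polar coordinates (`Complex.integral_comp_polarCoord_symm`) are `(1/3) ∫ H (L (ee t)) dt` and
`D⁻¹ (1/3) ∫ H (ee t) ‖L⁻¹ (ee t)‖⁻³ dt`, `‖L⁻¹ (ee t)‖ = ‖1 - ζ ee (-2t)‖/D`. (2) The hypothesis with
`α' = 1/√D`, `β' = ζ/√D` (`‖α'‖² - ‖β'‖² = 1`) and homogeneity give `∫ H (ee t) ≤ D^{3/2} ∫ H (ee t) ‖1 - ζ ee (-2t)‖⁻³`.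
(3) Let `ζ = ε τ`, `‖τ‖ = 1`, `0 < ε ≤ 1/2`: `‖1 - ζ ee (-2t)‖⁻³ ≤ 1 + 3 ε Re (τ ee (-2t)) + C ε²`, `D ≤ 1`, so
`0 ≤ 3 ε ∫ H (ee t) Re (τ ee (-2t)) dt + C' ε²`; divide by `ε`, `ε → 0`: `0 ≤ Re (τ ∫ H (ee t) ee (-2t) dt)` for all unit
`τ`, so the integral vanishes, which is `hf K 2 = 0`. (One can also use a differentiable function of `ε` instead of
an explicit `C`.) -/
def StPob : Prop := ∀ (K : Set ℂ), IsBody K → (0 : ℂ) ∈ interior K →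
  (∀ α' β' : ℂ, ‖α'‖ ^ 2 - ‖β'‖ ^ 2 = 1 →
    ∫ t in (0 : ℝ)..(2 * Real.pi), sp K (ee t) ≤
      ∫ t in (0 : ℝ)..(2 * Real.pi), sp K ((starRingEnd ℂ) α' * ee t + β' * ee (-t))) →
  hf K 2 = 0

/-- MODULE POC (about 120 lines). `theorem hPOC (hA : StAff) (h₁ : StPoa) (h₂ : StPob) : StPoc` (`StAff` is in
`Pool/Agent/Helper49/LT/StA.lean`; import it).
Proof. Let `x₀ ∈ interior K`, `K₀ = K - x₀ = aff 1 0 (-x₀) '' K`, `0 ∈ interior K₀`. Take `α, β` from POA for `K₀` and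
`K₁ = aff α β 0 '' K₀ = aff α β c '' K`, `c = -(α x₀ + β conj x₀)`. `0 ∈ interior K₁` (an invertible linear map is
open; its inverse is `z ↦ conj α z - β conj z`). `sp K₁ p = sp K₀ (conj α p + β conj p)`, because
`Re ((α z + β conj z) conj p) = Re (z conj (conj α p + β conj p))`. So
`sp K₁ (conj α' ee t + β' ee (-t)) = sp K₀ (conj α'' ee t + β'' ee (-t))` with `conj α'' = conj α conj α' + β conj β'`,
`β'' = conj α β' + β α'`, and `‖α''‖² - ‖β''‖² = (‖α‖² - ‖β‖²)(‖α'‖² - ‖β'‖²) = 1`. So the minimality in POA is the hypothesis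
of POB for `K₁`. `IsBody K₁` by StAff (`‖β‖ < ‖α‖`). -/
def StPoc : Prop := ∀ (K : Set ℂ), IsBody K → ∃ α β c : ℂ, ‖α‖ ^ 2 - ‖β‖ ^ 2 = 1 ∧
  (0 : ℂ) ∈ interior (aff α β c '' K) ∧ hf (aff α β c '' K) 2 = 0

/-- MODULE RED (assembly, helper49). -/
def StRed : Prop := ∀ κ : ℝ, 0 < κ → Rk κ → ∀ K : Set ℂ, IsBody K →
  theta K ≤ ENNReal.ofReal (1 / (κ * m0))

end Helper49.RC
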