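import Pool.Agent.Helper49.LT.Base
import Pool.Agent.Helper97.CB.St

/-!
# Project RC (record constant for MP_b21509_co): definitions of the reduction

Every planar convex body `K` contains a hexagon with two parallel sides of equal length (p-hexagon)
of area at least `κ (3√3/(2π)) |K|`, `κ > .98454`, if the inequality `Rk κ` below holds for all
pairs of functions `β`, `P`. It is an inequality about explicit edge functions, without `K`.
-/

open MeasureTheory Set Filter Metric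

namespace Helper49.RC

open Helper97.CB Helper49.LT

/-- the support functional of `K` at the vector `p` -/
noncomputable def sp (K : Set ℂ) (p : ℂ) : ℝ :=
  sSup ((fun z : ℂ => (z * (starRingEnd ℂ) p).re) '' K)

/-- `om = e^{iπ/3}` -/
noncomputable def om : ℂ := ee (Real.pi / 3)

/-- the edge number 0 (in the rotating frame) -/
noncomputable def f0 (b : ℂ) : ℂ := 1 + b

/-- the edge number 1 (in the rotating frame); the edge number 4 is `-(f1 b (-p))` -/
noncomputable def f1 (b p : ℂ) : ℂ := om + (starRingEnd ℂ) om * b + p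

/-- the edge number 2 (in the rotating frame); the edge number 5 is `-(f2 b (-p))` -/
noncomputable def f2 (b p : ℂ) : ℂ := om ^ 2 + (starRingEnd ℂ) om ^ 2 * b - p

/-- the functional of the direction `t` -/
noncomputable def Psi (K : Set ℂ) (t : ℝ) (b p : ℂ) : ℝ :=
  (1 / 3) * (sp K (ee t * f0 b) + sp K (ee t * f1 b p) + sp K (ee t * f2 b p)
    + sp K (-(ee t * f0 b)) + sp K (-(ee t * f1 b (-p))) + sp K (-(ee t * f2 b (-p)))) + ‖b‖ ^ 2

/-- the region of `p`: the parallelogram with the vertices `± f1 b 0`, `± f2 b 0`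
(for `b = 0` the rectangle `|Re p| ≤ 1/2`, `|Im p| ≤ √3/2`) -/
def Reg (b p : ℂ) : Prop :=
  ∃ x y : ℝ, |x| + |y| ≤ 1 ∧ p = (x : ℂ) * f1 b 0 + (y : ℂ) * f2 b 0

/-- admissible pairs of functions: `b(t) = e^{it} β(t)`, `v(t) = e^{it} P(t)` -/
structure Adm (β P : ℝ → ℂ) : Prop where
  mb : Measurable β
  mp : Measurable P
  perb : ∀ t, β (t + Real.pi) = β t
  perp : ∀ t, P (t + Real.pi) = -P t
  bdb : ∀ t, ‖β t‖ ^ 2 ≤ 2
  reg : ∀ t, Reg (β t) (P t)

/-- the moment of order `n` of one edge: `|z| e^{-i n arg z}` -/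
noncomputable def nn (n : ℕ) (z : ℂ) : ℂ :=
  (‖z‖ : ℂ) * ((starRingEnd ℂ) z / (‖z‖ : ℂ)) ^ n

/-- the Fourier coefficient of order `n` of the edge measure -/
noncomputable def sg (β P : ℝ → ℂ) (n : ℕ) : ℂ :=
  (1 / (2 * Real.pi) : ℂ) * ∫ t in (0 : ℝ)..(2 * Real.pi),
    (nn n (ee t * f0 (β t)) + nn n (ee t * f1 (β t) (P t)) + nn n (ee t * f2 (β t) (P t)))

/-- mean of `|b|²` -/
noncomputable def mB (β : ℝ → ℂ) : ℝ :=
  (1 / (2 * Real.pi)) * ∫ t in (0 : ℝ)..(2 * Real.pi), ‖β t‖ ^ 2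

/-- the area form (divided by `π`) of the body with the edge measure, without the second harmonic:
`σ₀² - 2 ∑_{n ≥ 3} |σ_n|²/(n² - 1)` -/
noncomputable def FM (β P : ℝ → ℂ) : ℝ :=
  ‖sg β P 0‖ ^ 2 - 2 * ∑' n : ℕ, ‖sg β P (n + 3)‖ ^ 2 / (((n : ℝ) + 3) ^ 2 - 1)

/-- the target inequality -/
def Rk (κ : ℝ) : Prop := ∀ β P : ℝ → ℂ, Adm β P → mB β ≤ 2 → 9 * κ * (1 - mB β / 2) ^ 2 ≤ FM β P

/-- mean of the support functional over the edges 0, 1, 2 -/
noncomputable def VV (K : Set ℂ) (β P : ℝ → ℂ) : ℝ :=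
  (1 / (2 * Real.pi)) * ∫ t in (0 : ℝ)..(2 * Real.pi),
    (sp K (ee t * f0 (β t)) + sp K (ee t * f1 (β t) (P t)) + sp K (ee t * f2 (β t) (P t)))

/-- Fourier coefficients of the support function of `K` -/
noncomputable def hf (K : Set ℂ) (n : ℕ) : ℂ :=
  (1 / (2 * Real.pi) : ℂ) * ∫ t in (0 : ℝ)..(2 * Real.pi), (sp K (ee t) : ℂ) * ee (-(n : ℝ) * t)

/-- twice the signed area of the closed hexagon `x 0, .., x 5` -/
noncomputable def ar6 (x : Fin 6 → ℂ) : ℝ :=
  cr (x 0) (x 1) + cr (x 1) (x 2) + cr (x 2) (x 3) + cr (x 3) (x 4) + cr (x 4) (x 5)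
    + cr (x 5) (x 0)

end Helper49.RC
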