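import Pool.Agent.Helper49.RC.CellR
import Pool.Agent.Helper30.SH.ZRow

/-!
# Project RC, SHARP: the functions of a record in packed form (helper54's `FP`), exact

`zsF : 10^5 z0`, `fF : 5·10^10 f`, `wF : 10^5 w`, `wfF : 5·10^15 w f`, `b2F, b3F : 2·10^5 b2_0, b3_0`.
`okT b r R : Bool` is the kernel check; `..F_sound` the values, `fc_..` the Fourier coefficients (helper30's `cf`).
-/

set_option autoImplicit false

open MeasureTheory Set Filter Metric

namespace Helper49.Cell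

open Helper49.LT hiding sg
open Helper49.Sharp
open Helper56.RC (fc)
open Helper76.RC.TPoly Helper54.RC.Fast Helper76.RC.ExpF Helper76.RC.TrD
open Helper87.RC (BM)
open Helper95.RC (Sup)
open Helper30.SH (cf fc_V)

namespace Rec

variable (R : Rec) (b r : ℕ)

/-- `10^5 z0`, window 12 -/
def zsF : FP := fpZ b R.z
/-- `10^10 |z0|²`, window 24 -/
def sqF : FP := mulF b (zsF R b) (cjF b (zsF R b))
/-- `5·10^10 f`, `f = 17/20 - (4/5) |z0|²`, window 24 -/
def fF : FP := subF b (cst b 24 42500000000) (smF b 4 (sqF R b))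
/-- `10^5 w`, window 2 -/
def wF : FP := ofL b 2 [R.e1, 0, 100000, 0, R.e1] [Int.neg R.e2, 0, 0, 0, R.e2]
/-- `5·10^15 w f`, window 26 -/
def wfF : FP := mulF b (wF R b) (fF R b)
/-- `c` (an integer) added -/
def adC (b : ℕ) (z : FP) (c : ℤ) : FP :=
  bif decide (0 ≤ c) then addF b z (cst b z.N c.toNat) else subF b z (cst b z.N (Int.neg c).toNat)
/-- `2·10^5 b2_0`, window `2 b2.length` -/
def b2F : FP := adC b (zD b (toD R.b2)) (2 * R.b20)
/-- `2·10^5 b3_0` -/
def b3F : FP := adC b (zD b (toD R.b3)) (2 * R.b30)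

def okC (b r : ℕ) (z : FP) (c : ℤ) : Bool :=
  bif decide (c.natAbs < 2 ^ b) then
    bif decide (0 ≤ c) then oka b r z (cst b z.N c.toNat) else oka b r z (cst b z.N (Int.neg c).toNat)
  else false

/-- the check of all tables -/
def okT : Bool :=
  bif Nat.ble r (Nat.succ b) then
    bif Nat.ble 60 b then
      bif okF b R.z then
        bif okn b r (zsF R b) then
          bif okm b r (zsF R b) (cjF b (zsF R b)) then
            bif oks b r 4 (sqF R b) then
              bif oka b r (cst b 24 42500000000) (smF b 4 (sqF R b)) then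
                bif rng b [R.e1, 0, 100000, 0, R.e1] then
                  bif rng b [Int.neg R.e2, 0, 0, 0, R.e2] then
                    bif okm b r (wF R b) (fF R b) then
                      bif okD b (toD R.b2) then
                        bif okD b (toD R.b3) then
                          bif okC b r (zD b (toD R.b2)) (2 * R.b20) then
                            okC b r (zD b (toD R.b3)) (2 * R.b30)
                          else false
                        else false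
                      else false
                    else false
                  else false
                else false
              else false
            else false
          else false
        else false
      else false
    else false
  else false

variable {R b r}

theorem adC_sound (hr : r ≤ b + 1) (z : FP) (hz : wf b z = true) (c : ℤ) (h : okC b r z c = true) :
    wf b (adC b z c) = true ∧ ∀ t, V b (adC b z c) t = V b z t + (c : ℂ) := by
  unfold okC at h
  rw [bif_iff] at h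
  obtain ⟨h1, h2⟩ := h
  have h1 : c.natAbs < 2 ^ b := of_decide_eq_true h1
  unfold adC
  by_cases hc : 0 ≤ c
  · have e1 : decide (0 ≤ c) = true := decide_eq_true hc
    rw [e1] at h2 ⊢
    simp only [cond_true] at h2 ⊢
    have e2 : c.toNat < 2 ^ b := by omega
    obtain ⟨k1, k2⟩ := cst_sound b z.N c.toNat e2
    obtain ⟨a1, a2⟩ := addF_sound b r hr _ _ hz k1 h2
    refine ⟨a1, fun t => ?_⟩
    rw [a2, k2]
    have : ((c.toNat : ℕ) : ℤ) = c := Int.toNat_of_nonneg hc
    congr 1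
    have h5 : (((c.toNat : ℕ) : ℤ) : ℂ) = (c : ℂ) := by rw [this]
    rw [← h5]; push_cast; rfl
  · have e1 : decide (0 ≤ c) = false := decide_eq_false hc
    rw [e1] at h2 ⊢
    simp only [cond_false] at h2 ⊢
    have e0 : (Int.neg c : ℤ) = -c := rfl
    rw [e0] at h2 ⊢
    have e2 : (-c).toNat < 2 ^ b := by omega
    obtain ⟨k1, k2⟩ := cst_sound b z.N (-c).toNat e2
    obtain ⟨a1, a2⟩ := subF_sound b r hr _ _ hz k1 h2
    refine ⟨a1, fun t => ?_⟩
    rw [a2, k2]
    have : (((-c).toNat : ℕ) : ℤ) = -c := Int.toNat_of_nonneg (by omega)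
    have h5 : ((((-c).toNat : ℕ) : ℤ) : ℂ) = ((-c : ℤ) : ℂ) := by rw [this]
    push_cast at h5
    rw [h5]
    ring

/-- the checks one by one -/
theorem okT_iff : okT R b r = true ↔ r ≤ b + 1 ∧ 60 ≤ b ∧ okF b R.z = true ∧ okn b r (zsF R b) = true ∧
    okm b r (zsF R b) (cjF b (zsF R b)) = true ∧ oks b r 4 (sqF R b) = true ∧
    oka b r (cst b 24 42500000000) (smF b 4 (sqF R b)) = true ∧ rng b [R.e1, 0, 100000, 0, R.e1] = true ∧
    rng b [Int.neg R.e2, 0, 0, 0, R.e2] = true ∧ okm b r (wF R b) (fF R b) = true ∧ okD b (toD R.b2) = true ∧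
    okD b (toD R.b3) = true ∧ okC b r (zD b (toD R.b2)) (2 * R.b20) = true ∧
    okC b r (zD b (toD R.b3)) (2 * R.b30) = true := by
  unfold okT
  simp only [bif_iff]
  rw [Nat.ble_eq, Nat.ble_eq]

theorem zsF_sound (h : okT R b r = true) : wf b (zsF R b) = true ∧ ∀ t, V b (zsF R b) t = 100000 * R.cb.z0 t := by
  rw [okT_iff] at h
  obtain ⟨a1, a2⟩ := fpZ_sound b R.z h.2.2.1
  refine ⟨a1, fun t => ?_⟩
  show V b (fpZ b R.z) t = _
  rw [a2]
  show _ = 100000 * (zA (-11) R.z t / 100000)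
  ring

theorem sqF_sound (h : okT R b r = true) :
    wf b (sqF R b) = true ∧ ∀ t, V b (sqF R b) t = 10000000000 * ((‖R.cb.z0 t‖ ^ 2 : ℝ) : ℂ) := by
  have hz := zsF_sound h
  rw [okT_iff] at h
  obtain ⟨c1, c2⟩ := cjF_sound b r h.1 _ h.2.2.2.1
  obtain ⟨m1, m2⟩ := mulF_sound b r h.1 _ _ hz.1 c1 h.2.2.2.2.1
  refine ⟨m1, fun t => ?_⟩
  show V b (mulF b _ _) t = _
  rw [m2, c2, hz.2, Complex.mul_conj, Complex.normSq_eq_norm_sq, norm_mul]
  have : ‖(100000 : ℂ)‖ = 100000 := by norm_num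
  rw [this]
  push_cast
  ring

theorem fF_sound (h : okT R b r = true) :
    wf b (fF R b) = true ∧ ∀ t, V b (fF R b) t = 50000000000 * ((R.cb.f t : ℝ) : ℂ) := by
  have hq := sqF_sound h
  rw [okT_iff] at h
  obtain ⟨s1, s2⟩ := smF_sound b r h.1 4 _ hq.1 h.2.2.2.2.2.1
  have hb : 42500000000 < 2 ^ b := lt_of_lt_of_le (by norm_num : 42500000000 < 2 ^ 60) (Nat.pow_le_pow_right (by norm_num) h.2.1)
  obtain ⟨k1, k2⟩ := cst_sound b 24 42500000000 hb
  obtain ⟨d1, d2⟩ := subF_sound b r h.1 _ _ k1 s1 h.2.2.2.2.2.2.1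
  refine ⟨d1, fun t => ?_⟩
  show V b (subF b _ _) t = _
  rw [d2, k2, s2, hq.2]
  show _ = 50000000000 * (((17 / 20 - 4 / 5 * ‖R.cb.z0 t‖ ^ 2 : ℝ)) : ℂ)
  push_cast
  ring

theorem wF_sound (h : okT R b r = true) :
    wf b (wF R b) = true ∧ ∀ t, V b (wF R b) t = 100000 * ((R.par.w t : ℝ) : ℂ) := by
  rw [okT_iff] at h
  obtain ⟨k1, k2⟩ := ofL_sound b 2 _ _ rfl rfl h.2.2.2.2.2.2.2.1 h.2.2.2.2.2.2.2.2.1
  refine ⟨k1, fun t => ?_⟩
  show V b (ofL b 2 _ _) t = _
  rw [k2]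
  have hx : ee (-(((2 : ℕ) : ℝ) * t)) * ee t ^ 2 = 1 := ee_neg_mul_pow 2 t
  have e2 : ee (2 * t) = ee t ^ 2 := by
    have := ee_nat 2 t
    push_cast at this
    exact this
  have e3 : (starRingEnd ℂ) (ee (2 * t)) = ee (-(((2 : ℕ) : ℝ) * t)) := by
    rw [← ee_neg]
    congr 1
  have hw : ((R.par.w t : ℝ) : ℂ) = 1 + (R.cb.eta * ee (2 * t) + (starRingEnd ℂ) (R.cb.eta * ee (2 * t))) := by
    rw [Complex.add_conj]
    show ((1 + 2 * (R.cb.eta * ee (2 * t) + 0 * ee (6 * t) + 0 * ee (10 * t)).re : ℝ) : ℂ) = _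
    rw [zero_mul, zero_mul, add_zero, add_zero]
    push_cast
    ring
  have he : R.cb.eta = ((R.e1 : ℂ) + Complex.I * (R.e2 : ℂ)) / 100000 := rfl
  have hc : (starRingEnd ℂ) R.cb.eta = ((R.e1 : ℂ) - Complex.I * (R.e2 : ℂ)) / 100000 := by
    rw [he, map_div₀, map_add, map_mul, Complex.conj_I]
    simp only [map_intCast, map_ofNat]
    ring
  rw [hw, map_mul, hc, he, e3, e2]
  unfold T TP.ev
  simp only [evr]
  have e4 : ((Int.neg R.e2 : ℤ) : ℂ) = -(R.e2 : ℂ) := by
    have : (Int.neg R.e2 : ℤ) = -R.e2 := rfl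
    rw [this]; push_cast; rfl
  rw [e4]
  push_cast at hx ⊢
  linear_combination (100000 + (R.e1 : ℂ) * ee t ^ 2 + Complex.I * (R.e2 : ℂ) * ee t ^ 2) * hx

theorem wfF_sound (h : okT R b r = true) :
    wf b (wfF R b) = true ∧ ∀ t, V b (wfF R b) t = 5000000000000000 * ((R.par.w t * R.cb.f t : ℝ) : ℂ) := by
  have h1 := wF_sound h
  have h2 := fF_sound h
  rw [okT_iff] at h
  obtain ⟨m1, m2⟩ := mulF_sound b r h.1 _ _ h1.1 h2.1 h.2.2.2.2.2.2.2.2.2.1
  refine ⟨m1, fun t => ?_⟩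
  show V b (mulF b _ _) t = _
  rw [m2, h1.2, h2.2]
  push_cast
  ring

theorem bV_F (hr : r ≤ b + 1) (c : ℤ) (l : List (ℤ × ℤ)) (h1 : okD b (toD l) = true)
    (h2 : okC b r (zD b (toD l)) (2 * c) = true) : wf b (adC b (zD b (toD l)) (2 * c)) = true ∧
    ∀ t, V b (adC b (zD b (toD l)) (2 * c)) t = 200000 * ((bV 100000 c l t : ℝ) : ℂ) := by
  obtain ⟨z1, z2⟩ := zD_sound b 100000 (by norm_num) (toD l) h1
  obtain ⟨a1, a2⟩ := adC_sound hr _ z1 _ h2
  refine ⟨a1, fun t => ?_⟩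
  rw [a2, z2]
  unfold bV
  push_cast
  ring

theorem b2F_sound (h : okT R b r = true) :
    wf b (b2F R b) = true ∧ ∀ t, V b (b2F R b) t = 200000 * ((R.cb.b2 t : ℝ) : ℂ) := by
  rw [okT_iff] at h
  exact bV_F h.1 _ _ h.2.2.2.2.2.2.2.2.2.2.1 h.2.2.2.2.2.2.2.2.2.2.2.2.1

theorem b3F_sound (h : okT R b r = true) :
    wf b (b3F R b) = true ∧ ∀ t, V b (b3F R b) t = 200000 * ((R.cb.b3 t : ℝ) : ℂ) := by
  rw [okT_iff] at h
  exact bV_F h.1 _ _ h.2.2.2.2.2.2.2.2.2.2.2.1 h.2.2.2.2.2.2.2.2.2.2.2.2.2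

/-! ### coefficients -/

theorem fc_of {z : FP} {f : ℝ → ℂ} {c : ℂ} (hc : c ≠ 0) (h : ∀ t, V b z t = c * f t) (n : ℤ) :
    fc f n = cf b z n / c := by
  have e : f = fun t => (1 / c) * V b z t := by
    funext t
    rw [h]
    field_simp
  have e2 : fc (fun t => (1 / c) * V b z t) n = (1 / c) * cf b z n := by
    rw [Helper87.RC.fc_cmul, fc_V]
  rw [e, e2]
  ring

theorem fcF_zs (h : okT R b r = true) (n : ℤ) : fc R.cb.z0 n = cf b (zsF R b) n / 100000 :=
  fc_of (by norm_num) (zsF_sound h).2 n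

theorem fcF_f (h : okT R b r = true) (n : ℤ) : fc (fun t => (R.cb.f t : ℂ)) n = cf b (fF R b) n / 50000000000 :=
  fc_of (by norm_num) (fF_sound h).2 n

theorem fcF_wf (h : okT R b r = true) (n : ℤ) :
    fc (fun t => ((R.par.w t * R.cb.f t : ℝ) : ℂ)) n = cf b (wfF R b) n / 5000000000000000 :=
  fc_of (by norm_num) (wfF_sound h).2 n

theorem fcF_w (h : okT R b r = true) (n : ℤ) : fc (fun t => (R.par.w t : ℂ)) n = cf b (wF R b) n / 100000 :=
  fc_of (by norm_num) (wF_sound h).2 n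

theorem fcF_b2 (h : okT R b r = true) (n : ℤ) : fc (fun t => (R.cb.b2 t : ℂ)) n = cf b (b2F R b) n / 200000 :=
  fc_of (by norm_num) (b2F_sound h).2 n

theorem fcF_b3 (h : okT R b r = true) (n : ℤ) : fc (fun t => (R.cb.b3 t : ℂ)) n = cf b (b3F R b) n / 200000 :=
  fc_of (by norm_num) (b3F_sound h).2 n

/-- the coefficient of an `FP` as a pair of integers (kernel computable) -/
def cfI (b : ℕ) (z : FP) (n : ℤ) : ℤ × ℤ :=
  bif decide (-(z.N : ℤ) ≤ n ∧ n ≤ z.N) then
    (Int.sub (Int.ofNat (dg b (n + z.N).toNat z.x)) (Int.ofNat (Nat.pow 2 b)),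
      Int.sub (Int.ofNat (dg b (n + z.N).toNat z.y)) (Int.ofNat (Nat.pow 2 b)))
  else (0, 0)

theorem cf_eq (b : ℕ) (z : FP) (n : ℤ) : cf b z n = zi (cfI b z n) := by
  unfold Helper30.SH.cf cfI
  by_cases hn : n ∈ Finset.Icc (-(z.N : ℤ)) z.N
  · have h2 : decide (-(z.N : ℤ) ≤ n ∧ n ≤ z.N) = true := decide_eq_true (Finset.mem_Icc.1 hn)
    rw [if_pos hn, h2]
    simp only [cond_true]
    unfold Helper54.RC.Fast.cc zi
    have a1 : ∀ x y : ℕ, ((Int.sub (Int.ofNat x) (Int.ofNat y) : ℤ) : ℂ) = (x : ℂ) - y := by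
      intro x y
      have : (Int.sub (Int.ofNat x) (Int.ofNat y) : ℤ) = (x : ℤ) - y := rfl
      rw [this]
      push_cast
      rfl
    rw [a1, a1]
    have a2 : ((Nat.pow 2 b : ℕ) : ℂ) = 2 ^ b := by
      show ((2 ^ b : ℕ) : ℂ) = _
      push_cast
      rfl
    rw [a2]
  · have h2 : decide (-(z.N : ℤ) ≤ n ∧ n ≤ z.N) = false :=
      decide_eq_false (fun h => hn (Finset.mem_Icc.2 h))
    rw [if_neg hn, h2]
    simp [zi]

end Rec

end Helper49.Cell
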