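import Pool.Agent.Helper49.RC.Comb4

/-!
# Project RC, SHARP, module COMB: `StD2` and `StPair` imply `StComb`
-/

open MeasureTheory Set Filter Metric

namespace Helper49.Sharp

open Helper49.LT hiding sg
open Helper49.RC Helper44.GQ
open Helper44.RCG (sgG N0)
open Helper56.RC (fc)
open Helper87.RC (BM intg_of_bdd fc_add fc_sub fc_cmul)
open Helper95.RC (Lf)
open Pool.Agent.Helper20.RC (wR hw al alQ L1 L2w L2b L2r lk sM eM eD DensI al_ee al_meas wR_wgt wR_meas wR_bd wR_per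
  int_meas int_bd hw_meas hw_abs alQ_bm alQ_per frame_true)

theorem Lf_nonneg (x : ℂ) : 0 ≤ Lf x := by
  unfold Lf
  positivity

theorem Lf_mul (w : ℝ) (x : ℂ) : Lf ((w : ℂ) * x) = w ^ 2 * Lf x := by
  unfold Lf
  rw [Complex.re_ofReal_mul, Complex.im_ofReal_mul]
  ring

theorem comb (hD : StD2) (hP : StPair) : StComb := by
  intro P b z h G
  have hr := G.reg
  obtain ⟨D, f1, f2⟩ := F_bm (P := P) h hr
  obtain ⟨D', k1, k2, kz⟩ := g_bm h
  have kb := b_bm h
  obtain ⟨E3, h3⟩ := dal_bm (P := P) h hr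
  -- the frame
  have he : ‖P.eta‖ + ‖(0 : ℂ)‖ + ‖(0 : ℂ)‖ ≤ 1 / 2 := by
    have := hr.eta
    simp only [norm_zero, add_zero]
    linarith
  have hF := frame_true (by norm_num : (0 : ℝ) < 2) h he hr.mps hr.pps hr.bps
  have hF' : 2 / 3 * ‖sgG (A0Q P.w 2 b) (AAQ P.w 2 b) (BBQ P.w 2 b) (vvS P.w z) 2‖ ^ 2
      + L1 P.eta 0 0 (P.al b)
      + 2 * (L2w P.eta 0 0 (P.F1 b z) (P.F2 b z) + L2b (P.al b) (P.F1 b z) (P.F2 b z) (al (P.F1 b z)) (al (P.F2 b z)))
      + P.NS b z - 9 + 9 * mean (fun t => P.w t * ‖b t‖ ^ 2)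
      ≤ FMQ P.w 2 b z - 9 * 1 * mQ P.w b ^ 2 := hF
  rw [link2_split h hr] at hF'
  -- (D2), pairing, curvature, excess, local lemma
  have h2 := hD (P.dal b) (P.F1 b z) (P.F2 b z) P.ph1 P.ph2 E3 D P.rho P.nu P.ga h3 (dal_per h hr) f1 f2
    hr.mph1 hr.mph2 hr.dph1 hr.dph2 hr.nu0 hr.fga
  have h2' : 2 * P.H0 b * P.s00 b z + D2 P.nu (Hk (P.dal b)) (P.eA b z) P.ga
      - P.nu * (P.s00 b z + 2 * ∑' k, ‖P.ga k‖) * (P.s00 b z - P.e00 b z)
      ≤ 2 * L2b (P.dal b) (P.F1 b z) (P.F2 b z) (al (P.F1 b z)) (al (P.F2 b z)) := h2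
  have hp := hP P b z h hr
  have hcur := step_cur h hr G.cur
  have hG := step_G (P := P) h hr
  have hloc := step_loc h hr G.loc G.blo
  have hlam := G.lam
  have hcs := G.cs
  unfold Par.Lam at hlam
  unfold Par.Cs at hcs
  -- bounded measurable functions
  have bw := w_br hr
  have bT := bw.mul (Tt_br h hr)
  have bX := bw.mul (Xt_br h hr)
  have bU := bw.mul (Ut_br h hr)
  have blo : BR fun t => P.lo t (b t) (z t) := ⟨G.blo.1, G.blo.2⟩
  have bwl := bw.mul blo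
  have bwb : BR fun t => P.w t * ‖b t‖ ^ 2 := bw.mul (BR.nrm kb).sq
  -- the local part
  have eTL : mean (fun t => P.w t * P.TL t (b t) (z t)) = 2 * mean (fun t => P.w t * Tt P b z t)
      - 2 * P.lam * mean (fun t => P.w t * Ut P b z t)
      + (9 - P.cs) * mean (fun t => P.w t * ‖b t‖ ^ 2)
      + (P.m - P.lam) * mean (fun t => P.w t * P.lo t (b t) (z t)) := by
    rw [← mean_cmul 2, ← mean_cmul (2 * P.lam), ← mean_cmul (9 - P.cs), ← mean_cmul (P.m - P.lam),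
      ← mean_sub (bT.cmul 2) (bU.cmul (2 * P.lam)),
      ← mean_add ((bT.cmul 2).sub (bU.cmul (2 * P.lam))) (bwb.cmul (9 - P.cs)),
      ← mean_add (((bT.cmul 2).sub (bU.cmul (2 * P.lam))).add (bwb.cmul (9 - P.cs))) (bwl.cmul (P.m - P.lam))]
    refine mean_congr fun t => ?_
    unfold Par.TL Tt Ut
    ring
  -- split of the means
  have eG : P.s00 b z - P.e00 b z = mean (fun t => P.w t * Xt P b z t) + mean (fun t => P.w t * Ut P b z t) := by
    rw [hG, ← mean_add bX bU]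
    exact mean_congr fun t => by ring
  have eC : mean (fun t => P.w t * (Tt P b z t + P.m * Xt P b z t)) =
      mean (fun t => P.w t * Tt P b z t) + P.m * mean (fun t => P.w t * Xt P b z t) := by
    rw [← mean_cmul P.m, ← mean_add bT (bX.cmul P.m)]
    exact mean_congr fun t => by ring
  rw [eC] at hcur
  have hmb : 0 ≤ mean (fun t => P.w t * ‖b t‖ ^ 2) := mean_nonneg fun t => mul_nonneg (hr.w0 t) (by positivity)
  have hcs2 : 2 / 3 * ‖P.sig b‖ * mean (fun t => P.w t * ‖b t‖ ^ 2) ≤ P.cs * mean (fun t => P.w t * ‖b t‖ ^ 2) :=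
    mul_le_mul_of_nonneg_right hcs hmb
  have hml : (P.m - P.lam) * mean (fun t => P.w t * P.lo t (b t) (z t)) ≤
      (P.m - P.lam) * (2 * mean (fun t => P.w t * Xt P b z t)) := mul_le_mul_of_nonneg_left hloc hr.m0
  unfold Par.EP
  rw [eTL]
  rw [eG] at hlam h2'
  have es : P.s00 b z = P.e00 b z + (mean (fun t => P.w t * Xt P b z t) + mean (fun t => P.w t * Ut P b z t)) := by
    linarith [eG]
  have h20 : 2 * P.H0 b * P.s00 b z = 2 * P.H0 b * P.e00 b z
      + 2 * P.H0 b * (mean (fun t => P.w t * Xt P b z t) + mean (fun t => P.w t * Ut P b z t)) := by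
    rw [es]; ring
  rw [h20] at h2'
  linarith

end Helper49.Sharp
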