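import Pool.Agent.Helper49.RC.Deg

/-!
Project RC (MP_16b052_ag, characteristic two): the action of the group (module U1) and degree
three in all weights (module U3).
-/

set_option autoImplicit false

namespace Helper49.RC

open MvPolynomial Helper49.RA Helper47.RB

universe u

section

variable {k : Type u} [Field k]

theorem sg_X (i : Fin 30) : sg k (X i) = X (p1 i) := rename_X _ _

theorem sg_hom {d : ℕ} {s : MvPolynomial (Fin 30) k} (hs : s.IsHomogeneous d) :
    (sg k s).IsHomogeneous d := hs.rename_isHomogeneous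

theorem sg_surj (t : MvPolynomial (Fin 30) k) : ∃ t', sg k t' = t :=
  rename_surjective p1 p1_bij.2 t

theorem phi_sg {Φ : MvPolynomial (Fin 30) k →ₗ[k] k} (hΦ : IsPh k Φ)
    (s : MvPolynomial (Fin 30) k) : Φ (sg k s) = Φ s := by
  have h4 : ∀ s : MvPolynomial (Fin 30) k, s.IsHomogeneous 4 → Φ (sg k s) = Φ s := by
    intro s hs
    have := ext4 (Φ ∘ₗ (sg k).toLinearMap - Φ) (fun a b c d => by
      show Φ (sg k (X a * X b * X c * X d)) - Φ (X a * X b * X c * X d) = 0
      rw [map_mul (sg k), map_mul (sg k), map_mul (sg k), sg_X, sg_X, sg_X, sg_X, hΦ.val, hΦ.val,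
        p1_val, p1_val, p1_val, p1_val, tau_pn a.isLt b.isLt c.isLt d.isLt, sub_self]) s hs
    exact sub_eq_zero.1 this
  have hd : ∀ (d : ℕ) (s : MvPolynomial (Fin 30) k), s.IsHomogeneous d → Φ (sg k s) = Φ s := by
    intro d s hs
    by_cases h : d = 4
    · subst h; exact h4 s hs
    · rw [hΦ.deg d s hs h, hΦ.deg d _ (sg_hom hs) h]
  rw [← sum_homogeneousComponent s, map_sum, map_sum, map_sum]
  exact Finset.sum_congr rfl fun d _ => hd d _ (homogeneousComponent_isHomogeneous d s)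

theorem ann_sg {Φ : MvPolynomial (Fin 30) k →ₗ[k] k} (hΦ : IsPh k Φ)
    (s : MvPolynomial (Fin 30) k) (hs : s ∈ annI Φ) : sg k s ∈ annI Φ := by
  intro t
  obtain ⟨t', rfl⟩ := sg_surj t
  rw [← map_mul, phi_sg hΦ]
  exact hs t'

theorem kf_sg {Φ : MvPolynomial (Fin 30) k →ₗ[k] k} (hΦ : IsPh k Φ)
    (G : MvPolynomial (Fin 30) k →ₗ[k] k) (hG : KF Φ G) :
    KF Φ (G ∘ₗ (sg k).toLinearMap) := by
  intro s hs
  show G (sg k s) = 0
  apply hG
  have h1 : Ideal.map (sg k) (annI Φ) ≤ annI Φ := by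
    rw [Ideal.map_le_iff_le_comap]
    exact fun t ht => ann_sg hΦ t ht
  have h2 : sg k s ∈ Ideal.map (sg k) (annI Φ ^ 2) := Ideal.mem_map_of_mem _ hs
  rw [Ideal.map_pow] at h2
  exact Ideal.pow_right_mono h1 2 h2

theorem pd_sg (i : Fin 30) (s : MvPolynomial (Fin 30) k) :
    pderiv (p1 i) (sg k s) = sg k (pderiv i s) :=
  pderiv_rename p1_bij.1 i s

/-- Module U1. -/
theorem stU1 : StU1.{u} := fun _ _ _ hΦ => ⟨phi_sg hΦ, ann_sg hΦ, kf_sg hΦ, pd_sg⟩

/-- Coefficients and the action. -/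
theorem coeff_sg (r : MvPolynomial (Fin 30) k) (i j l : Fin 30) :
    coeff (Finsupp.single (p1 i) 1 + Finsupp.single (p1 j) 1 + Finsupp.single (p1 l) 1) (sg k r) =
      coeff (Finsupp.single i 1 + Finsupp.single j 1 + Finsupp.single l 1) r := by
  have h := coeff_rename_mapDomain p1 p1_bij.1 r
    (Finsupp.single i 1 + Finsupp.single j 1 + Finsupp.single l 1)
  rw [Finsupp.mapDomain_add, Finsupp.mapDomain_add, Finsupp.mapDomain_single,
    Finsupp.mapDomain_single, Finsupp.mapDomain_single] at h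
  exact h

theorem w_iter (m : ℕ) (i : Fin 30) : w (p1^[m] i) = 12 ^ m * w i := by
  induction m with
  | zero => rw [pow_zero, one_mul]; rfl
  | succ m ih => rw [Function.iterate_succ_apply', w_p1, ih, pow_succ]; ring

theorem reps_cyc' (u : ZMod 61) : ∃ m : ℕ, 12 ^ m * u ∈ reps := by
  obtain ⟨u0, h0, h, hh, rfl⟩ := reps_cyc u
  refine ⟨15 - h, ?_⟩
  have h1 : (12 : ZMod 61) ^ (15 - h) * (12 ^ h * u0) = u0 := by
    rw [← mul_assoc, ← pow_add, Nat.sub_add_cancel hh.le]
    have : (12 : ZMod 61) ^ 15 = 1 := by decide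
    rw [this, one_mul]
  rw [h1]
  exact h0

/-- Module U3. -/
theorem stU3 : StU3.{u} := by
  intro k _ Φ hΦ hB r hr _ hd
  -- the conditions for the iterates
  have key : ∀ (m : ℕ) (r : MvPolynomial (Fin 30) k), r.IsHomogeneous 3 →
      (∀ i, pderiv i r ∈ annI Φ) → ∀ i j l : Fin 30, 12 ^ m * (w i + w j + w l) ∈ reps →
      coeff (Finsupp.single i 1 + Finsupp.single j 1 + Finsupp.single l 1) r = 0 := by
    intro m
    induction m with
    | zero =>
      intro r hr hd i j l h
      rw [pow_zero, one_mul] at h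
      exact hB _ h r hr hd i j l rfl
    | succ m ih =>
      intro r hr hd i j l h
      rw [← coeff_sg]
      refine ih (sg k r) (sg_hom hr) (fun a => ?_) (p1 i) (p1 j) (p1 l) ?_
      · obtain ⟨a', rfl⟩ := p1_bij.2 a
        rw [pd_sg]
        exact ann_sg hΦ _ (hd a')
      · rw [w_p1, w_p1, w_p1]
        have : (12 : ZMod 61) ^ m * (12 * w i + 12 * w j + 12 * w l) =
            12 ^ (m + 1) * (w i + w j + w l) := by ring
        rw [this]
        exact h
  ext m
  rw [coeff_zero]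
  by_cases hm : m.degree = 3
  · obtain ⟨a, n, rfl, hn⟩ := deg_succ hm
    obtain ⟨b, n', rfl, hn'⟩ := deg_succ hn
    obtain ⟨c, rfl⟩ := deg_one hn'
    obtain ⟨e, he⟩ := reps_cyc' (w c + w b + w a)
    exact key e r hr hd c b a he
  · exact hr.coeff_eq_zero hm

end

end Helper49.RC
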