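import Pool.Agent.Helper49.RC.Sec3

/-!
Project RC (MP_16b052_ag, characteristic two): the conditions `Ind`, `Cub`, `Three`, `Four`, `Sq`
of the criterion in terms of the table of the functional.
-/

set_option autoImplicit false

namespace Helper49.RC

open MvPolynomial Helper49.RA

universe u

section

variable {k : Type u} [Field k] {K : Type}

/-- `R` is the table of `Φ`. -/
def IsTbl (Φ : MvPolynomial K k →ₗ[k] k) (R : K → K → K → K → k) : Prop :=
  ∀ a b c d, Φ (X a * X b * X c * X d) = R a b c d

theorem ext0 (H : MvPolynomial K k →ₗ[k] k) (h : H 1 = 0) (s : MvPolynomial K k)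
    (hs : s.IsHomogeneous 0) : H s = 0 := by
  obtain ⟨c, rfl⟩ := ZIaux.hom0 s hs
  have : (C c : MvPolynomial K k) = c • 1 := by rw [smul_eq_C_mul, mul_one]
  rw [this, map_smul, h, smul_zero]

theorem extS (H : MvPolynomial K k →ₗ[k] k) (d : ℕ)
    (h : ∀ (a : K) (t : MvPolynomial K k), t.IsHomogeneous d → H (X a * t) = 0)
    (s : MvPolynomial K k) (hs : s.IsHomogeneous (d + 1)) : H s = 0 :=
  gen k K (LinearMap.ker H) d h s hs

theorem ext2 (H : MvPolynomial K k →ₗ[k] k) (h : ∀ a b, H (X a * X b) = 0)
    (s : MvPolynomial K k) (hs : s.IsHomogeneous 2) : H s = 0 := by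
  refine extS H 1 (fun a t ht => ?_) s hs
  refine extS (H ∘ₗ LinearMap.mulLeft k (X a : MvPolynomial K k)) 0 (fun b t ht => ?_) t ht
  refine ext0 ((H ∘ₗ LinearMap.mulLeft k (X a : MvPolynomial K k)) ∘ₗ
    LinearMap.mulLeft k (X b : MvPolynomial K k)) ?_ t ht
  show H (X a * (X b * 1)) = 0
  rw [mul_one]
  exact h a b

theorem ext3 (H : MvPolynomial K k →ₗ[k] k) (h : ∀ a b c, H (X a * X b * X c) = 0)
    (s : MvPolynomial K k) (hs : s.IsHomogeneous 3) : H s = 0 := by
  refine extS H 2 (fun a t ht => ?_) s hs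
  refine ext2 (H ∘ₗ LinearMap.mulLeft k (X a : MvPolynomial K k)) (fun b c => ?_) t ht
  show H (X a * (X b * X c)) = 0
  rw [← mul_assoc]
  exact h a b c

theorem ext4 (H : MvPolynomial K k →ₗ[k] k) (h : ∀ a b c d, H (X a * X b * X c * X d) = 0)
    (s : MvPolynomial K k) (hs : s.IsHomogeneous 4) : H s = 0 := by
  refine extS H 3 (fun a t ht => ?_) s hs
  refine ext3 (H ∘ₗ LinearMap.mulLeft k (X a : MvPolynomial K k)) (fun b c d => ?_) t ht
  show H (X a * (X b * X c * X d)) = 0
  have : (X a * (X b * X c * X d) : MvPolynomial K k) = X a * X b * X c * X d := by ring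
  rw [this]
  exact h a b c d

variable [Fintype K] [DecidableEq K]

/-- The value of `Σ m x y Φ (X y ∂_x)` on a product of four variables. -/
theorem sum_pd {Φ : MvPolynomial K k →ₗ[k] k} {R : K → K → K → K → k} (hR : IsTbl Φ R)
    (m : K → K → k) (a b c d : K) :
    ∑ x, ∑ y, m x y * Φ (X y * pderiv x (X a * X b * X c * X d)) =
      ∑ y, (m a y * R y b c d + m b y * R a y c d + m c y * R a b y d + m d y * R a b c y) := by
  have e1 : ∀ x y, m x y * Φ (X y * pderiv x (X a * X b * X c * X d)) =
      (if x = a then m a y * R y b c d else 0) + (if x = b then m b y * R a y c d else 0) +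
      (if x = c then m c y * R a b y d else 0) + (if x = d then m d y * R a b c y else 0) := by
    intro x y
    have e2 : (X y * pderiv x (X a * X b * X c * X d) : MvPolynomial K k) =
        (if x = a then X y * X b * X c * X d else 0) + (if x = b then X a * X y * X c * X d else 0)
        + (if x = c then X a * X b * X y * X d else 0) +
        (if x = d then X a * X b * X c * X y else 0) := by
      have e3 : ∀ z : K, (pderiv x (X z) : MvPolynomial K k) = if x = z then 1 else 0 := by
        intro z
        rw [pderiv_X]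
        by_cases h : x = z
        · subst h; rw [Pi.single_eq_same, if_pos rfl]
        · rw [Pi.single_eq_of_ne (Ne.symm h), if_neg h]
      rw [pderiv_mul, pderiv_mul, pderiv_mul, e3, e3, e3, e3]
      split_ifs <;> ring
    rw [e2, map_add, map_add, map_add]
    have e4 : ∀ (P : Prop) [Decidable P] (r : MvPolynomial K k),
        Φ (if P then r else 0) = if P then Φ r else 0 := by
      intro P _ r
      split_ifs
      · rfl
      · exact map_zero _
    rw [e4, e4, e4, e4, hR, hR, hR, hR]
    by_cases h1 : x = a <;> by_cases h2 : x = b <;> by_cases h3 : x = c <;> by_cases h4 : x = d <;>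
      simp only [h1, h2, h3, h4, if_true, if_false] <;> (try subst h1) <;> (try subst h2) <;>
      (try subst h3) <;> (try subst h4) <;> simp_all <;> ring
  simp only [e1, Finset.sum_add_distrib]
  congr 1
  · congr 1
    · congr 1
      · rw [Finset.sum_comm]
        exact Finset.sum_congr rfl fun y _ => by
          rw [Finset.sum_ite_eq' Finset.univ a, if_pos (Finset.mem_univ _)]
      · rw [Finset.sum_comm]
        exact Finset.sum_congr rfl fun y _ => by
          rw [Finset.sum_ite_eq' Finset.univ b, if_pos (Finset.mem_univ _)]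
    · rw [Finset.sum_comm]
      exact Finset.sum_congr rfl fun y _ => by
        rw [Finset.sum_ite_eq' Finset.univ c, if_pos (Finset.mem_univ _)]
  · rw [Finset.sum_comm]
    exact Finset.sum_congr rfl fun y _ => by
      rw [Finset.sum_ite_eq' Finset.univ d, if_pos (Finset.mem_univ _)]

/-- The table form of `Ind`. -/
def TI (R : K → K → K → K → k) : Prop :=
  ∀ (β : k) (m : K → K → k),
    (∀ a b c d, β * R a b c d + ∑ y, (m a y * R y b c d + m b y * R a y c d +
      m c y * R a b y d + m d y * R a b c y) = 0) →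
    β = 0 ∧ ∃ ε : k, ∀ a b, m a b = if a = b then ε else 0

/-- The table form of `Cub`. -/
def T5 (R : K → K → K → K → k) : Prop :=
  ∀ (β : K → k) (g : K → K → K → k),
    (∀ v w p q r,
      β v * R w p q r + ∑ y, (g v w y * R y p q r + g v p y * R w y q r +
        g v q y * R w p y r + g v r y * R w p q y) =
      β w * R v p q r + ∑ y, (g w v y * R y p q r + g w p y * R v y q r +
        g w q y * R v p y r + g w r y * R v p q y)) →
    ∃ ε : K → k, ∀ v a b, g v a b = (if b = v then β a else 0) + (if a = b then ε v else 0)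

/-- The table form of `Three`. -/
def T3 [LE K] [DecidableLE K] (R : K → K → K → K → k) : Prop :=
  ∀ T : K → K → K → k, (∀ a b c, T a b c = T b a c) → (∀ a b c, T a b c = T a c b) →
    (∀ a x y, ∑ b, ∑ c, (if b ≤ c then
      T a b c * (1 + (if b = a then 1 else 0) + (if c = a then 1 else 0)) * R b c x y else 0) = 0) →
    ∀ a b c, T a b c = 0

/-- The table form of `Four`. -/
def T4 (R : K → K → K → K → k) : Prop :=
  ∀ γ : K → K → K → K → k, (∀ a b c d, γ a b c d = γ b a c d) →
    (∀ a b c d, γ a b c d = γ a c b d) → (∀ a b c d, γ a b c d = γ a b d c) →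
    (∀ P Q : K → K → k, (∀ x y, ∑ a, ∑ b, P a b * R a b x y = 0) →
      (∀ x y, ∑ a, ∑ b, Q a b * R a b x y = 0) →
      ∑ a, ∑ b, ∑ c, ∑ d, P a b * Q c d * γ a b c d = 0) →
    ∃ (β : k) (m : K → K → k), ∀ a b c d, γ a b c d = β * R a b c d +
      ∑ y, (m a y * R y b c d + m b y * R a y c d + m c y * R a b y d + m d y * R a b c y)

/-- The table form of `Sq`. -/
def TS (R : K → K → K → K → k) : Prop :=
  ∀ a, ∃ b c, ∀ a', R a' a' b c = if a' = a then 1 else 0

omit [Fintype K] in
theorem sq_of {Φ : MvPolynomial K k →ₗ[k] k} {R : K → K → K → K → k} (hR : IsTbl Φ R)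
    (h : TS R) : Sq Φ := by
  intro a
  obtain ⟨b, c, hbc⟩ := h a
  exact ⟨b, c, fun a' => by rw [hR, hbc]⟩

omit [Fintype K] [DecidableEq K] in
theorem hom_four (a b c d : K) : (X a * X b * X c * X d : MvPolynomial K k).IsHomogeneous 4 :=
  (((isHomogeneous_X k a).mul (isHomogeneous_X k b)).mul (isHomogeneous_X k c)).mul
    (isHomogeneous_X k d)

omit [Fintype K] [DecidableEq K] in
theorem hom_three (a b c : K) : (X a * X b * X c : MvPolynomial K k).IsHomogeneous 3 :=
  ((isHomogeneous_X k a).mul (isHomogeneous_X k b)).mul (isHomogeneous_X k c)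

omit [Fintype K] [DecidableEq K] in
theorem hom_two (a b : K) : (X a * X b : MvPolynomial K k).IsHomogeneous 2 :=
  (isHomogeneous_X k a).mul (isHomogeneous_X k b)

theorem ind_of {Φ : MvPolynomial K k →ₗ[k] k} {R : K → K → K → K → k} (hR : IsTbl Φ R)
    (h : TI R) : Ind Φ := by
  intro β m hm
  refine h β m (fun a b c d => ?_)
  have := hm _ (hom_four a b c d)
  rw [hR, sum_pd hR] at this
  exact this

theorem cub_of {Φ : MvPolynomial K k →ₗ[k] k} {R : K → K → K → K → k} (hR : IsTbl Φ R)
    (h : T5 R) : Cub Φ := by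
  intro β g hg
  refine h β g (fun v w p q r => ?_)
  have := hg v w _ (hom_three p q r)
  have e1 : ∀ z : K, (X z * (X p * X q * X r) : MvPolynomial K k) = X z * X p * X q * X r := by
    intro z; ring
  rw [e1, e1, hR, hR, sum_pd hR, sum_pd hR] at this
  exact this

theorem four_of {Φ : MvPolynomial K k →ₗ[k] k} {R : K → K → K → K → k} (hR : IsTbl Φ R)
    (hΦ : Hom4 Φ) (h : T4 R) : Four Φ := by
  intro G hG
  have hmem : ∀ P : K → K → k, (∀ x y, ∑ a, ∑ b, P a b * R a b x y = 0) →
      (∑ a, ∑ b, P a b • (X a * X b : MvPolynomial K k)) ∈ annI Φ := by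
    intro P hP
    refine mem_ann_of hΦ (d := 2) (e := 2) ?_ rfl ?_
    · refine IsHomogeneous.sum _ _ _ fun a _ => IsHomogeneous.sum _ _ _ fun b _ => ?_
      rw [smul_eq_C_mul]
      have := (isHomogeneous_C (R := k) K (P a b)).mul (hom_two (k := k) a b)
      rwa [zero_add] at this
    · intro t ht
      refine ext2 (Φ ∘ₗ LinearMap.mulLeft k (∑ a, ∑ b, P a b • (X a * X b : MvPolynomial K k)))
        (fun x y => ?_) t ht
      show Φ ((∑ a, ∑ b, P a b • (X a * X b : MvPolynomial K k)) * (X x * X y)) = 0
      rw [Finset.sum_mul, map_sum, ← hP x y]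
      refine Finset.sum_congr rfl fun a _ => ?_
      rw [Finset.sum_mul, map_sum]
      refine Finset.sum_congr rfl fun b _ => ?_
      rw [smul_mul_assoc, map_smul, smul_eq_mul, ← mul_assoc, hR]
  obtain ⟨β, m, hβ⟩ := h (fun a b c d => G (X a * X b * X c * X d))
    (fun a b c d => by rw [mul_comm (X a : MvPolynomial K k) (X b)])
    (fun a b c d => by rw [mul_right_comm (X a : MvPolynomial K k) (X b) (X c)])
    (fun a b c d => by rw [mul_right_comm (X a * X b : MvPolynomial K k) (X c) (X d)])
    (by
      intro P Q hP hQ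
      have h0 := Ideal.mul_mem_mul (hmem P hP) (hmem Q hQ)
      rw [← pow_two] at h0
      have h1 := hG _ h0
      refine Eq.trans ?_ h1
      rw [Finset.sum_mul, map_sum]
      refine Finset.sum_congr rfl fun a _ => ?_
      rw [Finset.sum_mul, map_sum]
      refine Finset.sum_congr rfl fun b _ => ?_
      rw [Finset.mul_sum, map_sum]
      refine Finset.sum_congr rfl fun c _ => ?_
      rw [Finset.mul_sum, map_sum]
      refine Finset.sum_congr rfl fun d _ => ?_
      rw [smul_mul_smul_comm, map_smul, smul_eq_mul, ← mul_assoc (X a * X b : MvPolynomial K k)])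
  refine ⟨β, m, ?_⟩
  intro s hs
  let H : MvPolynomial K k →ₗ[k] k :=
    G - (β • Φ + ∑ a, ∑ b, m a b • (Φ ∘ₗ LinearMap.mulLeft k (X b : MvPolynomial K k) ∘ₗ
      (pderiv a : Derivation k (MvPolynomial K k) (MvPolynomial K k)).toLinearMap))
  have hH : ∀ r, H r = G r - (β * Φ r + ∑ a, ∑ b, m a b * Φ (X b * pderiv a r)) := by
    intro r
    show (G - (β • Φ + ∑ a, ∑ b, m a b • (Φ ∘ₗ LinearMap.mulLeft k (X b : MvPolynomial K k) ∘ₗ
      (pderiv a : Derivation k (MvPolynomial K k) (MvPolynomial K k)).toLinearMap))) r = _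
    rw [LinearMap.sub_apply, LinearMap.add_apply, LinearMap.smul_apply, LinearMap.sum_apply]
    simp only [LinearMap.sum_apply, LinearMap.smul_apply, smul_eq_mul]
    rfl
  have hW : H s = 0 := by
    refine ext4 H (fun a b c d => ?_) s hs
    rw [hH, sum_pd hR, hR, sub_eq_zero]
    exact hβ a b c d
  rw [hH, sub_eq_zero] at hW
  exact hW

omit [Fintype K] in
theorem pair_eq {b c p q : K} (h : (Finsupp.single b 1 + Finsupp.single c 1 : K →₀ ℕ) =
    Finsupp.single p 1 + Finsupp.single q 1) : (b = p ∧ c = q) ∨ (b = q ∧ c = p) := by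
  have hb := DFunLike.congr_fun h b
  have hc := DFunLike.congr_fun h c
  have hp := DFunLike.congr_fun h p
  have hq := DFunLike.congr_fun h q
  simp only [Finsupp.add_apply, Finsupp.single_apply] at hb hc hp hq
  by_cases h1 : b = p
  · left
    refine ⟨h1, ?_⟩
    subst h1
    have h2 : (Finsupp.single c 1 : K →₀ ℕ) = Finsupp.single q 1 := add_left_cancel h
    exact Finsupp.single_left_injective one_ne_zero h2
  · right
    by_cases h2 : b = q
    · refine ⟨h2, ?_⟩
      subst h2
      rw [add_comm] at h
      have h3 : (Finsupp.single c 1 : K →₀ ℕ) = Finsupp.single p 1 := add_right_cancel h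
      exact Finsupp.single_left_injective one_ne_zero h3
    · exfalso
      rw [if_neg (Ne.symm h1), if_neg (Ne.symm h2)] at hb
      simp at hb

/-- The expansion of a quadric. -/
theorem quad_exp [LinearOrder K] {Φ : MvPolynomial K k →ₗ[k] k} {R : K → K → K → K → k}
    (hR : IsTbl Φ R) (q : MvPolynomial K k) (hq : q.IsHomogeneous 2) (x y : K) :
    Φ (q * (X x * X y)) = ∑ b, ∑ c, (if b ≤ c then
      coeff (Finsupp.single b 1 + Finsupp.single c 1) q * R b c x y else 0) := by
  classical
  let H : MvPolynomial K k →ₗ[k] k :=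
    (Φ ∘ₗ LinearMap.mulRight k (X x * X y : MvPolynomial K k)) -
      ∑ b, ∑ c, (if b ≤ c then R b c x y • (lcoeff k (Finsupp.single b 1 + Finsupp.single c 1))
        else 0)
  have hH : ∀ r, H r = Φ (r * (X x * X y)) - ∑ b, ∑ c, (if b ≤ c then
      coeff (Finsupp.single b 1 + Finsupp.single c 1) r * R b c x y else 0) := by
    intro r
    show ((Φ ∘ₗ LinearMap.mulRight k (X x * X y : MvPolynomial K k)) -
      (∑ b, ∑ c, (if b ≤ c then R b c x y • (lcoeff k (Finsupp.single b 1 + Finsupp.single c 1))
        else 0) : MvPolynomial K k →ₗ[k] k)) r = _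
    rw [LinearMap.sub_apply]
    congr 1
    rw [LinearMap.sum_apply]
    refine Finset.sum_congr rfl fun b _ => ?_
    rw [LinearMap.sum_apply]
    refine Finset.sum_congr rfl fun c _ => ?_
    split_ifs
    · rw [LinearMap.smul_apply, lcoeff_apply, smul_eq_mul, mul_comm]
    · rfl
  have hX : ∀ p q : K, (X p * X q : MvPolynomial K k) =
      monomial (Finsupp.single p 1 + Finsupp.single q 1) 1 := by
    intro p q
    rw [X, X, monomial_mul, mul_one]
  have hle : ∀ p q : K, p ≤ q → H (X p * X q) = 0 := by
    intro p q hpq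
    rw [hH, ← mul_assoc, hR, sub_eq_zero, Finset.sum_eq_single p]
    · rw [Finset.sum_eq_single q]
      · rw [if_pos hpq, hX, coeff_monomial, if_pos rfl, one_mul]
      · intro c _ hc
        split_ifs with h1
        · rw [hX, coeff_monomial, if_neg, zero_mul]
          intro h2
          rcases pair_eq h2 with ⟨-, h3⟩ | ⟨h3, h4⟩
          · exact hc h3.symm
          · exact hc (h4.symm ▸ h3 ▸ rfl)
        · rfl
      · intro h; exact absurd (Finset.mem_univ _) h
    · intro b _ hb
      refine Finset.sum_eq_zero fun c _ => ?_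
      split_ifs with h1
      · rw [hX, coeff_monomial, if_neg, zero_mul]
        intro h2
        rcases pair_eq h2 with ⟨h3, -⟩ | ⟨h3, h4⟩
        · exact hb h3.symm
        · have : p = b := le_antisymm (h4 ▸ hpq) (h3 ▸ h1)
          exact hb this.symm
      · rfl
    · intro h; exact absurd (Finset.mem_univ _) h
  have hW : H q = 0 := by
    refine ext2 H (fun p q => ?_) q hq
    rcases le_total p q with h | h
    · exact hle p q h
    · rw [mul_comm]; exact hle q p h
  rw [hH, sub_eq_zero] at hW
  exact hW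

omit [Fintype K] [DecidableEq K] in
theorem deg_succ {m : K →₀ ℕ} {d : ℕ} (hm : m.degree = d + 1) :
    ∃ a n, m = n + Finsupp.single a 1 ∧ n.degree = d := by
  obtain ⟨b, hb⟩ : ∃ b, m b ≠ 0 := by
    by_contra hcon
    push Not at hcon
    have : m = 0 := Finsupp.ext hcon
    rw [this, map_zero] at hm
    exact absurd hm (by omega)
  refine ⟨b, m - Finsupp.single b 1, ?_, ?_⟩
  · have hle : Finsupp.single b 1 ≤ m := by
      rw [Finsupp.single_le_iff]; omega
    exact (tsub_add_cancel_of_le hle).symm
  · have hle : Finsupp.single b 1 ≤ m := by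
      rw [Finsupp.single_le_iff]; omega
    have hs : m - Finsupp.single b 1 + Finsupp.single b 1 = m := tsub_add_cancel_of_le hle
    have h3 := congrArg Finsupp.degree hs
    rw [map_add, Finsupp.degree_single, hm] at h3
    omega

theorem three_of [LinearOrder K] {Φ : MvPolynomial K k →ₗ[k] k} {R : K → K → K → K → k}
    (hR : IsTbl Φ R) (h : T3 R) : Three Φ := by
  intro r hr _ hd
  have key : ∀ a b c, coeff (Finsupp.single b 1 + Finsupp.single c 1 + Finsupp.single a 1) r = 0 := by
    refine h (fun a b c => coeff (Finsupp.single b 1 + Finsupp.single c 1 + Finsupp.single a 1) r)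
      (fun a b c => ?_) (fun a b c => ?_) (fun a x y => ?_)
    · show coeff _ r = coeff _ r
      congr 1
      abel
    · show coeff _ r = coeff _ r
      congr 1
      abel
    · have h1 := hd a (X x * X y)
      rw [quad_exp hR _ hr.pderiv] at h1
      refine Eq.trans ?_ h1
      refine Finset.sum_congr rfl fun b _ => Finset.sum_congr rfl fun c _ => ?_
      by_cases hbc : b ≤ c
      · rw [if_pos hbc, if_pos hbc, coeff_pderiv]
        congr 2
        rw [Finsupp.add_apply, Finsupp.single_apply, Finsupp.single_apply, Nat.cast_add]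
        by_cases h2 : b = a <;> by_cases h3 : c = a <;> simp [h2, h3]
      · rw [if_neg hbc, if_neg hbc]
  ext m
  rw [coeff_zero]
  by_cases hm : m.degree = 3
  · obtain ⟨a, n, rfl, hn⟩ := deg_succ hm
    obtain ⟨b, n', rfl, hn'⟩ := deg_succ hn
    obtain ⟨c, rfl⟩ := deg_one hn'
    exact key a c b
  · exact hr.coeff_eq_zero hm

end

end Helper49.RC
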