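import Pool.Agent.Helper49.RC.Asm2
import Pool.Agent.Helper49.RC.Act
import Pool.Agent.Helper90.RB.U4

/-!
Project RC (MP_16b052_ag, characteristic two): assembly from the five weights.
-/

set_option autoImplicit false

namespace Helper49.RC

open MvPolynomial Helper49.RA Helper47.RB

universe u

theorem two_of_reps (k : Type u) [Field k] [IsAlgClosed k]
    (h3 : ∀ Φ : MvPolynomial (Fin 30) k →ₗ[k] k, IsPh k Φ → ∀ u ∈ reps, B3 Φ u)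
    (h4 : ∀ Φ : MvPolynomial (Fin 30) k →ₗ[k] k, IsPh k Φ → ∀ u ∈ reps, B4 Φ u)
    (h5 : ∀ Φ : MvPolynomial (Fin 30) k →ₗ[k] k, IsPh k Φ → H4 Φ → ∀ u ∈ reps, B5 Φ u) :
    ∃ (A : Type u) (_ : CommRing A) (_ : Algebra k A) (_ : IsLocalRing A)
      (_ : Module.Finite k A), 2 ≤ Module.finrank k A ∧ Helper47.Rig.Rigid k A :=
  two_of k (fun Φ hΦ => stU3 k Φ hΦ (h3 Φ hΦ))
    (fun Φ hΦ => Helper90.RB.hU4 stU1 k Φ hΦ (h4 Φ hΦ))
    (fun Φ hΦ => Helper90.RB.hU5 stU1 k Φ hΦ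
      (h5 Φ hΦ (Helper90.RB.hU4 stU1 k Φ hΦ (h4 Φ hΦ))))

end Helper49.RC
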