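import Pool.Agent.Helper49.RC.M_RED2
import Pool.Agent.Helper25.RC.M_SIX
import Pool.Agent.Helper27.RC.M_HFO
import Pool.Agent.Helper29.RC.M_MIX
import Pool.Agent.Helper7.RC.M_MIXE
import Pool.Agent.Helper36.RC.M_POB
import Pool.Agent.Helper36.RC.M_SELS
import Pool.Agent.Helper87.RC.M_KS2
import Pool.Agent.Helper88.RC.M_POC
import Pool.Agent.Helper99.RC.M_POA
import Pool.Agent.Helper16.RC.M_RGN
import Pool.Agent.Helper97.CB.All
import Pool.Agent.Helper73.LT.M_AFF

/-!
# Project RC: the reduction, closed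

`stRed2 : StRed2`, no hypotheses: `Rs κ` implies `theta K ≤ 1/(κ m0)` for every planar convex body `K`.
-/

namespace Helper49.RC

theorem stSix : StSix :=
  Pool.Agent.Helper25.RC.hSIX Helper97.CB.stWid Helper97.CB.stHexA Helper97.CB.stRot

theorem stPoc : StPoc :=
  Pool.Agent.Helper88.RC.hPOC Pool.Agent.Helper73.LT.hAFF Pool.Agent.Helper99.RC.hPOA
    Pool.Agent.Helper36.RC.hPOB

theorem stMix : StMix := Pool.Agent.Helper29.RC.hMIX Pool.Agent.Helper27.RC.hHFO'

theorem stMixE : StMixE := Pool.Agent.Helper7.RC.hMIXE Pool.Agent.Helper27.RC.hHFO'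

theorem stSel2 : StSel2 := Helper87.RC.hSEL2 Pool.Agent.Helper16.RC.hRGN

/-- THE REDUCTION with the target `Rs κ` -/
theorem stRed2 : StRed2 :=
  RED.hRED2 stSix Helper87.RC.hKSD2 stSel2 stMix stPoc Pool.Agent.Helper73.LT.hAFF
    Helper97.CB.stSml

end Helper49.RC
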