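import Pool.Agent.Helper49.RC.Sec2
import Pool.Agent.Helper49.RA.M_EXT
import Pool.Agent.Helper49.RA.M_DUAL
import Pool.Agent.Helper49.RA.M_T1
import Pool.Agent.Helper49.RA.M_LOC
import Pool.Agent.Helper47.RL.Main

/-!
Project RC (MP_16b052_ag): a quartic functional with `I^(2) = I^2` over an algebraically closed
field gives a rigid local algebra (any characteristic).
-/

set_option autoImplicit false

namespace Helper49.RC

open MvPolynomial Helper49.RA

universe u

theorem rigid_of_second (k : Type u) [Field k] [IsAlgClosed k] (K : Type) [Fintype K]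
    (Φ : MvPolynomial K k →ₗ[k] k) (hΦ : Hom4 Φ) (h0 : Φ ≠ 0) (hs : SecondPower Φ) :
    ∃ (A : Type u) (_ : CommRing A) (_ : Algebra k A) (_ : IsLocalRing A)
      (_ : Module.Finite k A), 2 ≤ Module.finrank k A ∧ Helper47.Rig.Rigid k A := by
  obtain ⟨h3, h4, h5⟩ := loc k K Φ hΦ h0
  refine ⟨MvPolynomial K k ⧸ annI Φ, inferInstance, inferInstance, h4, h3, h5, ?_⟩
  have hT := t1 ext dual k K Φ h3 hs
  refine Helper47.RL.rigid_of_H2 k _ ?_
  intro f hf1 hf2
  obtain ⟨φ, hφ⟩ := hT f ⟨hf1, hf2⟩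
  refine ⟨φ, fun a b => ?_⟩
  rw [hφ a b]
  ring

end Helper49.RC
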