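import Pool.Agent.Helper49.RC.Deg
import Pool.Agent.Helper49.RC.Fin

/-!
Project RC (MP_16b052_ag, characteristic two): assembly from the degrees three, four and five.
-/

set_option autoImplicit false

namespace Helper49.RC

open MvPolynomial Helper49.RA Helper47.RB

universe u

theorem two_of (k : Type u) [Field k] [IsAlgClosed k]
    (h3 : ∀ Φ : MvPolynomial (Fin 30) k →ₗ[k] k, IsPh k Φ → H3 Φ)
    (h4 : ∀ Φ : MvPolynomial (Fin 30) k →ₗ[k] k, IsPh k Φ → H4 Φ)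
    (h5 : ∀ Φ : MvPolynomial (Fin 30) k →ₗ[k] k, IsPh k Φ → H5 Φ) :
    ∃ (A : Type u) (_ : CommRing A) (_ : Algebra k A) (_ : IsLocalRing A)
      (_ : Module.Finite k A), 2 ≤ Module.finrank k A ∧ Helper47.Rig.Rigid k A := by
  obtain ⟨Φ, hΦ⟩ := stPhi k
  obtain ⟨h1, h2⟩ := stU12 k Φ hΦ
  have h6 := stU6 k Φ hΦ (h5 Φ hΦ)
  have h0 : Φ ≠ 0 := by
    intro h
    obtain ⟨i, j, l, ht⟩ := tab1 0
    have := hΦ.val 0 i j l
    rw [h, ht, if_pos rfl, LinearMap.zero_apply] at this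
    exact zero_ne_one this
  exact rigid_of_second k (Fin 30) Φ hΦ.deg h0
    (sec2 k (Fin 30) Φ hΦ.deg h1 h2 (h3 Φ hΦ) (h4 Φ hΦ) (h5 Φ hΦ) h6)

end Helper49.RC
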