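import Pool.Agent.Helper95.SH.CoordI
import Pool.Agent.Helper56.SH.Near
import Pool.Agent.Helper50.SH.Loc
import Pool.Agent.Helper30.SH.Cur
import Pool.Agent.Helper99.RC.KcSin

/-!
# Project RC, SHARP: certificates of the cells, the static part

`CB`: base functions and numbers of a certificate. `CB.par`: the certificate (directions `u_j` = exact angles of
`(0, z0)`, alignments `inv Θ_j`, shift `-d + k sin (3φ + ph)`, `a0 = 0`, `ga = 0`,
`lo = (al - be |z0|²) L (z - z0) - p2 (b₂ - b2)² - p3 (b₃ - b3)²`).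
`CB.Ok`: the conditions on the data. `CB.stat`: all static conditions of the certificate. `CB.lo`: helper95's `Lo`.
-/

open MeasureTheory Set Filter Metric

namespace Helper49.Cell

open Helper49.LT hiding sg
open Helper49.RC Helper44.GQ Helper49.Sharp
open Helper56.RC (fc)
open Helper56.SH (Stat)
open Helper87.RC (BM)
open Helper95.RC (Lf BF Sup)
open Helper95.SH (Dat Lo)
open Helper41.SH (IA inv)
open Pool.Agent.Helper20.RC (wR hw DensI)

/-- base functions and numbers of a certificate -/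
structure CB where
  eta : ℂ
  z0 : ℝ → ℂ
  b2 : ℝ → ℝ
  b3 : ℝ → ℝ
  /-- the inverses of the alignments, and their derivatives -/
  T1 : ℝ → ℝ
  T1' : ℝ → ℝ
  T2 : ℝ → ℝ
  T2' : ℝ → ℝ
  rho : ℝ
  /-- the shift `ps d k ph φ = -d + k sin (3 φ + ph)` -/
  d : ℝ
  k : ℝ
  ph : ℝ
  nu : ℝ
  lam : ℝ
  pr2 : ℝ
  h0 : ℝ
  cs : ℝ
  m : ℝ
  al : ℝ
  be : ℝ
  p2 : ℝ
  p3 : ℝ

namespace CB

variable (c : CB)

/-- the factor of the local form -/
noncomputable def f (t : ℝ) : ℝ := c.al - c.be * ‖c.z0 t‖ ^ 2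

/-- THE CERTIFICATE -/
noncomputable def par : Par where
  eta := c.eta
  a0 := fun _ => 0
  a1 := fun t => (om + c.z0 t).arg
  a2 := fun t => (om ^ 2 - c.z0 t).arg
  ph1 := inv c.T1
  ph2 := inv c.T2
  rho := c.rho
  ps := Pool.Agent.Helper99.RC.ps c.d c.k c.ph
  nu := c.nu
  ga := fun _ => 0
  lam := c.lam
  pr2 := c.pr2
  h0 := c.h0
  cs := c.cs
  m := c.m
  lo := fun t b z => c.f t * Lf (z - c.z0 t) - c.p2 * (b.re - c.b2 t) ^ 2 - c.p3 * (b.im - c.b3 t) ^ 2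

/-- the conditions on the data; `lo, hi, bb` is the box of link (4) -/
structure Ok (lo hi bb : ℝ) : Prop where
  eta : ‖c.eta‖ ≤ 1 / 4
  cz : Continuous c.z0
  pz : ∀ t, c.z0 (t + Real.pi) = -c.z0 t
  bz : ∀ t, ‖c.z0 t‖ ≤ 1 / 2
  c2 : Continuous c.b2
  c3 : Continuous c.b3
  l2 : ∀ t, lo ≤ c.b2 t
  u2 : ∀ t, c.b2 t ≤ hi
  u3 : ∀ t, |c.b3 t| ≤ Real.sqrt 3 * bb
  i1 : IA c.T1 c.T1'
  i2 : IA c.T2 c.T2'
  r1 : ∀ x, c.T1' x ≤ c.rho
  r2 : ∀ x, c.T2' x ≤ c.rho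
  dk : |c.d| + |c.k| ≤ 1
  nu0 : 0 < c.nu
  m0 : c.lam ≤ c.m
  m1 : c.m ≤ 1 - 2 * ‖c.eta‖

variable {c} {lo hi bb : ℝ}

theorem Ok.pz2 (h : c.Ok lo hi bb) (t : ℝ) : c.z0 (t + 2 * Real.pi) = c.z0 t := by
  rw [show t + 2 * Real.pi = t + Real.pi + Real.pi by ring, h.pz, h.pz, neg_neg]

theorem Ok.reg (h : c.Ok lo hi bb) : c.par.Reg := by
  refine ⟨h.eta, continuous_const, fun _ => rfl, ?_, ?_, ?_, ?_, ?_, h.i1.inv_meas, h.i2.inv_meas, h.i1.inv_per,
    h.i2.inv_per, h.i1.densI h.r1, h.i2.densI h.r2, ?_, ?_, ?_, h.nu0, ?_, ?_⟩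
  · constructor <;>
    · show fc (fun _ => (0 : ℂ)) _ = 0
      unfold fc
      simp
  · exact Complex.measurable_arg.comp ((continuous_const.add h.cz).measurable)
  · exact Complex.measurable_arg.comp ((continuous_const.sub h.cz).measurable)
  · intro t
    show ee (om + c.z0 (t + 2 * Real.pi)).arg = ee (om + c.z0 t).arg
    rw [h.pz2]
  · intro t
    show ee (om ^ 2 - c.z0 (t + 2 * Real.pi)).arg = ee (om ^ 2 - c.z0 t).arg
    rw [h.pz2]
  · exact Pool.Agent.Helper99.RC.ps_meas _ _ _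
  · intro φ
    exact Pool.Agent.Helper99.RC.ps_per _ _ _ _
  · intro φ
    refine (Pool.Agent.Helper99.RC.ps_abs _ _ _ _).trans ?_
    have h1 := h.dk
    have hp := Real.pi_gt_three
    linarith
  · show (Function.support fun _ => (0 : ℂ)).Finite
    simp
  · show 0 ≤ c.m - c.lam
    linarith [h.m0]

theorem Ok.cur (h : c.Ok lo hi bb) : c.par.Cur := Pool.Agent.Helper30.SH.cur_zero _ h.reg rfl h.m1

theorem omre : om.re = 1 / 2 := by
  unfold om ee
  rw [Complex.exp_ofReal_mul_I_re, Real.cos_pi_div_three]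

theorem omim : om.im = Real.sqrt 3 / 2 := by
  unfold om ee
  rw [Complex.exp_ofReal_mul_I_im, Real.sin_pi_div_three]

theorem d1_om : Helper50.SH.d1 = om := by
  apply Complex.ext
  · rw [omre]; rfl
  · rw [omim]; rfl

theorem d2_om : Helper50.SH.d2 = om ^ 2 := by
  apply Complex.ext
  · rw [pow_two, Complex.mul_re, omre, omim]
    show -(1 / 2 : ℝ) = _
    have h3 : Real.sqrt 3 ^ 2 = 3 := Real.sq_sqrt (by norm_num)
    nlinarith
  · rw [pow_two, Complex.mul_im, omre, omim]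
    show Real.sqrt 3 / 2 = _
    ring

theorem Ok.loc (h : c.Ok lo hi bb) (H : Helper50.SH.P4F c.al c.be c.p2 c.p3 lo hi bb (1 / 2)) : c.par.Loc := by
  refine Helper50.SH.loc_par c.par H (by norm_num) (by norm_num) c.z0 (fun t => ⟨c.b2 t, c.b3 t⟩) h.pz h.bz h.l2 h.u2
    h.u3 (fun t => ?_) (fun t => ?_) fun t b z => ?_
  · rw [d1_om]; rfl
  · rw [d2_om]; rfl
  · show c.f t * Lf (z - c.z0 t) - c.p2 * (b.re - c.b2 t) ^ 2 - c.p3 * (b.im - c.b3 t) ^ 2 ≤ _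
    unfold Lf f
    rw [Complex.sub_re, Complex.sub_im, Complex.sub_re, Complex.sub_im]

/-- static conditions of the data which are stronger: bounded continuous functions -/
theorem Ok.brf (h : c.Ok lo hi bb) : BR c.f := by
  refine ⟨(continuous_const.sub (continuous_const.mul (h.cz.norm.pow 2))).measurable, |c.al| + |c.be| * (1 / 4), fun t => ?_⟩
  have h1 := h.bz t
  have h0 := norm_nonneg (c.z0 t)
  have h2 : ‖c.z0 t‖ ^ 2 ≤ 1 / 4 := by nlinarith
  calc |c.al - c.be * ‖c.z0 t‖ ^ 2| ≤ |c.al| + |c.be * ‖c.z0 t‖ ^ 2| := abs_sub _ _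
    _ = |c.al| + |c.be| * ‖c.z0 t‖ ^ 2 := by rw [abs_mul, abs_of_nonneg (sq_nonneg ‖c.z0 t‖)]
    _ ≤ _ := by
      have := mul_le_mul_of_nonneg_left h2 (abs_nonneg c.be)
      linarith

theorem Ok.bmz (h : c.Ok lo hi bb) : BM c.z0 (1 / 2) := ⟨h.cz.measurable, h.bz⟩

theorem Ok.br2 (h : c.Ok lo hi bb) : BR c.b2 := ⟨h.c2.measurable, |lo| + |hi|, fun t => by
  have h1 := h.l2 t
  have h2 := h.u2 t
  have a1 := neg_abs_le lo
  have a2 := le_abs_self hi
  have a3 := abs_nonneg lo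
  have a4 := abs_nonneg hi
  rw [abs_le]
  constructor <;> linarith⟩

theorem Ok.br3 (h : c.Ok lo hi bb) : BR c.b3 := ⟨h.c3.measurable, _, h.u3⟩

theorem Ok.blo (h : c.Ok lo hi bb) {b z : ℝ → ℂ} (d : Dat b z) : c.par.Blo b z := by
  obtain ⟨C1, h1⟩ := d.hb.b
  obtain ⟨C2, h2⟩ := d.hz.b
  have kb : BM b C1 := ⟨d.hb.m, h1⟩
  have kz : BM z C2 := ⟨d.hz.m, h2⟩
  have hL : BR fun t => Lf (z t - c.z0 t) := by
    have a := (BR.re (kz.sub h.bmz)).sq.cmul (3 / 2)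
    have c := (BR.im (kz.sub h.bmz)).sq.cmul (1 / 2)
    exact a.add c
  have k := ((h.brf.mul hL).sub ((((BR.re kb).sub h.br2).sq).cmul c.p2)).sub ((((BR.im kb).sub h.br3).sq).cmul c.p3)
  exact ⟨k.m, k.b⟩

/-- **all static conditions** -/
theorem Ok.stat (h : c.Ok lo hi bb) (H : Helper50.SH.P4F c.al c.be c.p2 c.p3 lo hi bb (1 / 2)) : Stat c.par :=
  ⟨h.reg, h.cur, h.loc H, fun _ _ k => h.blo (Helper95.SH.AdmQ.dat (by norm_num) k)⟩

/-- helper95's structure of the local lower bound -/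
noncomputable def Ok.toLo (h : c.Ok lo hi bb) {K : ℕ} (sz : Sup K (fc c.z0)) (s2 : Sup K (fc fun t => (c.b2 t : ℂ)))
    (s3 : Sup K (fc fun t => (c.b3 t : ℂ))) : Lo c.par K where
  f := c.f
  zs := c.z0
  b2s := c.b2
  b3s := c.b3
  p2 := c.p2
  p3 := c.p3
  hf := h.brf
  hz := ⟨_, h.bmz⟩
  h2 := h.br2
  h3 := h.br3
  sz := sz
  s2 := s2
  s3 := s3
  eq := fun _ _ _ => rfl

end CB

end Helper49.Cell
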