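import Pool.Agent.Helper49.RC.CellB
import Pool.Agent.Helper76.RC.TrD

/-!
# Project RC, SHARP: certificates of the cells, trigonometric polynomials from integer lists

`zA k l t = ∑_j (a_j + i b_j) e^{i (k + 2 j) t}` for the list `l` of the pairs `(a_j, b_j)`; its coefficients `cA k l`;
`fpZ`: the packed form of `zA (-11)` (12 entries); `okZ`: kernel check of `|zA (-11) l t| ≤ Q / 2`;
`okG`: kernel check of `0 ≤ x + δ ± 2 Q Dt Q l t`.
-/

set_option autoImplicit false

open MeasureTheory Set Filter Metric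

namespace Helper49.Cell

open Helper49.LT hiding sg
open Helper56.RC (fc)
open Helper76.RC.TPoly Helper54.RC.Fast Helper76.RC.ExpF Helper76.RC.TrD
open Helper87.RC (BM)

/-- `∑_j (a_j + i b_j) e^{i (k + 2 j) t}` -/
noncomputable def zA : ℤ → List (ℤ × ℤ) → ℝ → ℂ
  | _, [], _ => 0
  | k, p :: l, t => ((p.1 : ℂ) + Complex.I * (p.2 : ℂ)) * ee ((k : ℝ) * t) + zA (k + 2) l t

/-- the coefficient of the frequency `n` -/
def cA : ℤ → List (ℤ × ℤ) → ℤ → ℤ × ℤ
  | _, [], _ => (0, 0)
  | k, p :: l, n => (Int.add (bif decide (n = k) then p.1 else 0) (cA (k + 2) l n).1,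
      Int.add (bif decide (n = k) then p.2 else 0) (cA (k + 2) l n).2)

/-- as a complex number -/
noncomputable def zi (p : ℤ × ℤ) : ℂ := (p.1 : ℂ) + Complex.I * (p.2 : ℂ)

theorem continuous_zA (k : ℤ) (l : List (ℤ × ℤ)) : Continuous (zA k l) := by
  induction l generalizing k with
  | nil => exact continuous_const
  | cons p l ih =>
    have : Continuous fun t : ℝ => ee ((k : ℝ) * t) := continuous_ee.comp (continuous_const.mul continuous_id)
    exact (continuous_const.mul this).add (ih (k + 2))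

theorem ee_two (t : ℝ) : ee (t + 2 * Real.pi) = ee t := by
  have := ee_int 1 t
  simpa using this

theorem ee_add_kpi (k : ℤ) : ee (((k + 2 : ℤ) : ℝ) * Real.pi) = ee ((k : ℝ) * Real.pi) := by
  rw [show ((k + 2 : ℤ) : ℝ) * Real.pi = (k : ℝ) * Real.pi + 2 * Real.pi by push_cast; ring, ee_two]

theorem zA_pi (k : ℤ) (l : List (ℤ × ℤ)) (t : ℝ) : zA k l (t + Real.pi) = ee ((k : ℝ) * Real.pi) * zA k l t := by
  induction l generalizing k with
  | nil => simp [zA]
  | cons p l ih =>
    have e : ee ((k : ℝ) * (t + Real.pi)) = ee ((k : ℝ) * Real.pi) * ee ((k : ℝ) * t) := by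
      rw [← ee_add]; congr 1; ring
    simp only [zA, ih, e, ee_add_kpi k]
    ring

/-- the value through `evr` -/
theorem zA_evr (k : ℤ) (l : List (ℤ × ℤ)) (t : ℝ) : zA k l t =
    ee ((k : ℝ) * t) * (evr (ee t ^ 2) (l.map Prod.fst) + Complex.I * evr (ee t ^ 2) (l.map Prod.snd)) := by
  induction l generalizing k with
  | nil => simp [zA, evr]
  | cons p l ih =>
    have e : ee (((k + 2 : ℤ) : ℝ) * t) = ee ((k : ℝ) * t) * ee t ^ 2 := by
      rw [← ee_nat, ← ee_add]; congr 1; push_cast; ring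
    simp only [zA, ih, e, List.map_cons, evr]
    ring

/-! ### coefficients -/

theorem bm_zA (k : ℤ) (l : List (ℤ × ℤ)) : ∃ C, BM (zA k l) C := by
  induction l generalizing k with
  | nil => exact ⟨0, measurable_const, fun t => by simp [zA]⟩
  | cons p l ih =>
    obtain ⟨C, hC⟩ := ih (k + 2)
    have h1 : BM (fun t : ℝ => ee ((k : ℝ) * t)) 1 :=
      ⟨(continuous_ee.comp (continuous_const.mul continuous_id)).measurable, fun t => (norm_ee _).le⟩
    exact ⟨_, (h1.cmul ((p.1 : ℂ) + Complex.I * (p.2 : ℂ))).add hC⟩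

theorem fc_zA (k : ℤ) (l : List (ℤ × ℤ)) (n : ℤ) : fc (zA k l) n = zi (cA k l n) := by
  induction l generalizing k with
  | nil =>
    show fc (fun _ => (0 : ℂ)) n = _
    unfold fc
    simp [zi, cA]
  | cons p l ih =>
    obtain ⟨C, hC⟩ := bm_zA (k + 2) l
    have h1 : BM (fun t : ℝ => ee ((k : ℝ) * t)) 1 :=
      ⟨(continuous_ee.comp (continuous_const.mul continuous_id)).measurable, fun t => (norm_ee _).le⟩
    have e : fc (zA k (p :: l)) n = fc (fun t => ((p.1 : ℂ) + Complex.I * (p.2 : ℂ)) * ee ((k : ℝ) * t)) n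
        + fc (zA (k + 2) l) n := Helper87.RC.fc_add (h1.cmul ((p.1 : ℂ) + Complex.I * (p.2 : ℂ))) hC n
    rw [e, Helper87.RC.fc_cmul, Pool.Agent.Helper20.RC.fc_eek, ih]
    unfold zi
    simp only [cA]
    have a1 : ∀ x y : ℤ, Int.add x y = x + y := fun _ _ => rfl
    rw [a1, a1]
    by_cases hn : n = k
    · simp only [hn, decide_true, cond_true, if_true]
      push_cast
      ring
    · simp only [hn, decide_false, cond_false, if_false]
      push_cast
      ring

theorem cA_sup (k : ℤ) (l : List (ℤ × ℤ)) (n : ℤ) (h : n < k ∨ k + 2 * l.length - 2 < n) : zi (cA k l n) = 0 := by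
  induction l generalizing k with
  | nil => simp [zi, cA]
  | cons p l ih =>
    have a1 : ∀ x y : ℤ, Int.add x y = x + y := fun _ _ => rfl
    have hn : n ≠ k := by
      rcases h with h | h
      · exact h.ne
      · intro h0
        subst h0
        simp only [List.length_cons] at h
        push_cast at h
        omega
    have h2 := ih (k + 2) (by
      rcases h with h | h
      · left; omega
      · right
        simp only [List.length_cons] at h
        push_cast at h
        omega)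
    unfold zi at h2 ⊢
    simp only [cA, hn, decide_false, cond_false, a1, zero_add]
    exact h2

/-! ### the packed form of `zA (-11)` -/

/-- zeros between the entries -/
def ilv : List ℤ → List ℤ
  | [] => []
  | a :: l => a :: 0 :: ilv l

theorem evr_ilv (x : ℂ) (l : List ℤ) : evr x (ilv l) = evr (x ^ 2) l := by
  induction l with
  | nil => rfl
  | cons a l ih =>
    simp only [ilv, evr, ih]
    push_cast
    ring

theorem length_ilv (l : List ℤ) : (ilv l).length = 2 * l.length := by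
  induction l with
  | nil => rfl
  | cons a l ih =>
    simp only [ilv, List.length_cons, ih]
    ring

/-- the packed form of `zA (-11) l`, `l` with 12 entries; window `12` (a zero at the frequency `-12`) -/
def fpZ (b : ℕ) (l : List (ℤ × ℤ)) : FP := ofL b 12 (0 :: ilv (l.map Prod.fst)) (0 :: ilv (l.map Prod.snd))

def okF (b : ℕ) (l : List (ℤ × ℤ)) : Bool :=
  bif Nat.beq l.length 12 then
    bif rng b (0 :: ilv (l.map Prod.fst)) then rng b (0 :: ilv (l.map Prod.snd)) else false
  else false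

theorem bif_iff (x y : Bool) : (bif x then y else false) = true ↔ x = true ∧ y = true := by
  cases x <;> simp

theorem fpZ_sound (b : ℕ) (l : List (ℤ × ℤ)) (h : okF b l = true) :
    wf b (fpZ b l) = true ∧ ∀ t, V b (fpZ b l) t = zA (-11) l t := by
  unfold okF at h
  rw [bif_iff, bif_iff] at h
  obtain ⟨h0, h1, h2⟩ := h
  have h0 : l.length = 12 := Nat.eq_of_beq_eq_true h0
  have k1 : (0 :: ilv (l.map Prod.fst)).length = len 12 := by
    rw [List.length_cons, length_ilv, List.length_map, h0]; rfl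
  have k2 : (0 :: ilv (l.map Prod.snd)).length = len 12 := by
    rw [List.length_cons, length_ilv, List.length_map, h0]; rfl
  obtain ⟨a1, a2⟩ := ofL_sound b 12 _ _ k1 k2 h1 h2
  refine ⟨a1, fun t => ?_⟩
  show V b (ofL b 12 _ _) t = _
  rw [a2, zA_evr]
  unfold T TP.ev
  simp only [evr, evr_ilv]
  have e : ee (-(((12 : ℕ) : ℝ) * t)) * ee t = ee (((-11 : ℤ) : ℝ) * t) := by
    rw [← ee_add]
    congr 1
    push_cast
    ring
  rw [← e]
  push_cast
  ring

/-- `Q² / 4 - δ - |Z|²` -/
def pZ (b Q δ : ℕ) (l : List (ℤ × ℤ)) : FP :=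
  subF b (cst b 24 (Nat.sub (Nat.div (Nat.mul Q Q) 4) δ)) (mulF b (fpZ b l) (cjF b (fpZ b l)))

/-- kernel check of `|zA (-11) l t| ≤ Q / 2` -/
def okZ (b r K δ Q : ℕ) (l : List (ℤ × ℤ)) (q : FP) : Bool :=
  bif Nat.ble r (Nat.succ b) then
    bif okF b l then
      bif okn b r (fpZ b l) then
        bif okm b r (fpZ b l) (cjF b (fpZ b l)) then
          bif Nat.ble δ (Nat.div (Nat.mul Q Q) 4) then
            bif Nat.ble (Nat.succ (Nat.div (Nat.mul Q Q) 4)) (Nat.pow 2 b) then
              bif oka b r (cst b 24 (Nat.sub (Nat.div (Nat.mul Q Q) 4) δ)) (mulF b (fpZ b l) (cjF b (fpZ b l))) then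
                okS b r K δ (pZ b Q δ l) q
              else false
            else false
          else false
        else false
      else false
    else false
  else false

theorem okZ_sound (b r K δ Q : ℕ) (l : List (ℤ × ℤ)) (q : FP) (h : okZ b r K δ Q l q = true) (t : ℝ) :
    ‖zA (-11) l t‖ ≤ Q / 2 := by
  unfold okZ at h
  rw [bif_iff, bif_iff, bif_iff, bif_iff, bif_iff, bif_iff, bif_iff] at h
  obtain ⟨h1, h2, h3, h4, h5, h6, h7, h8⟩ := h
  have hr : r ≤ b + 1 := Nat.le_of_ble_eq_true h1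
  have h5 : δ ≤ Q * Q / 4 := Nat.le_of_ble_eq_true h5
  have h6 : Q * Q / 4 < 2 ^ b := Nat.le_of_ble_eq_true h6
  obtain ⟨z1, z2⟩ := fpZ_sound b l h2
  obtain ⟨c1, c2⟩ := cjF_sound b r hr _ h3
  obtain ⟨m1, m2⟩ := mulF_sound b r hr _ _ z1 c1 h4
  obtain ⟨k1, k2⟩ := cst_sound b 24 (Nat.sub (Nat.div (Nat.mul Q Q) 4) δ) (lt_of_le_of_lt (Nat.sub_le _ _) h6)
  obtain ⟨d1, d2⟩ := subF_sound b r hr _ _ k1 m1 h7
  have h9 := re_ge b r K δ _ q h8 t
  have e : V b (pZ b Q δ l) t = (((Q * Q / 4 - δ : ℕ) : ℝ) - ‖zA (-11) l t‖ ^ 2 : ℝ) := by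
    show V b (subF b _ _) t = _
    rw [d2, k2, m2, c2, z2, Complex.mul_conj, Complex.normSq_eq_norm_sq]
    push_cast
    rfl
  rw [e, Complex.ofReal_re, Nat.cast_sub h5] at h9
  have h10 : ((Q * Q / 4 : ℕ) : ℝ) ≤ (Q * Q : ℝ) / 4 := by
    have := @Nat.cast_div_le ℝ _ _ _ (Q * Q) 4
    push_cast at this
    exact this
  have h11 : ‖zA (-11) l t‖ ^ 2 ≤ (Q / 2 : ℝ) ^ 2 := by nlinarith
  exact (pow_le_pow_iff_left₀ (norm_nonneg _) (by positivity) (by norm_num)).1 h11

/-! ### real polynomials -/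

/-- `x ± 2 Q Dt`, window `2 M` -/
def pG (b x M : ℕ) (sg : Bool) (l : List (ℤ × ℤ)) : FP :=
  bif sg then addF b (cst b (Nat.mul 2 M) x) (padF b (Nat.sub (Nat.mul 2 M) l.length) (zD b l))
  else subF b (cst b (Nat.mul 2 M) x) (padF b (Nat.sub (Nat.mul 2 M) l.length) (zD b l))

/-- kernel check of `0 ≤ x + δ ± 2 Q Dt Q l t` -/
def okG (b r K δ x : ℕ) (sg : Bool) (l : List (ℤ × ℤ)) (q : FP) : Bool :=
  bif Nat.ble r (Nat.succ b) then
    bif Nat.ble (Nat.succ x) (Nat.pow 2 b) then
      bif Nat.ble l.length (Nat.mul 2 q.N) then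
        bif okD b l then
          bif oka b r (cst b (Nat.mul 2 q.N) x) (padF b (Nat.sub (Nat.mul 2 q.N) l.length) (zD b l)) then
            okS b r K δ (pG b x q.N sg l) q
          else false
        else false
      else false
    else false
  else false

theorem okG_sound (b r K δ x Q : ℕ) (hQ : 0 < Q) (sg : Bool) (l : List (ℤ × ℤ)) (q : FP)
    (h : okG b r K δ x sg l q = true) (t : ℝ) :
    0 ≤ (x : ℝ) + δ + (if sg = true then 1 else -1) * (2 * Q * Dt Q l t) := by
  unfold okG at h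
  rw [bif_iff, bif_iff, bif_iff, bif_iff, bif_iff] at h
  obtain ⟨h1, h2, h3, h4, h5, h6⟩ := h
  have hr : r ≤ b + 1 := Nat.le_of_ble_eq_true h1
  have h2 : x < 2 ^ b := Nat.le_of_ble_eq_true h2
  obtain ⟨z1, z2⟩ := zD_sound b Q hQ l h4
  obtain ⟨p1, p2⟩ := padF_sound b (Nat.sub (Nat.mul 2 q.N) l.length) _ z1
  obtain ⟨c1, c2⟩ := cst_sound b (Nat.mul 2 q.N) x h2
  have h7 := re_ge b r K δ _ q h6 t
  cases sg with
  | true =>
    obtain ⟨d1, d2⟩ := addF_sound b r hr _ _ c1 p1 h5
    have e : V b (pG b x q.N true l) t = ((x + 2 * Q * Dt Q l t : ℝ) : ℂ) := by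
      show V b (addF b _ _) t = _
      rw [d2, c2, p2, z2]
      push_cast
      rfl
    rw [e, Complex.ofReal_re] at h7
    simp only [if_true]
    linarith
  | false =>
    obtain ⟨d1, d2⟩ := subF_sound b r hr _ _ c1 p1 h5
    have e : V b (pG b x q.N false l) t = ((x - 2 * Q * Dt Q l t : ℝ) : ℂ) := by
      show V b (subF b _ _) t = _
      rw [d2, c2, p2, z2]
      push_cast
      rfl
    rw [e, Complex.ofReal_re] at h7
    simp only [Bool.false_eq_true, if_false]
    linarith

end Helper49.Cell
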