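import Pool.Agent.Helper49.RC.Mean

/-!
# Project RC, SHARP, module COMB: pointwise facts
-/

open MeasureTheory Set Filter Metric

namespace Helper49.Sharp

open Helper49.LT hiding sg
open Helper49.RC Helper44.GQ
open Helper56.RC (fc)
open Helper87.RC (BM intg_of_bdd)
open Pool.Agent.Helper20.RC (wR hw al alQ L1 L2w L2b L2r lk sM eM DensI al_ee al_meas wR_wgt wR_meas wR_bd wR_per)

theorem ee_arg {d : ℂ} (hd : d ≠ 0) : un d = ee d.arg := by
  have h := Complex.norm_mul_exp_arg_mul_I d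
  have hn : (‖d‖ : ℂ) ≠ 0 := by exact_mod_cast (norm_pos_iff.2 hd).ne'
  have h3 : Complex.exp (d.arg * Complex.I) = ee d.arg := by
    unfold ee
    try rfl
  rw [h3] at h
  unfold un
  rw [div_eq_iff hn, mul_comm]
  exact h.symm

/-- the curvature inequality at one point -/
theorem pt_cur {H H1 : ℝ → ℝ} {m : ℝ}
    (hc : ∀ a x : ℝ, m * (1 - Real.cos x) ≤ H (a + x) - H a * Real.cos x - H1 a * Real.sin x)
    {w : ℝ} (e : ℂ) (d : ℝ) (hw0 : 0 ≤ w) (t φ : ℝ)
    {F : ℂ} (hF : F = (w : ℂ) * (ee t * e)) (hφ : F = (‖F‖ : ℂ) * ee φ) :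
    w * (H (t + d) * ((starRingEnd ℂ) (ee d) * e).re + H1 (t + d) * ((starRingEnd ℂ) (ee d) * e).im
      + m * exc (ee d) e) ≤ ‖F‖ * H φ := by
  set a := t + d with ha
  have hn : ‖F‖ = w * ‖e‖ := by
    rw [hF, norm_mul, norm_mul, norm_ee, one_mul, Complex.norm_real, Real.norm_eq_abs, abs_of_nonneg hw0]
  have key : (‖F‖ : ℂ) * ee (φ - a) = (w : ℂ) * ((starRingEnd ℂ) (ee d) * e) := by
    have e1 : ee (φ - a) = ee φ * (starRingEnd ℂ) (ee a) := by rw [sub_eq_add_neg, ee_add, ee_neg]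
    rw [e1, ← mul_assoc, ← hφ, hF, ha, ee_add, map_mul]
    have h1 := ee_mul_conj t
    linear_combination ((w : ℂ) * e * (starRingEnd ℂ) (ee d)) * h1
  have hre : ‖F‖ * Real.cos (φ - a) = w * ((starRingEnd ℂ) (ee d) * e).re := by
    have := congrArg Complex.re key
    rw [Complex.re_ofReal_mul, Complex.re_ofReal_mul, ee_re] at this
    exact this
  have him : ‖F‖ * Real.sin (φ - a) = w * ((starRingEnd ℂ) (ee d) * e).im := by
    have := congrArg Complex.im key
    rw [Complex.im_ofReal_mul, Complex.im_ofReal_mul, ee_im] at this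
    exact this
  have h1 := hc a (φ - a)
  rw [add_sub_cancel] at h1
  have h2 := mul_le_mul_of_nonneg_left h1 (norm_nonneg F)
  have h3 : ‖F‖ * (m * (1 - Real.cos (φ - a))) = w * (m * exc (ee d) e) := by
    unfold exc
    have : ‖F‖ * (m * (1 - Real.cos (φ - a))) = m * (‖F‖ - ‖F‖ * Real.cos (φ - a)) := by ring
    rw [this, hre, hn]
    ring
  have h4 : ‖F‖ * (H φ - H a * Real.cos (φ - a) - H1 a * Real.sin (φ - a)) =
      ‖F‖ * H φ - H a * (w * ((starRingEnd ℂ) (ee d) * e).re) - H1 a * (w * ((starRingEnd ℂ) (ee d) * e).im) := by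
    rw [← hre, ← him]
    ring
  rw [h3, h4] at h2
  linarith

/-- excess over another direction -/
theorem exc_sub (u v e : ℂ) : exc v e = exc u e + ((starRingEnd ℂ) (u - v) * e).re := by
  unfold exc
  rw [map_sub, sub_mul, Complex.sub_re]
  ring

/-- the base edges do not vanish -/
theorem g1_ne {b z : ℂ} (hb : ‖b‖ ≤ 1 / 5) (hz : ‖z‖ ≤ 1 / 2) : g1 b z ≠ 0 := by
  intro h0
  have e := Helper95.RC.edge1 (q := 2) b
  have h1 : om = -((starRingEnd ℂ) om * (b.re : ℂ)) - Helper95.RC.kq 2 * (b.im : ℂ) - z := by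
    unfold g1 at h0
    rw [e] at h0
    linear_combination h0
  have hom : ‖om‖ = 1 := by unfold om; exact norm_ee _
  have hk : ‖Helper95.RC.kq 2‖ = 7 / 4 := by
    have h3 : Real.sqrt 3 ^ 2 = 3 := Real.sq_sqrt (by norm_num)
    rw [← Real.sqrt_sq (norm_nonneg (Helper95.RC.kq 2)), ← Complex.normSq_eq_norm_sq, Complex.normSq_apply]
    have : (Helper95.RC.kq 2).re = Real.sqrt 3 := by
      unfold Helper95.RC.kq
      simp
      ring
    have h' : (Helper95.RC.kq 2).im = 1 / 4 := by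
      unfold Helper95.RC.kq
      simp
      norm_num
    rw [this, h', show Real.sqrt 3 * Real.sqrt 3 + 1 / 4 * (1 / 4) = (7 / 4) ^ 2 by nlinarith,
      Real.sqrt_sq (by norm_num)]
  have h2 : ‖om‖ ≤ |b.re| + 7 / 4 * |b.im| + 1 / 2 := by
    rw [h1]
    refine (norm_sub_le _ _).trans (add_le_add ((norm_sub_le _ _).trans (add_le_add ?_ ?_)) hz)
    · rw [norm_neg, norm_mul, RCLike.norm_conj, hom, one_mul, Complex.norm_real, Real.norm_eq_abs]
    · rw [norm_mul, hk, Complex.norm_real, Real.norm_eq_abs]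
  have h3 : |b.re| ^ 2 + |b.im| ^ 2 ≤ (1 / 5) ^ 2 := by
    have : ‖b‖ ^ 2 = b.re ^ 2 + b.im ^ 2 := by
      rw [← Complex.normSq_eq_norm_sq, Complex.normSq_apply]; ring
    rw [sq_abs, sq_abs, ← this]
    exact pow_le_pow_left₀ (norm_nonneg _) hb 2
  rw [hom] at h2
  nlinarith [abs_nonneg b.re, abs_nonneg b.im, sq_nonneg (|b.im| - 7 / 4 * |b.re|)]

theorem g2_ne {b z : ℂ} (hb : ‖b‖ ≤ 1 / 5) (hz : ‖z‖ ≤ 1 / 2) : g2 b z ≠ 0 := by
  intro h0
  have e := Helper95.RC.edge2 (q := 2) b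
  have h1 : om ^ 2 = -((starRingEnd ℂ) om ^ 2 * (b.re : ℂ)) - (starRingEnd ℂ) (Helper95.RC.kq 2) * (b.im : ℂ) + z := by
    unfold g2 at h0
    rw [e] at h0
    linear_combination h0
  have hom : ‖om‖ = 1 := by unfold om; exact norm_ee _
  have hk : ‖Helper95.RC.kq 2‖ = 7 / 4 := by
    have h3 : Real.sqrt 3 ^ 2 = 3 := Real.sq_sqrt (by norm_num)
    rw [← Real.sqrt_sq (norm_nonneg (Helper95.RC.kq 2)), ← Complex.normSq_eq_norm_sq, Complex.normSq_apply]
    have : (Helper95.RC.kq 2).re = Real.sqrt 3 := by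
      unfold Helper95.RC.kq
      simp
      ring
    have h' : (Helper95.RC.kq 2).im = 1 / 4 := by
      unfold Helper95.RC.kq
      simp
      norm_num
    rw [this, h', show Real.sqrt 3 * Real.sqrt 3 + 1 / 4 * (1 / 4) = (7 / 4) ^ 2 by nlinarith,
      Real.sqrt_sq (by norm_num)]
  have h2 : ‖om ^ 2‖ ≤ |b.re| + 7 / 4 * |b.im| + 1 / 2 := by
    rw [h1]
    refine (norm_add_le _ _).trans (add_le_add ((norm_sub_le _ _).trans (add_le_add ?_ ?_)) hz)
    · rw [norm_neg, norm_mul, norm_pow, RCLike.norm_conj, hom, one_pow, one_mul, Complex.norm_real, Real.norm_eq_abs]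
    · rw [norm_mul, RCLike.norm_conj, hk, Complex.norm_real, Real.norm_eq_abs]
  have h3 : |b.re| ^ 2 + |b.im| ^ 2 ≤ (1 / 5) ^ 2 := by
    have : ‖b‖ ^ 2 = b.re ^ 2 + b.im ^ 2 := by
      rw [← Complex.normSq_eq_norm_sq, Complex.normSq_apply]; ring
    rw [sq_abs, sq_abs, ← this]
    exact pow_le_pow_left₀ (norm_nonneg _) hb 2
  rw [norm_pow, hom, one_pow] at h2
  nlinarith [abs_nonneg b.re, abs_nonneg b.im, sq_nonneg (|b.im| - 7 / 4 * |b.re|)]

theorem g1_neg {b z : ℂ} : g1 b (-z) = cQ 2 b + 1 / 2 * aQ 2 b - z := by unfold g1; ring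
theorem g2_neg {b z : ℂ} : g2 b (-z) = cQ 2 b - 1 / 2 * aQ 2 b + z := by unfold g2; ring

/-- the admissible data lie in the domain -/
theorem dom_of {b z : ℝ → ℂ} (h : AdmQ 2 b z) (t : ℝ) : Dom (b t) (z t) := by
  obtain ⟨δ, hδ, hb⟩ := h.bdb
  exact ⟨by linarith [hb t], h.reg t⟩

/-- periodicity of the support functions -/
theorem int_per {α : ℝ → ℂ} (hα : ∀ t, α (t + 2 * Real.pi) = α t) (a : ℝ) :
    ∫ t in (a + 2 * Real.pi - Real.pi)..(a + 2 * Real.pi), ee t * α t =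
      ∫ t in (a - Real.pi)..a, ee t * α t := by
  have h := intervalIntegral.integral_comp_add_right (a := a - Real.pi) (b := a)
    (fun t => ee t * α t) (2 * Real.pi)
  rw [show a + 2 * Real.pi - Real.pi = a - Real.pi + 2 * Real.pi by ring, ← h]
  refine intervalIntegral.integral_congr fun t _ => ?_
  show ee (t + 2 * Real.pi) * α (t + 2 * Real.pi) = ee t * α t
  rw [hα, ee_add, ee_two_pi, mul_one]

theorem hA_per {α : ℝ → ℂ} (hα : ∀ t, α (t + 2 * Real.pi) = α t) (a : ℝ) :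
    hA α (a + 2 * Real.pi) = hA α a := by
  unfold hA
  rw [int_per hα, ee_add, ee_two_pi, mul_one]

theorem hA1_per {α : ℝ → ℂ} (hα : ∀ t, α (t + 2 * Real.pi) = α t) (a : ℝ) :
    hA1 α (a + 2 * Real.pi) = hA1 α a := by
  unfold hA1
  rw [int_per hα, ee_add, ee_two_pi, mul_one, hα]

end Helper49.Sharp
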