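import Pool.Agent.Helper49.RC.Comb1

/-!
# Project RC, SHARP, module COMB: the bilinear term with the true angles
-/

open MeasureTheory Set Filter Metric

namespace Helper49.Sharp

open Helper49.LT hiding sg
open Helper49.RC Helper44.GQ
open Helper56.RC (fc)
open Helper87.RC (BM intg_of_bdd fc_add fc_sub fc_cmul)
open Pool.Agent.Helper20.RC (wR hw al alQ L1 L2w L2b L2r lk sM eM DensI al_ee al_meas wR_wgt wR_meas wR_bd wR_per
  int_meas int_bd hw_meas hw_abs)

theorem bm_ee : BM (fun t => ee t) 1 := ⟨continuous_ee.measurable, fun t => by rw [norm_ee]⟩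

/-- `‖G‖ hA α (al G)` is bounded and measurable -/
theorem hA_br {α G : ℝ → ℂ} {E D : ℝ} (ha : BM α E) (hG : BM G D) {a : ℝ → ℝ} (hm : Measurable a) :
    BR fun θ => ‖G θ‖ * hA α (a θ) := by
  have hb : BM (fun t => ee t * α t) (1 * E) := BM.mul bm_ee ha
  have hI : BM (fun θ => ∫ t in (a θ - Real.pi)..(a θ), ee t * α t) (1 * E * Real.pi) := by
    refine ⟨int_meas hb (hm.sub_const _) hm, fun θ => ?_⟩
    refine (int_bd hb _ _).trans (le_of_eq ?_)
    rw [sub_sub_cancel, abs_of_pos Real.pi_pos]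
  have he : BM (fun θ => ee (a θ)) 1 := ⟨continuous_ee.measurable.comp hm, fun t => by rw [norm_ee]⟩
  have h1 := BR.im (he.mul hI.conj)
  unfold hA
  exact (BR.nrm hG).mul (h1.cmul _)

/-- the bilinear term with the true angles -/
theorem L2b_hA {α f1 f2 : ℝ → ℂ} {E D1 D2 : ℝ} (ha : BM α E) (h1 : BM f1 D1) (h2 : BM f2 D2) :
    L2b α f1 f2 (al f1) (al f2) =
      mean (fun θ => ‖f1 θ‖ * hA α (al f1 θ) + ‖f2 θ‖ * hA α (al f2 θ)) := by
  have hp := Real.pi_pos
  have key : ∀ (f : ℝ → ℂ) (θ : ℝ),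
      (f θ * (starRingEnd ℂ) (∫ t in (al f θ - Real.pi)..(al f θ), ee t * α t)).im =
        2 * (‖f θ‖ * hA α (al f θ)) := by
    intro f θ
    have e := al_ee f θ
    unfold hA
    set I := ∫ t in (al f θ - Real.pi)..(al f θ), ee t * α t
    have h3 : f θ * (starRingEnd ℂ) I = (‖f θ‖ : ℂ) * (ee (al f θ) * (starRingEnd ℂ) I) := by
      rw [← mul_assoc, ← e]
    rw [h3, Complex.im_ofReal_mul]
    ring
  unfold L2b mean
  simp_rw [key]
  have e2 : ∫ θ in (0 : ℝ)..(2 * Real.pi), (2 * (‖f1 θ‖ * hA α (al f1 θ)) + 2 * (‖f2 θ‖ * hA α (al f2 θ))) =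
      2 * ∫ θ in (0 : ℝ)..(2 * Real.pi), (‖f1 θ‖ * hA α (al f1 θ) + ‖f2 θ‖ * hA α (al f2 θ)) := by
    rw [← intervalIntegral.integral_const_mul]
    refine intervalIntegral.integral_congr fun θ _ => ?_
    show 2 * (‖f1 θ‖ * hA α (al f1 θ)) + 2 * (‖f2 θ‖ * hA α (al f2 θ)) = 2 * (_ + _)
    ring
  rw [e2]
  field_simp
  ring

theorem hA_add {α β : ℝ → ℂ} {E F : ℝ} (ha : BM α E) (hb : BM β F) (a : ℝ) :
    hA (fun t => α t + β t) a = hA α a + hA β a := by
  have h1 : BM (fun t => ee t * α t) (1 * E) := BM.mul bm_ee ha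
  have h2 : BM (fun t => ee t * β t) (1 * F) := BM.mul bm_ee hb
  unfold hA
  have e : ∫ t in (a - Real.pi)..a, ee t * (α t + β t) =
      (∫ t in (a - Real.pi)..a, ee t * α t) + ∫ t in (a - Real.pi)..a, ee t * β t := by
    rw [← intervalIntegral.integral_add (h1.i _ _) (h2.i _ _)]
    refine intervalIntegral.integral_congr fun t _ => ?_
    show ee t * (α t + β t) = ee t * α t + ee t * β t
    ring
  rw [e, map_add, mul_add, Complex.add_im]
  ring

/-- the harmonics `± 2` -/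
noncomputable def h2 (c c' : ℂ) (t : ℝ) : ℂ := c * ee (2 * t) + c' * ee (-2 * t)

theorem h2_bm (c c' : ℂ) : BM (h2 c c') (‖c‖ * 1 + ‖c'‖ * 1) := by
  have h1 := BM.cmul (BM.eec 2) c
  have h2' := BM.cmul (BM.eec (-2)) c'
  exact h1.add h2'

theorem hA_h2 (c c' : ℂ) (a : ℝ) :
    hA (h2 c c') a = ((c / 3 - (starRingEnd ℂ) c') * ee (2 * a)).re := by
  have hd : ∀ t : ℝ, HasDerivAt (fun s : ℝ => -Complex.I * (c * ee (3 * s) / 3) + Complex.I * (c' * ee (-1 * s)))
      (ee t * h2 c c' t) t := by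
    intro t
    have k3 := ((((hasDerivAt_ee 3 t).const_mul c).div_const 3).const_mul (-Complex.I)).add
      (((hasDerivAt_ee (-1) t).const_mul c').const_mul Complex.I)
    refine k3.congr_deriv ?_
    unfold h2
    have e1 : ee (3 * t) = ee t * ee (2 * t) := by rw [← ee_add]; congr 1; ring
    have e2 : ee (-1 * t) = ee t * ee (-2 * t) := by rw [← ee_add]; congr 1; ring
    rw [e1, e2]
    have hI := Complex.I_sq
    push_cast
    linear_combination (-(c * (ee t * ee (2 * t))) - c' * (ee t * ee (-2 * t))) * hI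
  have hi : ∫ t in (a - Real.pi)..a, ee t * h2 c c' t =
      (-Complex.I * (c * ee (3 * a) / 3) + Complex.I * (c' * ee (-1 * a))) * 2 := by
    rw [intervalIntegral.integral_eq_sub_of_hasDerivAt (fun t _ => hd t)
      ((BM.mul bm_ee (h2_bm c c')).i _ _)]
    have e3 : ee (3 * (a - Real.pi)) = -ee (3 * a) := by
      have : 3 * (a - Real.pi) = 3 * a + (((-3 : ℤ) : ℝ) * Real.pi) := by push_cast; ring
      rw [this, ee_add, ee_int_mul, ee_pi]
      norm_num
    have e4 : ee (-1 * (a - Real.pi)) = -ee (-1 * a) := by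
      have : -1 * (a - Real.pi) = -1 * a + Real.pi := by ring
      rw [this, ee_add, ee_pi]
      ring
    simp only [e3, e4]
    ring
  unfold hA
  rw [hi]
  have e5 : ee a * (starRingEnd ℂ) ((-Complex.I * (c * ee (3 * a) / 3) + Complex.I * (c' * ee (-1 * a))) * 2) =
      Complex.I * (2 * ((starRingEnd ℂ) (c * ee (2 * a)) / 3 - (starRingEnd ℂ) c' * ee (2 * a))) := by
    have k1 : ee a * (starRingEnd ℂ) (ee (3 * a)) = (starRingEnd ℂ) (ee (2 * a)) := by
      rw [← ee_neg, ← ee_neg, ← ee_add]; congr 1; ring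
    have k2 : ee a * (starRingEnd ℂ) (ee (-1 * a)) = ee (2 * a) := by
      rw [← ee_neg, ← ee_add]; congr 1; ring
    simp only [map_mul, map_add, map_neg, map_div₀, Complex.conj_I, map_ofNat]
    linear_combination (Complex.I * (starRingEnd ℂ) c / 3 * 2) * k1 - (Complex.I * (starRingEnd ℂ) c' * 2) * k2
  rw [e5, Complex.I_mul_im]
  have e6 : ((2 : ℂ) * ((starRingEnd ℂ) (c * ee (2 * a)) / 3 - (starRingEnd ℂ) c' * ee (2 * a))).re =
      2 * (((c * ee (2 * a)).re / 3) - ((starRingEnd ℂ) c' * ee (2 * a)).re) := by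
    have : (2 : ℂ) = ((2 : ℝ) : ℂ) := by norm_num
    rw [this, Complex.re_ofReal_mul, Complex.sub_re]
    have h3 : (3 : ℂ) = ((3 : ℝ) : ℂ) := by norm_num
    rw [h3, Complex.div_ofReal_re, Complex.conj_re]
  rw [e6, sub_mul, Complex.sub_re]
  have e7 : (c / 3 * ee (2 * a)).re = (c * ee (2 * a)).re / 3 := by
    have h3 : (3 : ℂ) = ((3 : ℝ) : ℂ) := by norm_num
    rw [div_mul_eq_mul_div, h3, Complex.div_ofReal_re]
  rw [e7]
  ring

/-- `noh2 α` is bounded -/
theorem noh2_bm {α : ℝ → ℂ} {E : ℝ} (h : BM α E) :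
    BM (noh2 α) (E + ‖fc α 2‖ * 1 + ‖fc α (-2)‖ * 1) := by
  have h1 := (h.sub (BM.cmul (BM.eec 2) (fc α 2))).sub (BM.cmul (BM.eec (-2)) (fc α (-2)))
  unfold noh2
  exact h1

theorem ee2_pi (t : ℝ) : ee (2 * (t + Real.pi)) = ee (2 * t) := by
  rw [show 2 * (t + Real.pi) = 2 * t + 2 * Real.pi by ring, ee_add, ee_two_pi, mul_one]

theorem eem2_pi (t : ℝ) : ee (-2 * (t + Real.pi)) = ee (-2 * t) := by
  rw [show -2 * (t + Real.pi) = -2 * t + -(2 * Real.pi) by ring, ee_add, ee_neg, ee_two_pi, map_one, mul_one]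

theorem noh2_per {α : ℝ → ℂ} (h : ∀ t, α (t + Real.pi) = α t) (t : ℝ) : noh2 α (t + Real.pi) = noh2 α t := by
  unfold noh2
  rw [h, ee2_pi, eem2_pi]

theorem per2 {α : ℝ → ℂ} (h : ∀ t, α (t + Real.pi) = α t) (t : ℝ) : α (t + 2 * Real.pi) = α t := by
  rw [show t + 2 * Real.pi = t + Real.pi + Real.pi by ring, h, h]

end Helper49.Sharp
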