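import Pool.Agent.Helper49.RC.Comb2

/-!
# Project RC, SHARP, module COMB: moments and the change of variables
-/

open MeasureTheory Set Filter Metric

namespace Helper49.Sharp

open Helper49.LT hiding sg
open Helper49.RC Helper44.GQ
open Helper56.RC (fc)
open Helper87.RC (BM intg_of_bdd fc_add fc_sub fc_cmul)
open Pool.Agent.Helper20.RC (wR hw al alQ L1 L2w L2b L2r lk sM eM eD DensI al_ee al_meas wR_wgt wR_meas wR_bd wR_per
  int_meas int_bd hw_meas hw_abs alQ_bm alQ_per)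

/-- the moment of order 2 -/
theorem mean_s2 {f1 f2 : ℝ → ℂ} {D : ℝ} (h1 : BM f1 D) (h2 : BM f2 D) (κ : ℂ) :
    mean (fun θ => ‖f1 θ‖ * (κ * ee (2 * al f1 θ)).re + ‖f2 θ‖ * (κ * ee (2 * al f2 θ)).re) =
      (κ * (starRingEnd ℂ) (sM f1 f2 2)).re := by
  have hb : ∀ {f : ℝ → ℂ}, BM f D → BM (fun θ => (‖f θ‖ : ℂ) * ee (-(2 * al f θ))) (D * 1) := by
    intro f hf
    refine BM.mul ⟨Complex.measurable_ofReal.comp hf.m.norm, fun t => ?_⟩
      ⟨continuous_ee.measurable.comp ((al_meas hf.m).const_mul 2).neg, fun t => by rw [norm_ee]⟩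
    rw [Complex.norm_real, Real.norm_eq_abs, abs_of_nonneg (norm_nonneg _)]
    exact hf.b t
  have hB := ((hb h1).add (hb h2)).cmul ((starRingEnd ℂ) κ)
  have e1 : (κ * (starRingEnd ℂ) (sM f1 f2 2)).re =
      ((1 / (2 * Real.pi) : ℂ) * ∫ θ in (0 : ℝ)..(2 * Real.pi), (starRingEnd ℂ) κ *
        ((‖f1 θ‖ : ℂ) * ee (-(2 * al f1 θ)) + (‖f2 θ‖ : ℂ) * ee (-(2 * al f2 θ)))).re := by
    rw [intervalIntegral.integral_const_mul]
    unfold sM
    have e2 : ∀ x y : ℂ, (x * (starRingEnd ℂ) y).re = ((starRingEnd ℂ) x * y).re := by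
      intro x y
      simp [Complex.mul_re]
    rw [e2]
    congr 1
    ring
  rw [e1, mean_re hB]
  refine mean_congr fun θ => ?_
  have key : ∀ (r : ℝ) (x : ℝ), r * (κ * ee x).re = ((starRingEnd ℂ) κ * ((r : ℂ) * ee (-x))).re := by
    intro r x
    have e3 : (starRingEnd ℂ) κ * ((r : ℂ) * ee (-x)) = (r : ℂ) * (starRingEnd ℂ) (κ * ee x) := by
      rw [map_mul, ee_neg]; ring
    rw [e3, Complex.re_ofReal_mul, Complex.conj_re]
  rw [key, key, mul_add, Complex.add_re]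

theorem s00_eq {f1 f2 : ℝ → ℂ} {D : ℝ} (h1 : BM f1 D) (h2 : BM f2 D) :
    (sM f1 f2 0).re = mean (fun θ => ‖f1 θ‖ + ‖f2 θ‖) := by
  have hb : ∀ {f : ℝ → ℂ}, BM f D → BM (fun θ => (‖f θ‖ : ℂ) * ee (-(0 * al f θ))) (D * 1) := by
    intro f hf
    refine BM.mul ⟨Complex.measurable_ofReal.comp hf.m.norm, fun t => ?_⟩
      ⟨continuous_ee.measurable.comp ((al_meas hf.m).const_mul 0).neg, fun t => by rw [norm_ee]⟩
    rw [Complex.norm_real, Real.norm_eq_abs, abs_of_nonneg (norm_nonneg _)]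
    exact hf.b t
  unfold sM
  rw [mean_re ((hb h1).add (hb h2))]
  refine mean_congr fun θ => ?_
  simp [ee_zero]

theorem e00_eq {f1 f2 : ℝ → ℂ} {D : ℝ} (h1 : BM f1 D) (h2 : BM f2 D) {φ1 φ2 : ℝ → ℝ} (n1 : Measurable φ1)
    (n2 : Measurable φ2) :
    (eM f1 f2 φ1 φ2 0).re = mean (fun θ => (f1 θ * ee (-φ1 θ)).re + (f2 θ * ee (-φ2 θ)).re) := by
  have e0 : ∀ (f : ℝ → ℂ) (φ : ℝ → ℝ) (θ : ℝ), eD f φ 0 θ = (((f θ * ee (-φ θ)).re : ℝ) : ℂ) := by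
    intro f φ θ
    unfold eD
    simp [ee_zero]
  have hb : ∀ {f : ℝ → ℂ} {φ : ℝ → ℝ}, BM f D → Measurable φ →
      BM (fun θ => (((f θ * ee (-φ θ)).re : ℝ) : ℂ)) D := by
    intro f φ hf hφ
    refine ⟨Complex.measurable_ofReal.comp (Complex.measurable_re.comp
      (hf.m.mul (continuous_ee.measurable.comp hφ.neg))), fun t => ?_⟩
    rw [Complex.norm_real, Real.norm_eq_abs]
    refine (Complex.abs_re_le_norm _).trans ?_
    rw [norm_mul, norm_ee, mul_one]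
    exact hf.b t
  unfold eM
  simp_rw [e0]
  rw [mean_re ((hb h1 n1).add (hb h2 n2))]
  refine mean_congr fun θ => ?_
  simp

section

variable {P : Par} {b z : ℝ → ℂ}

theorem Par.Reg.wgt (hr : P.Reg) : Wgt P.w := by
  refine wR_wgt ?_
  have := hr.eta
  simp only [norm_zero, add_zero]
  linarith

theorem Par.Reg.wle (hr : P.Reg) (t : ℝ) : P.w t ≤ 1 + 2 * ‖P.eta‖ := by
  have h := (abs_le.1 (wR_bd P.eta 0 0 t)).2
  simp only [norm_zero, add_zero] at h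
  show wR P.eta 0 0 t ≤ _
  linarith

theorem Par.Reg.w0 (hr : P.Reg) (t : ℝ) : 0 ≤ P.w t := hr.wgt.nonneg t

theorem F_bm (h : AdmQ 2 b z) (hr : P.Reg) : ∃ D, BM (P.F1 b z) D ∧ BM (P.F2 b z) D := by
  obtain ⟨C, hC⟩ := hexQ (by norm_num : (0 : ℝ) < 2) h hr.wgt
  exact ⟨2 * C, Helper87.RC.G1_BM hC.q, Helper87.RC.G2_BM hC.q⟩

theorem F1_at (t : ℝ) : P.F1 b z (t + Real.pi / 3) = (P.w t : ℂ) * (ee t * g1 (b t) (z t)) := by
  show F1Q P.w 2 b z _ = _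
  unfold F1Q
  rw [Helper44.RCG.G1_eq]
  unfold AAQ vvS g1
  ring

theorem F2_at (t : ℝ) : P.F2 b z (t + 2 * Real.pi / 3) = (P.w t : ℂ) * (ee t * g2 (b t) (z t)) := by
  show F2Q P.w 2 b z _ = _
  unfold F2Q
  rw [Helper44.RCG.G2_eq]
  unfold BBQ vvS g2
  ring

theorem F_per (h : AdmQ 2 b z) (hr : P.Reg) :
    (∀ t, P.F1 b z (t + 2 * Real.pi) = P.F1 b z t) ∧ (∀ t, P.F2 b z (t + 2 * Real.pi) = P.F2 b z t) := by
  obtain ⟨C, hC⟩ := hexQ (by norm_num : (0 : ℝ) < 2) h hr.wgt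
  exact ⟨Helper44.RCG.G1_per hC.q, Helper44.RCG.G2_per hC.q⟩

theorem al_per {f : ℝ → ℂ} (hf : ∀ t, f (t + 2 * Real.pi) = f t) (t : ℝ) :
    al f (t + 2 * Real.pi) = al f t + 2 * Real.pi := by
  unfold Pool.Agent.Helper20.RC.al
  rw [hf, ee_add, ee_two_pi, mul_one]
  ring

theorem H_per (hr : P.Reg) (a : ℝ) : P.H (a + 2 * Real.pi) = P.H a := by
  unfold Par.H
  rw [hA_per (per2 hr.pa0)]
  congr 1
  unfold hw
  have : ee (2 * (a + 2 * Real.pi)) = ee (2 * a) := by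
    rw [show 2 * (a + 2 * Real.pi) = 2 * a + 2 * Real.pi + 2 * Real.pi by ring, ee_add, ee_add, ee_two_pi]
    ring
  rw [this]
  simp

theorem H1_per (hr : P.Reg) (a : ℝ) : P.H1 (a + 2 * Real.pi) = P.H1 a := by
  unfold Par.H1
  rw [hA1_per (per2 hr.pa0)]
  have : ee (2 * (a + 2 * Real.pi)) = ee (2 * a) := by
    rw [show 2 * (a + 2 * Real.pi) = 2 * a + 2 * Real.pi + 2 * Real.pi by ring, ee_add, ee_add, ee_two_pi]
    ring
  rw [this]

theorem alP_bm (h : AdmQ 2 b z) (hr : P.Reg) : ∃ E, BM (P.al b) E := alQ_bm (by norm_num) h hr.wgt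

theorem alP_per (h : AdmQ 2 b z) (hr : P.Reg) (t : ℝ) : P.al b (t + Real.pi) = P.al b t :=
  alQ_per h hr.wgt t

/-- continuous periodic functions are bounded -/
theorem cont_bm {f : ℝ → ℂ} (hf : Continuous f) (hp : ∀ t, f (t + 2 * Real.pi) = f t) : ∃ C, BM f C := by
  have hpi := Real.pi_pos
  obtain ⟨C, hC⟩ := (isCompact_Icc (a := (0 : ℝ)) (b := 2 * Real.pi)).exists_bound_of_continuousOn hf.continuousOn
  refine ⟨C, hf.measurable, fun t => ?_⟩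
  have hper : Function.Periodic f (2 * Real.pi) := hp
  obtain ⟨y, hy, hfy⟩ := hper.exists_mem_Ico₀ (by positivity) t
  rw [hfy]
  exact hC y ⟨hy.1, hy.2.le⟩

theorem a0_bm (hr : P.Reg) : ∃ E, BM P.a0 E := cont_bm hr.ca0 (per2 hr.pa0)

theorem dal_bm (h : AdmQ 2 b z) (hr : P.Reg) : ∃ E, BM (P.dal b) E := by
  obtain ⟨E1, h1⟩ := alP_bm h hr
  obtain ⟨E2, h2⟩ := a0_bm hr
  exact ⟨_, (noh2_bm h1).sub h2⟩

theorem dal_per (h : AdmQ 2 b z) (hr : P.Reg) (t : ℝ) : P.dal b (t + Real.pi) = P.dal b t := by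
  unfold Par.dal
  rw [noh2_per (alP_per h hr), hr.pa0]

/-- the coefficients `± 2` of `α` and `σ` -/
theorem sig_eq (h : AdmQ 2 b z) (hr : P.Reg) :
    fc (P.al b) 2 / 3 - (starRingEnd ℂ) (fc (P.al b) (-2)) = ((-(2 / 3) : ℝ) : ℂ) * P.sig b := by
  obtain ⟨C2, h2⟩ := Helper95.RC.bmp h hr.wgt
  obtain ⟨C3, h3⟩ := Helper95.RC.bmr h hr.wgt
  have e : P.al b = fun t => ((P.w t * (b t).re : ℝ) : ℂ) + (Complex.I / 2) * ((P.w t * (b t).im : ℝ) : ℂ) := by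
    funext t
    show alQ P.w 2 b t = _
    unfold alQ
    push_cast
    ring
  have e1 : ∀ n : ℤ, fc (P.al b) n = Helper95.RC.pc P.w b n + Complex.I / 2 * Helper95.RC.rc P.w b n := by
    intro n
    rw [e, fc_add h2 (h3.cmul _), fc_cmul]
    rfl
  have hn := Helper95.RC.pc_neg (w := P.w) (b := b) 2
  have hm := Helper95.RC.rc_neg (w := P.w) (b := b) 2
  rw [e1, e1, hn, hm]
  have e2 : P.sig b = Helper95.RC.pc P.w b 2 - Complex.I * Helper95.RC.rc P.w b 2 := rfl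
  rw [e2]
  simp only [map_add, map_mul, map_div₀, Complex.conj_I, Complex.conj_conj, map_ofNat]
  push_cast
  ring

/-- LINK 2 with the true angles: the harmonic 2, the part `a0`, and the rest -/
theorem link2_split (h : AdmQ 2 b z) (hr : P.Reg) :
    L2w P.eta 0 0 (P.F1 b z) (P.F2 b z) + L2b (P.al b) (P.F1 b z) (P.F2 b z) (al (P.F1 b z)) (al (P.F2 b z)) =
      mean (fun θ => ‖P.F1 b z θ‖ * P.H (al (P.F1 b z) θ) + ‖P.F2 b z θ‖ * P.H (al (P.F2 b z) θ))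
      - 2 / 3 * (P.sig b * (starRingEnd ℂ) (sM (P.F1 b z) (P.F2 b z) 2)).re
      + L2b (P.dal b) (P.F1 b z) (P.F2 b z) (al (P.F1 b z)) (al (P.F2 b z)) := by
  obtain ⟨D, f1, f2⟩ := F_bm (P := P) h hr
  obtain ⟨E1, h1⟩ := alP_bm (P := P) h hr
  obtain ⟨E2, h2⟩ := a0_bm hr
  obtain ⟨E3, h3⟩ := dal_bm (P := P) h hr
  have m1 := al_meas f1.m
  have m2 := al_meas f2.m
  rw [L2b_hA h1 f1 f2, L2b_hA h3 f1 f2]
  have hL : L2w P.eta 0 0 (P.F1 b z) (P.F2 b z) = mean (fun θ => ‖P.F1 b z θ‖ * hw P.eta 0 0 (al (P.F1 b z) θ)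
      + ‖P.F2 b z θ‖ * hw P.eta 0 0 (al (P.F2 b z) θ)) := rfl
  rw [hL]
  have hs := mean_s2 f1 f2 (((-(2 / 3) : ℝ) : ℂ) * P.sig b)
  have hs2 : (((-(2 / 3) : ℝ) : ℂ) * P.sig b * (starRingEnd ℂ) (sM (P.F1 b z) (P.F2 b z) 2)).re =
      -(2 / 3) * (P.sig b * (starRingEnd ℂ) (sM (P.F1 b z) (P.F2 b z) 2)).re := by
    rw [mul_assoc, Complex.re_ofReal_mul]
  rw [hs2] at hs
  -- measurability
  have bw : ∀ {f : ℝ → ℂ}, BM f D → BR fun θ => ‖f θ‖ * hw P.eta 0 0 (al f θ) := by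
    intro f hf
    refine (BR.nrm hf).mul ⟨(hw_meas _ _ _).comp (al_meas hf.m), _, fun t => hw_abs _ _ _ _⟩
  have bH : ∀ {f : ℝ → ℂ}, BM f D → BR fun θ => ‖f θ‖ * P.H (al f θ) := by
    intro f hf
    have := (bw hf).add (hA_br h2 hf (al_meas hf.m))
    refine ⟨?_, ?_⟩
    · have e : (fun θ => ‖f θ‖ * P.H (al f θ)) = fun t => ‖f t‖ * hw P.eta 0 0 (al f t) + ‖f t‖ * hA P.a0 (al f t) := by
        funext θ; unfold Par.H; ring
      rw [e]; exact this.m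
    · have e : (fun θ => ‖f θ‖ * P.H (al f θ)) = fun t => ‖f t‖ * hw P.eta 0 0 (al f t) + ‖f t‖ * hA P.a0 (al f t) := by
        funext θ; unfold Par.H; ring
      obtain ⟨C, hC⟩ := this.b
      exact ⟨C, fun t => by have := hC t; rw [show ‖f t‖ * P.H (al f t) = ‖f t‖ * hw P.eta 0 0 (al f t)
        + ‖f t‖ * hA P.a0 (al f t) by unfold Par.H; ring]; exact this⟩
  have bk : ∀ {f : ℝ → ℂ}, BM f D → ∀ κ : ℂ, BR fun θ => ‖f θ‖ * (κ * ee (2 * al f θ)).re := by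
    intro f hf κ
    have he : BM (fun θ => ee (2 * al f θ)) 1 :=
      ⟨continuous_ee.measurable.comp ((al_meas hf.m).const_mul 2), fun t => by rw [norm_ee]⟩
    exact (BR.nrm hf).mul (BR.re (he.cmul κ))
  have A1 := (bw f1).add (bw f2)
  have A2 := (hA_br h1 f1 m1).add (hA_br h1 f2 m2)
  have A3 := (bH f1).add (bH f2)
  have A4 := (hA_br h3 f1 m1).add (hA_br h3 f2 m2)
  have A5 := (bk f1 (((-(2 / 3) : ℝ) : ℂ) * P.sig b)).add (bk f2 (((-(2 / 3) : ℝ) : ℂ) * P.sig b))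
  have e0 : mean (fun θ => (‖P.F1 b z θ‖ * hw P.eta 0 0 (al (P.F1 b z) θ)
      + ‖P.F2 b z θ‖ * hw P.eta 0 0 (al (P.F2 b z) θ)) + (‖P.F1 b z θ‖ * hA (P.al b) (al (P.F1 b z) θ)
      + ‖P.F2 b z θ‖ * hA (P.al b) (al (P.F2 b z) θ))) =
      mean (fun θ => ((‖P.F1 b z θ‖ * P.H (al (P.F1 b z) θ) + ‖P.F2 b z θ‖ * P.H (al (P.F2 b z) θ))
      + (‖P.F1 b z θ‖ * ((((-(2 / 3) : ℝ) : ℂ) * P.sig b) * ee (2 * al (P.F1 b z) θ)).re
        + ‖P.F2 b z θ‖ * ((((-(2 / 3) : ℝ) : ℂ) * P.sig b) * ee (2 * al (P.F2 b z) θ)).re))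
      + (‖P.F1 b z θ‖ * hA (P.dal b) (al (P.F1 b z) θ) + ‖P.F2 b z θ‖ * hA (P.dal b) (al (P.F2 b z) θ))) := by
    refine mean_congr fun θ => ?_
    have hdec : ∀ a, hA (P.al b) a = hA (P.dal b) a + hA P.a0 a
        + ((((-(2 / 3) : ℝ) : ℂ) * P.sig b) * ee (2 * a)).re := by
      intro a
      have e1 : P.al b = fun t => (P.dal b t + P.a0 t) + Helper49.Sharp.h2 (fc (P.al b) 2) (fc (P.al b) (-2)) t := by
        funext t
        unfold Par.dal noh2 Helper49.Sharp.h2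
        ring
      have e2 := hA_add (h3.add h2) (h2_bm (fc (P.al b) 2) (fc (P.al b) (-2))) a
      rw [hA_add h3 h2, hA_h2, sig_eq h hr, ← e1] at e2
      exact e2
    rw [hdec, hdec]
    unfold Par.H
    ring
  rw [mean_add A1 A2, mean_add (A3.add A5) A4, mean_add A3 A5, hs] at e0
  linarith

end

end Helper49.Sharp
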