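import Pool.Agent.Helper49.RC.Bridge
import Pool.Agent.Helper47.RB.St

/-!
Project RC (MP_16b052_ag, characteristic two): the functional, degrees one, two and six.
-/

set_option autoImplicit false

namespace Helper49.RC

open MvPolynomial Helper49.RA Helper47.RB

universe u

/-- The functional. -/
theorem stPhi : Helper47.RB.StPhi.{u} := by
  intro k _
  obtain ⟨Φ, h1, h2⟩ := phi_of_table k (Fin 30)
    (fun a b c d => if tau a.val b.val c.val d.val then 1 else 0)
    (fun a b c d => by rw [tau_s1 a.isLt b.isLt c.isLt d.isLt])
    (fun a b c d => by rw [tau_s2 a.isLt b.isLt c.isLt d.isLt])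
    (fun a b c d => by rw [tau_s3 a.isLt b.isLt c.isLt d.isLt])
  exact ⟨Φ, h1, h2⟩

theorem w_sum {a b c d : Fin 30} (h : tau a.val b.val c.val d.val = true) :
    w a + w b + (w c + w d) = 0 := by
  have h1 := tau_wt h
  unfold w
  have h2 : ((Wt a.val + Wt b.val + (Wt c.val + Wt d.val) : ℕ) : ZMod 61) = 0 := by
    rw [ZMod.natCast_eq_zero_iff]
    exact Nat.dvd_of_mod_eq_zero h1
  rw [← h2]
  push_cast
  ring

theorem deg1 (k : Type u) [Field k] (Φ : MvPolynomial (Fin 30) k →ₗ[k] k) (hΦ : IsPh k Φ) :
    H1 Φ := by
  intro r hr hrI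
  have hlin := lin_eq r hr
  have key : ∀ a, coeff (Finsupp.single a 1) r = 0 := by
    intro a
    obtain ⟨i, j, l, h⟩ := tab1 a
    have h1 := hrI (X i * X j * X l)
    rw [hlin, Finset.sum_mul, map_sum, Finset.sum_eq_single a] at h1
    · have e : (C (coeff (Finsupp.single a 1) r) * X a * (X i * X j * X l) :
          MvPolynomial (Fin 30) k) =
          coeff (Finsupp.single a 1) r • (X a * X i * X j * X l) := by
        rw [smul_eq_C_mul]; ring
      rw [e, map_smul, hΦ.val, h, if_pos rfl, smul_eq_mul, mul_one] at h1
      exact h1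
    · intro b _ hb
      have e : (C (coeff (Finsupp.single b 1) r) * X b * (X i * X j * X l) :
          MvPolynomial (Fin 30) k) =
          coeff (Finsupp.single b 1) r • (X b * X i * X j * X l) := by
        rw [smul_eq_C_mul]; ring
      rw [e, map_smul, hΦ.val, if_neg, smul_zero]
      intro h2
      apply hb
      apply w_inj
      have h3 := w_sum h
      have h4 := w_sum h2
      have h5 : w b + w i + (w j + w l) = w a + w i + (w j + w l) := by rw [h3, h4]
      exact add_right_cancel (add_right_cancel h5)
    · intro h; exact absurd (Finset.mem_univ _) h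
  rw [hlin]
  refine Finset.sum_eq_zero fun b _ => ?_
  rw [key b, C_0, zero_mul]

theorem deg2 (k : Type u) [Field k] (Φ : MvPolynomial (Fin 30) k →ₗ[k] k) (hΦ : IsPh k Φ) :
    H2 Φ := by
  have hS : Sq Φ := by
    intro a
    obtain ⟨i, j, h⟩ := tab2 a
    refine ⟨i, j, fun a' => ?_⟩
    rw [hΦ.val]
    by_cases ha : a' = a
    · subst ha; rw [h, if_pos rfl, if_pos rfl]
    · rw [if_neg, if_neg ha]
      intro h2
      apply ha
      apply w_inj
      have h3 := w_sum h
      have h4 := w_sum h2
      have h5 : w a' + w a' = w a + w a := by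
        have : w a' + w a' + (w i + w j) = w a + w a + (w i + w j) := by rw [h3, h4]
        exact add_right_cancel this
      have h6 : (2 : ZMod 61) * w a' = 2 * w a := by rw [two_mul, two_mul, h5]
      have h7 : (31 : ZMod 61) * 2 = 1 := by decide
      calc w a' = 31 * 2 * w a' := by rw [h7, one_mul]
        _ = 31 * (2 * w a') := by rw [mul_assoc]
        _ = 31 * 2 * w a := by rw [h6, mul_assoc]
        _ = w a := by rw [h7, one_mul]
  intro r hr hrI hd
  exact h2_of hS r hr hrI hd

theorem stU12 : StU12.{u} := fun k _ Φ hΦ => ⟨deg1 k Φ hΦ, deg2 k Φ hΦ⟩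

/-- Degree six. -/
theorem stU6 : StU6.{u} := by
  intro k _ Φ hΦ h5 G hG s hs
  have h7 : ∀ v, ∃ l : Fin 30 → k, ∀ s : MvPolynomial (Fin 30) k, s.IsHomogeneous 5 →
      G (X v * s) = ∑ i, l i * Φ (pderiv i s) := fun v => h5 _ (kills_mul hG v)
  choose l hl using h7
  have hl0 : ∀ v a, l v a = 0 := by
    intro v a
    obtain ⟨v', b, c, d, h1, h2, h3, h4, g1, g2, g3, g4, g5, g6, g7⟩ := tabE v a
    have e1 := hl v (X v' * (X a * X b * X c * X d))
      ((isHomogeneous_X k v').mul (hom_four a b c d))
    have e2 := hl v' (X v * (X a * X b * X c * X d))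
      ((isHomogeneous_X k v).mul (hom_four a b c d))
    have e3 : (X v * (X v' * (X a * X b * X c * X d)) : MvPolynomial (Fin 30) k) =
      X v' * (X v * (X a * X b * X c * X d)) := by ring
    rw [e3, e2] at e1
    have e4 : ∀ (v v' : Fin 30), ∑ i, l v i * Φ (pderiv i (X v' * (X a * X b * X c * X d))) =
        l v v' * Φ (X a * X b * X c * X d) + (l v a * Φ (X v' * X b * X c * X d) +
          l v b * Φ (X v' * X a * X c * X d) + l v c * Φ (X v' * X a * X b * X d) +
          l v d * Φ (X v' * X a * X b * X c)) := by
      intro v v'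
      have e5 : ∀ i, l v i * Φ (pderiv i (X v' * (X a * X b * X c * X d))) =
          (if i = v' then l v i * Φ (X a * X b * X c * X d) else 0) +
          ((if i = a then l v i * Φ (X v' * X b * X c * X d) else 0) +
          (if i = b then l v i * Φ (X v' * X a * X c * X d) else 0) +
          (if i = c then l v i * Φ (X v' * X a * X b * X d) else 0) +
          (if i = d then l v i * Φ (X v' * X a * X b * X c) else 0)) := by
        intro i
        have e6 : (pderiv i (X v' * (X a * X b * X c * X d)) : MvPolynomial (Fin 30) k) =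
            (if i = v' then X a * X b * X c * X d else 0) +
            ((if i = a then X v' * X b * X c * X d else 0) +
            (if i = b then X v' * X a * X c * X d else 0) +
            (if i = c then X v' * X a * X b * X d else 0) +
            (if i = d then X v' * X a * X b * X c else 0)) := by
          have e3 : ∀ z : Fin 30, (pderiv i (X z) : MvPolynomial (Fin 30) k) =
              if i = z then 1 else 0 := by
            intro z
            rw [pderiv_X]
            by_cases h : i = z
            · subst h; rw [Pi.single_eq_same, if_pos rfl]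
            · rw [Pi.single_eq_of_ne (Ne.symm h), if_neg h]
          rw [pderiv_mul, pderiv_mul, pderiv_mul, pderiv_mul, e3, e3, e3, e3, e3]
          split_ifs <;> ring
        rw [e6]
        simp only [map_add, mul_add]
        have e4 : ∀ (P : Prop) [Decidable P] (r : MvPolynomial (Fin 30) k),
            l v i * Φ (if P then r else 0) = if P then l v i * Φ r else 0 := by
          intro P _ r
          split_ifs
          · rfl
          · rw [map_zero, mul_zero]
        rw [e4, e4, e4, e4, e4]
      rw [Finset.sum_congr rfl fun i _ => e5 i]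
      simp only [Finset.sum_add_distrib, Finset.sum_ite_eq', Finset.mem_univ, if_true]
    rw [e4, e4] at e1
    simp only [hΦ.val] at e1
    rw [h3, h4, g1, g2, g3, g4, g5, g6, g7] at e1
    simp at e1
    exact e1.symm
  have hW : s ∈ LinearMap.ker G := by
    refine gen k (Fin 30) (LinearMap.ker G) 5 ?_ s hs
    intro y t ht
    rw [LinearMap.mem_ker, hl y t ht]
    exact Finset.sum_eq_zero fun i _ => by rw [hl0, zero_mul]
  exact hW

end Helper49.RC
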