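import Pool.Agent.Helper61.RC.M_SEL
import Pool.Agent.Helper49.LT.StA

/-!
# Project RC: assembly of the reduction
-/

open MeasureTheory Set Filter Metric

namespace Helper49.RC.RED

open Helper97.CB Helper49.LT Helper49.RC Pool.Agent.Helper61.RC

/-- the support functional of a scaled body -/
theorem sp_aff (K : Set ℂ) (hK : K.Nonempty) (r : ℝ) (hr : 0 ≤ r) (hc : IsCompact K) (p : ℂ) :
    sp (aff (r : ℂ) 0 0 '' K) p = r * sp K p := by
  have hK2 : (aff (r : ℂ) 0 0 '' K).Nonempty := hK.image _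
  have hc2 : IsCompact (aff (r : ℂ) 0 0 '' K) := by
    apply hc.image
    unfold aff
    fun_prop
  apply le_antisymm
  · apply csSup_le (hK2.image _)
    rintro _ ⟨_, ⟨z, hz, rfl⟩, rfl⟩
    have h := le_sp K hc p z hz
    have e : (aff (r : ℂ) 0 0 z * (starRingEnd ℂ) p).re = r * (z * (starRingEnd ℂ) p).re := by
      simp only [aff, zero_mul, add_zero]
      rw [mul_assoc, Complex.re_ofReal_mul]
    show (aff (r : ℂ) 0 0 z * (starRingEnd ℂ) p).re ≤ _
    rw [e]
    exact mul_le_mul_of_nonneg_left h hr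
  · rcases eq_or_lt_of_le hr with h0 | h0
    · subst h0
      rw [zero_mul]
      obtain ⟨z, hz⟩ := hK
      have h := le_sp _ hc2 p _ (mem_image_of_mem _ hz)
      simpa [aff] using h
    · have h1 : sp K p ≤ (1 / r) * sp (aff (r : ℂ) 0 0 '' K) p := by
        apply csSup_le (hK.image _)
        rintro _ ⟨z, hz, rfl⟩
        have h := le_sp _ hc2 p _ (mem_image_of_mem (aff (r : ℂ) 0 0) hz)
        have e : (aff (r : ℂ) 0 0 z * (starRingEnd ℂ) p).re = r * (z * (starRingEnd ℂ) p).re := by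
          simp only [aff, zero_mul, add_zero]
          rw [mul_assoc, Complex.re_ofReal_mul]
        rw [e] at h
        show (z * (starRingEnd ℂ) p).re ≤ _
        rw [div_mul_eq_mul_div, one_mul, le_div_iff₀ h0]
        linarith
      calc r * sp K p ≤ r * ((1 / r) * sp (aff (r : ℂ) 0 0 '' K) p) :=
            mul_le_mul_of_nonneg_left h1 hr
        _ = sp (aff (r : ℂ) 0 0 '' K) p := by field_simp

theorem m0_pos : 0 < m0 := by
  unfold m0
  have : 0 < Real.sqrt 3 := Real.sqrt_pos.2 (by norm_num)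
  have := Real.pi_pos
  positivity

theorem area_pos (K : Set ℂ) (hK : IsBody K) : 0 < area K := by
  obtain ⟨_, hc, hi⟩ := hK
  unfold area
  apply ENNReal.toReal_pos
  · have h1 : 0 < volume (interior K) := isOpen_interior.measure_pos volume hi
    exact (lt_of_lt_of_le h1 (measure_mono interior_subset)).ne'
  · exact hc.measure_lt_top.ne

theorem sp_cont (K : Set ℂ) (hK : IsCompact K) (h0 : (0 : ℂ) ∈ K) : Continuous (sp K) := by
  obtain ⟨R, hR⟩ := hK.isBounded.exists_norm_le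
  have hR0 : 0 ≤ R := le_trans (norm_nonneg _) (hR 0 h0)
  have h : LipschitzWith ⟨R, hR0⟩ (sp K) := by
    apply LipschitzWith.of_dist_le_mul
    intro x y
    rw [Real.dist_eq, dist_eq_norm]
    have h1 := sp_lip K hK h0 R hR x y
    have h2 := sp_lip K hK h0 R hR y x
    rw [norm_sub_rev] at h2
    rw [abs_le]
    constructor
    · show -(R * ‖x - y‖) ≤ _
      linarith
    · show _ ≤ R * ‖x - y‖
      linarith
  exact h.continuous

theorem sp_le_norm (K : Set ℂ) (hK : IsCompact K) (h0 : (0 : ℂ) ∈ K) (R : ℝ)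
    (hR : ∀ z ∈ K, ‖z‖ ≤ R) (x : ℂ) : sp K x ≤ R * ‖x‖ := by
  have h1 := sp_lip K hK h0 R hR x 0
  have h2 : sp K 0 ≤ 0 := by
    apply csSup_le
    · exact ⟨_, 0, h0, rfl⟩
    · rintro _ ⟨z, hz, rfl⟩
      simp
  simp only [sub_zero] at h1
  linarith

theorem meas_ee : Measurable ee := continuous_ee.measurable

/-- the sum of the three support values -/
noncomputable def A3 (K : Set ℂ) (β P : ℝ → ℂ) (t : ℝ) : ℝ :=
  sp K (ee t * f0 (β t)) + sp K (ee t * f1 (β t) (P t)) + sp K (ee t * f2 (β t) (P t))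

theorem A3_meas (K : Set ℂ) (hK : IsCompact K) (h0 : (0 : ℂ) ∈ K) (β P : ℝ → ℂ)
    (h : Adm β P) : Measurable (A3 K β P) := by
  have hs := (sp_cont K hK h0).measurable
  have hb := h.mb
  have hp := h.mp
  have he := meas_ee
  unfold A3 f0 f1 f2
  apply Measurable.add
  · apply Measurable.add
    · exact hs.comp (he.mul (measurable_const.add hb))
    · exact hs.comp (he.mul (((measurable_const.add (measurable_const.mul hb))).add hp))
  · exact hs.comp (he.mul (((measurable_const.add (measurable_const.mul hb))).sub hp))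

theorem nb (β P : ℝ → ℂ) (h : Adm β P) (t : ℝ) : ‖β t‖ ≤ 3 / 2 := by
  have h1 := h.bdb t
  nlinarith [norm_nonneg (β t)]

theorem np (β P : ℝ → ℂ) (h : Adm β P) (t : ℝ) : ‖P t‖ ≤ 5 / 2 := by
  have h1 := Reg_norm _ _ (h.reg t)
  have h2 := nb β P h t
  linarith

theorem A3_bdd (K : Set ℂ) (hK : IsCompact K) (h0 : (0 : ℂ) ∈ K) (β P : ℝ → ℂ)
    (h : Adm β P) : ∃ C : ℝ, ∀ t, ‖A3 K β P t‖ ≤ C := by
  obtain ⟨R, hR⟩ := hK.isBounded.exists_norm_le
  have hR0 : 0 ≤ R := le_trans (norm_nonneg _) (hR 0 h0)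
  refine ⟨R * 15, fun t => ?_⟩
  have hb := nb β P h t
  have hp := np β P h t
  have n0 : ‖ee t * f0 (β t)‖ ≤ 5 := by
    rw [norm_mul, norm_ee, one_mul]
    have := norm_f0 (β t)
    linarith
  have n1 : ‖ee t * f1 (β t) (P t)‖ ≤ 5 := by
    rw [norm_mul, norm_ee, one_mul]
    have := norm_f1 (β t) (P t)
    linarith
  have n2 : ‖ee t * f2 (β t) (P t)‖ ≤ 5 := by
    rw [norm_mul, norm_ee, one_mul]
    have := norm_f2 (β t) (P t)
    linarith
  have s0 := sp_le_norm K hK h0 R hR (ee t * f0 (β t))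
  have s1 := sp_le_norm K hK h0 R hR (ee t * f1 (β t) (P t))
  have s2 := sp_le_norm K hK h0 R hR (ee t * f2 (β t) (P t))
  have p0 := sp_nonneg K hK h0 (ee t * f0 (β t))
  have p1 := sp_nonneg K hK h0 (ee t * f1 (β t) (P t))
  have p2 := sp_nonneg K hK h0 (ee t * f2 (β t) (P t))
  rw [Real.norm_eq_abs, abs_of_nonneg (by unfold A3; linarith)]
  unfold A3
  have q0 := mul_le_mul_of_nonneg_left n0 hR0
  have q1 := mul_le_mul_of_nonneg_left n1 hR0
  have q2 := mul_le_mul_of_nonneg_left n2 hR0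
  linarith

theorem ee_add_pi (t : ℝ) : ee (t + Real.pi) = -ee t := by
  rw [ee_add, ee_pi]; ring

theorem Psi_A3 (K : Set ℂ) (β P : ℝ → ℂ) (h : Adm β P) (t : ℝ) :
    Psi K t (β t) (P t) = (1 / 3) * (A3 K β P t + A3 K β P (t + Real.pi)) + ‖β t‖ ^ 2 := by
  unfold Psi A3
  rw [h.perb, h.perp, ee_add_pi]
  have e0 : -ee t * f0 (β t) = -(ee t * f0 (β t)) := by ring
  have e1 : -ee t * f1 (β t) (-P t) = -(ee t * f1 (β t) (-P t)) := by ring
  have e2 : -ee t * f2 (β t) (-P t) = -(ee t * f2 (β t) (-P t)) := by ring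
  rw [e0, e1, e2]
  ring

theorem A3_per (K : Set ℂ) (β P : ℝ → ℂ) (h : Adm β P) (t : ℝ) :
    A3 K β P (t + 2 * Real.pi) = A3 K β P t := by
  have hb : β (t + 2 * Real.pi) = β t := by
    rw [show t + 2 * Real.pi = (t + Real.pi) + Real.pi by ring, h.perb, h.perb]
  have hp : P (t + 2 * Real.pi) = P t := by
    rw [show t + 2 * Real.pi = (t + Real.pi) + Real.pi by ring, h.perp, h.perp, neg_neg]
  unfold A3
  rw [hb, hp, ee_per]

theorem mean_le (K : Set ℂ) (hK : IsCompact K) (h0 : (0 : ℂ) ∈ K) (β P : ℝ → ℂ)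
    (h : Adm β P) (g : ℝ) (hg : ∀ t, Psi K t (β t) (P t) ≤ g) :
    (2 / 3) * VV K β P + mB β ≤ g := by
  have hpi := Real.pi_pos
  obtain ⟨C, hC⟩ := A3_bdd K hK h0 β P h
  have hm := A3_meas K hK h0 β P h
  have hi : ∀ a b : ℝ, IntervalIntegrable (A3 K β P) volume a b := by
    intro a b
    have hc : IntervalIntegrable (fun _ : ℝ => C) volume a b := intervalIntegrable_const
    refine hc.mono_fun hm.aestronglyMeasurable ?_
    filter_upwards with x
    have := hC x
    have h2 : 0 ≤ C := le_trans (norm_nonneg _) this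
    rw [Real.norm_eq_abs C, abs_of_nonneg h2]
    exact this
  have hi2 : IntervalIntegrable (fun t => A3 K β P (t + Real.pi)) volume 0 (2 * Real.pi) := by
    have := (hi (0 + Real.pi) (2 * Real.pi + Real.pi)).comp_add_right Real.pi
    simpa using this
  have hib : IntervalIntegrable (fun t => ‖β t‖ ^ 2) volume 0 (2 * Real.pi) := by
    have hc : IntervalIntegrable (fun _ : ℝ => (2 : ℝ)) volume 0 (2 * Real.pi) :=
      intervalIntegrable_const
    refine hc.mono_fun ((h.mb.norm.pow_const 2).aestronglyMeasurable) ?_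
    filter_upwards with x
    have := h.bdb x
    rw [Real.norm_eq_abs, abs_of_nonneg (by positivity)]
    simpa using this
  have key : ∫ t in (0 : ℝ)..(2 * Real.pi), Psi K t (β t) (P t) ≤ g * (2 * Real.pi) := by
    have hip : IntervalIntegrable (fun t => Psi K t (β t) (P t)) volume 0 (2 * Real.pi) := by
      have : (fun t => Psi K t (β t) (P t)) =
          fun t => (1 / 3) * (A3 K β P t + A3 K β P (t + Real.pi)) + ‖β t‖ ^ 2 := by
        funext t; exact Psi_A3 K β P h t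
      rw [this]
      exact (((hi _ _).add hi2).const_mul _).add hib
    have h1 := intervalIntegral.integral_mono_on (by positivity : (0 : ℝ) ≤ 2 * Real.pi) hip
      (intervalIntegrable_const (c := g)) (fun x _ => hg x)
    rw [intervalIntegral.integral_const] at h1
    simp only [sub_zero, smul_eq_mul] at h1
    linarith
  have e1 : ∫ t in (0 : ℝ)..(2 * Real.pi), Psi K t (β t) (P t) =
      (1 / 3) * ((∫ t in (0 : ℝ)..(2 * Real.pi), A3 K β P t) +
        ∫ t in (0 : ℝ)..(2 * Real.pi), A3 K β P (t + Real.pi)) +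
        ∫ t in (0 : ℝ)..(2 * Real.pi), ‖β t‖ ^ 2 := by
    have : (fun t => Psi K t (β t) (P t)) =
        fun t => (1 / 3) * (A3 K β P t + A3 K β P (t + Real.pi)) + ‖β t‖ ^ 2 := by
      funext t; exact Psi_A3 K β P h t
    rw [this]
    rw [intervalIntegral.integral_add (((hi _ _).add hi2).const_mul _) hib,
      intervalIntegral.integral_const_mul, intervalIntegral.integral_add (hi _ _) hi2]
  have e2 : ∫ t in (0 : ℝ)..(2 * Real.pi), A3 K β P (t + Real.pi) =
      ∫ t in (0 : ℝ)..(2 * Real.pi), A3 K β P t :=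
    integral_shift (A3 K β P) (A3_per K β P h) Real.pi
  rw [e1, e2] at key
  have e3 : VV K β P = (1 / (2 * Real.pi)) * ∫ t in (0 : ℝ)..(2 * Real.pi), A3 K β P t := rfl
  rw [e3]
  unfold mB
  have h2pi : 0 < 2 * Real.pi := by positivity
  set X := ∫ t in (0 : ℝ)..(2 * Real.pi), A3 K β P t
  set Y := ∫ t in (0 : ℝ)..(2 * Real.pi), ‖β t‖ ^ 2
  have e4 : (2 / 3) * (1 / (2 * Real.pi) * X) + 1 / (2 * Real.pi) * Y =
      ((1 / 3) * (X + X) + Y) / (2 * Real.pi) := by
    field_simp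
    ring
  rw [e4, div_le_iff₀ h2pi]
  exact key

/-- Module RED: the reduction -/
theorem hRED (hsix : StSix) (hksd : StKsd) (hsel : StSel) (hmix : StMix) (hpoc : StPoc)
    (haff : StAff) (hsml : StSml) : StRed := by
  intro κ hκ hR K hK
  by_contra hT
  have hm := m0_pos
  have hpi := Real.pi_pos
  -- step 1
  have hlt : ENNReal.ofReal (1 / (κ * m0)) < theta K := not_le.1 hT
  obtain ⟨r, hr0, hr1, hr2⟩ := ENNReal.lt_iff_exists_real_btwn.1 hlt
  have hr3 : 1 / (κ * m0) < r := by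
    rw [ENNReal.ofReal_lt_ofReal_iff'] at hr1
    exact hr1.1
  have hrpos : 0 < r := lt_trans (by positivity) hr3
  set κ' := 1 / (r * m0) with hκ'
  have hκ'pos : 0 < κ' := by positivity
  have hκ'lt : κ' < κ := by
    rw [hκ', div_lt_iff₀ (by positivity)]
    rw [div_lt_iff₀ (by positivity)] at hr3
    nlinarith
  have hnot : ¬ theta K ≤ ENNReal.ofReal (1 / (κ' * m0)) := by
    have : 1 / (κ' * m0) = r := by
      rw [hκ']; field_simp
    rw [this]
    exact not_le.2 hr2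
  have hsmall := hsml K hK (κ' * m0) (by positivity) hnot
  -- step 3: position
  obtain ⟨α, β₀, c, hab, h0, h2⟩ := hpoc K hK
  have hlt2 : ‖β₀‖ < ‖α‖ := by
    nlinarith [norm_nonneg α, norm_nonneg β₀]
  obtain ⟨hK1, hA1, hS1⟩ := haff K α β₀ c hK hlt2
  have hS1' := hS1 _ hsmall
  rw [hab, one_mul] at hA1 hS1'
  set K1 := aff α β₀ c '' K with hK1def
  have hA0 := area_pos K1 hK1
  -- step 4: scaling
  set r0 := Real.sqrt (Real.pi / (κ * area K1)) with hr0def
  have hr0pos : 0 < r0 := Real.sqrt_pos.2 (by positivity)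
  have hr0sq : r0 ^ 2 = Real.pi / (κ * area K1) := Real.sq_sqrt (by positivity)
  have hnr : ‖((r0 : ℝ) : ℂ)‖ = r0 := by
    rw [Complex.norm_real, Real.norm_eq_abs, abs_of_pos hr0pos]
  obtain ⟨hK2, hA2, hS2⟩ := haff K1 (r0 : ℂ) 0 0 hK1 (by rw [norm_zero, hnr]; exact hr0pos)
  have hS2' := hS2 _ hS1'
  rw [norm_zero, hnr] at hA2 hS2'
  set K2 := aff (r0 : ℂ) 0 0 '' K1 with hK2def
  have hA2' : area K2 = Real.pi / κ := by
    rw [hA2]
    have : (r0 ^ 2 - 0 ^ 2) = Real.pi / (κ * area K1) := by rw [← hr0sq]; ring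
    rw [this]
    field_simp
  set M := κ' / κ with hMdef
  have hM1 : M < 1 := by rw [hMdef, div_lt_one hκ]; exact hκ'lt
  have hSB : (r0 ^ 2 - 0 ^ 2) * (2 * (κ' * m0) * area K) = 3 * Real.sqrt 3 * M := by
    have : (r0 ^ 2 - 0 ^ 2) = Real.pi / (κ * area K1) := by rw [← hr0sq]; ring
    rw [this, ← hA1, hMdef]
    unfold m0
    field_simp
  rw [hSB] at hS2'
  have h02 : (0 : ℂ) ∈ interior K2 := by
    obtain ⟨ρ, hρ, hb⟩ := Metric.mem_nhds_iff.1 (mem_interior_iff_mem_nhds.1 h0)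
    rw [mem_interior_iff_mem_nhds, Metric.mem_nhds_iff]
    refine ⟨r0 * ρ, by positivity, ?_⟩
    intro z hz
    rw [mem_ball_zero_iff] at hz
    refine ⟨z / (r0 : ℂ), hb ?_, ?_⟩
    · rw [mem_ball_zero_iff, norm_div, hnr, div_lt_iff₀ hr0pos]
      linarith
    · have : (r0 : ℂ) ≠ 0 := by exact_mod_cast hr0pos.ne'
      simp only [aff, zero_mul, add_zero]
      field_simp
  have h00 : (0 : ℂ) ∈ K2 := interior_subset h02
  have hne1 : K1.Nonempty := ⟨0, interior_subset h0⟩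
  have hhf : hf K2 2 = 0 := by
    have e : (fun t : ℝ => ((sp K2 (ee t) : ℝ) : ℂ) * ee (-((2 : ℕ) : ℝ) * t)) =
        fun t : ℝ => (r0 : ℂ) * (((sp K1 (ee t) : ℝ) : ℂ) * ee (-((2 : ℕ) : ℝ) * t)) := by
      funext t
      rw [hK2def, sp_aff K1 hne1 r0 hr0pos.le hK1.2.1 (ee t)]
      push_cast
      ring
    have h2' := h2
    unfold hf at h2' ⊢
    rw [e, intervalIntegral.integral_const_mul]
    rw [mul_left_comm, h2', mul_zero]
  -- step 5, 6
  have hsix' : ∀ x : Fin 6 → ℂ, (∀ k, x k ∈ K2) → x 1 - x 2 + x 4 - x 5 = 0 →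
      ar6 x ≤ 3 * Real.sqrt 3 * M := fun x hx hx2 => hsix K2 _ hK2 hS2' x hx hx2
  have heps : 0 < (1 - M) / 4 := by linarith
  have hG : 1 + M + (1 - M) / 4 < 2 := by linarith
  obtain ⟨β, P, hadm, hpsi⟩ := hsel K2 (1 + M + (1 - M) / 4) hK2 h00 hG
    (fun t => hksd K2 M hK2 hsix' t ((1 - M) / 4) heps) ((1 - M) / 4) heps
  -- step 7
  have hmean := mean_le K2 hK2.2.1 h00 β P hadm _ hpsi
  obtain ⟨hV0, hV1⟩ := hmix K2 β P hK2 h02 hhf hadm
  have hB2 : mB β ≤ 2 := by linarith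
  have hRk := hR β P hadm hB2
  rw [hA2'] at hV1
  have hV2 : FM β P ≤ κ * VV K2 β P ^ 2 := by
    have : Real.pi / κ * FM β P = Real.pi * (FM β P / κ) := by ring
    rw [this] at hV1
    have h3 := le_of_mul_le_mul_left hV1 hpi
    rw [div_le_iff₀ hκ] at h3
    linarith
  have hV3 : VV K2 β P < 3 * (1 - mB β / 2) := by linarith
  have h5 : VV K2 β P ^ 2 < (3 * (1 - mB β / 2)) ^ 2 := by nlinarith
  have h6 : κ * VV K2 β P ^ 2 < κ * (3 * (1 - mB β / 2)) ^ 2 := mul_lt_mul_of_pos_left h5 hκ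
  nlinarith

end Helper49.RC.RED
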