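import Pool.Agent.Helper49.RC.St

/-!
# Project RC: the reduction with `|β| < 1`

`StKsd2`, `StSel2` replace `StKsd`, `StSel`; final statement of the reduction `StRed2`: if `Rs κ` holds then
every planar convex body has `theta K ≤ 1/(κ m0)`, `m0 = 3√3/(2π)`. In `Rs κ` the functions `β` satisfy
`‖β t‖ < 1` for all `t` and the right side of the target is `9 κ (mean of √(1 - ‖β‖²))²`.
-/

open MeasureTheory Set Filter Metric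

namespace Helper49.RC

open Helper97.CB Helper49.LT

/-- the sum of the six support values, divided by `3`: `Psi = Phi + ‖b‖ ^ 2` -/
noncomputable def Phi (K : Set ℂ) (t : ℝ) (b p : ℂ) : ℝ :=
  (1 / 3) * (sp K (ee t * f0 b) + sp K (ee t * f1 b p) + sp K (ee t * f2 b p)
    + sp K (-(ee t * f0 b)) + sp K (-(ee t * f1 b (-p))) + sp K (-(ee t * f2 b (-p))))

theorem Psi_eq_Phi (K : Set ℂ) (t : ℝ) (b p : ℂ) : Psi K t b p = Phi K t b p + ‖b‖ ^ 2 := rfl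

/-- mean of `√(1 - ‖β‖²)` -/
noncomputable def mS (β : ℝ → ℂ) : ℝ :=
  (1 / (2 * Real.pi)) * ∫ t in (0 : ℝ)..(2 * Real.pi), Real.sqrt (1 - ‖β t‖ ^ 2)

/-- the target inequality for `‖β‖ < 1` -/
def Rs (κ : ℝ) : Prop := ∀ β P : ℝ → ℂ, Adm β P → (∀ t, ‖β t‖ < 1) →
  9 * κ * (mS β) ^ 2 ≤ FM β P

/-- MODULE KSD2 (helper87). Proof as `StKsd` with `F x = 2 Re (conj (ee t) X x) - 2 √(M + ‖V x‖²) ≤ 0` on `C'`
and `b = -(conj (ee t)) V*/√(M + ‖V*‖²)`, `1 - ‖b‖² = M/(M + ‖V*‖²)`. -/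
def StKsd2 : Prop := ∀ (K : Set ℂ) (M : ℝ), IsBody K → 0 < M →
  (∀ x : Fin 6 → ℂ, (∀ k, x k ∈ K) → x 1 - x 2 + x 4 - x 5 = 0 →
    ar6 x ≤ 3 * Real.sqrt 3 * M) →
  ∀ t ε : ℝ, 0 < ε → ∃ b p : ℂ, ‖b‖ < 1 ∧
    Phi K t b p ≤ 2 * Real.sqrt M * Real.sqrt (1 - ‖b‖ ^ 2) + ε

/-- MODULE SEL2 (helper87). Proof as `StSel`. -/
def StSel2 : Prop := ∀ (K : Set ℂ) (c : ℝ), IsBody K → (0 : ℂ) ∈ K →
  (∀ t ε : ℝ, 0 < ε → ∃ b p : ℂ, ‖b‖ < 1 ∧ Phi K t b p ≤ c * Real.sqrt (1 - ‖b‖ ^ 2) + ε) →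
  ∀ ε : ℝ, 0 < ε → ∃ β P : ℝ → ℂ, Adm β P ∧ (∀ t, ‖β t‖ < 1) ∧
    ∀ t, Phi K t (β t) (P t) ≤ c * Real.sqrt (1 - ‖β t‖ ^ 2) + ε

/-- MODULE RED2 (helper49). -/
def StRed2 : Prop := ∀ κ : ℝ, 0 < κ → Rs κ → ∀ K : Set ℂ, IsBody K →
  theta K ≤ ENNReal.ofReal (1 / (κ * m0))

end Helper49.RC
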