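import Pool.Agent.Helper49.RC.M_RED
import Pool.Agent.Helper49.RC.St2

/-!
# Project RC: assembly of the reduction, `‖β‖ < 1`
-/

open MeasureTheory Set Filter Metric

namespace Helper49.RC.RED

open Helper97.CB Helper49.LT Helper49.RC Pool.Agent.Helper61.RC

/-- position and scaling -/
theorem prep (hsix : StSix) (hpoc : StPoc) (haff : StAff) (hsml : StSml) (κ : ℝ) (hκ : 0 < κ)
    (K : Set ℂ) (hK : IsBody K) (hT : ¬ theta K ≤ ENNReal.ofReal (1 / (κ * m0))) :
    ∃ (K2 : Set ℂ) (M : ℝ), IsBody K2 ∧ 0 < M ∧ M < 1 ∧ (0 : ℂ) ∈ interior K2 ∧ hf K2 2 = 0 ∧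
      area K2 = Real.pi / κ ∧ (∀ x : Fin 6 → ℂ, (∀ k, x k ∈ K2) → x 1 - x 2 + x 4 - x 5 = 0 →
      ar6 x ≤ 3 * Real.sqrt 3 * M) := by
  have hm := m0_pos
  have hpi := Real.pi_pos
  -- step 1
  have hlt : ENNReal.ofReal (1 / (κ * m0)) < theta K := not_le.1 hT
  obtain ⟨r, hr0, hr1, hr2⟩ := ENNReal.lt_iff_exists_real_btwn.1 hlt
  have hr3 : 1 / (κ * m0) < r := by
    rw [ENNReal.ofReal_lt_ofReal_iff'] at hr1
    exact hr1.1
  have hrpos : 0 < r := lt_trans (by positivity) hr3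
  set κ' := 1 / (r * m0) with hκ'
  have hκ'pos : 0 < κ' := by positivity
  have hκ'lt : κ' < κ := by
    rw [hκ', div_lt_iff₀ (by positivity)]
    rw [div_lt_iff₀ (by positivity)] at hr3
    nlinarith
  have hnot : ¬ theta K ≤ ENNReal.ofReal (1 / (κ' * m0)) := by
    have : 1 / (κ' * m0) = r := by
      rw [hκ']; field_simp
    rw [this]
    exact not_le.2 hr2
  have hsmall := hsml K hK (κ' * m0) (by positivity) hnot
  -- step 3: position
  obtain ⟨α, β₀, c, hab, h0, h2⟩ := hpoc K hK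
  have hlt2 : ‖β₀‖ < ‖α‖ := by
    nlinarith [norm_nonneg α, norm_nonneg β₀]
  obtain ⟨hK1, hA1, hS1⟩ := haff K α β₀ c hK hlt2
  have hS1' := hS1 _ hsmall
  rw [hab, one_mul] at hA1 hS1'
  set K1 := aff α β₀ c '' K with hK1def
  have hA0 := area_pos K1 hK1
  -- step 4: scaling
  set r0 := Real.sqrt (Real.pi / (κ * area K1)) with hr0def
  have hr0pos : 0 < r0 := Real.sqrt_pos.2 (by positivity)
  have hr0sq : r0 ^ 2 = Real.pi / (κ * area K1) := Real.sq_sqrt (by positivity)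
  have hnr : ‖((r0 : ℝ) : ℂ)‖ = r0 := by
    rw [Complex.norm_real, Real.norm_eq_abs, abs_of_pos hr0pos]
  obtain ⟨hK2, hA2, hS2⟩ := haff K1 (r0 : ℂ) 0 0 hK1 (by rw [norm_zero, hnr]; exact hr0pos)
  have hS2' := hS2 _ hS1'
  rw [norm_zero, hnr] at hA2 hS2'
  set K2 := aff (r0 : ℂ) 0 0 '' K1 with hK2def
  have hA2' : area K2 = Real.pi / κ := by
    rw [hA2]
    have : (r0 ^ 2 - 0 ^ 2) = Real.pi / (κ * area K1) := by rw [← hr0sq]; ring
    rw [this]
    field_simp
  set M := κ' / κ with hMdef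
  have hM1 : M < 1 := by rw [hMdef, div_lt_one hκ]; exact hκ'lt
  have hSB : (r0 ^ 2 - 0 ^ 2) * (2 * (κ' * m0) * area K) = 3 * Real.sqrt 3 * M := by
    have : (r0 ^ 2 - 0 ^ 2) = Real.pi / (κ * area K1) := by rw [← hr0sq]; ring
    rw [this, ← hA1, hMdef]
    unfold m0
    field_simp
  rw [hSB] at hS2'
  have h02 : (0 : ℂ) ∈ interior K2 := by
    obtain ⟨ρ, hρ, hb⟩ := Metric.mem_nhds_iff.1 (mem_interior_iff_mem_nhds.1 h0)
    rw [mem_interior_iff_mem_nhds, Metric.mem_nhds_iff]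
    refine ⟨r0 * ρ, by positivity, ?_⟩
    intro z hz
    rw [mem_ball_zero_iff] at hz
    refine ⟨z / (r0 : ℂ), hb ?_, ?_⟩
    · rw [mem_ball_zero_iff, norm_div, hnr, div_lt_iff₀ hr0pos]
      linarith
    · have : (r0 : ℂ) ≠ 0 := by exact_mod_cast hr0pos.ne'
      simp only [aff, zero_mul, add_zero]
      field_simp
  have h00 : (0 : ℂ) ∈ K2 := interior_subset h02
  have hne1 : K1.Nonempty := ⟨0, interior_subset h0⟩
  have hhf : hf K2 2 = 0 := by
    have e : (fun t : ℝ => ((sp K2 (ee t) : ℝ) : ℂ) * ee (-((2 : ℕ) : ℝ) * t)) =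
        fun t : ℝ => (r0 : ℂ) * (((sp K1 (ee t) : ℝ) : ℂ) * ee (-((2 : ℕ) : ℝ) * t)) := by
      funext t
      rw [hK2def, sp_aff K1 hne1 r0 hr0pos.le hK1.2.1 (ee t)]
      push_cast
      ring
    have h2' := h2
    unfold hf at h2' ⊢
    rw [e, intervalIntegral.integral_const_mul]
    rw [mul_left_comm, h2', mul_zero]
  -- step 5, 6
  have hsix' : ∀ x : Fin 6 → ℂ, (∀ k, x k ∈ K2) → x 1 - x 2 + x 4 - x 5 = 0 →
      ar6 x ≤ 3 * Real.sqrt 3 * M := fun x hx hx2 => hsix K2 _ hK2 hS2' x hx hx2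
  exact ⟨K2, M, hK2, by positivity, hM1, h02, hhf, hA2', hsix'⟩

theorem om_re' : om.re = 1 / 2 := by
  unfold om ee
  rw [Complex.exp_re]
  simp [Real.cos_pi_div_three]

theorem om_im' : om.im = Real.sqrt 3 / 2 := by
  unfold om ee
  rw [Complex.exp_im]
  simp [Real.sin_pi_div_three]

theorem om_sum (b p : ℂ) : f1 b p + f2 b p = (Real.sqrt 3 : ℂ) * Complex.I * (1 - b) := by
  have e3 : Real.sqrt 3 ^ 2 = 3 := Real.sq_sqrt (by norm_num)
  unfold f1 f2
  apply Complex.ext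
  · simp only [Complex.add_re, Complex.sub_re, Complex.mul_re, Complex.mul_im, pow_two, om_re', om_im',
      Complex.conj_re, Complex.conj_im, Complex.ofReal_re, Complex.ofReal_im, Complex.I_re,
      Complex.I_im, Complex.one_re, Complex.one_im, Complex.sub_im]
    linear_combination (-(1 + b.re) / 4) * e3
  · simp only [Complex.add_im, Complex.sub_im, Complex.mul_re, Complex.mul_im, pow_two, om_re', om_im',
      Complex.conj_re, Complex.conj_im, Complex.ofReal_re, Complex.ofReal_im, Complex.I_re,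
      Complex.I_im, Complex.one_re, Complex.one_im, Complex.sub_re]
    linear_combination (-(b.im) / 4) * e3

/-- lower bound of `Phi` for a body which contains a ball about `0` -/
theorem Phi_ge (K : Set ℂ) (hK : IsCompact K) (ρ : ℝ) (hρ : 0 < ρ) (hb : ball (0 : ℂ) ρ ⊆ K)
    (t : ℝ) (b p : ℂ) : ρ / 3 ≤ Phi K t b p := by
  have hsp : ∀ q : ℂ, ρ / 2 * ‖q‖ ≤ sp K q := by
    intro q
    rcases eq_or_ne q 0 with h0 | h0
    · subst h0
      have := le_sp K hK 0 0 (hb (mem_ball_self hρ))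
      simpa using this
    · have hn : 0 < ‖q‖ := norm_pos_iff.2 h0
      have hz : ((ρ / 2 / ‖q‖ : ℝ) : ℂ) * q ∈ K := by
        apply hb
        rw [mem_ball_zero_iff, norm_mul, Complex.norm_real, Real.norm_eq_abs,
          abs_of_pos (by positivity)]
        have : ρ / 2 / ‖q‖ * ‖q‖ = ρ / 2 := by field_simp
        rw [this]; linarith
      have h1 := le_sp K hK q _ hz
      have e : (((ρ / 2 / ‖q‖ : ℝ) : ℂ) * q * (starRingEnd ℂ) q).re = ρ / 2 * ‖q‖ := by
        rw [mul_assoc, Complex.mul_conj, Complex.normSq_eq_norm_sq, ← Complex.ofReal_mul,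
          Complex.ofReal_re]
        field_simp
      rw [e] at h1
      exact h1
  have h0 := hsp (ee t * f0 b)
  have h1 := hsp (ee t * f1 b p)
  have h2 := hsp (ee t * f2 b p)
  have h3 := hsp (-(ee t * f0 b))
  have h4 := hsp (-(ee t * f1 b (-p)))
  have h5 := hsp (-(ee t * f2 b (-p)))
  simp only [norm_neg, norm_mul, norm_ee, one_mul] at h0 h1 h2 h3 h4 h5
  have t1 : ‖f1 b p + f2 b p‖ ≤ ‖f1 b p‖ + ‖f2 b p‖ := norm_add_le _ _
  have t2 : ‖f1 b (-p) + f2 b (-p)‖ ≤ ‖f1 b (-p)‖ + ‖f2 b (-p)‖ := norm_add_le _ _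
  rw [om_sum] at t1 t2
  have hs3 : (1 : ℝ) ≤ Real.sqrt 3 := by
    rw [show (1 : ℝ) = Real.sqrt 1 by simp]
    exact Real.sqrt_le_sqrt (by norm_num)
  have t3 : ‖(Real.sqrt 3 : ℂ) * Complex.I * (1 - b)‖ = Real.sqrt 3 * ‖1 - b‖ := by
    rw [norm_mul, norm_mul, Complex.norm_I, mul_one, Complex.norm_real, Real.norm_eq_abs,
      abs_of_nonneg (by positivity)]
  rw [t3] at t1 t2
  have t4 : (2 : ℝ) ≤ ‖f0 b‖ + ‖1 - b‖ := by
    have := norm_add_le (f0 b) (1 - b)
    have e : f0 b + (1 - b) = 2 := by unfold f0; ring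
    rw [e] at this
    simpa using this
  have t5 : ‖1 - b‖ ≤ Real.sqrt 3 * ‖1 - b‖ := by nlinarith [norm_nonneg (1 - b)]
  unfold Phi
  have hsum : (2 : ℝ) * 2 ≤ ‖f0 b‖ + ‖f1 b p‖ + ‖f2 b p‖ + ‖f0 b‖ + ‖f1 b (-p)‖ + ‖f2 b (-p)‖ := by
    linarith
  nlinarith [mul_le_mul_of_nonneg_left hsum hρ.le]

theorem Phi_A3 (K : Set ℂ) (β P : ℝ → ℂ) (h : Adm β P) (t : ℝ) :
    Phi K t (β t) (P t) = (1 / 3) * (A3 K β P t + A3 K β P (t + Real.pi)) := by
  have := Psi_A3 K β P h t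
  rw [Psi_eq_Phi] at this
  linarith

theorem mean_le2 (K : Set ℂ) (hK : IsCompact K) (h0 : (0 : ℂ) ∈ K) (β P : ℝ → ℂ)
    (h : Adm β P) (c ε : ℝ) (hg : ∀ t, Phi K t (β t) (P t) ≤ c * Real.sqrt (1 - ‖β t‖ ^ 2) + ε) :
    (2 / 3) * VV K β P ≤ c * mS β + ε := by
  have hpi := Real.pi_pos
  obtain ⟨C, hC⟩ := A3_bdd K hK h0 β P h
  have hm := A3_meas K hK h0 β P h
  have hi : ∀ a b : ℝ, IntervalIntegrable (A3 K β P) volume a b := by
    intro a b
    have hc : IntervalIntegrable (fun _ : ℝ => C) volume a b := intervalIntegrable_const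
    refine hc.mono_fun hm.aestronglyMeasurable ?_
    filter_upwards with x
    have := hC x
    have h2 : 0 ≤ C := le_trans (norm_nonneg _) this
    rw [Real.norm_eq_abs C, abs_of_nonneg h2]
    exact this
  have hi2 : IntervalIntegrable (fun t => A3 K β P (t + Real.pi)) volume 0 (2 * Real.pi) := by
    have := (hi (0 + Real.pi) (2 * Real.pi + Real.pi)).comp_add_right Real.pi
    simpa using this
  have hib : IntervalIntegrable (fun t => Real.sqrt (1 - ‖β t‖ ^ 2)) volume 0 (2 * Real.pi) := by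
    have hc : IntervalIntegrable (fun _ : ℝ => (1 : ℝ)) volume 0 (2 * Real.pi) :=
      intervalIntegrable_const
    have hms : Measurable (fun t => Real.sqrt (1 - ‖β t‖ ^ 2)) :=
      (measurable_const.sub (h.mb.norm.pow_const 2)).sqrt
    refine hc.mono_fun hms.aestronglyMeasurable ?_
    filter_upwards with x
    rw [Real.norm_eq_abs, abs_of_nonneg (Real.sqrt_nonneg _), norm_one]
    apply Real.sqrt_le_iff.2
    have := sq_nonneg ‖β x‖
    exact ⟨zero_le_one, by linarith⟩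
  have h1 := intervalIntegral.integral_mono_on (by positivity : (0 : ℝ) ≤ 2 * Real.pi)
      (((hi 0 (2 * Real.pi)).add hi2).const_mul (1 / 3)) ((hib.const_mul c).add
      (intervalIntegrable_const (c := ε))) (fun x _ => by
        have := hg x
        rw [Phi_A3 K β P h x] at this
        exact this)
  rw [intervalIntegral.integral_const_mul, intervalIntegral.integral_add (hi _ _) hi2,
    intervalIntegral.integral_add (hib.const_mul c) intervalIntegrable_const,
    intervalIntegral.integral_const_mul, intervalIntegral.integral_const] at h1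
  simp only [sub_zero, smul_eq_mul] at h1
  have e2 : ∫ t in (0 : ℝ)..(2 * Real.pi), A3 K β P (t + Real.pi) =
      ∫ t in (0 : ℝ)..(2 * Real.pi), A3 K β P t :=
    integral_shift (A3 K β P) (A3_per K β P h) Real.pi
  rw [e2] at h1
  have e3 : VV K β P = (1 / (2 * Real.pi)) * ∫ t in (0 : ℝ)..(2 * Real.pi), A3 K β P t := rfl
  rw [e3]
  unfold mS
  have h2pi : 0 < 2 * Real.pi := by positivity
  set X := ∫ t in (0 : ℝ)..(2 * Real.pi), A3 K β P t
  set Y := ∫ t in (0 : ℝ)..(2 * Real.pi), Real.sqrt (1 - ‖β t‖ ^ 2)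
  have e4 : (2 / 3) * (1 / (2 * Real.pi) * X) = ((1 / 3) * (X + X)) / (2 * Real.pi) := by
    field_simp
    ring
  have e5 : c * (1 / (2 * Real.pi) * Y) + ε = (c * Y + 2 * Real.pi * ε) / (2 * Real.pi) := by
    field_simp
  rw [e4, e5]
  exact div_le_div_of_nonneg_right h1 h2pi.le

/-- Module RED2: the reduction with `‖β‖ < 1` -/
theorem hRED2 (hsix : StSix) (hksd : StKsd2) (hsel : StSel2) (hmix : StMix) (hpoc : StPoc)
    (haff : StAff) (hsml : StSml) : StRed2 := by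
  intro κ hκ hR K hK
  by_contra hT
  have hpi := Real.pi_pos
  obtain ⟨K2, M, hK2, hM0, hM1, h02, hhf, hA2, hsix'⟩ := prep hsix hpoc haff hsml κ hκ K hK hT
  have h00 : (0 : ℂ) ∈ K2 := interior_subset h02
  obtain ⟨ρ, hρ, hb⟩ := Metric.mem_nhds_iff.1 (mem_interior_iff_mem_nhds.1 h02)
  have hsM0 : 0 < Real.sqrt M := Real.sqrt_pos.2 hM0
  have hsM : Real.sqrt M < 1 := by
    rw [Real.sqrt_lt' one_pos]; simpa using hM1
  set c0 := ρ / 3 with hc0
  have hc0p : 0 < c0 := by positivity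
  set ε := c0 * (1 - Real.sqrt M) / 4 with hε
  have hεp : 0 < ε := by
    have : 0 < 1 - Real.sqrt M := by linarith
    positivity
  obtain ⟨β, P, hadm, hlt, hphi⟩ := hsel K2 (2 * Real.sqrt M) hK2 h00
    (fun t ε' hε' => hksd K2 M hK2 hM0 hsix' t ε' hε') ε hεp
  have hmean := mean_le2 K2 hK2.2.1 h00 β P hadm _ ε hphi
  obtain ⟨hV0, hV1⟩ := hmix K2 β P hK2 h02 hhf hadm
  have hRs := hR β P hadm hlt
  rw [hA2] at hV1
  have hV2 : FM β P ≤ κ * VV K2 β P ^ 2 := by
    have : Real.pi / κ * FM β P = Real.pi * (FM β P / κ) := by ring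
    rw [this] at hV1
    have h3 := le_of_mul_le_mul_left hV1 hpi
    rw [div_le_iff₀ hκ] at h3
    linarith
  have hmS : (c0 - ε) / 2 ≤ mS β := by
    have hpt : ∀ t, (c0 - ε) / 2 ≤ Real.sqrt (1 - ‖β t‖ ^ 2) := by
      intro t
      have h1 := Phi_ge K2 hK2.2.1 ρ hρ hb t (β t) (P t)
      have h2 := hphi t
      have h3 : 0 ≤ Real.sqrt (1 - ‖β t‖ ^ 2) := Real.sqrt_nonneg _
      nlinarith
    have hib : IntervalIntegrable (fun t => Real.sqrt (1 - ‖β t‖ ^ 2)) volume 0 (2 * Real.pi) := by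
      have hc : IntervalIntegrable (fun _ : ℝ => (1 : ℝ)) volume 0 (2 * Real.pi) :=
        intervalIntegrable_const
      have hms : Measurable (fun t => Real.sqrt (1 - ‖β t‖ ^ 2)) :=
        (measurable_const.sub (hadm.mb.norm.pow_const 2)).sqrt
      refine hc.mono_fun hms.aestronglyMeasurable ?_
      filter_upwards with x
      rw [Real.norm_eq_abs, abs_of_nonneg (Real.sqrt_nonneg _), norm_one]
      apply Real.sqrt_le_iff.2
      have := sq_nonneg ‖β x‖
      exact ⟨zero_le_one, by linarith⟩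
    have h1 := intervalIntegral.integral_mono_on (by positivity : (0 : ℝ) ≤ 2 * Real.pi)
      (intervalIntegrable_const (c := (c0 - ε) / 2)) hib (fun x _ => hpt x)
    rw [intervalIntegral.integral_const] at h1
    simp only [sub_zero, smul_eq_mul] at h1
    unfold mS
    rw [one_div, ← div_eq_inv_mul, le_div_iff₀ (by positivity)]
    linarith
  have hεc : 4 * ε = c0 * (1 - Real.sqrt M) := by rw [hε]; ring
  have hεle : ε ≤ c0 / 4 := by nlinarith
  have hmS0 : 0 < mS β := by nlinarith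
  have h5 : 3 * mS β ≤ VV K2 β P := by
    have h6 : κ * (3 * mS β) ^ 2 ≤ κ * VV K2 β P ^ 2 := by nlinarith
    have h7 := le_of_mul_le_mul_left h6 hκ
    exact (sq_le_sq₀ (by positivity) hV0).1 h7
  nlinarith [mul_le_mul_of_nonneg_right hmS (by linarith : (0 : ℝ) ≤ 1 - Real.sqrt M)]

end Helper49.RC.RED
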