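import Pool.Agent.Helper49.RC.St2

/-!
# Project RC, track B: the reduction in the gauge S with an arbitrary weight

For every direction `t` there are real numbers `b, y` and a vector `z` such that the hexagon with the edges (in the
frame rotated by `ee t`) `a, A + z, B - z, -a, -A + z, -B - z`, `a = 1 + b`, `c = (√3/2)(i (1 - b) + y)`,
`A = c + a/2`, `B = c - a/2`, has a small mean support value of `K`. The edges number 0 and 3 have exactly the directions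
`± ee t`. After `b, y, z` are chosen (as functions of `t`) one may multiply all edges by an arbitrary weight `w t ≥ 0`.

FINAL STATEMENT `StRedS`: `Rw κ` implies `theta K ≤ 1/(κ m0)` for every planar convex body `K`.
`Rw 1` is the conjecture `theta K ≤ 2π/√27`.
-/

open MeasureTheory Set Filter Metric

namespace Helper49.RC

open Helper97.CB Helper49.LT

/-- mean support value of the hexagon with the edges `a, c + a/2 + p, c - a/2 - p` and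
`-a, -(c + a/2) + p, -(c - a/2) - p` in the frame rotated by `ee t` -/
noncomputable def PhG (K : Set ℂ) (t : ℝ) (a c p : ℂ) : ℝ :=
  (1 / 3) * (sp K (ee t * a) + sp K (ee t * (c + 1 / 2 * a + p)) + sp K (ee t * (c - 1 / 2 * a - p))
    + sp K (-(ee t * a)) + sp K (-(ee t * (c + 1 / 2 * a + -p)))
    + sp K (-(ee t * (c - 1 / 2 * a - -p))))

/-- the vector `a` of the gauge S -/
noncomputable def aS (b : ℝ) : ℂ := 1 + (b : ℂ)

/-- the vector `c` of the gauge S -/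
noncomputable def cS (b y : ℝ) : ℂ := (Real.sqrt 3 / 2 : ℂ) * (Complex.I * (1 - (b : ℂ)) + (y : ℂ))

/-- admissible data of the gauge S -/
structure AdmS (b y : ℝ → ℝ) (z : ℝ → ℂ) : Prop where
  mb : Measurable b
  my : Measurable y
  mz : Measurable z
  perb : ∀ t, b (t + Real.pi) = b t
  pery : ∀ t, y (t + Real.pi) = y t
  perz : ∀ t, z (t + Real.pi) = -z t
  bdb : ∃ δ : ℝ, 0 < δ ∧ ∀ t, |b t| ≤ 1 - δ
  bdy : ∃ C : ℝ, ∀ t, |y t| ≤ C
  reg : ∀ t, ∃ X Y : ℝ, |X| ≤ 1 / 2 ∧ |Y| ≤ 1 ∧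
    z t = (X : ℂ) * aS (b t) + (Y : ℂ) * cS (b t) (y t)

/-- admissible weights -/
structure Wgt (w : ℝ → ℝ) : Prop where
  m : Measurable w
  nonneg : ∀ t, 0 ≤ w t
  bd : ∃ C : ℝ, ∀ t, w t ≤ C
  per : ∀ t, w (t + Real.pi) = w t
  pos : 0 < ∫ t in (0 : ℝ)..(2 * Real.pi), w t

/-- the edge families -/
noncomputable def A0S (w b : ℝ → ℝ) (t : ℝ) : ℂ := (w t : ℂ) * (ee t * aS (b t))
noncomputable def AAS (w b y : ℝ → ℝ) (t : ℝ) : ℂ :=
  (w t : ℂ) * (ee t * (cS (b t) (y t) + 1 / 2 * aS (b t)))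
noncomputable def BBS (w b y : ℝ → ℝ) (t : ℝ) : ℂ :=
  (w t : ℂ) * (ee t * (cS (b t) (y t) - 1 / 2 * aS (b t)))
noncomputable def vvS (w : ℝ → ℝ) (z : ℝ → ℂ) (t : ℝ) : ℂ := (w t : ℂ) * (ee t * z t)

/-- the Fourier coefficient of order `n` of the edge measure of three families (`sgG` of helper44 is
`sgE A0 (A + v) (B - v)` by definition) -/
noncomputable def sgE (e0 e1 e2 : ℝ → ℂ) (n : ℕ) : ℂ :=
  (1 / (2 * Real.pi) : ℂ) * ∫ t in (0 : ℝ)..(2 * Real.pi),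
    (nn n (e0 t) + nn n (e1 t) + nn n (e2 t))

/-- the area form without the second harmonic -/
noncomputable def FME (e0 e1 e2 : ℝ → ℂ) : ℝ :=
  ‖sgE e0 e1 e2 0‖ ^ 2 - 2 * ∑' n : ℕ, ‖sgE e0 e1 e2 (n + 3)‖ ^ 2 / (((n : ℝ) + 3) ^ 2 - 1)

/-- mean support value of `K` over three families of edges -/
noncomputable def VVE (K : Set ℂ) (e0 e1 e2 : ℝ → ℂ) : ℝ :=
  (1 / (2 * Real.pi)) * ∫ t in (0 : ℝ)..(2 * Real.pi), (sp K (e0 t) + sp K (e1 t) + sp K (e2 t))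

/-- the area form of the gauge S with the weight `w` -/
noncomputable def FMS (w b y : ℝ → ℝ) (z : ℝ → ℂ) : ℝ :=
  FME (A0S w b) (fun t => AAS w b y t + vvS w z t) (fun t => BBS w b y t - vvS w z t)

/-- mean of `w √(1 - b²)` -/
noncomputable def mW (w b : ℝ → ℝ) : ℝ :=
  (1 / (2 * Real.pi)) * ∫ t in (0 : ℝ)..(2 * Real.pi), w t * Real.sqrt (1 - b t ^ 2)

/-- THE TARGET INEQUALITY -/
def Rw (κ : ℝ) : Prop := ∀ (b y : ℝ → ℝ) (z : ℝ → ℂ), AdmS b y z →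
  ∃ w : ℝ → ℝ, Wgt w ∧ 9 * κ * (mW w b) ^ 2 ≤ FMS w b y z

/-- MODULE KSDS (about 300 lines; adapt `Pool/Agent/Helper87/RC/M_KSD1.lean`). `theorem hKSDS : StKsdS`.
Proof. Notation of `StKsd`: `X x = (1/6) ∑ x_k w^{-k}`, `V x = (1/6) ∑ x_k w^k`, `w = om`, `C'` the compact convex set of the
`x ∈ K^6` with `x₁ - x₂ + x₄ - x₅ = 0`; `ar6 x = 3√3 (‖X‖² - ‖V‖²)` on `C'`. Put `X' = conj (ee t) X x`,
`V' = conj (ee t) V x` (real linear in `x`), `I x = Im X' - Im V'`. On `C'' = C' ∩ {I x = 0}` (compact, convex, contains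
the constant families) `(Re X')² - (Re V')² = ‖X‖² - ‖V‖² ≤ M`. Let `x*` maximize `F x = 2 Re X' - 2 √(M + (Re V')²)` on `C''`;
`F x* ≤ 0`. With `S = √(M + (Re V'*)²)`, `b = -(Re V'*)/S`, `|b| < 1`, `√(1 - b²) = √M/S`, the first order condition (divide by
`τ → 0`, as in `hKSD1`) gives `2 Re X' + 2 b Re V' ≤ F x* + 2 M/S ≤ 2 √M √(1 - b²) =: G` for all `x ∈ C''`. Separation:
the set `{(x₁ - x₂ + x₄ - x₅, I x, 6 Re X' + 6 b Re V') : x ∈ K^6} ⊆ ℂ × ℝ × ℝ` is compact and convex and does not contain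
`(0, 0, 3 G + ε)`; it contains `(0, 0, 0)`, and `0 ≤ G`, so the last coefficient of the separating functional is positive;
divide by it: there are `v ∈ ℂ`, `μ ∈ ℝ` with
`6 Re X' + 6 b Re V' + μ (Im X' - Im V') + Re (conj v (x₁ - x₂ + x₄ - x₅)) ≤ 3 G + ε` for all `x ∈ K^6`.
With `ζ = 1 + i μ/6`, `β = b - i μ/6` (complex numbers), `Q_k = ee t (ζ w^k + β w^{-k})` the left side is
`∑ Re (x_k conj (Q_k + s_k v))`, `s = (0, 1, -1, 0, 1, -1)`. `ζ + β = 1 + b`, so `Q₀ = ee t aS b`, and with `y = -μ/3`: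
`Q₁ = ee t (cS b y + aS b/2)`, `Q₂ = ee t (cS b y - aS b/2)`, `Q_{k+3} = -Q_k`. Take the supremum over each `x_k`, `z = conj (ee t) v`. -/
def StKsdS : Prop := ∀ (K : Set ℂ) (M : ℝ), IsBody K → 0 < M →
  (∀ x : Fin 6 → ℂ, (∀ k, x k ∈ K) → x 1 - x 2 + x 4 - x 5 = 0 →
    ar6 x ≤ 3 * Real.sqrt 3 * M) →
  ∀ t ε : ℝ, 0 < ε → ∃ (b y : ℝ) (z : ℂ), |b| < 1 ∧
    PhG K t (aS b) (cS b y) z ≤ 2 * Real.sqrt M * Real.sqrt (1 - b ^ 2) + ε

/-- MODULE SELS (about 300 lines). `theorem hSELS : StSelS`.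
Proof. (0) Let `closedBall 0 ρ ⊆ K`, `ρ > 0`, so `sp K p ≥ ρ ‖p‖`. With `a = aS b = 1 + b`, `c = cS b y`, `A = c + a/2`,
`B = c - a/2`: `PhG ≥ (ρ/3)(2‖a‖ + 2‖A‖ + 2‖B‖)` (`‖A+p‖ + ‖-A+p‖ ≥ 2‖A‖`), `‖A‖ + ‖B‖ ≥ 2‖c‖ ≥ √3 max(1 - b, |y|)`, so
`PhG ≥ 4ρ/3` and `PhG ≥ (2√3 ρ/3)|y|`. Replace `ε` by `min ε (ρ/3)`. Then every triple with `PhG ≤ C √(1-b²) + ε` has
`√(1-b²) ≥ ρ/C`, so `|b| ≤ 1 - δ` with a fixed `δ > 0`, and `|y|` is bounded. (1) Region: `cr A B = cr a c =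
(√3/2)(1-b²) > 0`, so `z = x A + x' B`; by `Pool.Agent.Helper16.RC.core2` (file `Pool/Agent/Helper16/RC/M_RGN.lean`; also
`coords`, `sp_add`, `sp_smul` there) with `H(q) = sp K (ee t q)` one may replace `z` by `x A + x' B` with `|x| + |x'| ≤ 1` (or `z`
itself has this form) without increasing `PhG`; then `z = X a + Y c` with `X = (x - x')/2`, `Y = x + x'`. (2) Selection as step
functions on a grid of `[0, π)` exactly as in `Pool/Agent/Helper61/RC/M_SEL.lean` (`StSel`) or `Pool/Agent/Helper87/RC/M_SEL1.lean`: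
all six vectors have norm `≤ D` (fixed), `PhG K t - PhG K t' ≤ 2 D R |t - t'|`, `PhG K (t + π) a c (-p) = PhG K t a c p`. -/
def StSelS : Prop := ∀ (K : Set ℂ) (C : ℝ), IsBody K → (0 : ℂ) ∈ interior K → 0 < C →
  (∀ t ε : ℝ, 0 < ε → ∃ (b y : ℝ) (z : ℂ), |b| < 1 ∧
    PhG K t (aS b) (cS b y) z ≤ C * Real.sqrt (1 - b ^ 2) + ε) →
  ∀ ε : ℝ, 0 < ε → ∃ (b y : ℝ → ℝ) (z : ℝ → ℂ), AdmS b y z ∧
    ∀ t, PhG K t (aS (b t)) (cS (b t) (y t)) (z t) ≤ C * Real.sqrt (1 - b t ^ 2) + ε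

/-- MODULE MIXE (adapt `Pool/Agent/Helper29/RC/M_MIX.lean`, replace the edges `z0, z1, z2` by arbitrary bounded measurable
`e0, e1, e2` whose sum is antiperiodic). `theorem hMIXE (h : StHfo) : StMixE`. -/
def StMixE : Prop := ∀ (K : Set ℂ) (e0 e1 e2 : ℝ → ℂ) (C : ℝ), IsBody K → (0 : ℂ) ∈ interior K →
  hf K 2 = 0 → Measurable e0 → Measurable e1 → Measurable e2 →
  (∀ t, ‖e0 t‖ ≤ C) → (∀ t, ‖e1 t‖ ≤ C) → (∀ t, ‖e2 t‖ ≤ C) →
  (∀ t, e0 (t + Real.pi) + e1 (t + Real.pi) + e2 (t + Real.pi) = -(e0 t + e1 t + e2 t)) →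
  0 ≤ VVE K e0 e1 e2 ∧ area K * FME e0 e1 e2 ≤ Real.pi * VVE K e0 e1 e2 ^ 2

/-- MODULE REDS (assembly, helper49). -/
def StRedS : Prop := ∀ κ : ℝ, 0 < κ → Rw κ → ∀ K : Set ℂ, IsBody K →
  theta K ≤ ENNReal.ofReal (1 / (κ * m0))

end Helper49.RC
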