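import Pool.Agent.Helper49.RC.M_RED2
import Pool.Agent.Helper49.RC.StS
import Pool.Agent.Helper16.RC.M_RGN

/-!
# Project RC: assembly of the reduction in the gauge S with weights
-/

open MeasureTheory Set Filter Metric

namespace Helper49.RC.REDS

open Helper97.CB Helper49.LT Helper49.RC Pool.Agent.Helper61.RC Helper49.RC.RED

/-- lower bound of `PhG` for a body which contains a ball about `0` -/
theorem PhG_ge (K : Set ℂ) (hK : IsCompact K) (ρ : ℝ) (hρ : 0 < ρ) (hb : ball (0 : ℂ) ρ ⊆ K)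
    (t : ℝ) (b y : ℝ) (hb1 : |b| ≤ 1) (z : ℂ) : ρ / 3 ≤ PhG K t (aS b) (cS b y) z := by
  have hsp : ∀ q : ℂ, ρ / 2 * ‖q‖ ≤ sp K q := by
    intro q
    rcases eq_or_ne q 0 with h0 | h0
    · subst h0
      have := le_sp K hK 0 0 (hb (mem_ball_self hρ))
      simpa using this
    · have hn : 0 < ‖q‖ := norm_pos_iff.2 h0
      have hz : ((ρ / 2 / ‖q‖ : ℝ) : ℂ) * q ∈ K := by
        apply hb
        rw [mem_ball_zero_iff, norm_mul, Complex.norm_real, Real.norm_eq_abs,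
          abs_of_pos (by positivity)]
        have : ρ / 2 / ‖q‖ * ‖q‖ = ρ / 2 := by field_simp
        rw [this]; linarith
      have h1 := le_sp K hK q _ hz
      have e : (((ρ / 2 / ‖q‖ : ℝ) : ℂ) * q * (starRingEnd ℂ) q).re = ρ / 2 * ‖q‖ := by
        rw [mul_assoc, Complex.mul_conj, Complex.normSq_eq_norm_sq, ← Complex.ofReal_mul,
          Complex.ofReal_re]
        field_simp
      rw [e] at h1
      exact h1
  set a := aS b with ha
  set c := cS b y with hc
  have h0 := hsp (ee t * a)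
  have h1 := hsp (ee t * (c + 1 / 2 * a + z))
  have h2 := hsp (ee t * (c - 1 / 2 * a - z))
  have h3 := hsp (-(ee t * a))
  have h4 := hsp (-(ee t * (c + 1 / 2 * a + -z)))
  have h5 := hsp (-(ee t * (c - 1 / 2 * a - -z)))
  simp only [norm_neg, norm_mul, norm_ee, one_mul] at h0 h1 h2 h3 h4 h5
  have t1 : ‖2 * c‖ ≤ ‖c + 1 / 2 * a + z‖ + ‖c - 1 / 2 * a - z‖ := by
    have := norm_add_le (c + 1 / 2 * a + z) (c - 1 / 2 * a - z)
    have e : c + 1 / 2 * a + z + (c - 1 / 2 * a - z) = 2 * c := by ring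
    rwa [e] at this
  have t2 : ‖2 * c‖ ≤ ‖c + 1 / 2 * a + -z‖ + ‖c - 1 / 2 * a - -z‖ := by
    have := norm_add_le (c + 1 / 2 * a + -z) (c - 1 / 2 * a - -z)
    have e : c + 1 / 2 * a + -z + (c - 1 / 2 * a - -z) = 2 * c := by ring
    rwa [e] at this
  have hs3 : (1 : ℝ) ≤ Real.sqrt 3 := by
    rw [show (1 : ℝ) = Real.sqrt 1 by simp]
    exact Real.sqrt_le_sqrt (by norm_num)
  obtain ⟨hb2, hb3⟩ := abs_le.1 hb1
  have t3 : 1 - b ≤ ‖2 * c‖ := by
    have h6 := Complex.abs_im_le_norm (2 * c)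
    have h7 : (2 * c).im = Real.sqrt 3 * (1 - b) := by
      rw [hc]
      unfold cS
      simp
      ring
    rw [h7] at h6
    have h8 := le_abs_self (Real.sqrt 3 * (1 - b))
    nlinarith
  have t4 : 1 + b ≤ ‖a‖ := by
    have h6 := Complex.abs_re_le_norm a
    have h7 : a.re = 1 + b := by rw [ha]; unfold aS; simp
    rw [h7] at h6
    exact (le_abs_self _).trans h6
  have hsum : (2 : ℝ) * 2 ≤ ‖a‖ + ‖c + 1 / 2 * a + z‖ + ‖c - 1 / 2 * a - z‖ + ‖a‖ +
      ‖c + 1 / 2 * a + -z‖ + ‖c - 1 / 2 * a - -z‖ := by linarith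
  unfold PhG
  nlinarith [mul_le_mul_of_nonneg_left hsum hρ.le]

/-- the sum of the three support values -/
noncomputable def S3 (K : Set ℂ) (b y : ℝ → ℝ) (z : ℝ → ℂ) (t : ℝ) : ℝ :=
  sp K (ee t * aS (b t)) + sp K (ee t * (cS (b t) (y t) + 1 / 2 * aS (b t) + z t))
    + sp K (ee t * (cS (b t) (y t) - 1 / 2 * aS (b t) - z t))

theorem S3_meas (K : Set ℂ) (hK : IsCompact K) (h0 : (0 : ℂ) ∈ K) (b y : ℝ → ℝ) (z : ℝ → ℂ)
    (h : AdmS b y z) : Measurable (S3 K b y z) := by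
  have hs := (sp_cont K hK h0).measurable
  have he := meas_ee
  have hb : Measurable fun t => ((b t : ℝ) : ℂ) := Complex.measurable_ofReal.comp h.mb
  have hy : Measurable fun t => ((y t : ℝ) : ℂ) := Complex.measurable_ofReal.comp h.my
  have hz := h.mz
  have ha : Measurable fun t => aS (b t) := by
    unfold aS; exact measurable_const.add hb
  have hc : Measurable fun t => cS (b t) (y t) := by
    unfold cS
    exact measurable_const.mul ((measurable_const.mul (measurable_const.sub hb)).add hy)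
  unfold S3
  exact ((hs.comp (he.mul ha)).add (hs.comp (he.mul ((hc.add (measurable_const.mul ha)).add hz)))).add
    (hs.comp (he.mul ((hc.sub (measurable_const.mul ha)).sub hz)))

theorem data_bdd (b y : ℝ → ℝ) (z : ℝ → ℂ) (h : AdmS b y z) : ∃ D : ℝ, 0 ≤ D ∧
    (∀ t, ‖aS (b t)‖ ≤ D) ∧ (∀ t, ‖cS (b t) (y t)‖ ≤ D) ∧ ∀ t, ‖z t‖ ≤ D := by
  obtain ⟨δ, hδ, hb⟩ := h.bdb
  obtain ⟨C, hC⟩ := h.bdy
  have hC0 : 0 ≤ C := le_trans (abs_nonneg _) (hC 0)
  have hb1 : ∀ t, |b t| ≤ 1 := fun t => by linarith [hb t]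
  have h3 : Real.sqrt 3 ≤ 2 := by
    rw [show (2 : ℝ) = Real.sqrt 4 by
      rw [show (4 : ℝ) = 2 ^ 2 by norm_num, Real.sqrt_sq (by norm_num)]]
    exact Real.sqrt_le_sqrt (by norm_num)
  have ha : ∀ t, ‖aS (b t)‖ ≤ 2 := by
    intro t
    unfold aS
    have := norm_add_le (1 : ℂ) (b t : ℂ)
    rw [norm_one, Complex.norm_real, Real.norm_eq_abs] at this
    linarith [hb1 t]
  have hc : ∀ t, ‖cS (b t) (y t)‖ ≤ 2 + C := by
    intro t
    unfold cS
    rw [norm_mul]
    have e1 : ‖(Real.sqrt 3 / 2 : ℂ)‖ ≤ 1 := by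
      rw [show (Real.sqrt 3 / 2 : ℂ) = ((Real.sqrt 3 / 2 : ℝ) : ℂ) by push_cast; rfl,
        Complex.norm_real, Real.norm_eq_abs, abs_of_nonneg (by positivity)]
      linarith
    have e2 : ‖Complex.I * (1 - (b t : ℂ)) + (y t : ℂ)‖ ≤ 2 + C := by
      have h1 := norm_add_le (Complex.I * (1 - (b t : ℂ))) (y t : ℂ)
      have h2 := norm_sub_le (1 : ℂ) (b t : ℂ)
      rw [norm_mul, Complex.norm_I, one_mul, Complex.norm_real (y t), Real.norm_eq_abs] at h1
      rw [norm_one, Complex.norm_real, Real.norm_eq_abs] at h2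
      linarith [hb1 t, hC t]
    calc ‖(Real.sqrt 3 / 2 : ℂ)‖ * ‖Complex.I * (1 - (b t : ℂ)) + (y t : ℂ)‖ ≤ 1 * (2 + C) :=
          mul_le_mul e1 e2 (norm_nonneg _) zero_le_one
      _ = 2 + C := one_mul _
  refine ⟨3 + C, by linarith, fun t => (ha t).trans (by linarith), fun t => (hc t).trans (by linarith),
    fun t => ?_⟩
  obtain ⟨X, Y, hX, hY, hz⟩ := h.reg t
  rw [hz]
  calc ‖(X : ℂ) * aS (b t) + (Y : ℂ) * cS (b t) (y t)‖
      ≤ ‖(X : ℂ) * aS (b t)‖ + ‖(Y : ℂ) * cS (b t) (y t)‖ := norm_add_le _ _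
    _ = |X| * ‖aS (b t)‖ + |Y| * ‖cS (b t) (y t)‖ := by
        rw [norm_mul, norm_mul, Complex.norm_real, Complex.norm_real, Real.norm_eq_abs,
          Real.norm_eq_abs]
    _ ≤ 1 / 2 * 2 + 1 * (2 + C) :=
        add_le_add (mul_le_mul hX (ha t) (norm_nonneg _) (by norm_num))
          (mul_le_mul hY (hc t) (norm_nonneg _) (by norm_num))
    _ = 3 + C := by ring

theorem S3_bdd (K : Set ℂ) (hK : IsCompact K) (h0 : (0 : ℂ) ∈ K) (b y : ℝ → ℝ) (z : ℝ → ℂ)
    (h : AdmS b y z) : ∃ C : ℝ, ∀ t, ‖S3 K b y z t‖ ≤ C := by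
  obtain ⟨R, hR⟩ := hK.isBounded.exists_norm_le
  have hR0 : 0 ≤ R := le_trans (norm_nonneg _) (hR 0 h0)
  obtain ⟨D, hD0, hDa, hDc, hDz⟩ := data_bdd b y z h
  refine ⟨R * (9 * D), fun t => ?_⟩
  have n0 : ‖ee t * aS (b t)‖ ≤ 3 * D := by
    rw [norm_mul, norm_ee, one_mul]
    linarith [hDa t]
  have hh : ‖(1 / 2 : ℂ) * aS (b t)‖ ≤ D := by
    rw [norm_mul]
    have : ‖(1 / 2 : ℂ)‖ = 1 / 2 := by norm_num
    rw [this]
    linarith [hDa t]
  have n1 : ‖ee t * (cS (b t) (y t) + 1 / 2 * aS (b t) + z t)‖ ≤ 3 * D := by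
    rw [norm_mul, norm_ee, one_mul]
    have e1 := norm_add_le (cS (b t) (y t) + 1 / 2 * aS (b t)) (z t)
    have e2 := norm_add_le (cS (b t) (y t)) (1 / 2 * aS (b t))
    linarith [hDc t, hDz t]
  have n2 : ‖ee t * (cS (b t) (y t) - 1 / 2 * aS (b t) - z t)‖ ≤ 3 * D := by
    rw [norm_mul, norm_ee, one_mul]
    have e1 := norm_sub_le (cS (b t) (y t) - 1 / 2 * aS (b t)) (z t)
    have e2 := norm_sub_le (cS (b t) (y t)) (1 / 2 * aS (b t))
    linarith [hDc t, hDz t]
  have s0 := sp_le_norm K hK h0 R hR (ee t * aS (b t))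
  have s1 := sp_le_norm K hK h0 R hR (ee t * (cS (b t) (y t) + 1 / 2 * aS (b t) + z t))
  have s2 := sp_le_norm K hK h0 R hR (ee t * (cS (b t) (y t) - 1 / 2 * aS (b t) - z t))
  have p0 := sp_nonneg K hK h0 (ee t * aS (b t))
  have p1 := sp_nonneg K hK h0 (ee t * (cS (b t) (y t) + 1 / 2 * aS (b t) + z t))
  have p2 := sp_nonneg K hK h0 (ee t * (cS (b t) (y t) - 1 / 2 * aS (b t) - z t))
  rw [Real.norm_eq_abs, abs_of_nonneg (by unfold S3; linarith)]
  unfold S3
  have q0 := mul_le_mul_of_nonneg_left n0 hR0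
  have q1 := mul_le_mul_of_nonneg_left n1 hR0
  have q2 := mul_le_mul_of_nonneg_left n2 hR0
  nlinarith

theorem PhG_S3 (K : Set ℂ) (b y : ℝ → ℝ) (z : ℝ → ℂ) (h : AdmS b y z) (t : ℝ) :
    PhG K t (aS (b t)) (cS (b t) (y t)) (z t) =
      (1 / 3) * (S3 K b y z t + S3 K b y z (t + Real.pi)) := by
  unfold PhG S3
  rw [h.perb, h.pery, h.perz, ee_add_pi]
  have e0 : -ee t * aS (b t) = -(ee t * aS (b t)) := by ring
  have e1 : -ee t * (cS (b t) (y t) + 1 / 2 * aS (b t) + -z t) =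
      -(ee t * (cS (b t) (y t) + 1 / 2 * aS (b t) + -z t)) := by ring
  have e2 : -ee t * (cS (b t) (y t) - 1 / 2 * aS (b t) - -z t) =
      -(ee t * (cS (b t) (y t) - 1 / 2 * aS (b t) - -z t)) := by ring
  rw [e0, e1, e2]
  ring

theorem S3_per (K : Set ℂ) (b y : ℝ → ℝ) (z : ℝ → ℂ) (h : AdmS b y z) (t : ℝ) :
    S3 K b y z (t + 2 * Real.pi) = S3 K b y z t := by
  have e : t + 2 * Real.pi = (t + Real.pi) + Real.pi := by ring
  have hb : b (t + 2 * Real.pi) = b t := by rw [e, h.perb, h.perb]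
  have hy : y (t + 2 * Real.pi) = y t := by rw [e, h.pery, h.pery]
  have hz : z (t + 2 * Real.pi) = z t := by rw [e, h.perz, h.perz, neg_neg]
  unfold S3
  rw [hb, hy, hz, ee_per]

theorem ii_of {f : ℝ → ℝ} (hm : Measurable f) (hb : ∃ C : ℝ, ∀ t, ‖f t‖ ≤ C) (p q : ℝ) :
    IntervalIntegrable f volume p q := by
  obtain ⟨C, hC⟩ := hb
  have hc : IntervalIntegrable (fun _ : ℝ => C) volume p q := intervalIntegrable_const
  refine hc.mono_fun hm.aestronglyMeasurable ?_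
  filter_upwards with x
  have := hC x
  have h2 : 0 ≤ C := le_trans (norm_nonneg _) this
  rw [Real.norm_eq_abs C, abs_of_nonneg h2]
  exact this

/-- the mean with the weight -/
theorem mean_leS (K : Set ℂ) (hKB : IsBody K) (h0 : (0 : ℂ) ∈ K) (b y : ℝ → ℝ)
    (z : ℝ → ℂ) (h : AdmS b y z) (w : ℝ → ℝ) (hw : Wgt w) (c ε : ℝ)
    (hg : ∀ t, PhG K t (aS (b t)) (cS (b t) (y t)) (z t) ≤ c * Real.sqrt (1 - b t ^ 2) + ε) :
    (2 / 3) * VVE K (A0S w b) (fun t => AAS w b y t + vvS w z t) (fun t => BBS w b y t - vvS w z t)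
      ≤ c * mW w b + ε * ((1 / (2 * Real.pi)) * ∫ t in (0 : ℝ)..(2 * Real.pi), w t) := by
  have hK := hKB.2.1
  have hpi := Real.pi_pos
  have h2pi : 0 < 2 * Real.pi := by positivity
  obtain ⟨Cw, hCw⟩ := hw.bd
  obtain ⟨C3, hC3⟩ := S3_bdd K hK h0 b y z h
  have hS3m := S3_meas K hK h0 b y z h
  have hwn : ∀ t, ‖w t‖ ≤ Cw := fun t => by
    rw [Real.norm_eq_abs, abs_of_nonneg (hw.nonneg t)]; exact hCw t
  have hCw0 : 0 ≤ Cw := le_trans (hw.nonneg 0) (hCw 0)
  have hi1 : ∀ p q, IntervalIntegrable (fun t => w t * S3 K b y z t) volume p q :=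
    ii_of (hw.m.mul hS3m) ⟨Cw * C3, fun t => by
      rw [norm_mul]; exact mul_le_mul (hwn t) (hC3 t) (norm_nonneg _) hCw0⟩
  have hi2 : IntervalIntegrable (fun t => w t * S3 K b y z (t + Real.pi)) volume 0 (2 * Real.pi) := by
    refine ii_of (hw.m.mul (hS3m.comp (measurable_id.add_const _))) ⟨Cw * C3, fun t => ?_⟩ _ _
    show ‖w t * S3 K b y z (t + Real.pi)‖ ≤ _
    rw [norm_mul]
    exact mul_le_mul (hwn t) (hC3 _) (norm_nonneg _) hCw0
  have hrm : Measurable (fun t => Real.sqrt (1 - b t ^ 2)) :=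
    (measurable_const.sub (h.mb.pow_const 2)).sqrt
  have hrb : ∀ t, ‖Real.sqrt (1 - b t ^ 2)‖ ≤ 1 := fun t => by
    rw [Real.norm_eq_abs, abs_of_nonneg (Real.sqrt_nonneg _)]
    apply Real.sqrt_le_iff.2
    exact ⟨zero_le_one, by nlinarith [sq_nonneg (b t)]⟩
  have hi3 : IntervalIntegrable (fun t => w t * Real.sqrt (1 - b t ^ 2)) volume 0 (2 * Real.pi) :=
    ii_of (hw.m.mul hrm) ⟨Cw * 1, fun t => by
      show ‖w t * Real.sqrt (1 - b t ^ 2)‖ ≤ _
      rw [norm_mul]; exact mul_le_mul (hwn t) (hrb t) (norm_nonneg _) hCw0⟩ _ _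
  have hi4 : IntervalIntegrable w volume 0 (2 * Real.pi) := ii_of hw.m ⟨Cw, hwn⟩ _ _
  have h1 := intervalIntegral.integral_mono_on h2pi.le
    (((hi1 0 (2 * Real.pi)).add hi2).const_mul (1 / 3)) ((hi3.const_mul c).add (hi4.const_mul ε))
    (fun t _ => by
      have h2 := mul_le_mul_of_nonneg_left (hg t) (hw.nonneg t)
      rw [PhG_S3 K b y z h t] at h2
      have e1 : 1 / 3 * (w t * S3 K b y z t + w t * S3 K b y z (t + Real.pi)) =
        w t * (1 / 3 * (S3 K b y z t + S3 K b y z (t + Real.pi))) := by ring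
      have e2 : c * (w t * Real.sqrt (1 - b t ^ 2)) + ε * w t =
        w t * (c * Real.sqrt (1 - b t ^ 2) + ε) := by ring
      show 1 / 3 * (w t * S3 K b y z t + w t * S3 K b y z (t + Real.pi)) ≤
        c * (w t * Real.sqrt (1 - b t ^ 2)) + ε * w t
      rw [e1, e2]
      exact h2)
  rw [intervalIntegral.integral_const_mul, intervalIntegral.integral_add (hi1 _ _) hi2,
    intervalIntegral.integral_add (hi3.const_mul c) (hi4.const_mul ε),
    intervalIntegral.integral_const_mul, intervalIntegral.integral_const_mul] at h1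
  have e2 : ∫ t in (0 : ℝ)..(2 * Real.pi), w t * S3 K b y z (t + Real.pi) =
      ∫ t in (0 : ℝ)..(2 * Real.pi), w t * S3 K b y z t := by
    have e3 : (fun t => w t * S3 K b y z (t + Real.pi)) =
        fun t => (fun s => w s * S3 K b y z s) (t + Real.pi) := by
      funext t
      show w t * S3 K b y z (t + Real.pi) = w (t + Real.pi) * S3 K b y z (t + Real.pi)
      rw [hw.per]
    rw [e3]
    refine integral_shift (fun s => w s * S3 K b y z s) (fun t => ?_) Real.pi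
    have e4 : w (t + 2 * Real.pi) = w t := by
      rw [show t + 2 * Real.pi = (t + Real.pi) + Real.pi by ring, hw.per, hw.per]
    show w (t + 2 * Real.pi) * S3 K b y z (t + 2 * Real.pi) = w t * S3 K b y z t
    rw [e4, S3_per K b y z h]
  rw [e2] at h1
  have e3 : VVE K (A0S w b) (fun t => AAS w b y t + vvS w z t)
      (fun t => BBS w b y t - vvS w z t) =
      (1 / (2 * Real.pi)) * ∫ t in (0 : ℝ)..(2 * Real.pi), w t * S3 K b y z t := by
    unfold VVE
    congr 1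
    apply intervalIntegral.integral_congr
    intro t _
    have k0 := Pool.Agent.Helper16.RC.sp_smul hKB (w t) (hw.nonneg t) (ee t * aS (b t))
    have k1 := Pool.Agent.Helper16.RC.sp_smul hKB (w t) (hw.nonneg t)
      (ee t * (cS (b t) (y t) + 1 / 2 * aS (b t) + z t))
    have k2 := Pool.Agent.Helper16.RC.sp_smul hKB (w t) (hw.nonneg t)
      (ee t * (cS (b t) (y t) - 1 / 2 * aS (b t) - z t))
    have g1 : AAS w b y t + vvS w z t =
        (w t : ℂ) * (ee t * (cS (b t) (y t) + 1 / 2 * aS (b t) + z t)) := by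
      unfold AAS vvS; ring
    have g2 : BBS w b y t - vvS w z t =
        (w t : ℂ) * (ee t * (cS (b t) (y t) - 1 / 2 * aS (b t) - z t)) := by
      unfold BBS vvS; ring
    show sp K (A0S w b t) + sp K (AAS w b y t + vvS w z t) + sp K (BBS w b y t - vvS w z t) =
      w t * S3 K b y z t
    rw [g1, g2, k1, k2]
    unfold A0S
    rw [k0]
    unfold S3
    ring
  rw [e3]
  unfold mW
  set X := ∫ t in (0 : ℝ)..(2 * Real.pi), w t * S3 K b y z t
  set Y := ∫ t in (0 : ℝ)..(2 * Real.pi), w t * Real.sqrt (1 - b t ^ 2)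
  set W := ∫ t in (0 : ℝ)..(2 * Real.pi), w t
  have e4 : (2 / 3) * (1 / (2 * Real.pi) * X) = ((1 / 3) * (X + X)) / (2 * Real.pi) := by
    field_simp
    ring
  have e5 : c * (1 / (2 * Real.pi) * Y) + ε * (1 / (2 * Real.pi) * W) =
      (c * Y + ε * W) / (2 * Real.pi) := by
    field_simp
  rw [e4, e5]
  exact div_le_div_of_nonneg_right h1 h2pi.le

/-- Module REDS: the reduction in the gauge S with weights -/
theorem hREDS (hsix : StSix) (hksd : StKsdS) (hsel : StSelS) (hmix : StMixE) (hpoc : StPoc)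
    (haff : StAff) (hsml : StSml) : StRedS := by
  intro κ hκ hR K hK
  by_contra hT
  have hpi := Real.pi_pos
  obtain ⟨K2, M, hK2, hM0, hM1, h02, hhf, hA2, hsix'⟩ := prep hsix hpoc haff hsml κ hκ K hK hT
  have h00 : (0 : ℂ) ∈ K2 := interior_subset h02
  obtain ⟨ρ, hρ, hb⟩ := Metric.mem_nhds_iff.1 (mem_interior_iff_mem_nhds.1 h02)
  have hsM0 : 0 < Real.sqrt M := Real.sqrt_pos.2 hM0
  have hsM : Real.sqrt M < 1 := by
    rw [Real.sqrt_lt' one_pos]; simpa using hM1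
  set c0 := ρ / 3 with hc0
  have hc0p : 0 < c0 := by positivity
  set ε := c0 * (1 - Real.sqrt M) / 4 with hε
  have hεp : 0 < ε := by
    have : 0 < 1 - Real.sqrt M := by linarith
    positivity
  obtain ⟨b, y, z, hadm, hphi⟩ := hsel K2 (2 * Real.sqrt M) hK2 h02 (by positivity)
    (fun t ε' hε' => hksd K2 M hK2 hM0 hsix' t ε' hε') ε hεp
  obtain ⟨w, hw, hRw⟩ := hR b y z hadm
  have hmean := mean_leS K2 hK2 h00 b y z hadm w hw _ ε hphi
  obtain ⟨D, hD0, hDa, hDc, hDz⟩ := data_bdd b y z hadm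
  obtain ⟨Cw, hCw⟩ := hw.bd
  have hCw0 : 0 ≤ Cw := le_trans (hw.nonneg 0) (hCw 0)
  have hwn : ∀ t, ‖(w t : ℂ)‖ ≤ Cw := fun t => by
    rw [Complex.norm_real, Real.norm_eq_abs, abs_of_nonneg (hw.nonneg t)]; exact hCw t
  have hwm : Measurable fun t => ((w t : ℝ) : ℂ) := Complex.measurable_ofReal.comp hw.m
  have he := meas_ee
  have hbm : Measurable fun t => ((b t : ℝ) : ℂ) := Complex.measurable_ofReal.comp hadm.mb
  have hym : Measurable fun t => ((y t : ℝ) : ℂ) := Complex.measurable_ofReal.comp hadm.my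
  have ham : Measurable fun t => aS (b t) := by
    unfold aS; exact measurable_const.add hbm
  have hcm : Measurable fun t => cS (b t) (y t) := by
    unfold cS
    exact measurable_const.mul ((measurable_const.mul (measurable_const.sub hbm)).add hym)
  have hh : ∀ t, ‖(1 / 2 : ℂ) * aS (b t)‖ ≤ D := by
    intro t
    rw [norm_mul]
    have : ‖(1 / 2 : ℂ)‖ = 1 / 2 := by norm_num
    rw [this]
    linarith [hDa t]
  have g1 : ∀ t, AAS w b y t + vvS w z t =
      (w t : ℂ) * (ee t * (cS (b t) (y t) + 1 / 2 * aS (b t) + z t)) := by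
    intro t; unfold AAS vvS; ring
  have g2 : ∀ t, BBS w b y t - vvS w z t =
      (w t : ℂ) * (ee t * (cS (b t) (y t) - 1 / 2 * aS (b t) - z t)) := by
    intro t; unfold BBS vvS; ring
  obtain ⟨hV0, hV1⟩ := hmix K2 (A0S w b) (fun t => AAS w b y t + vvS w z t)
    (fun t => BBS w b y t - vvS w z t) (Cw * (3 * D)) hK2 h02 hhf
    (by unfold A0S; exact hwm.mul (he.mul ham))
    (by
      simp only [g1]
      exact hwm.mul (he.mul ((hcm.add (measurable_const.mul ham)).add hadm.mz)))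
    (by
      simp only [g2]
      exact hwm.mul (he.mul ((hcm.sub (measurable_const.mul ham)).sub hadm.mz)))
    (by
      intro t
      unfold A0S
      rw [norm_mul, norm_mul, norm_ee, one_mul]
      exact mul_le_mul (hwn t) (by linarith [hDa t]) (norm_nonneg _) hCw0)
    (by
      intro t
      show ‖AAS w b y t + vvS w z t‖ ≤ _
      rw [g1, norm_mul, norm_mul, norm_ee, one_mul]
      refine mul_le_mul (hwn t) ?_ (norm_nonneg _) hCw0
      have e1 := norm_add_le (cS (b t) (y t) + 1 / 2 * aS (b t)) (z t)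
      have e2 := norm_add_le (cS (b t) (y t)) (1 / 2 * aS (b t))
      linarith [hDc t, hDz t, hh t])
    (by
      intro t
      show ‖BBS w b y t - vvS w z t‖ ≤ _
      rw [g2, norm_mul, norm_mul, norm_ee, one_mul]
      refine mul_le_mul (hwn t) ?_ (norm_nonneg _) hCw0
      have e1 := norm_sub_le (cS (b t) (y t) - 1 / 2 * aS (b t)) (z t)
      have e2 := norm_sub_le (cS (b t) (y t)) (1 / 2 * aS (b t))
      linarith [hDc t, hDz t, hh t])
    (by
      intro t
      show A0S w b (t + Real.pi) + (AAS w b y (t + Real.pi) + vvS w z (t + Real.pi)) +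
        (BBS w b y (t + Real.pi) - vvS w z (t + Real.pi)) =
        -(A0S w b t + (AAS w b y t + vvS w z t) + (BBS w b y t - vvS w z t))
      unfold A0S AAS BBS vvS
      rw [hw.per, hadm.perb, hadm.pery, hadm.perz, ee_add_pi]
      ring)
  rw [hA2] at hV1
  have hRw' : 9 * κ * (mW w b) ^ 2 ≤ FME (A0S w b) (fun t => AAS w b y t + vvS w z t)
    (fun t => BBS w b y t - vvS w z t) := hRw
  set VV' := VVE K2 (A0S w b) (fun t => AAS w b y t + vvS w z t)
    (fun t => BBS w b y t - vvS w z t) with hVV'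
  set FF := FME (A0S w b) (fun t => AAS w b y t + vvS w z t)
    (fun t => BBS w b y t - vvS w z t) with hFF
  have hV2 : FF ≤ κ * VV' ^ 2 := by
    have : Real.pi / κ * FF = Real.pi * (FF / κ) := by ring
    rw [this] at hV1
    have h3 := le_of_mul_le_mul_left hV1 hpi
    rw [div_le_iff₀ hκ] at h3
    linarith
  set wb := (1 / (2 * Real.pi)) * ∫ t in (0 : ℝ)..(2 * Real.pi), w t with hwb
  have hwbp : 0 < wb := by
    have := hw.pos
    positivity
  have hmS : (c0 - ε) / 2 * wb ≤ mW w b := by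
    have hpt : ∀ t, w t * ((c0 - ε) / 2) ≤ w t * Real.sqrt (1 - b t ^ 2) := by
      intro t
      apply mul_le_mul_of_nonneg_left _ (hw.nonneg t)
      obtain ⟨δ, hδ, hbδ⟩ := hadm.bdb
      have h1 := PhG_ge K2 hK2.2.1 ρ hρ hb t (b t) (y t) (by linarith [hbδ t]) (z t)
      have h2 := hphi t
      have h3 : 0 ≤ Real.sqrt (1 - b t ^ 2) := Real.sqrt_nonneg _
      nlinarith
    have hrm : Measurable (fun t => Real.sqrt (1 - b t ^ 2)) :=
      (measurable_const.sub (hadm.mb.pow_const 2)).sqrt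
    have hwn' : ∀ t, ‖w t‖ ≤ Cw := fun t => by
      rw [Real.norm_eq_abs, abs_of_nonneg (hw.nonneg t)]; exact hCw t
    have hi3 : IntervalIntegrable (fun t => w t * Real.sqrt (1 - b t ^ 2)) volume 0 (2 * Real.pi) :=
      ii_of (hw.m.mul hrm) ⟨Cw * 1, fun t => by
        show ‖w t * Real.sqrt (1 - b t ^ 2)‖ ≤ _
        rw [norm_mul]
        refine mul_le_mul (hwn' t) ?_ (norm_nonneg _) hCw0
        rw [Real.norm_eq_abs, abs_of_nonneg (Real.sqrt_nonneg _)]
        apply Real.sqrt_le_iff.2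
        exact ⟨zero_le_one, by nlinarith [sq_nonneg (b t)]⟩⟩ _ _
    have hi4 : IntervalIntegrable (fun t => w t * ((c0 - ε) / 2)) volume 0 (2 * Real.pi) :=
      (ii_of hw.m ⟨Cw, hwn'⟩ _ _).mul_const _
    have h1 := intervalIntegral.integral_mono_on (by positivity : (0 : ℝ) ≤ 2 * Real.pi)
      hi4 hi3 (fun x _ => hpt x)
    rw [intervalIntegral.integral_mul_const] at h1
    unfold mW
    rw [hwb, show (c0 - ε) / 2 * (1 / (2 * Real.pi) * ∫ t in (0 : ℝ)..(2 * Real.pi), w t) =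
      1 / (2 * Real.pi) * ((∫ t in (0 : ℝ)..(2 * Real.pi), w t) * ((c0 - ε) / 2)) by ring]
    exact mul_le_mul_of_nonneg_left h1 (by positivity)
  have hεc : 4 * ε = c0 * (1 - Real.sqrt M) := by rw [hε]; ring
  have hεle : ε ≤ c0 / 4 := by nlinarith
  have hmW0 : 0 ≤ mW w b := by
    refine le_trans ?_ hmS
    apply mul_nonneg _ hwbp.le
    linarith
  have h5 : 3 * mW w b ≤ VV' := by
    have h6 : κ * (3 * mW w b) ^ 2 ≤ κ * VV' ^ 2 := by nlinarith
    have h7 := le_of_mul_le_mul_left h6 hκ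
    exact (sq_le_sq₀ (by positivity) hV0).1 h7
  have h6 : mW w b * (1 - Real.sqrt M) ≤ ε * wb / 2 := by linarith
  have h7 := mul_le_mul_of_nonneg_right hmS (by linarith : (0 : ℝ) ≤ 1 - Real.sqrt M)
  have h8 : (c0 - ε) / 2 * wb * (1 - Real.sqrt M) ≤ ε * wb / 2 := h7.trans h6
  have h9 : (c0 - ε) * (1 - Real.sqrt M) * wb ≤ ε * wb := by linarith
  have h10 : (c0 - ε) * (1 - Real.sqrt M) ≤ ε := le_of_mul_le_mul_right h9 hwbp
  nlinarith

end Helper49.RC.REDS
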