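import Pool.Agent.Helper49.RC.StS

/-!
# Project RC, track B: form (X), one complex function on the circle

`x` is a bounded measurable complex function with the period `2π`. Edges: `ρ e^{it}`, `ρ e^{it} (w + x)`,
`ρ e^{it} (conj w - x)`, `w = om = e^{iπ/3}`, weight `ρ` with the period `π`, chosen after `x`. Target `Rx 1`.
-/

open MeasureTheory Set Filter Metric

namespace Helper49.RC

open Helper97.CB Helper49.LT

/-- the even part `c` of the apex (the regular hexagon is `c = i √3/2`) -/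
noncomputable def cX (x : ℝ → ℂ) (t : ℝ) : ℂ :=
  (Real.sqrt 3 / 2 : ℂ) * Complex.I + 1 / 2 * (x t + x (t + Real.pi))

/-- the odd part -/
noncomputable def zX (x : ℝ → ℂ) (t : ℝ) : ℂ := 1 / 2 * (x t - x (t + Real.pi))

/-- the square of the height factor -/
noncomputable def gX (x : ℝ → ℂ) (t : ℝ) : ℝ :=
  1 + ((x t).im + (x (t + Real.pi)).im) / Real.sqrt 3

/-- admissible functions -/
structure AdmX (x : ℝ → ℂ) : Prop where
  m : Measurable x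
  per : ∀ t, x (t + 2 * Real.pi) = x t
  bd : ∃ C : ℝ, ∀ t, ‖x t‖ ≤ C
  pos : ∃ δ : ℝ, 0 < δ ∧ ∀ t, δ ≤ gX x t
  reg : ∀ t, ∃ X Y : ℝ, |X| ≤ 1 / 2 ∧ |Y| ≤ 1 ∧ zX x t = (X : ℂ) + (Y : ℂ) * cX x t

/-- the area form of the edges `ρ e^{it}`, `ρ e^{it} (w + x)`, `ρ e^{it} (conj w - x)` without the second harmonic -/
noncomputable def FMX (ρ : ℝ → ℝ) (x : ℝ → ℂ) : ℝ :=
  FME (fun t => (ρ t : ℂ) * ee t) (fun t => (ρ t : ℂ) * (ee t * (om + x t)))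
    (fun t => (ρ t : ℂ) * (ee t * ((starRingEnd ℂ) om - x t)))

/-- mean of `ρ √g` -/
noncomputable def mX (ρ : ℝ → ℝ) (x : ℝ → ℂ) : ℝ :=
  (1 / (2 * Real.pi)) * ∫ t in (0 : ℝ)..(2 * Real.pi), ρ t * Real.sqrt (gX x t)

/-- THE TARGET INEQUALITY in form (X) -/
def Rx (κ : ℝ) : Prop := ∀ x : ℝ → ℂ, AdmX x →
  ∃ ρ : ℝ → ℝ, Wgt ρ ∧ 9 * κ * (mX ρ x) ^ 2 ≤ FMX ρ x

/-- the linear target: mean of `ρ s (√3/2 + Im x)` plus `(3√3/2)` times the mean of `ρ/s` -/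
noncomputable def lX (ρ s : ℝ → ℝ) (x : ℝ → ℂ) : ℝ :=
  (1 / (2 * Real.pi)) * ∫ t in (0 : ℝ)..(2 * Real.pi),
    (ρ t * s t * (Real.sqrt 3 / 2 + (x t).im) + 3 * Real.sqrt 3 / 2 * (ρ t / s t))

/-- THE TARGET INEQUALITY with the linear target (`κ = 1`): `ρ` a weight, `s` measurable with the period `π` and
`0 < δ ≤ s ≤ C` -/
def RxL : Prop := ∀ x : ℝ → ℂ, AdmX x →
  ∃ ρ s : ℝ → ℝ, Wgt ρ ∧ Measurable s ∧ (∀ t, s (t + Real.pi) = s t) ∧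
    (∃ δ C : ℝ, 0 < δ ∧ ∀ t, δ ≤ s t ∧ s t ≤ C) ∧ (lX ρ s x) ^ 2 ≤ FMX ρ x

/-- module X1 (helper49) -/
def StX1 : Prop := ∀ κ : ℝ, Rx κ → Rw κ

/-- module X2 (helper49) -/
def StX2 : Prop := RxL → Rx 1

end Helper49.RC
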