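import Pool.Agent.Helper49.RC.M_REDS
import Pool.Agent.Helper49.RC.StX
import Pool.Agent.Helper29.RC.M_MIX

/-!
# Project RC, track B: form (X) is contained in the gauge S
-/

open MeasureTheory Set Filter Metric

namespace Helper49.RC.XX

open Helper97.CB Helper49.LT Helper49.RC Helper49.RC.RED Helper49.RC.REDS

theorem om_eq : om = 1 / 2 + (Real.sqrt 3 / 2 : ℂ) * Complex.I := by
  apply Complex.ext
  · rw [om_re']
    simp
  · rw [om_im']
    simp

theorem conj_om_eq : (starRingEnd ℂ) om = 1 / 2 - (Real.sqrt 3 / 2 : ℂ) * Complex.I := by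
  apply Complex.ext
  · rw [Complex.conj_re, om_re']
    simp
  · rw [Complex.conj_im, om_im']
    simp

theorem ii_nn {e : ℝ → ℂ} (hm : Measurable e) {C : ℝ} (hC : ∀ t, ‖e t‖ ≤ C) (n : ℕ) (p q : ℝ) :
    IntervalIntegrable (fun t => nn n (e t)) volume p q :=
  Pool.Agent.Helper29.RC.ii_bdd ((Pool.Agent.Helper29.RC.nn_meas n).comp hm).aestronglyMeasurable
    (fun t => (Pool.Agent.Helper29.RC.norm_nn n (e t)).trans (hC t))

/-- shifting the third family by `π` does not change the moments -/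
theorem sgE_shift {e0 e1 e2 : ℝ → ℂ} {C : ℝ} (m0 : Measurable e0) (m1 : Measurable e1)
    (m2 : Measurable e2) (h0 : ∀ t, ‖e0 t‖ ≤ C) (h1 : ∀ t, ‖e1 t‖ ≤ C) (h2 : ∀ t, ‖e2 t‖ ≤ C)
    (hp : ∀ t, e2 (t + 2 * Real.pi) = e2 t) (n : ℕ) :
    sgE e0 e1 e2 n = sgE e0 e1 (fun t => e2 (t + Real.pi)) n := by
  have m2' : Measurable (fun t => e2 (t + Real.pi)) := m2.comp (measurable_id.add_const _)
  have h2' : ∀ t, ‖e2 (t + Real.pi)‖ ≤ C := fun t => h2 _
  unfold sgE
  congr 1
  rw [intervalIntegral.integral_add ((ii_nn m0 h0 n _ _).add (ii_nn m1 h1 n _ _)) (ii_nn m2 h2 n _ _),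
    intervalIntegral.integral_add ((ii_nn m0 h0 n _ _).add (ii_nn m1 h1 n _ _)) (ii_nn m2' h2' n _ _)]
  congr 1
  exact (integral_shift (fun t => nn n (e2 t)) (fun t => by
    show nn n (e2 (t + 2 * Real.pi)) = nn n (e2 t)
    rw [hp]) Real.pi).symm

/-- module X1 -/
theorem hX1 : StX1 := by
  intro κ hR b y z h
  obtain ⟨δ, hδ, hb⟩ := h.bdb
  obtain ⟨D, hD0, hDa, hDc, hDz⟩ := data_bdd b y z h
  have hpi := Real.pi_pos
  have h1b : ∀ t, δ ≤ 1 + b t := fun t => by
    have := (abs_le.1 (hb t)).1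
    linarith
  have h1b' : ∀ t, 0 < 1 + b t := fun t => lt_of_lt_of_le hδ (h1b t)
  have hb2 : ∀ t, δ ≤ 1 - b t := fun t => by
    have := (abs_le.1 (hb t)).2
    linarith
  have hne : ∀ t, (1 + (b t : ℂ)) ≠ 0 := fun t => by
    have : ((1 + b t : ℝ) : ℂ) ≠ 0 := by exact_mod_cast (h1b' t).ne'
    simpa using this
  have hbm : Measurable fun t => ((b t : ℝ) : ℂ) := Complex.measurable_ofReal.comp h.mb
  have hym : Measurable fun t => ((y t : ℝ) : ℂ) := Complex.measurable_ofReal.comp h.my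
  have ham : Measurable fun t => aS (b t) := by
    unfold aS; exact measurable_const.add hbm
  have hcm : Measurable fun t => cS (b t) (y t) := by
    unfold cS
    exact measurable_const.mul ((measurable_const.mul (measurable_const.sub hbm)).add hym)
  set x : ℝ → ℂ := fun t => (cS (b t) (y t) + z t) / (1 + (b t : ℂ)) -
    (Real.sqrt 3 / 2 : ℂ) * Complex.I with hx
  have hxpi : ∀ t, x (t + Real.pi) = (cS (b t) (y t) - z t) / (1 + (b t : ℂ)) -
      (Real.sqrt 3 / 2 : ℂ) * Complex.I := by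
    intro t
    simp only [hx]
    rw [h.perb, h.pery, h.perz, sub_eq_add_neg (cS (b t) (y t))]
  have hcX : ∀ t, cX x t = cS (b t) (y t) / (1 + (b t : ℂ)) := by
    intro t
    unfold cX
    rw [hxpi]
    simp only [hx]
    have := hne t
    field_simp
    ring
  have hzX : ∀ t, zX x t = z t / (1 + (b t : ℂ)) := by
    intro t
    unfold zX
    rw [hxpi]
    simp only [hx]
    have := hne t
    field_simp
    ring
  have h3 : 0 < Real.sqrt 3 := by positivity
  have hgX : ∀ t, gX x t = (1 - b t) / (1 + b t) := by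
    intro t
    have e1 : (x t).im + (x (t + Real.pi)).im = 2 * (cX x t).im - Real.sqrt 3 := by
      unfold cX
      simp
      ring
    unfold gX
    rw [e1, hcX]
    have e2 : (cS (b t) (y t) / (1 + (b t : ℂ))).im = Real.sqrt 3 / 2 * (1 - b t) / (1 + b t) := by
      have e3 : (1 + (b t : ℂ)) = ((1 + b t : ℝ) : ℂ) := by push_cast; rfl
      rw [e3, Complex.div_ofReal_im]
      unfold cS
      simp
    rw [e2]
    have := h1b' t
    field_simp
    ring
  have hnorm : ∀ t, δ ≤ ‖(1 + (b t : ℂ))‖ := by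
    intro t
    have e3 : (1 + (b t : ℂ)) = ((1 + b t : ℝ) : ℂ) := by push_cast; rfl
    rw [e3, Complex.norm_real, Real.norm_eq_abs, abs_of_pos (h1b' t)]
    exact h1b t
  have hI : ‖(Real.sqrt 3 / 2 : ℂ) * Complex.I‖ ≤ 1 := by
    rw [norm_mul, Complex.norm_I, mul_one, show (Real.sqrt 3 / 2 : ℂ) = ((Real.sqrt 3 / 2 : ℝ) : ℂ) by
      push_cast; rfl, Complex.norm_real, Real.norm_eq_abs, abs_of_pos (by positivity)]
    have : Real.sqrt 3 ≤ 2 := by
      rw [show (2 : ℝ) = Real.sqrt 4 by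
        rw [show (4 : ℝ) = 2 ^ 2 by norm_num, Real.sqrt_sq (by norm_num)]]
      exact Real.sqrt_le_sqrt (by norm_num)
    linarith
  have hadm : AdmX x := by
    refine ⟨?_, ?_, ?_, ?_, ?_⟩
    · exact ((hcm.add h.mz).div (measurable_const.add hbm)).sub measurable_const
    · intro t
      have e : t + 2 * Real.pi = (t + Real.pi) + Real.pi := by ring
      simp only [hx]
      rw [e, h.perb, h.perb, h.pery, h.pery, h.perz, h.perz, neg_neg]
    · refine ⟨2 * D / δ + 1, fun t => ?_⟩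
      simp only [hx]
      refine (norm_sub_le _ _).trans (add_le_add ?_ hI)
      rw [norm_div]
      have h4 := norm_add_le (cS (b t) (y t)) (z t)
      have h5 : ‖cS (b t) (y t) + z t‖ ≤ 2 * D := by linarith [hDc t, hDz t]
      exact div_le_div₀ (by positivity) h5 hδ (hnorm t)
    · refine ⟨δ / 2, by positivity, fun t => ?_⟩
      rw [hgX, le_div_iff₀ (h1b' t)]
      have h6 : 1 + b t ≤ 2 := by
        have := (abs_le.1 (hb t)).2
        linarith
      nlinarith [hb2 t]
    · intro t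
      obtain ⟨X, Y, hX, hY, hz⟩ := h.reg t
      refine ⟨X, Y, hX, hY, ?_⟩
      rw [hzX, hcX, hz]
      unfold aS
      have := hne t
      field_simp
  obtain ⟨ρ, hρ, hF⟩ := hR x hadm
  obtain ⟨Cρ, hCρ⟩ := hρ.bd
  have hCρ0 : 0 ≤ Cρ := le_trans (hρ.nonneg 0) (hCρ 0)
  set w : ℝ → ℝ := fun t => ρ t / (1 + b t) with hw
  have hwb : ∀ t, w t ≤ Cρ / δ := fun t => div_le_div₀ hCρ0 (hCρ t) hδ (h1b t)
  have hwm : Measurable w := hρ.m.div (measurable_const.add h.mb)
  have hw0 : ∀ t, 0 ≤ w t := fun t => div_nonneg (hρ.nonneg t) (h1b' t).le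
  have hwg : Wgt w := by
    refine ⟨hwm, hw0, ⟨_, hwb⟩, fun t => ?_, ?_⟩
    · simp only [hw]; rw [hρ.per, h.perb]
    · have hi1 : IntervalIntegrable (fun t => ρ t * (1 / 2)) volume 0 (2 * Real.pi) :=
        (ii_of hρ.m ⟨Cρ, fun t => by
          rw [Real.norm_eq_abs, abs_of_nonneg (hρ.nonneg t)]; exact hCρ t⟩ _ _).mul_const _
      have hi2 : IntervalIntegrable w volume 0 (2 * Real.pi) :=
        ii_of hwm ⟨Cρ / δ, fun t => by
          rw [Real.norm_eq_abs, abs_of_nonneg (hw0 t)]; exact hwb t⟩ _ _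
      have h4 := intervalIntegral.integral_mono_on (by positivity : (0 : ℝ) ≤ 2 * Real.pi) hi1 hi2
        (fun t _ => by
          simp only [hw]
          rw [le_div_iff₀ (h1b' t)]
          have h6 : 1 + b t ≤ 2 := by
            have := (abs_le.1 (hb t)).2
            linarith
          nlinarith [hρ.nonneg t])
      rw [intervalIntegral.integral_mul_const] at h4
      have := hρ.pos
      linarith
  refine ⟨w, hwg, ?_⟩
  have em : mW w b = mX ρ x := by
    unfold mW mX
    congr 1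
    apply intervalIntegral.integral_congr
    intro t _
    show w t * Real.sqrt (1 - b t ^ 2) = ρ t * Real.sqrt (gX x t)
    rw [hgX]
    have h4 : (1 - b t) / (1 + b t) = (1 - b t ^ 2) / (1 + b t) ^ 2 := by
      have := (h1b' t).ne'
      field_simp
      ring
    have h5 : 0 ≤ 1 - b t ^ 2 := by nlinarith [hb2 t, h1b' t]
    rw [h4, Real.sqrt_div h5, Real.sqrt_sq (h1b' t).le]
    simp only [hw]
    have := (h1b' t).ne'
    field_simp
  have ef : FMS w b y z = FMX ρ x := by
    have hwc : ∀ t, (w t : ℂ) * (1 + (b t : ℂ)) = (ρ t : ℂ) := by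
      intro t
      have : (w t : ℝ) * (1 + b t) = ρ t := by
        simp only [hw]
        have := (h1b' t).ne'
        field_simp
      have h6 := congrArg (fun r : ℝ => (r : ℂ)) this
      push_cast at h6
      exact h6
    have e0 : A0S w b = fun t => (ρ t : ℂ) * ee t := by
      funext t
      unfold A0S aS
      rw [← hwc t]; ring
    have e1 : (fun t => AAS w b y t + vvS w z t) = fun t => (ρ t : ℂ) * (ee t * (om + x t)) := by
      funext t
      have h7 : om + x t = 1 / 2 + (cS (b t) (y t) + z t) / (1 + (b t : ℂ)) := by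
        rw [om_eq]; simp only [hx]; ring
      rw [h7, ← hwc t]
      unfold AAS vvS aS
      have := hne t
      field_simp
      ring
    have e2 : (fun t => BBS w b y (t + Real.pi) - vvS w z (t + Real.pi)) =
        fun t => (ρ t : ℂ) * (ee t * ((starRingEnd ℂ) om - x t)) := by
      funext t
      have h7 : (starRingEnd ℂ) om - x t = 1 / 2 - (cS (b t) (y t) + z t) / (1 + (b t : ℂ)) := by
        rw [conj_om_eq]; simp only [hx]; ring
      rw [h7, ← hwc t]
      unfold BBS vvS aS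
      rw [h.perb, h.pery, h.perz, ee_add_pi, hwg.per]
      have := hne t
      field_simp
      ring
    have hwcm : Measurable fun t => ((w t : ℝ) : ℂ) := Complex.measurable_ofReal.comp hwm
    have he := meas_ee
    have hwn : ∀ t, ‖(w t : ℂ)‖ ≤ Cρ / δ := fun t => by
      rw [Complex.norm_real, Real.norm_eq_abs, abs_of_nonneg (hw0 t)]; exact hwb t
    have hC0 : 0 ≤ Cρ / δ := by positivity
    have hh : ∀ t, ‖(1 / 2 : ℂ) * aS (b t)‖ ≤ D := by
      intro t
      rw [norm_mul]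
      have : ‖(1 / 2 : ℂ)‖ = 1 / 2 := by norm_num
      rw [this]
      linarith [hDa t]
    have g1 : ∀ t, AAS w b y t + vvS w z t =
        (w t : ℂ) * (ee t * (cS (b t) (y t) + 1 / 2 * aS (b t) + z t)) := by
      intro t; unfold AAS vvS; ring
    have g2 : ∀ t, BBS w b y t - vvS w z t =
        (w t : ℂ) * (ee t * (cS (b t) (y t) - 1 / 2 * aS (b t) - z t)) := by
      intro t; unfold BBS vvS; ring
    have M0 : Measurable (A0S w b) := by unfold A0S; exact hwcm.mul (he.mul ham)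
    have M1 : Measurable (fun t => AAS w b y t + vvS w z t) := by
      simp only [g1]
      exact hwcm.mul (he.mul ((hcm.add (measurable_const.mul ham)).add h.mz))
    have M2 : Measurable (fun t => BBS w b y t - vvS w z t) := by
      simp only [g2]
      exact hwcm.mul (he.mul ((hcm.sub (measurable_const.mul ham)).sub h.mz))
    have N0 : ∀ t, ‖A0S w b t‖ ≤ Cρ / δ * (3 * D) := by
      intro t
      unfold A0S
      rw [norm_mul, norm_mul, norm_ee, one_mul]
      exact mul_le_mul (hwn t) (by linarith [hDa t]) (norm_nonneg _) hC0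
    have N1 : ∀ t, ‖AAS w b y t + vvS w z t‖ ≤ Cρ / δ * (3 * D) := by
      intro t
      rw [g1, norm_mul, norm_mul, norm_ee, one_mul]
      refine mul_le_mul (hwn t) ?_ (norm_nonneg _) hC0
      have e1 := norm_add_le (cS (b t) (y t) + 1 / 2 * aS (b t)) (z t)
      have e2 := norm_add_le (cS (b t) (y t)) (1 / 2 * aS (b t))
      linarith [hDc t, hDz t, hh t]
    have N2 : ∀ t, ‖BBS w b y t - vvS w z t‖ ≤ Cρ / δ * (3 * D) := by
      intro t
      rw [g2, norm_mul, norm_mul, norm_ee, one_mul]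
      refine mul_le_mul (hwn t) ?_ (norm_nonneg _) hC0
      have e1 := norm_sub_le (cS (b t) (y t) - 1 / 2 * aS (b t)) (z t)
      have e2 := norm_sub_le (cS (b t) (y t)) (1 / 2 * aS (b t))
      linarith [hDc t, hDz t, hh t]
    have P2 : ∀ t, BBS w b y (t + 2 * Real.pi) - vvS w z (t + 2 * Real.pi) =
        BBS w b y t - vvS w z t := by
      intro t
      have e : t + 2 * Real.pi = (t + Real.pi) + Real.pi := by ring
      unfold BBS vvS
      rw [ee_per, e, h.perb, h.perb, h.pery, h.pery, h.perz, h.perz, hwg.per, hwg.per, neg_neg]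
    have hsg : ∀ n, sgE (A0S w b) (fun t => AAS w b y t + vvS w z t)
        (fun t => BBS w b y t - vvS w z t) n =
        sgE (fun t => (ρ t : ℂ) * ee t) (fun t => (ρ t : ℂ) * (ee t * (om + x t)))
          (fun t => (ρ t : ℂ) * (ee t * ((starRingEnd ℂ) om - x t))) n := by
      intro n
      rw [sgE_shift M0 M1 M2 N0 N1 N2 P2 n, e0, e1]
      congr 1
    unfold FMS FMX FME
    simp only [hsg]
  rw [em, ef]
  exact hF

theorem amgm {s g : ℝ} (hs : 0 < s) (hg : 0 ≤ g) :
    3 * Real.sqrt g ≤ Real.sqrt 3 / 2 * s * g + 3 * Real.sqrt 3 / 2 * (1 / s) := by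
  have h3 : Real.sqrt 3 ^ 2 = 3 := Real.sq_sqrt (by norm_num)
  have h3p : 0 < Real.sqrt 3 := by positivity
  have hq : Real.sqrt g ^ 2 = g := Real.sq_sqrt hg
  have h4 : 0 ≤ Real.sqrt 3 / (2 * s) * (s * Real.sqrt g - Real.sqrt 3) ^ 2 := by positivity
  have h5 : Real.sqrt 3 / (2 * s) * (s * Real.sqrt g - Real.sqrt 3) ^ 2 =
      Real.sqrt 3 / 2 * s * (Real.sqrt g ^ 2) - Real.sqrt 3 ^ 2 * Real.sqrt g
        + Real.sqrt 3 ^ 2 * Real.sqrt 3 / 2 * (1 / s) := by
    field_simp
    ring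
  rw [h5, hq, h3] at h4
  linarith

/-- module X2 -/
theorem hX2 : StX2 := by
  intro hR x hx
  obtain ⟨ρ, s, hρ, hsm, hsp, ⟨δ, C, hδ, hsb⟩, hF⟩ := hR x hx
  refine ⟨ρ, hρ, ?_⟩
  have hpi := Real.pi_pos
  have h2pi : 0 < 2 * Real.pi := by positivity
  obtain ⟨Cρ, hCρ⟩ := hρ.bd
  obtain ⟨Cx, hCx⟩ := hx.bd
  obtain ⟨δ', hδ', hg⟩ := hx.pos
  have hCρ0 : 0 ≤ Cρ := le_trans (hρ.nonneg 0) (hCρ 0)
  have hCx0 : 0 ≤ Cx := le_trans (norm_nonneg _) (hCx 0)
  have hC0 : 0 ≤ C := le_trans (le_trans hδ.le (hsb 0).1) (hsb 0).2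
  have h3p : 0 < Real.sqrt 3 := by positivity
  have h32 : Real.sqrt 3 ≤ 2 := by
    rw [show (2 : ℝ) = Real.sqrt 4 by
      rw [show (4 : ℝ) = 2 ^ 2 by norm_num, Real.sqrt_sq (by norm_num)]]
    exact Real.sqrt_le_sqrt (by norm_num)
  have hρn : ∀ t, ‖ρ t‖ ≤ Cρ := fun t => by
    rw [Real.norm_eq_abs, abs_of_nonneg (hρ.nonneg t)]; exact hCρ t
  set F : ℝ → ℝ := fun t => ρ t * s t * (Real.sqrt 3 / 2 + (x t).im) +
    3 * Real.sqrt 3 / 2 * (ρ t / s t) with hFdef
  have him : Measurable fun t => (x t).im := Complex.measurable_im.comp hx.m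
  have hFm : Measurable F :=
    ((hρ.m.mul hsm).mul (measurable_const.add him)).add (measurable_const.mul (hρ.m.div hsm))
  have hFb : ∀ t, ‖F t‖ ≤ Cρ * C * (1 + Cx) + 3 * (Cρ / δ) := by
    intro t
    simp only [hFdef]
    refine (norm_add_le _ _).trans (add_le_add ?_ ?_)
    · rw [norm_mul, norm_mul]
      have h4 : ‖s t‖ ≤ C := by
        rw [Real.norm_eq_abs, abs_of_pos (lt_of_lt_of_le hδ (hsb t).1)]; exact (hsb t).2
      have h5 : ‖Real.sqrt 3 / 2 + (x t).im‖ ≤ 1 + Cx := by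
        refine (norm_add_le _ _).trans (add_le_add ?_ ?_)
        · rw [Real.norm_eq_abs, abs_of_pos (by positivity)]; linarith
        · exact (Complex.abs_im_le_norm _).trans (hCx t)
      exact mul_le_mul (mul_le_mul (hρn t) h4 (norm_nonneg _) hCρ0) h5 (norm_nonneg _)
        (by positivity)
    · rw [norm_mul, norm_div (ρ t) (s t)]
      have h4 : ‖3 * Real.sqrt 3 / 2‖ ≤ 3 := by
        rw [Real.norm_eq_abs, abs_of_pos (by positivity)]; linarith
      have h5 : δ ≤ ‖s t‖ := by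
        rw [Real.norm_eq_abs, abs_of_pos (lt_of_lt_of_le hδ (hsb t).1)]; exact (hsb t).1
      exact mul_le_mul h4 (div_le_div₀ hCρ0 (hρn t) hδ h5) (by positivity) (by norm_num)
  have hi1 : ∀ p q, IntervalIntegrable F volume p q := fun p q => ii_of hFm ⟨_, hFb⟩ p q
  have hi2 : IntervalIntegrable (fun t => F (t + Real.pi)) volume 0 (2 * Real.pi) :=
    ii_of (hFm.comp (measurable_id.add_const _)) ⟨_, fun t => hFb _⟩ _ _
  have hper : ∀ t, F (t + 2 * Real.pi) = F t := by
    intro t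
    have e : t + 2 * Real.pi = (t + Real.pi) + Real.pi := by ring
    have h4 : ρ (t + 2 * Real.pi) = ρ t := by rw [e, hρ.per, hρ.per]
    have h5 : s (t + 2 * Real.pi) = s t := by rw [e, hsp, hsp]
    simp only [hFdef]
    rw [h4, h5, hx.per]
  have hsh : ∫ t in (0 : ℝ)..(2 * Real.pi), F (t + Real.pi) = ∫ t in (0 : ℝ)..(2 * Real.pi), F t :=
    integral_shift F hper Real.pi
  have hgm : Measurable (fun t => gX x t) := by
    unfold gX
    exact measurable_const.add ((him.add (him.comp (measurable_id.add_const _))).div_const _)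
  have hgb : ∀ t, ‖Real.sqrt (gX x t)‖ ≤ Real.sqrt (1 + 2 * Cx / Real.sqrt 3) := by
    intro t
    rw [Real.norm_eq_abs, abs_of_nonneg (Real.sqrt_nonneg _)]
    apply Real.sqrt_le_sqrt
    unfold gX
    have h4 := (le_abs_self _).trans ((Complex.abs_im_le_norm (x t)).trans (hCx t))
    have h5 := (le_abs_self _).trans ((Complex.abs_im_le_norm (x (t + Real.pi))).trans (hCx _))
    have h6 : ((x t).im + (x (t + Real.pi)).im) / Real.sqrt 3 ≤ 2 * Cx / Real.sqrt 3 :=
      div_le_div_of_nonneg_right (by linarith) h3p.le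
    linarith
  have hi3 : IntervalIntegrable (fun t => ρ t * Real.sqrt (gX x t)) volume 0 (2 * Real.pi) :=
    ii_of (hρ.m.mul hgm.sqrt) ⟨Cρ * Real.sqrt (1 + 2 * Cx / Real.sqrt 3), fun t => by
      show ‖ρ t * Real.sqrt (gX x t)‖ ≤ _
      rw [norm_mul]
      exact mul_le_mul (hρn t) (hgb t) (norm_nonneg _) hCρ0⟩ _ _
  have hmono := intervalIntegral.integral_mono_on h2pi.le (hi3.const_mul 6)
    ((hi1 0 (2 * Real.pi)).add hi2) (fun t _ => by
      have h4 := amgm (lt_of_lt_of_le hδ (hsb t).1) (le_trans hδ'.le (hg t))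
      have h5 := mul_le_mul_of_nonneg_left h4 (hρ.nonneg t)
      have hs0 : s t ≠ 0 := (lt_of_lt_of_le hδ (hsb t).1).ne'
      show 6 * (ρ t * Real.sqrt (gX x t)) ≤ F t + F (t + Real.pi)
      have e1 : F t + F (t + Real.pi) = 2 * (ρ t * (Real.sqrt 3 / 2 * s t * gX x t +
          3 * Real.sqrt 3 / 2 * (1 / s t))) := by
        simp only [hFdef]
        rw [hρ.per, hsp]
        unfold gX
        field_simp
        ring
      rw [e1]
      linarith)
  rw [intervalIntegral.integral_const_mul, intervalIntegral.integral_add (hi1 _ _) hi2, hsh] at hmono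
  have hm0 : 0 ≤ mX ρ x := by
    unfold mX
    refine mul_nonneg (by positivity) ?_
    exact intervalIntegral.integral_nonneg h2pi.le fun t _ =>
      mul_nonneg (hρ.nonneg t) (Real.sqrt_nonneg _)
  have hml : 3 * mX ρ x ≤ lX ρ s x := by
    unfold mX lX
    have h6 : 3 * ∫ t in (0 : ℝ)..(2 * Real.pi), ρ t * Real.sqrt (gX x t) ≤
        ∫ t in (0 : ℝ)..(2 * Real.pi), F t := by linarith
    have h7 := mul_le_mul_of_nonneg_left h6 (by positivity : (0 : ℝ) ≤ 1 / (2 * Real.pi))
    calc 3 * (1 / (2 * Real.pi) * ∫ t in (0 : ℝ)..(2 * Real.pi), ρ t * Real.sqrt (gX x t))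
        = 1 / (2 * Real.pi) * (3 * ∫ t in (0 : ℝ)..(2 * Real.pi), ρ t * Real.sqrt (gX x t)) := by
          ring
      _ ≤ _ := h7
  have h8 : (3 * mX ρ x) ^ 2 ≤ lX ρ s x ^ 2 := pow_le_pow_left₀ (by positivity) hml 2
  calc 9 * 1 * mX ρ x ^ 2 = (3 * mX ρ x) ^ 2 := by ring
    _ ≤ _ := h8.trans hF

/-- assembly -/
theorem red_X (hred : StRedS) : ∀ κ : ℝ, 0 < κ → Rx κ → ∀ K : Set ℂ, IsBody K →
    theta K ≤ ENNReal.ofReal (1 / (κ * m0)) :=
  fun κ hκ hR => hred κ hκ (hX1 κ hR)

end Helper49.RC.XX
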