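import Pool.Agent.Helper49.RC.StSharp

/-!
# Project RC, SHARP: means of bounded measurable functions
-/

open MeasureTheory Set Filter Metric

namespace Helper49.Sharp

open Helper49.LT hiding sg
open Helper49.RC Helper44.GQ
open Helper56.RC (fc)
open Helper87.RC (BM intg_of_bdd)

/-- bounded measurable real function -/
structure BR (f : ℝ → ℝ) : Prop where
  m : Measurable f
  b : ∃ C, ∀ t, |f t| ≤ C

theorem BR.i {f : ℝ → ℝ} (h : BR f) (a b : ℝ) : IntervalIntegrable f volume a b := by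
  obtain ⟨C, hC⟩ := h.b
  exact intg_of_bdd h.m hC a b

theorem BR.const (c : ℝ) : BR fun _ => c := ⟨measurable_const, |c|, fun _ => le_rfl⟩

theorem BR.add {f g : ℝ → ℝ} (h : BR f) (k : BR g) : BR fun t => f t + g t := by
  obtain ⟨C, hC⟩ := h.b
  obtain ⟨D, hD⟩ := k.b
  exact ⟨h.m.add k.m, C + D, fun t => (abs_add_le _ _).trans (add_le_add (hC t) (hD t))⟩

theorem BR.neg {f : ℝ → ℝ} (h : BR f) : BR fun t => -f t := by
  obtain ⟨C, hC⟩ := h.b
  exact ⟨h.m.neg, C, fun t => by rw [abs_neg]; exact hC t⟩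

theorem BR.sub {f g : ℝ → ℝ} (h : BR f) (k : BR g) : BR fun t => f t - g t := by
  have := h.add k.neg
  simpa [sub_eq_add_neg] using this

theorem BR.mul {f g : ℝ → ℝ} (h : BR f) (k : BR g) : BR fun t => f t * g t := by
  obtain ⟨C, hC⟩ := h.b
  obtain ⟨D, hD⟩ := k.b
  refine ⟨h.m.mul k.m, C * D, fun t => ?_⟩
  rw [abs_mul]
  exact mul_le_mul (hC t) (hD t) (abs_nonneg _) ((abs_nonneg _).trans (hC t))

theorem BR.cmul {f : ℝ → ℝ} (h : BR f) (c : ℝ) : BR fun t => c * f t := (BR.const c).mul h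

theorem BR.sq {f : ℝ → ℝ} (h : BR f) : BR fun t => f t ^ 2 := by
  have := h.mul h
  simpa [pow_two] using this

theorem BR.sh {f : ℝ → ℝ} (h : BR f) (c : ℝ) : BR fun t => f (t + c) := by
  obtain ⟨C, hC⟩ := h.b
  exact ⟨h.m.comp (measurable_id.add_const c), C, fun t => hC _⟩

theorem BR.re {f : ℝ → ℂ} {C : ℝ} (h : BM f C) : BR fun t => (f t).re :=
  ⟨Complex.measurable_re.comp h.m, C, fun t => (Complex.abs_re_le_norm _).trans (h.b t)⟩

theorem BR.im {f : ℝ → ℂ} {C : ℝ} (h : BM f C) : BR fun t => (f t).im :=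
  ⟨Complex.measurable_im.comp h.m, C, fun t => (Complex.abs_im_le_norm _).trans (h.b t)⟩

theorem BR.nrm {f : ℝ → ℂ} {C : ℝ} (h : BM f C) : BR fun t => ‖f t‖ :=
  ⟨h.m.norm, C, fun t => by rw [abs_of_nonneg (norm_nonneg _)]; exact h.b t⟩

theorem mean_add {f g : ℝ → ℝ} (h : BR f) (k : BR g) : mean (fun t => f t + g t) = mean f + mean g := by
  unfold mean
  rw [intervalIntegral.integral_add (h.i _ _) (k.i _ _)]
  ring

theorem mean_sub {f g : ℝ → ℝ} (h : BR f) (k : BR g) : mean (fun t => f t - g t) = mean f - mean g := by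
  unfold mean
  rw [intervalIntegral.integral_sub (h.i _ _) (k.i _ _)]
  ring

theorem mean_cmul (c : ℝ) (f : ℝ → ℝ) : mean (fun t => c * f t) = c * mean f := by
  unfold mean
  rw [intervalIntegral.integral_const_mul]
  ring

theorem mean_mono {f g : ℝ → ℝ} (h : BR f) (k : BR g) (hfg : ∀ t, f t ≤ g t) : mean f ≤ mean g := by
  have hp := Real.pi_pos
  unfold mean
  refine mul_le_mul_of_nonneg_left ?_ (by positivity)
  exact intervalIntegral.integral_mono_on (by positivity) (h.i _ _) (k.i _ _) fun t _ => hfg t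

theorem mean_nonneg {f : ℝ → ℝ} (hf : ∀ t, 0 ≤ f t) : 0 ≤ mean f := by
  have hp := Real.pi_pos
  unfold mean
  exact mul_nonneg (by positivity) (intervalIntegral.integral_nonneg (by positivity) fun t _ => hf t)

theorem mean_sh {f : ℝ → ℝ} (hp : ∀ t, f (t + 2 * Real.pi) = f t) (c : ℝ) :
    mean (fun t => f (t + c)) = mean f := by
  unfold mean
  rw [Pool.Agent.Helper35.RC.per_shift f hp c]

theorem mean_congr {f g : ℝ → ℝ} (h : ∀ t, f t = g t) : mean f = mean g := by
  unfold mean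
  congr 1
  exact intervalIntegral.integral_congr fun t _ => h t

/-- the mean of a function of period `2π` in terms of the pair `t, t + π` -/
theorem mean_pair {f : ℝ → ℝ} (h : BR f) (hp : ∀ t, f (t + 2 * Real.pi) = f t) :
    mean f = 1 / 2 * mean (fun t => f t + f (t + Real.pi)) := by
  rw [mean_add h (h.sh _), mean_sh hp]
  ring

/-- real part of a complex mean -/
theorem mean_re {f : ℝ → ℂ} {C : ℝ} (h : BM f C) :
    ((1 / (2 * Real.pi) : ℂ) * ∫ t in (0 : ℝ)..(2 * Real.pi), f t).re = mean fun t => (f t).re := by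
  have e4 : (1 / (2 * Real.pi) : ℂ) = ((1 / (2 * Real.pi) : ℝ) : ℂ) := by push_cast; rfl
  rw [e4, Complex.re_ofReal_mul]
  unfold mean
  congr 1
  exact (Complex.reCLM.intervalIntegral_comp_comm (h.i 0 (2 * Real.pi))).symm

end Helper49.Sharp
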