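import Pool.Agent.Helper49.RA.StB
import Pool.Agent.Helper49.RA.M_GEN
import Pool.Agent.Helper49.RA.M_ZI
import Pool.Agent.Helper49.RA.M_PHI

/-!
Project RC (MP_16b052_ag, characteristic two): the criterion `I^(2) = I^2` degree by degree, for
any field and any homogeneous functional of degree four; the functional of a symmetric table.
-/

set_option autoImplicit false

namespace Helper49.RC

open MvPolynomial Helper49.RA

universe u

/-- The functional is homogeneous of degree four. -/
def Hom4 {k : Type u} [Field k] {K : Type} (Φ : MvPolynomial K k →ₗ[k] k) : Prop :=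
  ∀ (d : ℕ) (s : MvPolynomial K k), s.IsHomogeneous d → d ≠ 4 → Φ s = 0

/-- The functional vanishes on the square of the ideal. -/
def KillsSq {k : Type u} [Field k] {K : Type} (Φ G : MvPolynomial K k →ₗ[k] k) : Prop :=
  ∀ s ∈ annI Φ ^ 2, G s = 0

section

variable {k : Type u} [Field k] {K : Type}

theorem ann_comp {Φ : MvPolynomial K k →ₗ[k] k} (hΦ : Hom4 Φ) {s : MvPolynomial K k}
    (hs : s ∈ annI Φ) (d : ℕ) : homogeneousComponent d s ∈ annI Φ := by
  apply ZIaux.memAnn
  intro j t ht
  by_cases hdj : d + j = 4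
  · have h1 : Φ (s * t) = 0 := ZIaux.annMem hs t
    rw [ZIaux.decomp s, Finset.sum_mul, map_sum] at h1
    by_cases hd : d ∈ Finset.range (s.totalDegree + 1)
    · rw [Finset.sum_eq_single_of_mem d hd] at h1
      · exact h1
      · intro i _ hi
        exact hΦ (i + j) _ ((homogeneousComponent_isHomogeneous i s).mul ht) (by omega)
    · have h0 : homogeneousComponent d s = 0 := by
        apply homogeneousComponent_eq_zero
        rw [Finset.mem_range] at hd
        omega
      rw [h0, zero_mul, map_zero]
  · exact hΦ (d + j) _ ((homogeneousComponent_isHomogeneous d s).mul ht) hdj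

/-- A homogeneous polynomial of degree `d ≤ 4` is in the ideal when `Φ` kills its products with
the homogeneous polynomials of the complementary degree. -/
theorem mem_ann_of {Φ : MvPolynomial K k →ₗ[k] k} (hΦ : Hom4 Φ) {s : MvPolynomial K k} {d e : ℕ}
    (hs : s.IsHomogeneous d) (hde : d + e = 4)
    (h : ∀ t : MvPolynomial K k, t.IsHomogeneous e → Φ (s * t) = 0) : s ∈ annI Φ := by
  apply ZIaux.memAnn
  intro j t ht
  by_cases hj : j = e
  · subst hj; exact h t ht
  · exact hΦ (d + j) _ (hs.mul ht) (by omega)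

theorem pd_comp (s : MvPolynomial K k) (i : K)
    (d : ℕ) : pderiv i (homogeneousComponent (d + 1) s) = homogeneousComponent d (pderiv i s) := by
  have h1 : pderiv i s = ∑ j ∈ Finset.range (s.totalDegree + 1 + d + 1),
      pderiv i (homogeneousComponent j s) := by
    have h2 : s = ∑ j ∈ Finset.range (s.totalDegree + 1 + d + 1), homogeneousComponent j s := by
      conv_lhs => rw [← sum_homogeneousComponent s]
      refine Finset.sum_subset (Finset.range_mono (by omega)) fun j _ hj => ?_
      refine homogeneousComponent_eq_zero _ _ ?_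
      simpa using hj
    conv_lhs => rw [h2]
    rw [map_sum]
  rw [h1, map_sum, Finset.sum_eq_single (d + 1)]
  · have h3 : (pderiv i (homogeneousComponent (d + 1) s)).IsHomogeneous d :=
      (homogeneousComponent_isHomogeneous (d + 1) s).pderiv
    rw [homogeneousComponent_of_mem h3, if_pos rfl]
  · intro j _ hj
    rcases j with _ | j
    · rw [homogeneousComponent_zero, pderiv_C, map_zero]
    · have h3 : (pderiv i (homogeneousComponent (j + 1) s)).IsHomogeneous j :=
        (homogeneousComponent_isHomogeneous (j + 1) s).pderiv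
      rw [homogeneousComponent_of_mem h3, if_neg]
      omega
  · intro h
    exfalso
    apply h
    rw [Finset.mem_range]
    omega

theorem sep (J : Ideal (MvPolynomial K k)) (r : MvPolynomial K k) (hr : r ∉ J) :
    ∃ G : MvPolynomial K k →ₗ[k] k, G r ≠ 0 ∧ ∀ s ∈ J, G s = 0 := by
  have hr' : r ∉ J.restrictScalars k := hr
  obtain ⟨G, h1, h2⟩ := Submodule.exists_le_ker_of_notMem hr'
  exact ⟨G, h1, fun s hs => LinearMap.mem_ker.1 (h2 hs)⟩

end

/-- **The criterion.**  `I = annI Φ`, `Φ` homogeneous of degree four over any field. -/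
theorem sec2 (k : Type u) [Field k] (K : Type) [Fintype K] [Nonempty K]
    (Φ : MvPolynomial K k →ₗ[k] k) (hΦ : Hom4 Φ)
    (h1 : ∀ r : MvPolynomial K k, r.IsHomogeneous 1 → r ∈ annI Φ → r = 0)
    (h2 : ∀ r : MvPolynomial K k, r.IsHomogeneous 2 → r ∈ annI Φ →
      (∀ i, pderiv i r = 0) → r = 0)
    (h3 : ∀ r : MvPolynomial K k, r.IsHomogeneous 3 → r ∈ annI Φ →
      (∀ i, pderiv i r ∈ annI Φ) → r = 0)
    (h4 : ∀ G : MvPolynomial K k →ₗ[k] k, KillsSq Φ G →
      ∃ (β : k) (m : K → K → k), ∀ s : MvPolynomial K k, s.IsHomogeneous 4 →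
        G s = β * Φ s + ∑ a, ∑ b, m a b * Φ (X b * pderiv a s))
    (h5 : ∀ G : MvPolynomial K k →ₗ[k] k, KillsSq Φ G →
      ∃ l : K → k, ∀ s : MvPolynomial K k, s.IsHomogeneous 5 →
        G s = ∑ i, l i * Φ (pderiv i s))
    (h6 : ∀ G : MvPolynomial K k →ₗ[k] k, KillsSq Φ G →
      ∀ s : MvPolynomial K k, s.IsHomogeneous 6 → G s = 0) :
    SecondPower Φ := by
  intro s hs hds
  have hz : ∀ r ∈ annI Φ, Φ r = 0 := by
    intro r hr
    have := hr 1
    rwa [mul_one] at this
  -- degree six and above
  have hh6 : ∀ d : ℕ, ∀ r : MvPolynomial K k, r.IsHomogeneous (d + 6) → r ∈ annI Φ ^ 2 := by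
    intro d
    induction d with
    | zero =>
      intro r hr
      by_contra hn
      obtain ⟨G, hG1, hG2⟩ := sep _ r hn
      exact hG1 (h6 G hG2 r hr)
    | succ d ih =>
      intro r hr
      have := gen k K ((annI Φ ^ 2).restrictScalars k) (d + 6)
        (fun y t ht => Ideal.mul_mem_left _ _ (ih t ht)) r (by
          have e1 : d + 1 + 6 = d + 6 + 1 := by omega
          rwa [e1] at hr)
      exact this
  -- homogeneous elements
  have key : ∀ d : ℕ, ∀ r : MvPolynomial K k, r.IsHomogeneous d → r ∈ annI Φ →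
      (∀ i, pderiv i r ∈ annI Φ) → r ∈ annI Φ ^ 2 := by
    intro d r hr hrI hrd
    rcases Nat.lt_or_ge d 6 with hd | hd
    · interval_cases d
      · -- degree zero
        obtain ⟨x⟩ := ‹Nonempty K›
        have h7 : (X x * r : MvPolynomial K k) = 0 := by
          refine h1 _ ?_ (Ideal.mul_mem_left _ _ hrI)
          exact (isHomogeneous_X k x).mul hr
        have h8 : r = 0 := by
          rcases mul_eq_zero.1 h7 with h | h
          · exact absurd h (X_ne_zero _)
          · exact h
        rw [h8]; exact Ideal.zero_mem _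
      · rw [h1 r hr hrI]; exact Ideal.zero_mem _
      · have h0 : ∀ i, pderiv i r = 0 := fun i => h1 _ hr.pderiv (hrd i)
        rw [h2 r hr hrI h0]; exact Ideal.zero_mem _
      · rw [h3 r hr hrI hrd]; exact Ideal.zero_mem _
      · by_contra hn
        obtain ⟨G, hG1, hG2⟩ := sep _ r hn
        obtain ⟨β, m, hm⟩ := h4 G hG2
        apply hG1
        rw [hm r hr, hz r hrI, mul_zero, zero_add]
        refine Finset.sum_eq_zero fun a _ => Finset.sum_eq_zero fun b _ => ?_
        rw [hz _ (Ideal.mul_mem_left _ _ (hrd a)), mul_zero]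
      · by_contra hn
        obtain ⟨G, hG1, hG2⟩ := sep _ r hn
        obtain ⟨l, hl⟩ := h5 G hG2
        apply hG1
        rw [hl r hr]
        exact Finset.sum_eq_zero fun i _ => by rw [hz _ (hrd i), mul_zero]
    · obtain ⟨d', rfl⟩ := Nat.exists_eq_add_of_le' hd
      exact hh6 d' r hr
  rw [← sum_homogeneousComponent s]
  refine Ideal.sum_mem _ fun d _ => ?_
  refine key d _ (homogeneousComponent_isHomogeneous d s) (ann_comp hΦ hs d) fun i => ?_
  rcases d with _ | d
  · rw [homogeneousComponent_zero, pderiv_C]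
    exact Ideal.zero_mem _
  · rw [pd_comp]
    exact ann_comp hΦ (hds i) d

/-- **Existence of the functional of a symmetric table.** -/
theorem phi_of_table (k : Type u) [Field k] (K : Type) (R : K → K → K → K → k)
    (r1 : ∀ i j l m, R i j l m = R j i l m) (r2 : ∀ i j l m, R i j l m = R i l j m)
    (r3 : ∀ i j l m, R i j l m = R i j m l) :
    ∃ Φ : MvPolynomial K k →ₗ[k] k,
      (∀ i j l m : K, Φ (X i * X j * X l * X m) = R i j l m) ∧ Hom4 Φ := by
  let G : Multiset K → k := PHIaux.onMul R r1 r2 r3
  let Φ : MvPolynomial K k →ₗ[k] k :=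
    (MvPolynomial.basisMonomials K k).constr k fun m => G (Finsupp.toMultiset m)
  have hΦ : ∀ (m : K →₀ ℕ) (a : k), Φ (monomial m a) = a * G (Finsupp.toMultiset m) := by
    intro m a
    have h1 : Φ (monomial m 1) = G (Finsupp.toMultiset m) := by
      have h := (MvPolynomial.basisMonomials K k).constr_basis k
        (fun m => G (Finsupp.toMultiset m)) m
      rw [MvPolynomial.coe_basisMonomials] at h
      exact h
    have h2 : (monomial m a : MvPolynomial K k) = a • monomial m 1 := by
      rw [MvPolynomial.smul_monomial, smul_eq_mul, mul_one]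
    rw [h2, map_smul, h1, smul_eq_mul]
  refine ⟨Φ, ?_, ?_⟩
  · intro i j l m
    have h1 : (X i * X j * X l * X m : MvPolynomial K k) =
        monomial (Finsupp.single i 1 + Finsupp.single j 1 + Finsupp.single l 1 +
          Finsupp.single m 1) 1 := by
      simp only [MvPolynomial.X, MvPolynomial.monomial_mul, mul_one]
    rw [h1, hΦ, one_mul, PHIaux.toMul]
    rfl
  · intro d s hs hd
    rw [← MvPolynomial.support_sum_monomial_coeff s, map_sum]
    refine Finset.sum_eq_zero fun m hm => ?_
    rw [hΦ]
    have h1 : m.degree = d := by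
      by_contra h
      exact (MvPolynomial.mem_support_iff.1 hm) (hs.coeff_eq_zero h)
    have h2 : (Finsupp.toMultiset m).card ≠ 4 := by
      rw [Finsupp.card_toMultiset]
      intro h
      apply hd
      rw [← h1, ← h]
      rfl
    have h3 : G (Finsupp.toMultiset m) = 0 := PHIaux.onMul_ne _ _ _ _ _ h2
    rw [h3, mul_zero]

end Helper49.RC
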