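import Pool.Agent.Helper49.RC.Sec2

/-!
Project RC (MP_16b052_ag, characteristic two): reductions of the hypotheses of the criterion.
-/

set_option autoImplicit false

namespace Helper49.RC

open MvPolynomial Helper49.RA

universe u

section

variable {k : Type u} [Field k] {K : Type} [Fintype K] [DecidableEq K]

/-- The functionals `Φ` and `Φ (X b ∂_a)` are independent up to the Euler relation. -/
def Ind (Φ : MvPolynomial K k →ₗ[k] k) : Prop :=
  ∀ (β : k) (m : K → K → k),
    (∀ s : MvPolynomial K k, s.IsHomogeneous 4 →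
      β * Φ s + ∑ a, ∑ b, m a b * Φ (X b * pderiv a s) = 0) →
    β = 0 ∧ ∃ ε : k, ∀ a b, m a b = if a = b then ε else 0

/-- The solutions of the compatibility relations in degree five are the obvious ones. -/
def Cub (Φ : MvPolynomial K k →ₗ[k] k) : Prop :=
  ∀ (β : K → k) (g : K → K → K → k),
    (∀ (v v' : K) (t : MvPolynomial K k), t.IsHomogeneous 3 →
      β v * Φ (X v' * t) + ∑ a, ∑ b, g v a b * Φ (X b * pderiv a (X v' * t)) =
      β v' * Φ (X v * t) + ∑ a, ∑ b, g v' a b * Φ (X b * pderiv a (X v * t))) →
    ∃ ε : K → k, ∀ v a b, g v a b = (if b = v then β a else 0) + (if a = b then ε v else 0)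

/-- Every square of a variable is detected by a product of two variables which detects no other
square. -/
def Sq (Φ : MvPolynomial K k →ₗ[k] k) : Prop :=
  ∀ a, ∃ b c, ∀ a', Φ (X a' * X a' * X b * X c) = if a' = a then 1 else 0

/-- Degree four. -/
def Four (Φ : MvPolynomial K k →ₗ[k] k) : Prop :=
  ∀ G : MvPolynomial K k →ₗ[k] k, KillsSq Φ G →
    ∃ (β : k) (m : K → K → k), ∀ s : MvPolynomial K k, s.IsHomogeneous 4 →
      G s = β * Φ s + ∑ a, ∑ b, m a b * Φ (X b * pderiv a s)

/-- Degree three. -/
def Three (Φ : MvPolynomial K k →ₗ[k] k) : Prop :=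
  ∀ r : MvPolynomial K k, r.IsHomogeneous 3 → r ∈ annI Φ → (∀ i, pderiv i r ∈ annI Φ) → r = 0

omit [Fintype K] [DecidableEq K] in
theorem deg_one {m : K →₀ ℕ} (hm : m.degree = 1) : ∃ b, m = Finsupp.single b 1 := by
  obtain ⟨b, hb⟩ : ∃ b, m b ≠ 0 := by
    by_contra hcon
    push Not at hcon
    have : m = 0 := Finsupp.ext hcon
    rw [this, map_zero] at hm
    exact absurd hm (by norm_num)
  refine ⟨b, ?_⟩
  have hle : Finsupp.single b 1 ≤ m := by
    rw [Finsupp.single_le_iff]; omega
  have hs : Finsupp.single b 1 + (m - Finsupp.single b 1) = m := add_tsub_cancel_of_le hle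
  have h2 : (m - Finsupp.single b 1).degree = 0 := by
    have h3 := congrArg Finsupp.degree hs
    rw [map_add, Finsupp.degree_single, hm] at h3
    omega
  have h4 : m - Finsupp.single b 1 = 0 := (Finsupp.degree_eq_zero_iff _).1 h2
  rw [← hs, h4, add_zero]

theorem lin_eq (r : MvPolynomial K k) (hr : r.IsHomogeneous 1) :
    r = ∑ b, C (coeff (Finsupp.single b 1) r) * X b := by
  ext m
  rw [coeff_sum]
  simp only [coeff_C_mul]
  by_cases hm : m.degree = 1
  · obtain ⟨b, rfl⟩ := deg_one hm
    rw [Finset.sum_eq_single b]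
    · rw [coeff_X, if_pos rfl, mul_one]
    · intro c _ hc
      rw [coeff_X, if_neg, mul_zero]
      intro h
      exact hc (Finsupp.single_left_injective one_ne_zero h)
    · intro h; exact absurd (Finset.mem_univ _) h
  · rw [hr.coeff_eq_zero hm]
    symm
    refine Finset.sum_eq_zero fun b _ => ?_
    rw [coeff_X, if_neg, mul_zero]
    intro h
    apply hm
    rw [← h, Finsupp.degree_single]

/-- Degree one from the independence. -/
theorem h1_of_ind (hK : 2 ≤ Fintype.card K) {Φ : MvPolynomial K k →ₗ[k] k} (hI : Ind Φ)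
    (r : MvPolynomial K k) (hr : r.IsHomogeneous 1) (hrI : r ∈ annI Φ) : r = 0 := by
  have hlin := lin_eq r hr
  have hpair : ∀ a0 : K, ∃ a1 : K, a1 ≠ a0 := by
    intro a0
    have : Nontrivial K := Fintype.one_lt_card_iff_nontrivial.1 (by omega)
    exact exists_ne a0
  have key : ∀ b, coeff (Finsupp.single b 1) r = 0 := by
    intro b
    obtain ⟨a0, ha0⟩ := hpair b
    obtain ⟨-, ε, hε⟩ := hI 0 (fun a c => if a = a0 then coeff (Finsupp.single c 1) r else 0) (by
      intro s _
      rw [zero_mul, zero_add, Finset.sum_eq_single a0]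
      · simp only [if_true]
        have h1 : ∑ c, coeff (Finsupp.single c 1) r * Φ (X c * pderiv a0 s) =
            Φ (r * pderiv a0 s) := by
          conv_rhs => rw [hlin]
          rw [Finset.sum_mul, map_sum]
          refine Finset.sum_congr rfl fun c _ => ?_
          rw [mul_assoc, ← smul_eq_C_mul, map_smul, smul_eq_mul]
        rw [h1]
        exact hrI _
      · intro a _ ha
        refine Finset.sum_eq_zero fun c _ => ?_
        rw [if_neg ha, zero_mul]
      · intro h; exact absurd (Finset.mem_univ _) h)
    have h2 := hε a0 b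
    rw [if_pos rfl, if_neg ha0] at h2
    exact h2
  rw [hlin]
  refine Finset.sum_eq_zero fun b _ => ?_
  rw [key b, C_0, zero_mul]

omit [Fintype K] [DecidableEq K] in
theorem kills_mul {Φ G : MvPolynomial K k →ₗ[k] k} (hG : KillsSq Φ G) (v : K) :
    KillsSq Φ (G ∘ₗ LinearMap.mulLeft k (X v : MvPolynomial K k)) := by
  intro s hs
  exact hG _ (Ideal.mul_mem_left _ _ hs)

omit [Fintype K] in
theorem pd_mul_X (i v : K) (s : MvPolynomial K k) :
    pderiv i (X v * s) = (if v = i then s else 0) + X v * pderiv i s := by
  rw [pderiv_mul, pderiv_X]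
  by_cases h : v = i
  · subst h; rw [Pi.single_eq_same, one_mul, if_pos rfl]
  · rw [Pi.single_eq_of_ne h, zero_mul, if_neg h]

/-- Degree six from degree five and the independence. -/
theorem h6_of (hK : 3 ≤ Fintype.card K) {Φ : MvPolynomial K k →ₗ[k] k} (hI : Ind Φ)
    (h5 : ∀ G : MvPolynomial K k →ₗ[k] k, KillsSq Φ G →
      ∃ l : K → k, ∀ s : MvPolynomial K k, s.IsHomogeneous 5 →
        G s = ∑ i, l i * Φ (pderiv i s)) :
    ∀ G : MvPolynomial K k →ₗ[k] k, KillsSq Φ G →
      ∀ s : MvPolynomial K k, s.IsHomogeneous 6 → G s = 0 := by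
  intro G hG s hs
  have h7 : ∀ v, ∃ l : K → k, ∀ s : MvPolynomial K k, s.IsHomogeneous 5 →
      G (X v * s) = ∑ i, l i * Φ (pderiv i s) := fun v => h5 _ (kills_mul hG v)
  choose l hl using h7
  have hrel : ∀ v v' : K, v ≠ v' → ∀ a, l v a = 0 := by
    intro v v' hne a
    obtain ⟨-, ε, hε⟩ := hI (l v v' - l v' v)
      (fun a b => (if b = v' then l v a else 0) - (if b = v then l v' a else 0)) (by
        intro t ht
        have e1 := hl v (X v' * t) ((isHomogeneous_X k v').mul ht)
        have e2 := hl v' (X v * t) ((isHomogeneous_X k v).mul ht)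
        have e3 : (X v * (X v' * t) : MvPolynomial K k) = X v' * (X v * t) := by ring
        rw [e3, e2] at e1
        have e4 : ∀ v v' : K, ∑ i, l v i * Φ (pderiv i (X v' * t)) =
            l v v' * Φ t + ∑ i, l v i * Φ (X v' * pderiv i t) := by
          intro v v'
          have : ∀ i, l v i * Φ (pderiv i (X v' * t)) =
              (if i = v' then l v v' * Φ t else 0) + l v i * Φ (X v' * pderiv i t) := by
            intro i
            rw [pd_mul_X, map_add, mul_add]
            congr 1
            by_cases h : i = v'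
            · subst h; rw [if_pos rfl, if_pos rfl]
            · rw [if_neg h, if_neg (Ne.symm h), map_zero, mul_zero]
          rw [Finset.sum_congr rfl fun i _ => this i, Finset.sum_add_distrib,
            Finset.sum_ite_eq' Finset.univ v', if_pos (Finset.mem_univ _)]
        rw [e4, e4] at e1
        have e5 : ∑ a, ∑ b, ((if b = v' then l v a else 0) - (if b = v then l v' a else 0)) *
            Φ (X b * pderiv a t) =
            ∑ i, l v i * Φ (X v' * pderiv i t) - ∑ i, l v' i * Φ (X v * pderiv i t) := by
          rw [← Finset.sum_sub_distrib]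
          refine Finset.sum_congr rfl fun i _ => ?_
          simp only [sub_mul, Finset.sum_sub_distrib, ite_mul, zero_mul]
          rw [Finset.sum_ite_eq' Finset.univ v', if_pos (Finset.mem_univ _),
            Finset.sum_ite_eq' Finset.univ v, if_pos (Finset.mem_univ _)]
        rw [e5]
        linear_combination - e1)
    -- a third index
    obtain ⟨c, hc1, hc2⟩ : ∃ c, c ≠ v ∧ c ≠ v' := by
      by_contra hcon
      push Not at hcon
      have hsub : (Finset.univ : Finset K) ⊆ {v, v'} := by
        intro c _
        rw [Finset.mem_insert, Finset.mem_singleton]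
        by_cases h : c = v
        · exact Or.inl h
        · exact Or.inr (hcon c h)
      have h8 := Finset.card_le_card hsub
      rw [Finset.card_univ] at h8
      have h9 : ({v, v'} : Finset K).card ≤ 2 := Finset.card_le_two
      omega
    have hε0 : ε = 0 := by
      have := hε c c
      rw [if_neg hc2, if_neg hc1, if_pos rfl, sub_zero] at this
      exact this.symm
    have h10 := hε a v'
    rw [if_pos rfl, if_neg hne.symm, sub_zero, hε0] at h10
    rw [h10]
    split_ifs <;> rfl
  have hl0 : ∀ v a, l v a = 0 := by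
    intro v a
    have : Nontrivial K := Fintype.one_lt_card_iff_nontrivial.1 (by omega)
    obtain ⟨v', hv'⟩ := exists_ne v
    exact hrel v v' hv'.symm a
  have hW : s ∈ LinearMap.ker G := by
    refine gen k K (LinearMap.ker G) 5 ?_ s hs
    intro y t ht
    rw [LinearMap.mem_ker, hl y t ht]
    exact Finset.sum_eq_zero fun i _ => by rw [hl0, zero_mul]
  exact hW

/-- Degree five from degree four and the compatibility relations. -/
theorem h5_of (h2 : (2 : k) = 0) {Φ : MvPolynomial K k →ₗ[k] k} (h4 : Four Φ) (hC : Cub Φ) :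
    ∀ G : MvPolynomial K k →ₗ[k] k, KillsSq Φ G →
      ∃ l : K → k, ∀ s : MvPolynomial K k, s.IsHomogeneous 5 →
        G s = ∑ i, l i * Φ (pderiv i s) := by
  intro G hG
  have h7 : ∀ v, ∃ (β : k) (m : K → K → k), ∀ s : MvPolynomial K k, s.IsHomogeneous 4 →
      G (X v * s) = β * Φ s + ∑ a, ∑ b, m a b * Φ (X b * pderiv a s) :=
    fun v => h4 _ (kills_mul hG v)
  choose β g hg using h7
  obtain ⟨ε, hε⟩ := hC β g (by
    intro v v' t ht
    rw [← hg v _ ((isHomogeneous_X k v').mul ht), ← hg v' _ ((isHomogeneous_X k v).mul ht)]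
    congr 1
    ring)
  refine ⟨β, ?_⟩
  have hmain : ∀ v : K, ∀ s : MvPolynomial K k, s.IsHomogeneous 4 →
      G (X v * s) = ∑ i, β i * Φ (pderiv i (X v * s)) := by
    intro v s hs
    rw [hg v s hs]
    have e1 : ∑ a, ∑ b, g v a b * Φ (X b * pderiv a s) =
        ∑ a, β a * Φ (X v * pderiv a s) + ε v * ∑ a, Φ (X a * pderiv a s) := by
      rw [Finset.mul_sum, ← Finset.sum_add_distrib]
      refine Finset.sum_congr rfl fun a _ => ?_
      have : ∀ b, g v a b * Φ (X b * pderiv a s) =
          (if b = v then β a * Φ (X v * pderiv a s) else 0) +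
          (if a = b then ε v * Φ (X a * pderiv a s) else 0) := by
        intro b
        rw [hε v a b, add_mul]
        congr 1
        · by_cases h : b = v
          · subst h; rw [if_pos rfl, if_pos rfl]
          · rw [if_neg h, if_neg h, zero_mul]
        · by_cases h : a = b
          · subst h; rw [if_pos rfl, if_pos rfl]
          · rw [if_neg h, if_neg h, zero_mul]
      rw [Finset.sum_congr rfl fun b _ => this b, Finset.sum_add_distrib,
        Finset.sum_ite_eq' Finset.univ v, if_pos (Finset.mem_univ _),
        Finset.sum_ite_eq Finset.univ a, if_pos (Finset.mem_univ _)]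
    have e2 : ∑ a, Φ (X a * pderiv a s) = 0 := by
      rw [← map_sum, hs.sum_X_mul_pderiv]
      have : (4 • s : MvPolynomial K k) = (2 : k) • (2 • s) := by
        rw [← Nat.cast_smul_eq_nsmul k 4, ← Nat.cast_smul_eq_nsmul k 2, smul_smul]
        norm_num
      rw [this, h2, zero_smul, map_zero]
    rw [e1, e2, mul_zero, add_zero]
    have e3 : ∀ i, β i * Φ (pderiv i (X v * s)) =
        (if i = v then β v * Φ s else 0) + β i * Φ (X v * pderiv i s) := by
      intro i
      rw [pd_mul_X, map_add, mul_add]
      congr 1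
      by_cases h : i = v
      · subst h; rw [if_pos rfl, if_pos rfl]
      · rw [if_neg h, if_neg (Ne.symm h), map_zero, mul_zero]
    rw [Finset.sum_congr rfl fun i _ => e3 i, Finset.sum_add_distrib,
      Finset.sum_ite_eq' Finset.univ v, if_pos (Finset.mem_univ _)]
  intro s hs
  let H : MvPolynomial K k →ₗ[k] k :=
    G - ∑ i, β i • (Φ ∘ₗ (pderiv i : Derivation k (MvPolynomial K k) (MvPolynomial K k)).toLinearMap)
  have hH : ∀ r, H r = G r - ∑ i, β i * Φ (pderiv i r) := by
    intro r
    show (G - ∑ i, β i • (Φ ∘ₗ (pderiv i :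
      Derivation k (MvPolynomial K k) (MvPolynomial K k)).toLinearMap)) r = _
    rw [LinearMap.sub_apply, LinearMap.sum_apply]
    rfl
  have hW : s ∈ LinearMap.ker H := by
    refine gen k K (LinearMap.ker H) 4 ?_ s hs
    intro y t ht
    rw [LinearMap.mem_ker, hH, hmain y t ht, sub_self]
  rw [LinearMap.mem_ker, hH] at hW
  exact sub_eq_zero.1 hW

/-- Degree two. -/
theorem h2_of {Φ : MvPolynomial K k →ₗ[k] k} (hS : Sq Φ)
    (r : MvPolynomial K k) (hr : r.IsHomogeneous 2) (hrI : r ∈ annI Φ)
    (hd : ∀ i, pderiv i r = 0) : r = 0 := by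
  have hsq : r = ∑ a, C (coeff (Finsupp.single a 2) r) * (X a * X a) := by
    ext m
    rw [coeff_sum]
    have hX : ∀ a : K, (X a * X a : MvPolynomial K k) = monomial (Finsupp.single a 2) 1 := by
      intro a
      rw [X, monomial_mul, mul_one, ← Finsupp.single_add]
    simp only [coeff_C_mul, hX, coeff_monomial]
    by_cases hm : ∃ a, m = Finsupp.single a 2
    · obtain ⟨a, rfl⟩ := hm
      rw [Finset.sum_eq_single a]
      · rw [if_pos rfl, mul_one]
      · intro c _ hc
        rw [if_neg, mul_zero]
        intro h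
        exact hc (Finsupp.single_left_injective two_ne_zero h)
      · intro h; exact absurd (Finset.mem_univ _) h
    · rw [Finset.sum_eq_zero]
      · by_cases hdeg : m.degree = 2
        · -- some exponent is one
          obtain ⟨a, ha⟩ : ∃ a, m a ≠ 0 := by
            by_contra hcon
            push Not at hcon
            have : m = 0 := Finsupp.ext hcon
            rw [this, map_zero] at hdeg
            exact absurd hdeg (by norm_num)
          have hle : Finsupp.single a 1 ≤ m := by rw [Finsupp.single_le_iff]; omega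
          have hs : Finsupp.single a 1 + (m - Finsupp.single a 1) = m := add_tsub_cancel_of_le hle
          have h3 : (m - Finsupp.single a 1).degree = 1 := by
            have h4 := congrArg Finsupp.degree hs
            rw [map_add, Finsupp.degree_single, hdeg] at h4
            omega
          obtain ⟨b, hb⟩ := deg_one h3
          rw [hb] at hs
          have hab : a ≠ b := by
            rintro rfl
            apply hm
            refine ⟨a, ?_⟩
            rw [← hs, ← Finsupp.single_add]
          have h5 := coeff_pderiv (i := a) r (Finsupp.single b 1)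
          rw [hd a, coeff_zero, Finsupp.single_eq_of_ne (Ne.symm hab).symm] at h5
          rw [← hs, add_comm]
          rw [Nat.cast_zero, zero_add, mul_one] at h5
          exact h5.symm
        · exact hr.coeff_eq_zero hdeg
      · intro c _
        rw [if_neg, mul_zero]
        intro h
        exact hm ⟨c, h.symm⟩
  have key : ∀ a, coeff (Finsupp.single a 2) r = 0 := by
    intro a
    obtain ⟨b, c, hbc⟩ := hS a
    have h1 := hrI (X b * X c)
    rw [hsq, Finset.sum_mul, map_sum] at h1
    have h3 : ∀ a', Φ (C (coeff (Finsupp.single a' 2) r) * (X a' * X a') * (X b * X c)) =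
        if a' = a then coeff (Finsupp.single a 2) r else 0 := by
      intro a'
      have : (C (coeff (Finsupp.single a' 2) r) * (X a' * X a') * (X b * X c) :
          MvPolynomial K k) = (coeff (Finsupp.single a' 2) r) • (X a' * X a' * X b * X c) := by
        rw [smul_eq_C_mul]; ring
      rw [this, map_smul, hbc, smul_eq_mul]
      by_cases h : a' = a
      · subst h; rw [if_pos rfl, if_pos rfl, mul_one]
      · rw [if_neg h, if_neg h, mul_zero]
    rw [Finset.sum_congr rfl fun a' _ => h3 a', Finset.sum_ite_eq' Finset.univ a,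
      if_pos (Finset.mem_univ _)] at h1
    exact h1
  rw [hsq]
  refine Finset.sum_eq_zero fun a _ => ?_
  rw [key a, C_0, zero_mul]

/-- **The criterion in characteristic two.** -/
theorem sec3 (h2 : (2 : k) = 0) (hK : 3 ≤ Fintype.card K) (Φ : MvPolynomial K k →ₗ[k] k)
    (hΦ : Hom4 Φ) (hS : Sq Φ) (h3 : Three Φ) (h4 : Four Φ) (hC : Cub Φ) (hI : Ind Φ) :
    SecondPower Φ := by
  have : Nonempty K := Fintype.card_pos_iff.1 (by omega)
  have h5 := h5_of h2 h4 hC
  exact sec2 k K Φ hΦ (fun r hr hrI => h1_of_ind (by omega) hI r hr hrI)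
    (fun r hr hrI hd => h2_of hS r hr hrI hd) h3 h4 h5 (h6_of hK hI h5)

/-- The functional is not zero. -/
theorem ne_zero_of_ind {Φ : MvPolynomial K k →ₗ[k] k} (hI : Ind Φ) :
    Φ ≠ 0 := by
  intro h
  obtain ⟨h1, -⟩ := hI 1 (fun _ _ => 0) (by
    intro s _
    rw [h]
    simp)
  exact one_ne_zero h1

end

end Helper49.RC
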