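import Pool.Agent.Helper20.RC.RqOf2
import Pool.Agent.Helper49.RC.Final

/-!
# Project RC, SHARP: the last line

Near certificates and a far lemma give the full answer: the maximum of the covering densities of the planar
convex bodies is `2π/√27`.

`Near b z` is the near region (its complement: far lemma). `Z x y` is zone I, a condition on `x = |A|`, `y = |B|`
(`A = fc z (-3)`, `B = fc z (-5)`).
Zone I is needed only for `A ≥ 0` (real), `B` complex; the rest of the near region in the two sectors of `rq_sym2`.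
-/

open MeasureTheory Set

namespace Helper49.RC

open Helper97.CB Pool.Agent.Helper20.RC Helper49.Sharp Helper44.GQ
open Helper56.RC (fc)
open Pool.Agent.Helper20.RC (StFarN)

/-- there is a certificate for `(b, z)` -/
def CertS (b z : ℝ → ℂ) : Prop := ∃ P : Par, P.Good b z ∧ 0 ≤ P.EP b z

/-- ZONE I: `A = |A|`, `Z |A| |B|` -/
def StZI (Near : (ℝ → ℂ) → (ℝ → ℂ) → Prop) (Z : ℝ → ℝ → Prop) : Prop := ∀ b z : ℝ → ℂ, AdmQ 2 b z → Near b z →
  fc z (-3) = (‖fc z (-3)‖ : ℂ) → Z ‖fc z (-3)‖ ‖fc z (-5)‖ → CertS b z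

/-- ZONE II, sector 1 -/
def StZII1 (Near : (ℝ → ℂ) → (ℝ → ℂ) → Prop) (Z : ℝ → ℝ → Prop) : Prop := ∀ b z : ℝ → ℂ, AdmQ 2 b z → Near b z →
  Sec1 z → ¬ Z ‖fc z (-3)‖ ‖fc z (-5)‖ → CertS b z

/-- ZONE II, sector 2 -/
def StZII2 (Near : (ℝ → ℂ) → (ℝ → ℂ) → Prop) (Z : ℝ → ℝ → Prop) : Prop := ∀ b z : ℝ → ℂ, AdmQ 2 b z → Near b z →
  Sec2 z → ¬ Z ‖fc z (-3)‖ ‖fc z (-5)‖ → CertS b z

/-- **the end, zone I only for `A ≥ 0`** -/
theorem rq_zones3 (Near : (ℝ → ℂ) → (ℝ → ℂ) → Prop) (Z : ℝ → ℝ → Prop) (hF : StFarN Near) (h1 : StZI Near Z)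
    (h2 : StZII1 Near Z) (h3 : StZII2 Near Z) : Rq 2 1 := by
  have far : ∀ b z : ℝ → ℂ, AdmQ 2 b z → ¬ Near b z → Goal 2 1 b z := fun b z h hn =>
    ⟨wR 0 0 0, wR_wgt (by simp), hF b z h hn⟩
  have cert : ∀ b z : ℝ → ℂ, AdmQ 2 b z → CertS b z → Goal 2 1 b z := fun b z h hc => goal_of_par h hc
  -- zone I for every rotation
  have z1 : ∀ b z : ℝ → ℂ, AdmQ 2 b z → Z ‖fc z (-3)‖ ‖fc z (-5)‖ → Goal 2 1 b z := by
    intro b z h hz
    have z2 := per2 h.perz
    obtain ⟨τ, hτ⟩ := Pool.Agent.Helper35.RC.exists_rot (fc z (-3)) (-3) (by norm_num)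
    apply goal_shift h τ
    have h' := Pool.Agent.Helper35.RC.admQ_shift h τ
    by_cases hn : Near (fun t => b (t + τ)) (fun t => z (t + τ))
    · refine cert _ _ h' (h1 _ _ h' hn ?_ ?_)
      · show fc (fun t => z (t + τ)) (-3) = (‖fc (fun t => z (t + τ)) (-3)‖ : ℂ)
        rw [norm_fcshift z2, fcshift z2, hτ]
      · show Z ‖fc (fun t => z (t + τ)) (-3)‖ ‖fc (fun t => z (t + τ)) (-5)‖
        rw [norm_fcshift z2, norm_fcshift z2]
        exact hz
    · exact far _ _ h' hn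
  refine rq_sym2 (by norm_num) 2 ?_ ?_
  · intro b z h hr hA i1 i2
    by_cases hz : Z ‖fc z (-3)‖ ‖fc z (-5)‖
    · exact z1 b z h hz
    by_cases hn : Near b z
    · exact cert b z h (h2 b z h hn ⟨hr, hA, i1, i2⟩ hz)
    · exact far b z h hn
  · intro b z h hr hB i1 i2
    by_cases hz : Z ‖fc z (-3)‖ ‖fc z (-5)‖
    · exact z1 b z h hz
    by_cases hn : Near b z
    · exact cert b z h (h3 b z h hn ⟨hr, hB, i1, i2⟩ hz)
    · exact far b z h hn

/-- the full answer from near certificates in the two sectors and a far lemma -/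
theorem sharp_of (Near : (ℝ → ℂ) → (ℝ → ℂ) → Prop) (hF : StFarN Near) (h1 : StNear1 Near) (h2 : StNear2 Near) :
    IsGreatest {d | ∃ K : Set ℂ, IsBody K ∧ d = theta K}
      (ENNReal.ofReal (2 * Real.pi / Real.sqrt 27)) :=
  full_of 2 (by norm_num) (rq_of2 Near hF h1 h2)

/-- **the last line**: the full answer from zone I (for `A ≥ 0`), zone II in the two sectors, and a far lemma -/
theorem sharp_zones (Near : (ℝ → ℂ) → (ℝ → ℂ) → Prop) (Z : ℝ → ℝ → Prop) (hF : StFarN Near) (h1 : StZI Near Z)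
    (h2 : StZII1 Near Z) (h3 : StZII2 Near Z) :
    IsGreatest {d | ∃ K : Set ℂ, IsBody K ∧ d = theta K}
      (ENNReal.ofReal (2 * Real.pi / Real.sqrt 27)) :=
  full_of 2 (by norm_num) (rq_zones3 Near Z hF h1 h2 h3)

end Helper49.RC
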