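import Pool.Agent.Helper49.RC.StSharp
import Pool.Agent.Helper20.RC.Sym

/-!
# Project RC, SHARP: the assembly over the zones

`N b z` is the near region; outside of it the far lemma is used. In the near region: zone I
(`|A| + (3/2) |B| ≤ 1/4`, normalised by `A ≥ 0`), zone II in the two normalisations of `rq_sym2` (`ρ = 2`):
`|B| ≤ 2 |A|`, `A ≥ 0`, `0 ≤ arg B ≤ π/3`, and `|B| > 2 |A|`, `B ≥ 0`, `0 ≤ arg A ≤ π/5`.
-/

open MeasureTheory Set Filter Metric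

namespace Helper49.Sharp

open Helper49.LT hiding sg
open Helper49.RC Helper44.GQ
open Helper56.RC (fc)
open Pool.Agent.Helper20.RC (wR Goal)

/-- `A = fc z (-3)`, `B = fc z (-5)` -/
noncomputable def cA (z : ℝ → ℂ) : ℂ := fc z (-3)
noncomputable def cB (z : ℝ → ℂ) : ℂ := fc z (-5)

/-- there is a certificate for `(b, z)` -/
def Cert (b z : ℝ → ℂ) : Prop := ∃ P : Par, P.Good b z ∧ 0 ≤ P.EP b z

/-- ZONE I -/
def StZ1 (N : (ℝ → ℂ) → (ℝ → ℂ) → Prop) : Prop := ∀ b z : ℝ → ℂ, AdmQ 2 b z → N b z →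
  cA z = (‖cA z‖ : ℂ) → ‖cA z‖ + 3 / 2 * ‖cB z‖ ≤ 1 / 4 → Cert b z

/-- ZONE II, `|B| ≤ 2 |A|` -/
def StZ2 (N : (ℝ → ℂ) → (ℝ → ℂ) → Prop) : Prop := ∀ b z : ℝ → ℂ, AdmQ 2 b z → N b z →
  1 / 4 < ‖cA z‖ + 3 / 2 * ‖cB z‖ → ‖cB z‖ ≤ 2 * ‖cA z‖ → cA z = (‖cA z‖ : ℂ) →
  0 ≤ (cB z).im → (cB z).im ≤ Real.sqrt 3 * (cB z).re → Cert b z

/-- ZONE II, `|B| > 2 |A|` -/
def StZ3 (N : (ℝ → ℂ) → (ℝ → ℂ) → Prop) : Prop := ∀ b z : ℝ → ℂ, AdmQ 2 b z → N b z →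
  1 / 4 < ‖cA z‖ + 3 / 2 * ‖cB z‖ → 2 * ‖cA z‖ < ‖cB z‖ → cB z = (‖cB z‖ : ℂ) →
  0 ≤ (cA z).im → (cA z).im ≤ 727 / 1000 * (cA z).re → Cert b z

/-- the far lemma outside of `N` -/
def StFarN (N : (ℝ → ℂ) → (ℝ → ℂ) → Prop) : Prop := ∀ b z : ℝ → ℂ, AdmQ 2 b z → ¬ N b z →
  9 * 1 * mQ (wR 0 0 0) b ^ 2 ≤ FMQ (wR 0 0 0) 2 b z

theorem goal_cert (hC : StComb) {b z : ℝ → ℂ} (h : AdmQ 2 b z) (hc : Cert b z) : Goal 2 1 b z := by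
  obtain ⟨P, hg, h0⟩ := hc
  have h1 := hC P b z h hg
  refine ⟨P.w, Pool.Agent.Helper20.RC.wR_wgt ?_, by linarith⟩
  have := hg.reg.eta
  simp only [norm_zero, add_zero]
  linarith

/-- THE ASSEMBLY OVER THE ZONES -/
theorem rq_zones {N : (ℝ → ℂ) → (ℝ → ℂ) → Prop} (hC : StComb) (hF : StFarN N) (h1 : StZ1 N) (h2 : StZ2 N)
    (h3 : StZ3 N) : Rq 2 1 := by
  have far : ∀ b z : ℝ → ℂ, AdmQ 2 b z → ¬ N b z → Goal 2 1 b z := fun b z h hn =>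
    ⟨wR 0 0 0, Pool.Agent.Helper20.RC.wR_wgt (by simp), hF b z h hn⟩
  -- zone I for every rotation
  have z1 : ∀ b z : ℝ → ℂ, AdmQ 2 b z → ‖cA z‖ + 3 / 2 * ‖cB z‖ ≤ 1 / 4 → Goal 2 1 b z := by
    intro b z h hz
    have z2 := Pool.Agent.Helper20.RC.per2 h.perz
    obtain ⟨τ, hτ⟩ := Pool.Agent.Helper35.RC.exists_rot (fc z (-3)) (-3) (by norm_num)
    apply Pool.Agent.Helper20.RC.goal_shift h τ
    have h' := Pool.Agent.Helper35.RC.admQ_shift h τ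
    by_cases hn : N (fun t => b (t + τ)) (fun t => z (t + τ))
    · refine goal_cert hC h' (h1 _ _ h' hn ?_ ?_)
      · show fc (fun t => z (t + τ)) (-3) = (‖fc (fun t => z (t + τ)) (-3)‖ : ℂ)
        rw [Pool.Agent.Helper20.RC.norm_fcshift z2, Pool.Agent.Helper20.RC.fcshift z2, hτ]
      · show ‖fc (fun t => z (t + τ)) (-3)‖ + 3 / 2 * ‖fc (fun t => z (t + τ)) (-5)‖ ≤ 1 / 4
        rw [Pool.Agent.Helper20.RC.norm_fcshift z2, Pool.Agent.Helper20.RC.norm_fcshift z2]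
        exact hz
    · exact far _ _ h' hn
  refine Pool.Agent.Helper20.RC.rq_sym2 (by norm_num) 2 ?_ ?_
  · intro b z h hr hA i1 i2
    by_cases hz : ‖cA z‖ + 3 / 2 * ‖cB z‖ ≤ 1 / 4
    · exact z1 b z h hz
    by_cases hn : N b z
    · exact goal_cert hC h (h2 b z h hn (lt_of_not_ge hz) hr hA i1 i2)
    · exact far b z h hn
  · intro b z h hr hB i1 i2
    by_cases hz : ‖cA z‖ + 3 / 2 * ‖cB z‖ ≤ 1 / 4
    · exact z1 b z h hz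
    by_cases hn : N b z
    · exact goal_cert hC h (h3 b z h hn (lt_of_not_ge hz) hr hB i1 i2)
    · exact far b z h hn

end Helper49.Sharp
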